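import Mathlib

set_option autoImplicit false

namespace Pool.Agent.Helper484.DT

open Set Metric Filter
open scoped Topology

/-- cross product (signed area form) of plane vectors -/
def cr (a b : ℂ) : ℝ := a.re * b.im - a.im * b.re

/-- dot product of plane vectors -/
def dt (a b : ℂ) : ℝ := a.re * b.re + a.im * b.im

/-- a tiling of the plane by convex compact sets `T i`, each containing a disk of radius `u`
and of diameter at most `U` -/
structure CT (ι : Type) (T : ι → Set ℂ) (u U : ℝ) : Prop where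
  upos : 0 < u
  conv : ∀ i, Convex ℝ (T i)
  comp : ∀ i, IsCompact (T i)
  ball : ∀ i, ∃ x, closedBall x u ⊆ T i
  diam : ∀ i, ∀ x ∈ T i, ∀ y ∈ T i, dist x y ≤ U
  cover : ∀ x, ∃ i, x ∈ T i
  disj : ∀ i j, i ≠ j → Disjoint (interior (T i)) (interior (T j))

/-- adjacent tiles: the intersection has more than one point -/
def Adj {ι : Type} (T : ι → Set ℂ) (i j : ι) : Prop := i ≠ j ∧ (T i ∩ T j).Nontrivial

/-- vertex of the tiling: a point in at least three tiles -/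
def IsV {ι : Type} (T : ι → Set ℂ) (x : ℂ) : Prop :=
  ∃ i j k, i ≠ j ∧ j ≠ k ∧ i ≠ k ∧ x ∈ T i ∧ x ∈ T j ∧ x ∈ T k

/-- `i` and `j` meet in the nondegenerate segment `[R, L]`; going from `i` to `j` the endpoint `L`
is on the left and `R` on the right -/
def Dart {ι : Type} (T : ι → Set ℂ) (i j : ι) (R L : ℂ) : Prop :=
  i ≠ j ∧ R ≠ L ∧ T i ∩ T j = segment ℝ R L ∧
    (∀ z ∈ T i, 0 ≤ cr (L - R) (z - R)) ∧ (∀ z ∈ T j, cr (L - R) (z - R) ≤ 0)

/-- the tiles `t 0, ..., t (n-1)` at the vertex `v` in counterclockwise order; `r k` is the other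
endpoint of the edge between `t k` and `t (k+1)` -/
structure Star {ι : Type} (T : ι → Set ℂ) (v : ℂ) (n : ℕ) (t : ℕ → ι) (r : ℕ → ℂ) : Prop where
  three : 3 ≤ n
  pert : ∀ k, t (k + n) = t k
  perr : ∀ k, r (k + n) = r k
  dart : ∀ k, Dart T (t k) (t (k + 1)) (r k) v
  inj : ∀ k l, k < n → l < n → t k = t l → k = l
  all : ∀ i, v ∈ T i ↔ ∃ k, k < n ∧ t k = i

/-- the neighbours `s 0, ..., s (n-1)` of the tile `i` in counterclockwise order; `s k` is across
the edge `[x k, x (k+1)]` -/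
structure Rim {ι : Type} (T : ι → Set ℂ) (i : ι) (n : ℕ) (s : ℕ → ι) (x : ℕ → ℂ) : Prop where
  three : 3 ≤ n
  pers : ∀ k, s (k + n) = s k
  perx : ∀ k, x (k + n) = x k
  dart : ∀ k, Dart T i (s k) (x k) (x (k + 1))
  injs : ∀ k l, k < n → l < n → s k = s l → k = l
  injx : ∀ k l, k < n → l < n → x k = x l → k = l
  alls : ∀ j, Adj T i j → ∃ k, k < n ∧ s k = j
  allx : ∀ v, IsV T v → v ∈ T i → ∃ k, k < n ∧ x k = v

/-- connectedness of a set of tiles through adjacent tiles of the set -/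
def ConnIn {ι : Type} (T : ι → Set ℂ) (S : Set ι) : Prop :=
  ∀ i ∈ S, ∀ j ∈ S, Relation.ReflTransGen (fun a b => Adj T a b ∧ a ∈ S ∧ b ∈ S) i j

/-- `p` is harmonic for some weights that are at least `l0` on all neighbours -/
def Harm {ι : Type} (N : ι → Finset ι) (l0 : ℝ) (p : ι → ℂ) : Prop :=
  ∀ i, ∃ w : ι → ℝ, (∀ j ∈ N i, l0 ≤ w j) ∧ ∑ j ∈ N i, w j = 1 ∧
    p i = ∑ j ∈ N i, (w j : ℂ) * p j

/-- the same for a real function -/
def HarmR {ι : Type} (N : ι → Finset ι) (l0 : ℝ) (f : ι → ℝ) : Prop :=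
  ∀ i, ∃ w : ι → ℝ, (∀ j ∈ N i, l0 ≤ w j) ∧ ∑ j ∈ N i, w j = 1 ∧
    f i = ∑ j ∈ N i, w j * f j

/-- a good position of the dual vertices -/
structure GoodP {ι : Type} (T : ι → Set ℂ) (p : ι → ℂ) (C δ α : ℝ) : Prop where
  Cpos : 0 < C
  δpos : 0 < δ
  αpos : 0 < α
  disp : ∀ i, ∀ x ∈ T i, dist (p i) x ≤ C
  hull : ∀ i, ∀ w : ℂ, ‖w‖ = 1 → ∃ j, Adj T i j ∧ δ ≤ dt w (p j - p i)
  gen : ∀ i j k, i ≠ j → j ≠ k → i ≠ k → dist (p i) (p j) ≤ 8 * C → dist (p i) (p k) ≤ 8 * C →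
    α ≤ |cr (p j - p i) (p k - p i)|

/-- a brick wall skeleton in the tiles: anchors `a j k`, horizontal paths `g j k false` of length
`m j k false` from `a j k` to `a j (k+1)`, vertical paths `g j k true` from `a j k` to `a (j+1) k`
when `j + k` is even; all of them pairwise disjoint except for the anchors -/
structure Skel {ι : Type} (T : ι → Set ℂ) (a : ℤ → ℤ → ι) (m : ℤ → ℤ → Bool → ℕ)
    (g : ℤ → ℤ → Bool → ℕ → ι) (L : ℕ) : Prop where
  mpos : ∀ j k b, 1 ≤ m j k b ∧ m j k b ≤ L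
  start : ∀ j k b, g j k b 0 = a j k
  endh : ∀ j k, g j k false (m j k false) = a j (k + 1)
  endv : ∀ j k, Even (j + k) → g j k true (m j k true) = a (j + 1) k
  adj : ∀ j k b s, (b = true → Even (j + k)) → s < m j k b → Adj T (g j k b s) (g j k b (s + 1))
  ainj : ∀ j k j' k', a j k = a j' k' → j = j' ∧ k = k'
  anchor : ∀ j k b s j' k', (b = true → Even (j + k)) → 0 < s → s < m j k b →
    g j k b s ≠ a j' k'
  inj : ∀ j k b s j' k' b' s', (b = true → Even (j + k)) → (b' = true → Even (j' + k')) →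
    0 < s → s < m j k b → 0 < s' → s' < m j' k' b' → g j k b s = g j' k' b' s' →
    j = j' ∧ k = k' ∧ b = b' ∧ s = s'

/-- the dual tile of `v`: the convex hull of the points `p i` of the tiles `T i` containing `v` -/
def Qd {ι : Type} (T : ι → Set ℂ) (p : ι → ℂ) (v : ℂ) : Set ℂ := convexHull ℝ (p '' {i | v ∈ T i})

/-- all dual polygons have the orientation `σ` -/
def Orient {ι : Type} (T : ι → Set ℂ) (p : ι → ℂ) (σ : ℝ) : Prop :=
  (σ = 1 ∨ σ = -1) ∧ ∀ (v : ℂ) (n : ℕ) (t : ℕ → ι) (r : ℕ → ℂ), Star T v n t r →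
    ∀ k l, t l ≠ t k → t l ≠ t (k + 1) →
      0 < σ * cr (p (t (k + 1)) - p (t k)) (p (t l) - p (t k))

/-- position on the line `{z | dt w z = c}` (parametrised by `s ↦ c * w + s * (I * w)`) of its
crossing point with the segment from `p i` to `p j` -/
noncomputable def cs {ι : Type} (p : ι → ℂ) (w : ℂ) (c : ℝ) (i j : ι) : ℝ :=
  cr w (p i + (((c - dt w (p i)) / (dt w (p j) - dt w (p i)) : ℝ) : ℂ) * (p j - p i))

/-- a vertex of the family of tiles `F`: a point lying in at least three tiles -/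
def IsVertex (F : Set (Set ℂ)) (x : ℂ) : Prop :=
  ∃ a ∈ F, ∃ b ∈ F, ∃ c ∈ F, a ≠ b ∧ b ≠ c ∧ a ≠ c ∧ x ∈ a ∧ x ∈ b ∧ x ∈ c

/-- an edge of `F`: one of the closed arcs into which the vertices divide the tile boundaries, that
is, the closure of a connected component of the boundary of a tile minus the vertices -/
def IsEdge (F : Set (Set ℂ)) (e : Set ℂ) : Prop :=
  ∃ a ∈ F, ∃ x ∈ frontier a, ¬ IsVertex F x ∧
    e = closure (connectedComponentIn (frontier a \ {y | IsVertex F y}) x)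

/-- a normal tiling of the plane -/
structure NormalTiling (F : Set (Set ℂ)) : Prop where
  countable : F.Countable
  closed : ∀ a ∈ F, IsClosed a
  cover : ⋃₀ F = univ
  disj : ∀ a ∈ F, ∀ b ∈ F, a ≠ b → Disjoint (interior a) (interior b)
  disk : ∀ a ∈ F, Nonempty (a ≃ₜ closedBall (0 : ℂ) 1)
  conn : ∀ a ∈ F, ∀ b ∈ F, a ∩ b = ∅ ∨ IsConnected (a ∩ b)
  bdd : ∃ u U : ℝ, 0 < u ∧ ∀ a ∈ F, (∃ x, closedBall x u ⊆ a) ∧ ∃ x, a ⊆ closedBall x U

/-- the elements of `F`: tiles, edges, and vertices (as one-point sets) -/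
def elements (F : Set (Set ℂ)) : Set (Set ℂ) :=
  F ∪ {e | IsEdge F e} ∪ {s | ∃ x, IsVertex F x ∧ s = {x}}

/-- `F` and `G` are dual: there is an inclusion reversing bijection between their elements -/
def IsDual (F G : Set (Set ℂ)) : Prop :=
  ∃ Ψ : elements F ≃ elements G, ∀ a b : elements F,
    (Ψ b : Set ℂ) ⊆ (Ψ a : Set ℂ) ↔ (a : Set ℂ) ⊆ (b : Set ℂ)

end Pool.Agent.Helper484.DT
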