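import Pool.Agent.Helper484.DT.Defs

set_option autoImplicit false

namespace Pool.Agent.Helper484.DT
open Set Metric Filter
open scoped Topology


theorem locfin {ι : Type} {T : ι → Set ℂ} {u U : ℝ} (h : CT ι T u U) (r : ℝ) :
    ∃ K : ℕ, ∀ x : ℂ, {i | (T i ∩ closedBall x r).Nonempty}.Finite ∧
      {i | (T i ∩ closedBall x r).Nonempty}.ncard ≤ K := by
  classical
  have hu := h.upos
  choose c hc using h.ball
  set R : ℝ := |r| + |U| + u with hR
  have hR0 : 0 ≤ R := by positivity
  have hint : ∀ i, ball (c i) u ⊆ interior (T i) := fun i =>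
    interior_maximal (ball_subset_closedBall.trans (hc i)) isOpen_ball
  have hdisj : ∀ i j, i ≠ j → Disjoint (ball (c i) u) (ball (c j) u) := fun i j hij =>
    (h.disj i j hij).mono (hint i) (hint j)
  have hcT : ∀ i, c i ∈ T i := fun i => hc i (mem_closedBall_self hu.le)
  have key : ∀ (x : ℂ) (s : Finset ι), (↑s ⊆ {i | (T i ∩ closedBall x r).Nonempty}) →
      (s.card : ℝ) ≤ R ^ 2 / u ^ 2 := by
    intro x s hs
    have hsub : (⋃ i ∈ s, ball (c i) u) ⊆ closedBall x R := by
      intro z hz
      simp only [Set.mem_iUnion] at hz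
      obtain ⟨i, hi, hz⟩ := hz
      obtain ⟨y, hy1, hy2⟩ := hs hi
      have h1 := h.diam i (c i) (hcT i) y hy1
      rw [mem_ball] at hz
      rw [mem_closedBall] at hy2 ⊢
      have h2 := dist_triangle z (c i) x
      have h3 := dist_triangle (c i) y x
      have h4 := le_abs_self r
      have h5 := le_abs_self U
      linarith
    have hm := MeasureTheory.measure_mono (μ := MeasureTheory.volume) hsub
    rw [MeasureTheory.measure_biUnion_finset (fun i _ j _ hij => hdisj i j hij)
      (fun i _ => measurableSet_ball)] at hm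
    simp only [Complex.volume_ball, Complex.volume_closedBall, Finset.sum_const, nsmul_eq_mul] at hm
    have hm2 := ENNReal.toReal_mono (by
      apply ENNReal.mul_ne_top
      · exact ENNReal.pow_ne_top ENNReal.ofReal_ne_top
      · exact ENNReal.coe_ne_top) hm
    simp only [ENNReal.toReal_mul, ENNReal.toReal_pow, ENNReal.toReal_natCast,
      ENNReal.toReal_ofReal hu.le, ENNReal.toReal_ofReal hR0, ENNReal.coe_toReal, NNReal.coe_real_pi] at hm2
    have hpi := Real.pi_pos
    rw [le_div_iff₀ (by positivity)]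
    have h6 : (s.card : ℝ) * u ^ 2 * Real.pi ≤ R ^ 2 * Real.pi := by linarith
    exact le_of_mul_le_mul_right h6 hpi
  refine ⟨⌈R ^ 2 / u ^ 2⌉₊, fun x => ?_⟩
  have hfin : {i | (T i ∩ closedBall x r).Nonempty}.Finite := by
    by_contra hinf
    obtain ⟨t, ht, htc⟩ := Set.Infinite.exists_subset_card_eq hinf (⌈R ^ 2 / u ^ 2⌉₊ + 1)
    have h1 := key x t ht
    have h2 := Nat.le_ceil (R ^ 2 / u ^ 2)
    rw [htc] at h1
    push_cast at h1
    linarith
  refine ⟨hfin, ?_⟩
  rw [Set.ncard_eq_toFinset_card _ hfin]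
  have h1 := key x hfin.toFinset (by simp)
  have h2 := Nat.le_ceil (R ^ 2 / u ^ 2)
  exact_mod_cast h1.trans h2

end Pool.Agent.Helper484.DT
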