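import Pool.Agent.Helper484.DT.Defs

set_option autoImplicit false

namespace Pool.Agent.Helper484.DT
open Set Metric Filter
open scoped Topology


theorem sepline {ι : Type} {T : ι → Set ℂ} {u U : ℝ} (h : CT ι T u U) (i j : ι) (hij : i ≠ j) :
    ∃ w : ℂ, w ≠ 0 ∧ ∃ c : ℝ, (∀ z ∈ T i, c ≤ dt w z) ∧ (∀ z ∈ T j, dt w z ≤ c) := by
  have hne : ∀ k, (interior (T k)).Nonempty := by
    intro k
    obtain ⟨x, hx⟩ := h.ball k
    exact ⟨x, mem_interior.mpr ⟨Metric.ball x u, (Metric.ball_subset_closedBall.trans hx),
      Metric.isOpen_ball, Metric.mem_ball_self h.upos⟩⟩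
  have hcl : ∀ k, closure (interior (T k)) = T k := by
    intro k
    rw [(h.conv k).closure_interior_eq_closure_of_nonempty_interior (hne k)]
    exact (h.comp k).isClosed.closure_eq
  obtain ⟨f, c, hf1, hf2⟩ := geometric_hahn_banach_open_open (h.conv j).interior isOpen_interior
    (h.conv i).interior isOpen_interior (h.disj j i (Ne.symm hij))
  have hfz : ∀ z : ℂ, dt (⟨f 1, f Complex.I⟩ : ℂ) z = f z := by
    intro z
    have : z = z.re • (1 : ℂ) + z.im • Complex.I := by
      simp [Complex.real_smul, Complex.re_add_im]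
    conv_rhs => rw [this]
    rw [map_add, map_smul, map_smul]
    simp only [dt, smul_eq_mul]
    ring
  refine ⟨⟨f 1, f Complex.I⟩, ?_, c, ?_, ?_⟩
  · intro h0
    have hz : ∀ z : ℂ, f z = 0 := by
      intro z
      rw [← hfz z, h0]
      simp [dt]
    obtain ⟨a, ha⟩ := hne i
    obtain ⟨b, hb⟩ := hne j
    have h1 := hf1 b hb
    have h2 := hf2 a ha
    rw [hz] at h1 h2
    linarith
  · intro z hz
    rw [hfz]
    rw [← hcl i] at hz
    have : closure (interior (T i)) ⊆ {z | c ≤ f z} := by
      apply closure_minimal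
      · intro y hy
        exact (hf2 y hy).le
      · exact isClosed_le continuous_const f.continuous
    exact this hz
  · intro z hz
    rw [hfz]
    rw [← hcl j] at hz
    have : closure (interior (T j)) ⊆ {z | f z ≤ c} := by
      apply closure_minimal
      · intro y hy
        exact (hf1 y hy).le
      · exact isClosed_le f.continuous continuous_const
    exact this hz

end Pool.Agent.Helper484.DT
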