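import Pool.Agent.Helper484.DT.Defs
import Pool.Agent.Helper484.DT.P_sepline

set_option autoImplicit false

namespace Pool.Agent.Helper484.DT
open Set Metric Filter
open scoped Topology


theorem de_inj {w : ℂ} (hw : w ≠ 0) {a b : ℂ} (h1 : dt w a = dt w b) (h2 : cr w a = cr w b) :
    a = b := by
  have hn : 0 < w.re ^ 2 + w.im ^ 2 := by
    have h := Complex.normSq_pos.2 hw
    rw [Complex.normSq_apply] at h
    nlinarith
  unfold dt at h1
  unfold cr at h2
  apply Complex.ext
  · have h3 : (w.re ^ 2 + w.im ^ 2) * a.re = (w.re ^ 2 + w.im ^ 2) * b.re := by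
      linear_combination w.re * h1 - w.im * h2
    exact mul_left_cancel₀ hn.ne' h3
  · have h3 : (w.re ^ 2 + w.im ^ 2) * a.im = (w.re ^ 2 + w.im ^ 2) * b.im := by
      linear_combination w.im * h1 + w.re * h2
    exact mul_left_cancel₀ hn.ne' h3

theorem de_id (w a b : ℂ) : (w.re ^ 2 + w.im ^ 2) * cr a b = dt w a * cr w b - cr w a * dt w b := by
  unfold cr dt
  ring

theorem de_cr_sub (w a b : ℂ) : cr w (a - b) = cr w a - cr w b := by
  unfold cr
  rw [Complex.sub_re, Complex.sub_im]
  ring

theorem de_dt_sub (w a b : ℂ) : dt w (a - b) = dt w a - dt w b := by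
  unfold dt
  rw [Complex.sub_re, Complex.sub_im]
  ring

theorem de_cr_comb (w R L : ℂ) (a b : ℝ) : cr w (a • R + b • L) = a * cr w R + b * cr w L := by
  unfold cr
  simp only [Complex.add_re, Complex.add_im, Complex.smul_re, Complex.smul_im, smul_eq_mul]
  ring

theorem de_dt_comb (w R L : ℂ) (a b : ℝ) : dt w (a • R + b • L) = a * dt w R + b * dt w L := by
  unfold dt
  simp only [Complex.add_re, Complex.add_im, Complex.smul_re, Complex.smul_im, smul_eq_mul]
  ring

theorem de_cr_cont (w : ℂ) : Continuous (fun z : ℂ => cr w z) := by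
  unfold cr
  exact (continuous_const.mul Complex.continuous_im).sub
    (continuous_const.mul Complex.continuous_re)

theorem dart_exists {ι : Type} {T : ι → Set ℂ} {u U : ℝ} (h : CT ι T u U) (i j : ι)
    (hij : Adj T i j) : ∃ R L, Dart T i j R L := by
  obtain ⟨hne, hnt⟩ := hij
  obtain ⟨w, hw, c, hi, hj⟩ := sepline h i j hne
  have hn : 0 < w.re ^ 2 + w.im ^ 2 := by
    have h := Complex.normSq_pos.2 hw
    rw [Complex.normSq_apply] at h
    nlinarith
  have hK : IsCompact (T i ∩ T j) := (h.comp i).inter (h.comp j)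
  have hKc : Convex ℝ (T i ∩ T j) := (h.conv i).inter (h.conv j)
  have hd : ∀ z ∈ T i ∩ T j, dt w z = c := fun z hz => le_antisymm (hj z hz.2) (hi z hz.1)
  obtain ⟨R, hR, hRm⟩ := hK.exists_isMaxOn hnt.nonempty (de_cr_cont w).continuousOn
  obtain ⟨L, hL, hLm⟩ := hK.exists_isMinOn hnt.nonempty (de_cr_cont w).continuousOn
  have hRm' : ∀ z ∈ T i ∩ T j, cr w z ≤ cr w R := fun z hz => hRm hz
  have hLm' : ∀ z ∈ T i ∩ T j, cr w L ≤ cr w z := fun z hz => hLm hz
  have hlt : cr w L < cr w R := by
    rcases lt_or_eq_of_le (hRm' L hL) with h1 | h1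
    · exact h1
    · exfalso
      obtain ⟨x, hx, y, hy, hxy⟩ := hnt
      apply hxy
      refine de_inj hw ((hd x hx).trans (hd y hy).symm) ?_
      have a1 := hRm' x hx
      have a2 := hLm' x hx
      have a3 := hRm' y hy
      have a4 := hLm' y hy
      linarith
  refine ⟨R, L, hne, ?_, ?_, ?_, ?_⟩
  · intro he
    rw [he] at hlt
    exact lt_irrefl _ hlt
  · apply Subset.antisymm
    · intro z hz
      have hp : 0 < cr w R - cr w L := by linarith
      refine ⟨(cr w z - cr w L) / (cr w R - cr w L), (cr w R - cr w z) / (cr w R - cr w L),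
        div_nonneg (sub_nonneg.2 (hLm' z hz)) hp.le,
        div_nonneg (sub_nonneg.2 (hRm' z hz)) hp.le, ?_, ?_⟩
      · rw [← add_div, div_eq_one_iff_eq hp.ne']
        ring
      · refine de_inj hw ?_ ?_
        · rw [de_dt_comb, hd R hR, hd L hL, hd z hz, ← add_mul, ← add_div]
          rw [show cr w z - cr w L + (cr w R - cr w z) = cr w R - cr w L by ring,
            div_self hp.ne', one_mul]
        · rw [de_cr_comb]
          field_simp
          ring
    · exact hKc.segment_subset hR hL
  · intro z hz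
    have e := de_id w (L - R) (z - R)
    rw [de_dt_sub w L R, hd L hL, hd R hR, sub_self, zero_mul, zero_sub, de_cr_sub w L R,
      de_dt_sub w z R, hd R hR] at e
    have e1 : 0 ≤ (w.re ^ 2 + w.im ^ 2) * cr (L - R) (z - R) := by
      rw [e]
      have e2 : 0 ≤ (cr w R - cr w L) * (dt w z - c) :=
        mul_nonneg (by linarith) (by linarith [hi z hz])
      linarith
    exact nonneg_of_mul_nonneg_right e1 hn
  · intro z hz
    have e := de_id w (L - R) (z - R)
    rw [de_dt_sub w L R, hd L hL, hd R hR, sub_self, zero_mul, zero_sub, de_cr_sub w L R,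
      de_dt_sub w z R, hd R hR] at e
    by_contra hcon
    rw [not_le] at hcon
    have e1 : 0 < (w.re ^ 2 + w.im ^ 2) * cr (L - R) (z - R) := mul_pos hn hcon
    rw [e] at e1
    have e2 : 0 ≤ (cr w R - cr w L) * (c - dt w z) :=
      mul_nonneg (by linarith) (by linarith [hj z hz])
    linarith

end Pool.Agent.Helper484.DT
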