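import Pool.Agent.Helper484.DT.Defs

set_option autoImplicit false

namespace Pool.Agent.Helper484.DT
open Set Metric Filter
open scoped Topology


theorem dart_unique_seg {R L R' L' : ℂ} (hRL : R ≠ L) (h : segment ℝ R L = segment ℝ R' L') :
    (R = R' ∧ L = L') ∨ (R = L' ∧ L = R') := by
  have hR' : R' ∈ segment ℝ R L := by rw [h]; exact left_mem_segment ℝ R' L'
  have hL' : L' ∈ segment ℝ R L := by rw [h]; exact right_mem_segment ℝ R' L'
  have hR : R ∈ segment ℝ R' L' := by rw [← h]; exact left_mem_segment ℝ R L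
  have hL : L ∈ segment ℝ R' L' := by rw [← h]; exact right_mem_segment ℝ R L
  rw [segment_eq_image'] at hR' hL' hR hL
  obtain ⟨s, ⟨hs0, hs1⟩, hs⟩ := hR'
  obtain ⟨t, ⟨ht0, ht1⟩, ht⟩ := hL'
  obtain ⟨a, ⟨ha0, ha1⟩, ha⟩ := hR
  obtain ⟨b, ⟨hb0, hb1⟩, hb⟩ := hL
  simp only at hs ht ha hb
  have hd : L - R ≠ 0 := sub_ne_zero.2 hRL.symm
  have e1 : ((b - a) * (t - s)) • (L - R) = (1 : ℝ) • (L - R) := by
    have : L - R = (b - a) • (L' - R') := by
      rw [sub_smul]
      linear_combination (-1 : ℂ) * hb + ha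
    have h2 : L' - R' = (t - s) • (L - R) := by
      rw [sub_smul]
      linear_combination (-1 : ℂ) * ht + hs
    rw [mul_smul, ← h2, ← this, one_smul]
  have e2 : (b - a) * (t - s) = 1 := smul_left_injective ℝ hd e1
  rcases le_total s t with hst | hst
  · have : t - s = 1 := by nlinarith
    have ht' : t = 1 := by linarith
    have hs' : s = 0 := by linarith
    left
    rw [hs', zero_smul, add_zero] at hs
    rw [ht', one_smul] at ht
    exact ⟨hs, by rw [← ht]; ring⟩
  · have : s - t = 1 := by nlinarith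
    have ht' : t = 0 := by linarith
    have hs' : s = 1 := by linarith
    right
    rw [ht', zero_smul, add_zero] at ht
    rw [hs', one_smul] at hs
    exact ⟨ht, by rw [← hs]; ring⟩

theorem dart_unique {ι : Type} {T : ι → Set ℂ} {u U : ℝ} (h : CT ι T u U) {i j : ι}
    {R L R' L' : ℂ} (h1 : Dart T i j R L) (h2 : Dart T i j R' L') : R = R' ∧ L = L' := by
  obtain ⟨_, hRL, hseg, hi, _⟩ := h1
  obtain ⟨_, hRL', hseg', hi', _⟩ := h2
  rcases dart_unique_seg hRL (hseg.symm.trans hseg') with h3 | ⟨h3, h4⟩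
  · exact h3
  · exfalso
    subst h3
    subst h4
    have key : ∀ z ∈ T i, cr (L - R) (z - R) = 0 := by
      intro z hz
      have a1 := hi z hz
      have a2 := hi' z hz
      simp only [cr, Complex.sub_re, Complex.sub_im] at a1 a2 ⊢
      nlinarith
    obtain ⟨x, hx⟩ := h.ball i
    have hd : L - R ≠ 0 := sub_ne_zero.2 hRL.symm
    have hn : 0 < ‖L - R‖ := norm_pos_iff.2 hd
    have k1 := key x (hx (mem_closedBall_self h.upos.le))
    have k2 := key (x + ((u / ‖L - R‖ : ℝ) : ℂ) * (Complex.I * (L - R))) (hx (by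
      rw [mem_closedBall, dist_eq_norm, add_sub_cancel_left, norm_mul, norm_mul,
        Complex.norm_I, one_mul, Complex.norm_real, Real.norm_eq_abs,
        abs_of_nonneg (div_nonneg h.upos.le hn.le), div_mul_cancel₀ _ hn.ne']))
    have hsq : 0 < (L - R).re ^ 2 + (L - R).im ^ 2 := by
      have := Complex.normSq_pos.2 hd
      rw [Complex.normSq_apply] at this
      nlinarith
    have hc : 0 < u / ‖L - R‖ := div_pos h.upos hn
    simp only [cr, Complex.sub_re, Complex.sub_im, Complex.add_re, Complex.add_im, Complex.mul_re,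
      Complex.mul_im, Complex.ofReal_re, Complex.ofReal_im, Complex.I_re, Complex.I_im] at k1 k2 hsq
    have : (u / ‖L - R‖) * ((L.re - R.re) ^ 2 + (L.im - R.im) ^ 2) = 0 := by
      linear_combination k2 - k1
    exact absurd this (mul_pos hc hsq).ne'

end Pool.Agent.Helper484.DT
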