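import Pool.Agent.Helper484.DT.Defs

set_option autoImplicit false

namespace Pool.Agent.Helper484.DT
open Set Metric Filter
open scoped Topology


theorem int_unique {ι : Type} {T : ι → Set ℂ} {u U : ℝ} (h : CT ι T u U) (i j : ι) (x : ℂ)
    (hx : x ∈ interior (T i)) (hj : x ∈ T j) : j = i := by
  by_contra hne
  obtain ⟨c, hc⟩ := h.ball j
  have hint : (interior (T j)).Nonempty := by
    refine ⟨c, ?_⟩
    rw [mem_interior_iff_mem_nhds]
    exact Filter.mem_of_superset (closedBall_mem_nhds c h.upos) hc
  have hcl : closure (interior (T j)) = closure (T j) :=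
    (h.conv j).closure_interior_eq_closure_of_nonempty_interior hint
  have hxc : x ∈ closure (interior (T j)) := by
    rw [hcl]; exact subset_closure hj
  obtain ⟨y, hy1, hy2⟩ := mem_closure_iff.1 hxc _ isOpen_interior hx
  exact Set.disjoint_left.1 (h.disj j i hne) hy2 hy1

end Pool.Agent.Helper484.DT
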