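import Pool.Agent.Helper484.DT.Defs
import Pool.Agent.Helper484.DT.P_locfin

set_option autoImplicit false

namespace Pool.Agent.Helper484.DT
open Set Metric Filter
open scoped Topology


theorem nbhd {ι : Type} {T : ι → Set ℂ} {u U : ℝ} (h : CT ι T u U) (x : ℂ) :
    ∃ r : ℝ, 0 < r ∧ ∀ y ∈ ball x r, ∀ i, y ∈ T i → x ∈ T i := by
  obtain ⟨K, hK⟩ := locfin h 1
  obtain ⟨F, hF⟩ : ∃ F : Set ι, F = {i | (T i ∩ closedBall x 1).Nonempty} := ⟨_, rfl⟩
  have hfin : F.Finite := by rw [hF]; exact (hK x).1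
  have hfin2 : (F ∩ {i | x ∉ T i}).Finite := hfin.subset inter_subset_left
  have hclosed : IsClosed (⋃ i ∈ F ∩ {i | x ∉ T i}, T i) :=
    hfin2.isClosed_biUnion fun i _ => (h.comp i).isClosed
  have hx : x ∈ (⋃ i ∈ F ∩ {i | x ∉ T i}, T i)ᶜ := by
    intro hx
    simp only [mem_iUnion] at hx
    obtain ⟨i, hi, hxi⟩ := hx
    exact hi.2 hxi
  obtain ⟨r, hr, hball⟩ := Metric.isOpen_iff.1 hclosed.isOpen_compl x hx
  refine ⟨min r 1, lt_min hr one_pos, fun y hy i hyi => ?_⟩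
  by_contra hxi
  have hy1 : y ∈ ball x r := ball_subset_ball (min_le_left _ _) hy
  have hy2 : y ∈ closedBall x 1 :=
    ball_subset_closedBall (ball_subset_ball (min_le_right _ _) hy)
  have hiF : i ∈ F := by rw [hF]; exact ⟨y, hyi, hy2⟩
  apply hball hy1
  simp only [mem_iUnion]
  exact ⟨i, ⟨hiF, hxi⟩, hyi⟩

end Pool.Agent.Helper484.DT
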