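import Pool.Agent.Helper484.DT.Defs
import Pool.Agent.Helper484.DT.P_sepline
import Pool.Agent.Helper484.DT.P_dart_exists
import Pool.Agent.Helper484.DT.P_nbhd

set_option autoImplicit false

namespace Pool.Agent.Helper484.DT
open Set Metric Filter
open scoped Topology


theorem two_tiles_half {S S' : Set ℂ} (hS : IsClosed S) (x w : ℂ) (r c : ℝ) (hw : w ≠ 0)
    (hcov : ∀ y ∈ ball x r, y ∈ S ∨ y ∈ S') (hS' : ∀ z ∈ S', dt w z ≤ c) (y : ℂ)
    (hy : y ∈ ball x r) (hyc : c ≤ dt w y) : y ∈ S := by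
  have hdt : ∀ e : ℝ, dt w (y + e • w) = dt w y + e * (w.re ^ 2 + w.im ^ 2) := by
    intro e
    simp only [dt, Complex.add_re, Complex.add_im, Complex.smul_re, Complex.smul_im, smul_eq_mul]
    ring
  have hwp : 0 < w.re ^ 2 + w.im ^ 2 := by
    have h1 : w.re ≠ 0 ∨ w.im ≠ 0 := by
      by_contra hcon
      push Not at hcon
      exact hw (Complex.ext hcon.1 hcon.2)
    rcases h1 with h1 | h1
    · have := sq_pos_of_ne_zero h1
      nlinarith [sq_nonneg w.im]
    · have := sq_pos_of_ne_zero h1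
      nlinarith [sq_nonneg w.re]
  have hcl : y ∈ closure S := by
    rw [Metric.mem_closure_iff]
    intro ε hε
    have hd : 0 < r - dist y x := by
      have := mem_ball.1 hy
      linarith
    have hwn : 0 < ‖w‖ := norm_pos_iff.2 hw
    obtain ⟨e, he0, he1⟩ : ∃ e : ℝ, 0 < e ∧ e * ‖w‖ < min ε (r - dist y x) := by
      refine ⟨min ε (r - dist y x) / (2 * ‖w‖), ?_, ?_⟩
      · have := lt_min hε hd
        positivity
      · have := lt_min hε hd
        have h2 : min ε (r - dist y x) / (2 * ‖w‖) * ‖w‖ = min ε (r - dist y x) / 2 := by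
          field_simp
        rw [h2]
        linarith
    have hdist : dist y (y + e • w) = e * ‖w‖ := by
      rw [dist_eq_norm]
      have : y - (y + e • w) = -(e • w) := by ring
      rw [this, norm_neg, norm_smul, Real.norm_of_nonneg he0.le]
    refine ⟨y + e • w, ?_, ?_⟩
    · have hb : y + e • w ∈ ball x r := by
        rw [mem_ball]
        have h3 := dist_triangle (y + e • w) y x
        rw [dist_comm (y + e • w) y, hdist] at h3
        have := he1.trans_le (min_le_right _ _)
        linarith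
      rcases hcov _ hb with h4 | h4
      · exact h4
      · exfalso
        have h5 := hS' _ h4
        rw [hdt] at h5
        have h6 : 0 < e * (w.re ^ 2 + w.im ^ 2) := mul_pos he0 hwp
        linarith
    · rw [hdist]
      exact he1.trans_le (min_le_left _ _)
  rwa [hS.closure_eq] at hcl

theorem two_tiles {ι : Type} {T : ι → Set ℂ} {u U : ℝ} (h : CT ι T u U) (i j : ι) (hij : i ≠ j)
    (x : ℂ) (hi : x ∈ T i) (hj : x ∈ T j) (hx : ¬ IsV T x) :
    ∃ R L, Dart T i j R L ∧ x ∈ openSegment ℝ R L ∧ T i ∪ T j ∈ 𝓝 x := by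
  obtain ⟨r, hr, hnb⟩ := nbhd h x
  have honly : ∀ k, x ∈ T k → k = i ∨ k = j := by
    intro k hk
    by_contra hcon
    push Not at hcon
    exact hx ⟨i, j, k, hij, fun h => hcon.2 h.symm, fun h => hcon.1 h.symm, hi, hj, hk⟩
  have hcov : ∀ y ∈ ball x r, y ∈ T i ∨ y ∈ T j := by
    intro y hy
    obtain ⟨k, hk⟩ := h.cover y
    rcases honly k (hnb y hy k hk) with rfl | rfl
    · exact Or.inl hk
    · exact Or.inr hk
  have hN : T i ∪ T j ∈ 𝓝 x := by
    refine mem_of_superset (ball_mem_nhds x hr) fun y hy => ?_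
    exact hcov y hy
  obtain ⟨w, hw, c, h1, h2⟩ := sepline h i j hij
  have hxc : dt w x = c := le_antisymm (h2 x hj) (h1 x hi)
  have hneg : ∀ z, dt (-w) z = - dt w z := by
    intro z
    simp only [dt, Complex.neg_re, Complex.neg_im]
    ring
  have hTi : ∀ y ∈ ball x r, c ≤ dt w y → y ∈ T i := fun y hy hyc =>
    two_tiles_half (h.comp i).isClosed x w r c hw hcov h2 y hy hyc
  have hTj : ∀ y ∈ ball x r, dt w y ≤ c → y ∈ T j := fun y hy hyc => by
    refine two_tiles_half (S := T j) (S' := T i) (h.comp j).isClosed x (-w) r (-c)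
      (neg_ne_zero.2 hw) (fun y hy => (hcov y hy).symm) (fun z hz => ?_) y hy ?_
    · rw [hneg]; linarith [h1 z hz]
    · rw [hneg]; linarith
  have hwn : 0 < ‖w‖ := norm_pos_iff.2 hw
  have hpt : ∀ s : ℝ, |s| * ‖w‖ < r → x + s • (Complex.I * w) ∈ T i ∩ T j := by
    intro s hs
    have hb : x + s • (Complex.I * w) ∈ ball x r := by
      rw [mem_ball, dist_eq_norm, add_sub_cancel_left, norm_smul, norm_mul, Complex.norm_I, one_mul,
        Real.norm_eq_abs]
      exact hs
    have hd : dt w (x + s • (Complex.I * w)) = c := by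
      rw [← hxc]
      simp [dt]
      ring
    exact ⟨hTi _ hb hd.ge, hTj _ hb hd.le⟩
  set s : ℝ := r / (2 * ‖w‖) with hs
  have hspos : 0 < s := by positivity
  have hsw : s * ‖w‖ < r := by
    have : s * ‖w‖ = r / 2 := by rw [hs]; field_simp
    rw [this]; linarith
  have hp := hpt s (by rw [abs_of_pos hspos]; exact hsw)
  have hm := hpt (-s) (by rw [abs_neg, abs_of_pos hspos]; exact hsw)
  have hIw : Complex.I * w ≠ 0 := mul_ne_zero Complex.I_ne_zero hw
  have hne : x + s • (Complex.I * w) ≠ x + (-s) • (Complex.I * w) := by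
    intro heq
    have h3 := add_left_cancel heq
    have h4 : (s - (-s)) • (Complex.I * w) = 0 := by rw [sub_smul, h3, sub_self]
    rcases smul_eq_zero.1 h4 with h5 | h5
    · linarith
    · exact hIw h5
  obtain ⟨R, L, hD⟩ := dart_exists h i j ⟨hij, ⟨_, hp, _, hm, hne⟩⟩
  refine ⟨R, L, hD, ?_, hN⟩
  rw [hD.2.2.1] at hp hm
  obtain ⟨a1, b1, ha1, hb1, hab1, e1⟩ := hp
  obtain ⟨a2, b2, ha2, hb2, hab2, e2⟩ := hm
  refine ⟨(a1 + a2) / 2, (b1 + b2) / 2, ?_, ?_, by linarith, ?_⟩
  · by_contra hcon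
    have h3 : a1 = 0 := by linarith
    have h4 : a2 = 0 := by linarith
    have h5 : b1 = 1 := by linarith
    have h6 : b2 = 1 := by linarith
    apply hne
    rw [← e1, ← e2, h3, h4, h5, h6]
  · by_contra hcon
    have h3 : b1 = 0 := by linarith
    have h4 : b2 = 0 := by linarith
    have h5 : a1 = 1 := by linarith
    have h6 : a2 = 1 := by linarith
    apply hne
    rw [← e1, ← e2, h3, h4, h5, h6]
  · have h3 : ((a1 + a2) / 2) • R + ((b1 + b2) / 2) • L =
        (1 / 2 : ℝ) • ((a1 • R + b1 • L) + (a2 • R + b2 • L)) := by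
      simp only [smul_add, smul_smul, add_div, add_smul]
      have : ∀ t : ℝ, t / 2 = 1 / 2 * t := fun t => by ring
      rw [this a1, this a2, this b1, this b2]
      abel
    rw [h3, e1, e2]
    have h4 : x + s • (Complex.I * w) + (x + (-s) • (Complex.I * w)) = (2 : ℝ) • x := by
      rw [neg_smul, two_smul]
      abel
    rw [h4, smul_smul]
    norm_num

end Pool.Agent.Helper484.DT
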