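import Pool.Agent.Helper484.DT.Defs
import Pool.Agent.Helper484.DT.P_sepline
import Pool.Agent.Helper484.DT.P_dart_exists
import Pool.Agent.Helper484.DT.P_dart_unique
import Pool.Agent.Helper484.DT.P_nbhd
import Pool.Agent.Helper484.DT.P_two_tiles
import Pool.Agent.Helper484.DT.P_int_unique

set_option autoImplicit false

namespace Pool.Agent.Helper484.DT
open Set Metric Filter
open scoped Topology


theorem dv_cramer (p q v : ℂ) : (cr p q : ℂ) * v = (cr v q : ℂ) * p + (cr p v : ℂ) * q := by
  apply Complex.ext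
  · simp only [Complex.mul_re, Complex.add_re, Complex.ofReal_re, Complex.ofReal_im, cr]
    ring
  · simp only [Complex.mul_im, Complex.add_im, Complex.ofReal_re, Complex.ofReal_im, cr]
    ring

theorem dv_cont (p q : ℂ) : Continuous (fun z : ℂ => cr p (z - q)) ∧
    Continuous (fun z : ℂ => cr (z - q) p) := by
  constructor <;>
  · unfold cr
    fun_prop

/-- near `x` in the open segment, the half plane lies in the convex set `C` -/
theorem dv_half (C : Set ℂ) (hC : Convex ℝ C) (R L y : ℂ) (hR : R ∈ C) (hL : L ∈ C) (hy : y ∈ C)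
    (hg : cr (L - R) (y - R) ≠ 0) (x : ℂ) (hx : x ∈ openSegment ℝ R L) :
    ∀ᶠ z in 𝓝 x, 0 ≤ cr (L - R) (z - R) / cr (L - R) (y - R) → z ∈ C := by
  obtain ⟨a, b, ha, hb, hab, rfl⟩ := hx
  set D : ℝ := cr (L - R) (y - R) with hD
  have e1 : a • R + b • L - R = (b : ℂ) * (L - R) := by
    have : (a : ℂ) = 1 - b := by rw [← Complex.ofReal_one, ← Complex.ofReal_sub]; congr 1; linarith
    rw [Complex.real_smul, Complex.real_smul, this]
    ring
  have c1 : cr (a • R + b • L - R) (y - R) / D = b := by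
    rw [e1]
    have : cr ((b : ℂ) * (L - R)) (y - R) = b * D := by
      rw [hD]
      simp only [cr, Complex.mul_re, Complex.mul_im, Complex.ofReal_re, Complex.ofReal_im]
      ring
    rw [this]
    field_simp
  have c2 : cr (L - R) (a • R + b • L - R) = 0 := by
    rw [e1]
    simp only [cr, Complex.mul_re, Complex.mul_im, Complex.ofReal_re, Complex.ofReal_im]
    ring
  have f1 : Continuous (fun z : ℂ => cr (z - R) (y - R) / D) := ((dv_cont (y - R) R).2).div_const D
  have f2 : Continuous (fun z : ℂ => cr (L - R) (z - R) / D) := ((dv_cont (L - R) R).1).div_const D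
  have h1 : ∀ᶠ z in 𝓝 (a • R + b • L), 0 < cr (z - R) (y - R) / D := by
    apply f1.continuousAt.eventually_mem
    rw [c1]
    exact Ioi_mem_nhds hb
  have h2 : ∀ᶠ z in 𝓝 (a • R + b • L), cr (z - R) (y - R) / D + cr (L - R) (z - R) / D < 1 := by
    have f3 : Continuous (fun z : ℂ => cr (z - R) (y - R) / D + cr (L - R) (z - R) / D) := f1.add f2
    have h0 : cr (a • R + b • L - R) (y - R) / D + cr (L - R) (a • R + b • L - R) / D < 1 := by
      rw [c1, c2, zero_div, add_zero]
      linarith
    exact f3.continuousAt.eventually_lt continuousAt_const h0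
  filter_upwards [h1, h2] with z hz1 hz2 hz3
  set A : ℝ := cr (z - R) (y - R) / D with hA
  set B : ℝ := cr (L - R) (z - R) / D with hB
  have hz : z = (1 - A - B) • R + A • L + B • y := by
    have hcr := dv_cramer (L - R) (y - R) (z - R)
    have hDc : (D : ℂ) ≠ 0 := by exact_mod_cast hg
    have : z - R = (A : ℂ) * (L - R) + (B : ℂ) * (y - R) := by
      rw [hA, hB]
      push_cast
      field_simp
      rw [← hD] at hcr
      linear_combination hcr
    simp only [Complex.real_smul]
    push_cast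
    linear_combination this
  rw [hz]
  have hsum : (1 - A - B) + A + B = 1 := by ring
  have hnn : 0 ≤ 1 - A - B := by linarith
  have := hC.sum_mem (t := (Finset.univ : Finset (Fin 3))) (w := ![1 - A - B, A, B])
    (z := ![R, L, y]) (by intro i _; fin_cases i <;> simp <;> linarith)
    (by rw [Fin.sum_univ_three]; exact hsum) (by intro i _; fin_cases i <;> simp [hR, hL, hy])
  simpa [Fin.sum_univ_three] using this

/-- an interior point of a tile on one side of the line -/
theorem dv_int (C : Set ℂ) (u : ℝ) (hu : 0 < u) (y : ℂ) (hy : closedBall y u ⊆ C) (p q : ℂ)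
    (hp : p ≠ 0) (s : ℝ) (hs : s ≠ 0) (hside : ∀ z ∈ C, 0 ≤ s * cr p (z - q)) :
    0 < s * cr p (y - q) := by
  have h0 := hside y (hy (mem_closedBall_self hu.le))
  rcases h0.lt_or_eq with h1 | h1
  · exact h1
  · exfalso
    have hpn : 0 < ‖p‖ := norm_pos_iff.2 hp
    -- move by a multiple of i p
    have key : ∀ t : ℝ, |t| * ‖p‖ ≤ u → 0 ≤ s * (t * ‖p‖ ^ 2) := by
      intro t ht
      have hm : y + (t : ℂ) * (Complex.I * p) ∈ C := by
        apply hy
        rw [mem_closedBall, dist_eq_norm, add_sub_cancel_left, norm_mul, norm_mul, Complex.norm_I,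
          one_mul, Complex.norm_real, Real.norm_eq_abs]
        exact ht
      have h2 := hside _ hm
      have h3 : cr p (y + (t : ℂ) * (Complex.I * p) - q) = cr p (y - q) + t * ‖p‖ ^ 2 := by
        rw [← Complex.normSq_eq_norm_sq, Complex.normSq_apply]
        simp only [cr, Complex.mul_re, Complex.mul_im, Complex.ofReal_re, Complex.ofReal_im,
          Complex.I_re, Complex.I_im, Complex.add_re, Complex.add_im, Complex.sub_re, Complex.sub_im]
        ring
      rw [h3, mul_add, ← h1, zero_add] at h2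
      exact h2
    have k1 := key (u / ‖p‖) (by rw [abs_of_pos (by positivity)]; field_simp; exact le_refl _)
    have k2 := key (-(u / ‖p‖)) (by rw [abs_neg, abs_of_pos (by positivity)]; field_simp; exact le_refl _)
    have h4 : 0 < (u / ‖p‖) * ‖p‖ ^ 2 := by positivity
    rcases lt_or_gt_of_ne hs with h5 | h5
    · nlinarith
    · nlinarith

theorem dv_nhds {ι : Type} {T : ι → Set ℂ} {u U : ℝ} (h : CT ι T u U) {i j : ι} {R L : ℂ}
    (hd : Dart T i j R L) (x : ℂ) (hx : x ∈ openSegment ℝ R L) : T i ∪ T j ∈ 𝓝 x := by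
  obtain ⟨hij, hRL, hseg, hi, hj⟩ := hd
  have hRm : R ∈ T i ∩ T j := hseg ▸ left_mem_segment ℝ R L
  have hLm : L ∈ T i ∩ T j := hseg ▸ right_mem_segment ℝ R L
  obtain ⟨y, hy⟩ := h.ball i
  obtain ⟨y', hy'⟩ := h.ball j
  have hp : L - R ≠ 0 := sub_ne_zero.2 hRL.symm
  have g1 : 0 < cr (L - R) (y - R) := by
    have := dv_int (T i) u h.upos y hy (L - R) R hp 1 one_ne_zero
      (fun z hz => by rw [one_mul]; exact hi z hz)
    rwa [one_mul] at this
  have g2 : cr (L - R) (y' - R) < 0 := by
    have := dv_int (T j) u h.upos y' hy' (L - R) R hp (-1) (by norm_num)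
      (fun z hz => by have := hj z hz; linarith)
    linarith
  have n1 := dv_half (T i) (h.conv i) R L y hRm.1 hLm.1 (hy (mem_closedBall_self h.upos.le)) g1.ne' x hx
  have n2 := dv_half (T j) (h.conv j) R L y' hRm.2 hLm.2 (hy' (mem_closedBall_self h.upos.le)) g2.ne x hx
  have : ∀ᶠ z in 𝓝 x, z ∈ T i ∪ T j := by
    filter_upwards [n1, n2] with z z1 z2
    rcases le_total 0 (cr (L - R) (z - R)) with hz | hz
    · exact Or.inl (z1 (div_nonneg hz g1.le))
    · exact Or.inr (z2 (div_nonneg_of_nonpos hz g2.le))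
  exact this

theorem dart_vertex {ι : Type} {T : ι → Set ℂ} {u U : ℝ} (h : CT ι T u U) {i j : ι} {R L : ℂ}
    (hd : Dart T i j R L) : IsV T R ∧ IsV T L ∧ ∀ x ∈ openSegment ℝ R L, ¬ IsV T x ∧
      T i ∪ T j ∈ 𝓝 x := by
  have hRL : R ≠ L := hd.2.1
  have hRm : R ∈ T i ∩ T j := hd.2.2.1 ▸ left_mem_segment ℝ R L
  have hLm : L ∈ T i ∩ T j := hd.2.2.1 ▸ right_mem_segment ℝ R L
  refine ⟨?_, ?_, ?_⟩
  · by_contra hV
    obtain ⟨R', L', hd', hm, -⟩ := two_tiles h i j hd.1 R hRm.1 hRm.2 hV
    obtain ⟨e1, e2⟩ := dart_unique h hd hd'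
    rw [← e1, ← e2] at hm
    exact hRL (left_mem_openSegment_iff.1 hm)
  · by_contra hV
    obtain ⟨R', L', hd', hm, -⟩ := two_tiles h i j hd.1 L hLm.1 hLm.2 hV
    obtain ⟨e1, e2⟩ := dart_unique h hd hd'
    rw [← e1, ← e2] at hm
    exact hRL (right_mem_openSegment_iff.1 hm)
  · intro x hx
    have hN := dv_nhds h hd x hx
    refine ⟨?_, hN⟩
    have third : ∀ k, k ≠ i → k ≠ j → x ∉ T k := by
      intro k hki hkj hxk
      obtain ⟨y, hy⟩ := h.ball k
      have hyi : y ∈ interior (T k) := by
        rw [mem_interior]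
        exact ⟨ball y u, ball_subset_closedBall.trans hy, isOpen_ball, mem_ball_self h.upos⟩
      have hsub := (h.conv k).openSegment_self_interior_subset_interior hxk hyi
      have hcont : Tendsto (fun t : ℝ => (1 - t) • x + t • y) (𝓝[>] 0) (𝓝 x) := by
        have : Continuous (fun t : ℝ => (1 - t) • x + t • y) := by fun_prop
        have h1 := (this.tendsto 0).mono_left (nhdsWithin_le_nhds (s := Ioi (0 : ℝ)))
        simpa using h1
      have e1 : ∀ᶠ t in 𝓝[>] (0 : ℝ), (1 - t) • x + t • y ∈ T i ∪ T j := hcont hN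
      have e2 : ∀ᶠ t in 𝓝[>] (0 : ℝ), t ∈ Ioo (0 : ℝ) 1 := Ioo_mem_nhdsGT one_pos
      obtain ⟨t, ht1, ht2⟩ := (e1.and e2).exists
      have hin : (1 - t) • x + t • y ∈ interior (T k) :=
        hsub ⟨1 - t, t, by linarith [ht2.2], ht2.1, by ring, rfl⟩
      rcases ht1 with ht1 | ht1
      · exact hki (int_unique h k i _ hin ht1).symm
      · exact hkj (int_unique h k j _ hin ht1).symm
    rintro ⟨a, b, c, hab, hbc, hac, ha, hb, hc⟩
    have ha' : a = i ∨ a = j := by
      by_contra hn
      push Not at hn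
      exact third a hn.1 hn.2 ha
    have hb' : b = i ∨ b = j := by
      by_contra hn
      push Not at hn
      exact third b hn.1 hn.2 hb
    have hc' : c = i ∨ c = j := by
      by_contra hn
      push Not at hn
      exact third c hn.1 hn.2 hc
    rcases ha' with rfl | rfl <;> rcases hb' with rfl | rfl <;> rcases hc' with rfl | rfl <;>
      simp_all

end Pool.Agent.Helper484.DT
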