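import Pool.Agent.Helper484.DT.Defs
import Pool.Agent.Helper484.DT.P_locfin
import Pool.Agent.Helper484.DT.P_dart_exists
import Pool.Agent.Helper484.DT.P_dart_vertex

set_option autoImplicit false

namespace Pool.Agent.Helper484.DT
open Set Metric Filter
open scoped Topology


theorem vfinite {ι : Type} {T : ι → Set ℂ} {u U : ℝ} (h : CT ι T u U) (x : ℂ) (r : ℝ) :
    {v | IsV T v ∧ dist v x ≤ r}.Finite := by
  obtain ⟨K, hK⟩ := locfin h r
  have hS := (hK x).1
  have hV : ∀ i j, i ≠ j → {v | IsV T v ∧ v ∈ T i ∧ v ∈ T j}.Finite := by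
    intro i j hij
    by_cases hN : (T i ∩ T j).Nontrivial
    · obtain ⟨R, L, hd⟩ := dart_exists h i j ⟨hij, hN⟩
      have hv := dart_vertex h hd
      refine (Set.toFinite {R, L}).subset ?_
      rintro v ⟨hv1, hv2, hv3⟩
      have hseg : v ∈ segment ℝ R L := by
        rw [← hd.2.2.1]; exact ⟨hv2, hv3⟩
      by_contra hcon
      simp only [Set.mem_insert_iff, Set.mem_singleton_iff, not_or] at hcon
      have hop : v ∈ openSegment ℝ R L :=
        mem_openSegment_of_ne_left_right (Ne.symm hcon.1) (Ne.symm hcon.2) hseg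
      exact (hv.2.2 v hop).1 hv1
    · rw [Set.not_nontrivial_iff] at hN
      refine hN.finite.subset ?_
      rintro v ⟨_, hv2, hv3⟩
      exact ⟨hv2, hv3⟩
  have hfin : (⋃ p ∈ (({i | (T i ∩ closedBall x r).Nonempty} ×ˢ {i | (T i ∩ closedBall x r).Nonempty}) ∩ {p : ι × ι | p.1 ≠ p.2}),
      {v | IsV T v ∧ v ∈ T p.1 ∧ v ∈ T p.2}).Finite := by
    refine Set.Finite.biUnion ((hS.prod hS).inter_of_left _) ?_
    rintro ⟨i, j⟩ hp
    exact hV i j hp.2
  refine hfin.subset ?_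
  rintro v ⟨hv, hvr⟩
  obtain ⟨i, j, k, hij, hjk, hik, hi, hj, hk⟩ := hv
  have hb : v ∈ closedBall x r := by simpa [mem_closedBall] using hvr
  simp only [Set.mem_iUnion]
  exact ⟨(i, j), ⟨⟨⟨v, hi, hb⟩, ⟨v, hj, hb⟩⟩, hij⟩, ⟨⟨i, j, k, hij, hjk, hik, hi, hj, hk⟩, hi, hj⟩⟩

end Pool.Agent.Helper484.DT
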