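import Pool.Agent.Helper484.DT.Defs
import Pool.Agent.Helper484.DT.P_locfin
import Pool.Agent.Helper484.DT.P_vfinite

set_option autoImplicit false

namespace Pool.Agent.Helper484.DT
open Set Metric Filter
open scoped Topology


theorem vcountable {ι : Type} {T : ι → Set ℂ} {u U : ℝ} (h : CT ι T u U) :
    {v | IsV T v}.Countable ∧ Countable ι := by
  constructor
  · have hsub : {v | IsV T v} ⊆ ⋃ n : ℕ, {v | IsV T v ∧ dist v 0 ≤ (n : ℝ)} := by
      intro v hv
      rw [Set.mem_iUnion]
      obtain ⟨n, hn⟩ := exists_nat_ge (dist v 0)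
      exact ⟨n, hv, hn⟩
    exact (Set.countable_iUnion fun n : ℕ => (vfinite h 0 (n : ℝ)).countable).mono hsub
  · rw [← Set.countable_univ_iff]
    have hsub : (Set.univ : Set ι) ⊆ ⋃ n : ℕ, {i | (T i ∩ closedBall 0 (n : ℝ)).Nonempty} := by
      intro i _
      rw [Set.mem_iUnion]
      obtain ⟨x, hx⟩ := h.ball i
      obtain ⟨n, hn⟩ := exists_nat_ge (dist x 0)
      exact ⟨n, x, hx (mem_closedBall_self h.upos.le), hn⟩
    refine (Set.countable_iUnion fun n : ℕ => ?_).mono hsub
    obtain ⟨K, hK⟩ := locfin h (n : ℝ)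
    exact (hK 0).1.countable

end Pool.Agent.Helper484.DT
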