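import Pool.Agent.Helper484.DT.Defs
import Pool.Agent.Helper484.DT.P_vcountable

set_option autoImplicit false

namespace Pool.Agent.Helper484.DT
open Set Metric Filter
open scoped Topology


theorem avoid_lines {ι : Type} {T : ι → Set ℂ} {u U : ℝ} (h : CT ι T u U) (a b : ℝ)
    (hab : a < b) : (∃ c ∈ Ioo a b, ∀ s : ℝ, ¬ IsV T (⟨s, c⟩ : ℂ)) ∧
      (∃ d ∈ Ioo a b, ∀ s : ℝ, ¬ IsV T (⟨d, s⟩ : ℂ)) := by
  have hV := (vcountable h).1
  have key : ∀ f : ℂ → ℝ, ∃ c ∈ Ioo a b, ∀ v, IsV T v → f v ≠ c := by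
    intro f
    have hc : (f '' {v | IsV T v}).Countable := hV.image f
    have hnc : ¬ (Ioo a b).Countable := by
      intro hco
      have h1 := Cardinal.mk_Ioo_real hab
      have h2 := Set.Countable.le_aleph0 hco
      rw [h1] at h2
      exact absurd h2 (not_le.mpr Cardinal.aleph0_lt_continuum)
    have hns : ¬ Ioo a b ⊆ f '' {v | IsV T v} := fun hs => hnc (hc.mono hs)
    obtain ⟨c, hc1, hc2⟩ := Set.not_subset.mp hns
    exact ⟨c, hc1, fun v hv he => hc2 ⟨v, hv, he⟩⟩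
  constructor
  · obtain ⟨c, hc1, hc2⟩ := key Complex.im
    exact ⟨c, hc1, fun s hs => hc2 _ hs rfl⟩
  · obtain ⟨c, hc1, hc2⟩ := key Complex.re
    exact ⟨c, hc1, fun s hs => hc2 _ hs rfl⟩

end Pool.Agent.Helper484.DT
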