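import Pool.Agent.Helper484.DT.Defs

set_option autoImplicit false

namespace Pool.Agent.Helper484.DT
open Set Metric Filter
open scoped Topology


theorem dart_adj {ι : Type} {T : ι → Set ℂ} {i j : ι} {R L : ℂ} (h : Dart T i j R L) :
    Adj T i j := by
  refine ⟨h.1, ?_⟩
  rw [h.2.2.1]
  exact ⟨R, left_mem_segment ℝ R L, L, right_mem_segment ℝ R L, h.2.1⟩

end Pool.Agent.Helper484.DT
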