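import Pool.Agent.Helper484.DT.Defs
import Pool.Agent.Helper484.DT.P_locfin
import Pool.Agent.Helper484.DT.P_dart_adj
import Pool.Agent.Helper484.DT.P_nbhd
import Pool.Agent.Helper484.DT.P_two_tiles
import Pool.Agent.Helper484.DT.P_int_unique
import Pool.Agent.Helper484.DT.P_vfinite

set_option autoImplicit false

namespace Pool.Agent.Helper484.DT
open Set Metric Filter
open scoped Topology


theorem bdry25945_cr (c x w : ℂ) (hw : w ≠ 0) (u : ℝ) (hu : 0 < u) :
    ∃ c' ∈ Metric.ball c u, cr (c' - x) w ≠ 0 := by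
  by_cases h0 : cr (c - x) w = 0
  · have hwn : 0 < ‖w‖ := norm_pos_iff.2 hw
    obtain ⟨η, hη⟩ : ∃ η : ℝ, η = u / (2 * ‖w‖) := ⟨_, rfl⟩
    have hη0 : 0 < η := by rw [hη]; positivity
    refine ⟨c + (η : ℂ) * (Complex.I * w), ?_, ?_⟩
    · rw [Metric.mem_ball, dist_eq_norm, add_sub_cancel_left, norm_mul, norm_mul, Complex.norm_I,
        one_mul, Complex.norm_real, Real.norm_eq_abs, abs_of_pos hη0, hη]
      have : u / (2 * ‖w‖) * ‖w‖ = u / 2 := by field_simp
      rw [this]; linarith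
    · have e1 : cr (c + (η : ℂ) * (Complex.I * w) - x) w =
          cr (c - x) w - η * (w.re * w.re + w.im * w.im) := by
        unfold cr
        simp only [Complex.sub_re, Complex.sub_im, Complex.add_re, Complex.add_im,
          Complex.mul_re, Complex.mul_im, Complex.ofReal_re, Complex.ofReal_im, Complex.I_re,
          Complex.I_im]
        ring
      rw [e1, h0]
      have h2 : 0 < w.re * w.re + w.im * w.im := by
        have := Complex.normSq_pos.2 hw
        rwa [Complex.normSq_apply] at this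
      have h3 : 0 < η * (w.re * w.re + w.im * w.im) := mul_pos hη0 h2
      linarith
  · exact ⟨c, Metric.mem_ball_self hu, h0⟩

theorem bdry25945_conn {S t : Set ℂ} (hS : IsClosed S) (ht : IsPreconnected t) {p q : ℂ}
    (hp : p ∈ t) (hpS : p ∈ interior S) (hq : q ∈ t) (hqS : q ∉ S) :
    ∃ y ∈ t, y ∈ S ∧ y ∉ interior S := by
  by_contra hcon
  push Not at hcon
  have h1 : t ⊆ interior S ∪ Sᶜ := by
    intro y hy
    by_cases hyS : y ∈ S
    · exact Or.inl (hcon y hy hyS)
    · exact Or.inr hyS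
  obtain ⟨y, _, hy1, hy2⟩ := ht _ _ isOpen_interior hS.isOpen_compl h1 ⟨p, hp, hpS⟩ ⟨q, hq, hqS⟩
  exact hy2 (interior_subset hy1)

theorem bdry25945_acc {S : Set ℂ} (hconv : Convex ℝ S) (hcl : IsClosed S) {c : ℂ} {u : ℝ}
    (hu : 0 < u) (hc : closedBall c u ⊆ S) {x : ℂ} (hx : x ∈ S) (hb : x ∉ interior S) {δ : ℝ}
    (hδ : 0 < δ) : ∃ y ∈ S, y ∉ interior S ∧ y ≠ x ∧ dist y x < δ := by
  have hq : ∃ q ∈ ball x δ, q ∉ S := by
    by_contra hcon
    push Not at hcon
    exact hb (mem_interior.2 ⟨ball x δ, hcon, isOpen_ball, mem_ball_self hδ⟩)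
  obtain ⟨q, hqb, hqS⟩ := hq
  have hqx : q - x ≠ 0 := by
    intro h0
    apply hqS
    rw [sub_eq_zero.1 h0]
    exact hx
  obtain ⟨c', hc', hcr⟩ := bdry25945_cr c x (q - x) hqx u hu
  have hc'i : c' ∈ interior S := interior_mono hc (ball_subset_interior_closedBall hc')
  obtain ⟨t, ht⟩ : ∃ t : ℝ, t = min 1 (δ / (2 * (‖c' - x‖ + 1))) := ⟨_, rfl⟩
  have ht0 : 0 < t := by rw [ht]; exact lt_min one_pos (by positivity)
  have ht1 : t ≤ 1 := by rw [ht]; exact min_le_left _ _
  have ht2 : t ≤ δ / (2 * (‖c' - x‖ + 1)) := by rw [ht]; exact min_le_right _ _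
  have hpi : x + t • (c' - x) ∈ interior S :=
    hconv.add_smul_sub_mem_interior hx hc'i ⟨ht0, ht1⟩
  have hpb : x + t • (c' - x) ∈ ball x δ := by
    rw [mem_ball, dist_eq_norm, add_sub_cancel_left, norm_smul, Real.norm_eq_abs, abs_of_pos ht0]
    rw [le_div_iff₀ (by positivity)] at ht2
    have h1 : 0 ≤ ‖c' - x‖ := norm_nonneg _
    have h2 : 0 ≤ t * ‖c' - x‖ := by positivity
    have h3 : t * (2 * (‖c' - x‖ + 1)) = 2 * (t * ‖c' - x‖) + 2 * t := by ring
    linarith
  obtain ⟨y, hy, hyS, hyi⟩ := bdry25945_conn hcl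
    ((convex_segment (𝕜 := ℝ) (x + t • (c' - x)) q).isPreconnected)
    (left_mem_segment ℝ _ _) hpi (right_mem_segment ℝ _ _) hqS
  refine ⟨y, hyS, hyi, ?_, ?_⟩
  · intro hyx
    rw [hyx] at hy
    obtain ⟨a, b, ha, hb', hab, he⟩ := hy
    have he2 : a • (x + t • (c' - x)) + b • q - x = a • (t • (c' - x)) + b • (q - x) := by
      have hx1 : x = (a + b) • x := by rw [hab, one_smul]
      have : a • (x + t • (c' - x)) + b • q - (a + b) • x =
          a • (t • (c' - x)) + b • (q - x) := by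
        rw [smul_add, add_smul, smul_sub b]
        abel
      rw [← this, ← hx1]
    rw [he, sub_self] at he2
    have hcr0 : cr (a • (t • (c' - x)) + b • (q - x)) (q - x) = 0 := by
      rw [← he2]
      unfold cr
      simp
    have hcr1 : cr (a • (t • (c' - x)) + b • (q - x)) (q - x) = a * t * cr (c' - x) (q - x) := by
      unfold cr
      simp only [Complex.add_re, Complex.add_im, Complex.smul_re, Complex.smul_im, smul_eq_mul]
      ring
    rw [hcr1] at hcr0
    have ha0 : a = 0 := by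
      rcases mul_eq_zero.1 hcr0 with h1 | h1
      · rcases mul_eq_zero.1 h1 with h2 | h2
        · exact h2
        · exact absurd h2 ht0.ne'
      · exact absurd h1 hcr
    have hb1 : b = 1 := by linarith
    rw [ha0, hb1, zero_smul, one_smul, zero_add] at he2
    exact hqx he2.symm
  · exact mem_ball.1 ((convex_ball x δ).segment_subset hpb hqb hy)

theorem bdry25945_nonV {ι : Type} {T : ι → Set ℂ} {u U : ℝ} (h : CT ι T u U) (i : ι) (x : ℂ)
    (hx : x ∈ T i) (hb : x ∉ interior (T i)) (hV : ¬ IsV T x) : ∃ j, Adj T i j ∧ x ∈ T j := by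
  obtain ⟨r, hr, hn⟩ := nbhd h x
  have hq : ∃ q ∈ ball x r, q ∉ T i := by
    by_contra hcon
    push Not at hcon
    exact hb (mem_interior.2 ⟨ball x r, hcon, isOpen_ball, mem_ball_self hr⟩)
  obtain ⟨q, hqb, hqi⟩ := hq
  obtain ⟨j, hj⟩ := h.cover q
  have hij : i ≠ j := by
    intro he
    rw [he] at hqi
    exact hqi hj
  have hxj := hn q hqb j hj
  obtain ⟨R, L, hD, _⟩ := two_tiles h i j hij x hx hxj hV
  exact ⟨j, dart_adj hD, hxj⟩

theorem bdry {ι : Type} {T : ι → Set ℂ} {u U : ℝ} (h : CT ι T u U) (i : ι) (x : ℂ)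
    (hx : x ∈ T i) (hb : x ∉ interior (T i)) : ∃ j, Adj T i j ∧ x ∈ T j := by
  by_cases hV : IsV T x
  · obtain ⟨r, hr, hn⟩ := nbhd h x
    have hfin : ({v | IsV T v ∧ dist v x ≤ 1} \ {x}).Finite := (vfinite h x 1).diff
    have hopen : ({v | IsV T v ∧ dist v x ≤ 1} \ {x})ᶜ ∈ 𝓝 x := by
      apply hfin.isClosed.isOpen_compl.mem_nhds
      intro hh
      exact hh.2 rfl
    obtain ⟨δ, hδ, hδ2⟩ := Metric.mem_nhds_iff.1 hopen
    obtain ⟨c, hc⟩ := h.ball i
    obtain ⟨y, hyS, hyi, hyx, hyd⟩ := bdry25945_acc (h.conv i) (h.comp i).isClosed h.upos hc hx hb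
      (lt_min (lt_min hδ hr) one_pos)
    have hyδ : dist y x < δ := lt_of_lt_of_le hyd (le_trans (min_le_left _ _) (min_le_left _ _))
    have hyr : dist y x < r := lt_of_lt_of_le hyd (le_trans (min_le_left _ _) (min_le_right _ _))
    have hy1 : dist y x < 1 := lt_of_lt_of_le hyd (min_le_right _ _)
    have hyV : ¬ IsV T y := by
      intro hVy
      exact hδ2 (mem_ball.2 hyδ) ⟨⟨hVy, hy1.le⟩, hyx⟩
    obtain ⟨j, hadj, hyj⟩ := bdry25945_nonV h i y hyS hyi hyV
    exact ⟨j, hadj, hn y (mem_ball.2 hyr) j hyj⟩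
  · exact bdry25945_nonV h i x hx hb hV

end Pool.Agent.Helper484.DT
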