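import Pool.Agent.Helper484.DT.Defs

set_option autoImplicit false

namespace Pool.Agent.Helper484.DT
open Set Metric Filter
open scoped Topology


theorem dart_symm {ι : Type} {T : ι → Set ℂ} {i j : ι} {R L : ℂ} (h : Dart T i j R L) :
    Dart T j i L R := by
  obtain ⟨h1, h2, h3, h4, h5⟩ := h
  have key : ∀ z : ℂ, cr (R - L) (z - L) = - cr (L - R) (z - R) := by
    intro z
    unfold cr
    simp only [Complex.sub_re, Complex.sub_im]
    ring
  refine ⟨h1.symm, h2.symm, ?_, fun z hz => ?_, fun z hz => ?_⟩
  · rw [inter_comm, h3, segment_symm]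
  · rw [key]
    have := h5 z hz
    linarith
  · rw [key]
    have := h4 z hz
    linarith

end Pool.Agent.Helper484.DT
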