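import Pool.Agent.Helper484.DT.Defs
import Pool.Agent.Helper484.DT.P_dart_unique
import Pool.Agent.Helper484.DT.P_dart_vertex

set_option autoImplicit false

namespace Pool.Agent.Helper484.DT
open Set Metric Filter
open scoped Topology


theorem h400_col (a b : ℂ) (ha : a ≠ 0) (h : cr a b = 0) : ∃ c : ℝ, b = (c : ℂ) * a := by
  have hN : 0 < a.re ^ 2 + a.im ^ 2 := by
    have h1 : 0 < Complex.normSq a := Complex.normSq_pos.mpr ha
    rw [Complex.normSq_apply] at h1
    nlinarith
  unfold cr at h
  refine ⟨(a.re * b.re + a.im * b.im) / (a.re ^ 2 + a.im ^ 2), ?_⟩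
  apply Complex.ext
  · rw [Complex.re_ofReal_mul, div_mul_eq_mul_div, eq_div_iff hN.ne']
    linear_combination (-a.im) * h
  · rw [Complex.im_ofReal_mul, div_mul_eq_mul_div, eq_div_iff hN.ne']
    linear_combination a.re * h

/-- a tile is not contained in a line -/
theorem h400_line {ι : Type} {T : ι → Set ℂ} {u U : ℝ} (h : CT ι T u U) (i : ι) (a v : ℂ)
    (ha : a ≠ 0) : ¬ ∀ z ∈ T i, cr a (z - v) = 0 := by
  intro hz
  obtain ⟨x, hx⟩ := h.ball i
  have hu := h.upos
  have hna : 0 < ‖a‖ := norm_pos_iff.mpr ha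
  have h1 := hz x (hx (mem_closedBall_self hu.le))
  have h2 := hz (x + ((u / ‖a‖ : ℝ) : ℂ) * (Complex.I * a)) (hx (by
    rw [mem_closedBall, dist_eq_norm, add_sub_cancel_left, norm_mul, norm_mul, Complex.norm_I,
      one_mul, Complex.norm_real, Real.norm_eq_abs, abs_of_pos (by positivity),
      div_mul_cancel₀ _ hna.ne']))
  have h3 : cr a (x + ((u / ‖a‖ : ℝ) : ℂ) * (Complex.I * a) - v) =
      cr a (x - v) + (u / ‖a‖) * (a.re ^ 2 + a.im ^ 2) := by
    unfold cr
    simp only [Complex.sub_re, Complex.sub_im, Complex.add_re, Complex.add_im,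
      Complex.re_ofReal_mul, Complex.im_ofReal_mul, Complex.I_mul_re, Complex.I_mul_im]
    ring
  rw [h3, h1, zero_add] at h2
  have hN : 0 < a.re ^ 2 + a.im ^ 2 := by
    have h1 : 0 < Complex.normSq a := Complex.normSq_pos.mpr ha
    rw [Complex.normSq_apply] at h1
    nlinarith
  have h4 : 0 < (u / ‖a‖) * (a.re ^ 2 + a.im ^ 2) := by positivity
  linarith

theorem h400_open (R v : ℂ) (s : ℝ) (h0 : 0 < s) (h1 : s < 1) :
    v - (s : ℂ) * (v - R) ∈ openSegment ℝ R v := by
  refine ⟨s, 1 - s, h0, by linarith, by ring, ?_⟩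
  rw [Complex.real_smul, Complex.real_smul]
  push_cast
  ring

theorem star_uniq {ι : Type} {T : ι → Set ℂ} {u U : ℝ} (h : CT ι T u U) {i j j' : ι} {v R R' : ℂ}
    (h1 : Dart T i j R v) (h2 : Dart T i j' R' v) : j = j' ∧ R = R' := by
  obtain ⟨hij, hRv, hseg, hleft, -⟩ := id h1
  obtain ⟨hij', hRv', hseg', hleft', -⟩ := id h2
  have hRi : R ∈ T i := by
    have : R ∈ T i ∩ T j := by
      rw [hseg]
      exact left_mem_segment ℝ R v
    exact this.1
  have hRi' : R' ∈ T i := by
    have : R' ∈ T i ∩ T j' := by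
      rw [hseg']
      exact left_mem_segment ℝ R' v
    exact this.1
  have ha : v - R ≠ 0 := sub_ne_zero.mpr hRv.symm
  have hb : v - R' ≠ 0 := sub_ne_zero.mpr hRv'.symm
  have e1 := hleft R' hRi'
  have e2 := hleft' R hRi
  have hcr : cr (v - R) (v - R') = 0 := by
    have e3 : cr (v - R) (R' - R) = - cr (v - R) (v - R') := by
      unfold cr
      simp only [Complex.sub_re, Complex.sub_im]
      ring
    have e4 : cr (v - R') (R - R') = cr (v - R) (v - R') := by
      unfold cr
      simp only [Complex.sub_re, Complex.sub_im]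
      ring
    rw [e3] at e1
    rw [e4] at e2
    linarith
  obtain ⟨c, hc⟩ := h400_col (v - R) (v - R') ha hcr
  have hc0 : c ≠ 0 := by
    rintro rfl
    rw [Complex.ofReal_zero, zero_mul] at hc
    exact hb hc
  rcases lt_or_gt_of_ne hc0 with hneg | hpos
  · exfalso
    apply h400_line h i (v - R) v ha
    intro z hz
    have f1 := hleft z hz
    have f2 := hleft' z hz
    have f3 : cr (v - R) (z - R) = cr (v - R) (z - v) := by
      unfold cr
      simp only [Complex.sub_re, Complex.sub_im]
      ring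
    have f4 : cr (v - R') (z - R') = cr (v - R') (z - v) := by
      unfold cr
      simp only [Complex.sub_re, Complex.sub_im]
      ring
    have f5 : cr (v - R') (z - v) = c * cr (v - R) (z - v) := by
      rw [hc]
      unfold cr
      rw [Complex.re_ofReal_mul, Complex.im_ofReal_mul]
      ring
    rw [f3] at f1
    rw [f4, f5] at f2
    nlinarith
  · obtain ⟨s, hs⟩ : ∃ s : ℝ, s = min 1 c / 2 := ⟨_, rfl⟩
    have hmin : 0 < min 1 c := lt_min one_pos hpos
    have hs0 : 0 < s := by
      rw [hs]
      positivity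
    have hs1 : s < 1 := by
      have := min_le_left 1 c
      rw [hs]
      linarith
    have hsc : s / c < 1 := by
      rw [div_lt_one hpos, hs]
      have := min_le_right 1 c
      linarith
    have m1 := h400_open R v s hs0 hs1
    have m2 := h400_open R' v (s / c) (by positivity) hsc
    have heq : v - ((s / c : ℝ) : ℂ) * (v - R') = v - (s : ℂ) * (v - R) := by
      have hcc : (c : ℂ) ≠ 0 := by exact_mod_cast hc0
      rw [hc]
      push_cast
      field_simp
    rw [heq] at m2
    have n1 : v - (s : ℂ) * (v - R) ∈ T i ∩ T j := by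
      rw [hseg]
      exact openSegment_subset_segment ℝ R v m1
    have n2 : v - (s : ℂ) * (v - R) ∈ T i ∩ T j' := by
      rw [hseg']
      exact openSegment_subset_segment ℝ R' v m2
    have hjj : j = j' := by
      by_contra hne
      obtain ⟨-, -, hnv⟩ := dart_vertex h h1
      exact (hnv _ m1).1 ⟨i, j, j', hij, hne, hij', n1.1, n1.2, n2.2⟩
    subst hjj
    exact ⟨rfl, (dart_unique h h1 h2).1⟩

end Pool.Agent.Helper484.DT
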