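import Pool.Agent.Helper484.DT.Defs
import Pool.Agent.Helper484.DT.P_locfin
import Pool.Agent.Helper484.DT.P_sepline
import Pool.Agent.Helper484.DT.P_dart_symm
import Pool.Agent.Helper484.DT.P_dart_adj
import Pool.Agent.Helper484.DT.P_dart_exists
import Pool.Agent.Helper484.DT.P_dart_unique
import Pool.Agent.Helper484.DT.P_nbhd
import Pool.Agent.Helper484.DT.P_two_tiles
import Pool.Agent.Helper484.DT.P_dart_vertex
import Pool.Agent.Helper484.DT.P_bdry
import Pool.Agent.Helper484.DT.P_int_unique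
import Pool.Agent.Helper484.DT.P_vfinite
import Pool.Agent.Helper484.DT.P_star_uniq

set_option autoImplicit false

namespace Pool.Agent.Helper484.DT
open Set Metric Filter
open scoped Topology


theorem st2_front (K : Set ℂ) (hc : Convex ℝ K) (hcl : IsClosed K) (c v : ℂ) (u : ℝ)
    (hu : 0 < u) (hb : closedBall c u ⊆ K) (hv : v ∈ K) (hvi : v ∉ interior K) (e : ℂ)
    (he : ‖e‖ < u) (ε : ℝ) (hε : 0 < ε) (hε1 : ε ≤ 1) :
    ∃ b ∈ K, b ∉ interior K ∧ ∃ s : ℝ, |s| ≤ 1 ∧ b = v + ε • (s • (c - v) + e) := by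
  have hq : v + ε • ((c - v) + e) ∈ K := by
    have h1 : c + e ∈ K := hb (by
      rw [mem_closedBall, dist_eq_norm, add_sub_cancel_left]
      exact he.le)
    have h2 := hc hv h1 (by linarith : 0 ≤ 1 - ε) hε.le (by ring)
    have h3 : (1 - ε) • v + ε • (c + e) = v + ε • ((c - v) + e) := by module
    rwa [h3] at h2
  have ho : v + ε • (-(c - v) + e) ∉ K := by
    intro ho
    apply hvi
    have h1 : c - e ∈ interior K := by
      have : ball c u ⊆ interior K :=
        interior_maximal (ball_subset_closedBall.trans hb) isOpen_ball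
      apply this
      rw [mem_ball, dist_eq_norm]
      simpa using he
    have h2 := hc.combo_self_interior_mem_interior ho h1 (a := 1 / (1 + ε)) (b := ε / (1 + ε))
      (by positivity) (by positivity) (by field_simp)
    have h3 : (1 / (1 + ε)) • (v + ε • (-(c - v) + e)) + (ε / (1 + ε)) • (c - e) = v := by
      have h4 : (1 : ℝ) + ε ≠ 0 := by positivity
      have h5 : (1 / (1 + ε)) • (v + ε • (-(c - v) + e)) + (ε / (1 + ε)) • (c - e)
          = ((1 / (1 + ε)) * (1 + ε)) • v := by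
        have h6 : ε / (1 + ε) = (1 / (1 + ε)) * ε := by ring
        rw [h6]
        module
      rw [h5, one_div, inv_mul_cancel₀ h4, one_smul]
    rwa [h3] at h2
  obtain ⟨b, hb1, hb2, hb3⟩ : ∃ b ∈ segment ℝ (v + ε • (-(c - v) + e)) (v + ε • ((c - v) + e)),
      b ∈ K ∧ b ∉ interior K := by
    by_contra hcon
    push Not at hcon
    have hpre := (convex_segment (𝕜 := ℝ) (v + ε • (-(c - v) + e))
      (v + ε • ((c - v) + e))).isPreconnected
    obtain ⟨y, _, hy1, hy2⟩ := hpre (interior K) Kᶜ isOpen_interior hcl.isOpen_compl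
      (fun y hy => by
        by_cases hyK : y ∈ K
        · exact Or.inl (hcon y hy hyK)
        · exact Or.inr hyK)
      ⟨_, right_mem_segment ℝ _ _, hcon _ (right_mem_segment ℝ _ _) hq⟩
      ⟨_, left_mem_segment ℝ _ _, ho⟩
    exact hy2 (interior_subset hy1)
  refine ⟨b, hb2, hb3, ?_⟩
  obtain ⟨α, β, hα, hβ, hαβ, rfl⟩ := hb1
  refine ⟨β - α, ?_, ?_⟩
  · rw [abs_le]; constructor <;> linarith
  · have hα' : α = 1 - β := by linarith
    subst hα'
    module

theorem st2_cr_smul (a b : ℂ) (t : ℝ) : cr (t • a) b = t * cr a b := by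
  simp [cr]; ring

theorem st2_side {ι : Type} {T : ι → Set ℂ} {u U : ℝ} (h : CT ι T u U) (i : ι) (v : ℂ)
    (hv : IsV T v) (hi : v ∈ T i) (hvi : v ∉ interior (T i)) (c : ℂ)
    (hc : closedBall c u ⊆ T i) (e : ℂ) (he : ‖e‖ < u) :
    ∃ j R L, Dart T i j R L ∧ ((v = R ∧ cr (c - v) e ≤ 0) ∨ (v = L ∧ 0 ≤ cr (c - v) e)) := by
  obtain ⟨r, hr, hnb⟩ := nbhd h v
  have hu := h.upos
  set ε : ℝ := min 1 (r / (2 * (‖c - v‖ + u))) with hε
  have hpos : 0 < ‖c - v‖ + u := by positivity
  have hε0 : 0 < ε := lt_min one_pos (by positivity)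
  have hε1 : ε ≤ 1 := min_le_left _ _
  have hε2 : ε * (‖c - v‖ + u) < r := by
    have h1 : ε ≤ r / (2 * (‖c - v‖ + u)) := min_le_right _ _
    have h2 : ε * (‖c - v‖ + u) ≤ r / (2 * (‖c - v‖ + u)) * (‖c - v‖ + u) :=
      mul_le_mul_of_nonneg_right h1 hpos.le
    have h3 : r / (2 * (‖c - v‖ + u)) * (‖c - v‖ + u) = r / 2 := by field_simp
    linarith
  obtain ⟨b, hbK, hbi, s, hs, hbv⟩ := st2_front (T i) (h.conv i) (h.comp i).isClosed c v u hu hc hi
    hvi e he ε hε0 hε1
  have hbr : b ∈ ball v r := by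
    rw [mem_ball, dist_eq_norm, hbv, add_sub_cancel_left, norm_smul, Real.norm_eq_abs,
      abs_of_pos hε0]
    have h1 : ‖s • (c - v) + e‖ ≤ ‖c - v‖ + u := by
      refine (norm_add_le _ _).trans (add_le_add ?_ he.le)
      rw [norm_smul, Real.norm_eq_abs]
      exact mul_le_of_le_one_left (norm_nonneg _) hs
    exact (mul_le_mul_of_nonneg_left h1 hε0.le).trans_lt hε2
  obtain ⟨j, hadj, hbj⟩ := bdry h i b hbK hbi
  obtain ⟨R, L, hd⟩ := dart_exists h i j hadj
  have hvj : v ∈ T j := hnb b hbr j hbj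
  obtain ⟨hij, hRL, hseg, hside, _⟩ := hd
  have hvs : v ∈ segment ℝ R L := by rw [← hseg]; exact ⟨hi, hvj⟩
  have hbs : b ∈ segment ℝ R L := by rw [← hseg]; exact ⟨hbK, hbj⟩
  have hd' : Dart T i j R L := ⟨hij, hRL, hseg, hside, by assumption⟩
  have hvRL : v = R ∨ v = L := by
    by_contra hcon
    push Not at hcon
    exact ((dart_vertex h hd').2.2 v (mem_openSegment_of_ne_left_right hcon.1.symm hcon.2.symm hvs)).1 hv
  have hcK : c ∈ T i := hc (mem_closedBall_self hu.le)
  have hcr := hside c hcK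
  obtain ⟨α, β, hα, hβ, hαβ, hbe⟩ := hbs
  have hbv2 : cr (b - v) (c - v) = -(ε * cr (c - v) e) := by
    rw [hbv, add_sub_cancel_left]
    simp only [cr, Complex.add_re, Complex.add_im, Complex.real_smul, Complex.mul_re,
      Complex.mul_im, Complex.ofReal_re, Complex.ofReal_im]
    ring
  refine ⟨j, R, L, hd', ?_⟩
  rcases hvRL with hvR | hvL
  · left
    refine ⟨hvR, ?_⟩
    have h1 : b - v = β • (L - R) := by
      rw [← hbe, hvR]
      have hα' : α = 1 - β := by linarith
      subst hα'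
      module
    rw [h1, st2_cr_smul, hvR] at hbv2
    rw [hvR]
    have h2 : 0 ≤ β * cr (L - R) (c - R) := mul_nonneg hβ hcr
    by_contra hcon
    push Not at hcon
    have h3 := mul_pos hε0 hcon
    linarith
  · right
    refine ⟨hvL, ?_⟩
    have h1 : b - v = (-α) • (L - R) := by
      rw [← hbe, hvL]
      have hα' : β = 1 - α := by linarith
      subst hα'
      module
    rw [h1, st2_cr_smul, hvL] at hbv2
    rw [hvL]
    have h4 : cr (L - R) (c - L) = cr (L - R) (c - R) := by
      simp only [cr, Complex.sub_re, Complex.sub_im]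
      ring
    rw [h4] at hbv2
    have h2 : 0 ≤ α * cr (L - R) (c - R) := mul_nonneg hα hcr
    by_contra hcon
    push Not at hcon
    have h3 := mul_neg_of_pos_of_neg hε0 hcon
    linarith

theorem star_two {ι : Type} {T : ι → Set ℂ} {u U : ℝ} (h : CT ι T u U) (i : ι) (v : ℂ)
    (hv : IsV T v) (hi : v ∈ T i) :
    (∃ j R, Dart T i j R v) ∧ (∃ k L, Dart T i k v L) := by
  obtain ⟨c, hc⟩ := h.ball i
  have hu := h.upos
  have hvi : v ∉ interior (T i) := by
    intro hint
    obtain ⟨a, b, _, hab, _, _, ha, hb, _⟩ := hv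
    exact hab ((int_unique h i a v hint ha).trans (int_unique h i b v hint hb).symm)
  have hcv : c - v ≠ 0 := by
    intro h0
    apply hvi
    rw [← sub_eq_zero.mp h0]
    have : ball c u ⊆ interior (T i) :=
      interior_maximal (ball_subset_closedBall.trans hc) isOpen_ball
    exact this (mem_ball_self hu)
  have hn : 0 < ‖c - v‖ := norm_pos_iff.mpr hcv
  set κ : ℝ := u / (2 * ‖c - v‖) with hκ
  have hκ0 : 0 < κ := by positivity
  have hnorm : ‖κ • (Complex.I * (c - v))‖ < u := by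
    rw [norm_smul, Real.norm_eq_abs, abs_of_pos hκ0, norm_mul, Complex.norm_I, one_mul, hκ]
    have : u / (2 * ‖c - v‖) * ‖c - v‖ = u / 2 := by field_simp
    linarith
  have hcr : 0 < cr (c - v) (κ • (Complex.I * (c - v))) := by
    have h1 : cr (c - v) (κ • (Complex.I * (c - v))) = κ * ‖c - v‖ ^ 2 := by
      rw [Complex.sq_norm, Complex.normSq_apply]
      simp only [cr, Complex.real_smul, Complex.mul_re, Complex.mul_im, Complex.ofReal_re,
        Complex.ofReal_im, Complex.I_re, Complex.I_im]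
      ring
    rw [h1]
    positivity
  constructor
  · obtain ⟨j, R, L, hd, ⟨_, h2⟩ | ⟨h1, _⟩⟩ := st2_side h i v hv hi hvi c hc _ hnorm
    · linarith
    · exact ⟨j, R, h1 ▸ hd⟩
  · obtain ⟨j, R, L, hd, ⟨h1, _⟩ | ⟨_, h2⟩⟩ := st2_side h i v hv hi hvi c hc
      (-(κ • (Complex.I * (c - v)))) (by rw [norm_neg]; exact hnorm)
    · exact ⟨j, L, h1 ▸ hd⟩
    · have h3 : cr (c - v) (-(κ • (Complex.I * (c - v)))) = -cr (c - v) (κ • (Complex.I * (c - v))) := by
        simp only [cr, Complex.neg_re, Complex.neg_im]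
        ring
      rw [h3] at h2
      linarith

end Pool.Agent.Helper484.DT

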