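import Pool.Agent.Helper484.DT.Defs
import Pool.Agent.Helper484.DT.P_locfin
import Pool.Agent.Helper484.DT.P_dart_symm
import Pool.Agent.Helper484.DT.P_dart_adj
import Pool.Agent.Helper484.DT.P_dart_exists
import Pool.Agent.Helper484.DT.P_dart_unique
import Pool.Agent.Helper484.DT.P_nbhd
import Pool.Agent.Helper484.DT.P_two_tiles
import Pool.Agent.Helper484.DT.P_dart_vertex
import Pool.Agent.Helper484.DT.P_bdry
import Pool.Agent.Helper484.DT.P_int_unique
import Pool.Agent.Helper484.DT.P_vfinite
import Pool.Agent.Helper484.DT.P_star_uniq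
import Pool.Agent.Helper484.DT.P_star_two

set_option autoImplicit false

namespace Pool.Agent.Helper484.DT
open Set Metric Filter
open scoped Topology


theorem rim_exists_aux_pos {ι : Type} {T : ι → Set ℂ} {u : ℝ} (hu : 0 < u) {i j : ι} {R L p : ℂ}
    (hp : closedBall p u ⊆ T i) (hd : Dart T i j R L) : 0 < cr (L - R) (p - R) := by
  have hne : L - R ≠ 0 := sub_ne_zero.2 (Ne.symm hd.2.1)
  have hh := hd.2.2.2.1
  generalize L - R = e at *
  have hN : 0 < ‖e‖ := norm_pos_iff.2 hne
  have hN2 : e.re * e.re + e.im * e.im = ‖e‖ ^ 2 := by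
    rw [Complex.sq_norm, Complex.normSq_apply]
  have hz : p - ((u / ‖e‖ : ℝ) : ℂ) * (Complex.I * e) ∈ T i := by
    apply hp
    rw [mem_closedBall, dist_eq_norm, sub_sub_cancel_left, norm_neg, norm_mul, norm_mul,
      Complex.norm_I, one_mul, Complex.norm_real, Real.norm_eq_abs, abs_of_pos (by positivity),
      div_mul_cancel₀ _ hN.ne']
  have h1 := hh _ hz
  have hre : (p - ((u / ‖e‖ : ℝ) : ℂ) * (Complex.I * e) - R).re =
      p.re + (u / ‖e‖) * e.im - R.re := by
    simp only [Complex.sub_re, Complex.mul_re, Complex.I_re, Complex.I_im, Complex.ofReal_re,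
      Complex.ofReal_im]
    ring
  have him : (p - ((u / ‖e‖ : ℝ) : ℂ) * (Complex.I * e) - R).im =
      p.im - (u / ‖e‖) * e.re - R.im := by
    simp only [Complex.sub_im, Complex.mul_im, Complex.mul_re, Complex.I_re, Complex.I_im,
      Complex.ofReal_re, Complex.ofReal_im]
    ring
  unfold cr at h1 ⊢
  rw [hre, him] at h1
  rw [Complex.sub_re, Complex.sub_im]
  have h2 : 0 < (u / ‖e‖) * (e.re * e.re + e.im * e.im) := by
    rw [hN2]
    positivity
  nlinarith

theorem rim_exists_aux_sign (y : ℕ → ℂ) (n : ℕ) (hn : 0 < n) (hper : ∀ k, y (k + n) = y k)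
    (hc : ∀ k, 0 < cr (y k) (y (k + 1))) (w : ℂ) (hw : w ≠ 0) :
    ∃ k, 0 ≤ cr (y k) w ∧ cr (y (k + 1)) w ≤ 0 := by
  by_contra hcon
  push Not at hcon
  obtain ⟨k1, hk1⟩ : ∃ k1, ∀ m, k1 ≤ m → 0 < cr (y m) w * cr (y (m + 1)) w := by
    by_cases h : ∃ k0, 0 ≤ cr (y k0) w
    · obtain ⟨k0, hk0⟩ := h
      have key : ∀ m, k0 + 1 ≤ m → 0 < cr (y m) w := by
        intro m hm
        induction m, hm using Nat.le_induction with
        | base => exact hcon k0 hk0
        | succ m hm ih => exact hcon m ih.le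
      exact ⟨k0 + 1, fun m hm => mul_pos (key m hm) (key (m + 1) (by omega))⟩
    · push Not at h
      exact ⟨0, fun m _ => mul_pos_of_neg_of_neg (h m) (h (m + 1))⟩
  have hw2 : 0 < w.re ^ 2 + w.im ^ 2 := by
    have := Complex.normSq_pos.2 hw
    rw [Complex.normSq_apply] at this
    nlinarith
  let g : ℕ → ℝ := fun m => dt (y m) w / cr (y m) w
  have hg : ∀ m, k1 ≤ m → g m < g (m + 1) := by
    intro m hm
    have h1 := hk1 m hm
    have h2 := hc m
    have hne1 : cr (y m) w ≠ 0 := by
      intro h
      rw [h, zero_mul] at h1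
      exact lt_irrefl _ h1
    have hne2 : cr (y (m + 1)) w ≠ 0 := by
      intro h
      rw [h, mul_zero] at h1
      exact lt_irrefl _ h1
    have h3 : g (m + 1) - g m = cr (y m) (y (m + 1)) * (w.re ^ 2 + w.im ^ 2) /
        (cr (y m) w * cr (y (m + 1)) w) := by
      change dt (y (m + 1)) w / cr (y (m + 1)) w - dt (y m) w / cr (y m) w = _
      rw [div_sub_div _ _ hne2 hne1, div_eq_div_iff (mul_ne_zero hne2 hne1) h1.ne']
      unfold cr dt
      ring
    have h4 : 0 < g (m + 1) - g m := by
      rw [h3]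
      exact div_pos (mul_pos h2 hw2) h1
    linarith
  have hmono : ∀ d, 1 ≤ d → g k1 < g (k1 + d) := by
    intro d hd
    induction d, hd using Nat.le_induction with
    | base => exact hg k1 le_rfl
    | succ d hd ih => exact ih.trans (hg (k1 + d) (by omega))
  have h5 := hmono n hn
  have h6 : g (k1 + n) = g k1 := by
    change dt (y (k1 + n)) w / cr (y (k1 + n)) w = dt (y k1) w / cr (y k1) w
    rw [hper]
  rw [h6] at h5
  exact lt_irrefl _ h5

/-- the cone argument: a vertex of the tile is on every closed cycle of darts -/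
theorem rim_exists_aux_cone {ι : Type} {T : ι → Set ℂ} {u U : ℝ} (h : CT ι T u U) (i : ι)
    {p : ℂ} (hp : closedBall p u ⊆ T i) (n : ℕ) (hn : 0 < n) (s : ℕ → ι) (x : ℕ → ℂ)
    (hper : ∀ k, x (k + n) = x k) (hd : ∀ k, Dart T i (s k) (x k) (x (k + 1)))
    (v : ℂ) (hv : IsV T v) (hvi : v ∈ T i) : ∃ k, x k = v := by
  have hxi : ∀ k, x k ∈ T i := by
    intro k
    have h1 : x k ∈ segment ℝ (x k) (x (k + 1)) := left_mem_segment ℝ _ _
    rw [← (hd k).2.2.1] at h1
    exact h1.1
  have hpint : p ∈ interior (T i) := by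
    rw [mem_interior_iff_mem_nhds]
    exact Filter.mem_of_superset (closedBall_mem_nhds p h.upos) hp
  have hvint : v ∉ interior (T i) := by
    intro hvi'
    obtain ⟨a, b, c, hab, hbc, hac, ha, hb, hc⟩ := hv
    exact hab ((int_unique h i a v hvi' ha).trans (int_unique h i b v hvi' hb).symm)
  have hvp : v - p ≠ 0 := by
    intro h0
    rw [sub_eq_zero] at h0
    rw [h0] at hvint
    exact hvint hpint
  have hcpos : ∀ k, 0 < cr (x k - p) (x (k + 1) - p) := by
    intro k
    have h1 := rim_exists_aux_pos h.upos hp (hd k)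
    unfold cr at h1 ⊢
    simp only [Complex.sub_re, Complex.sub_im] at h1 ⊢
    nlinarith
  obtain ⟨k, hk1, hk2⟩ := rim_exists_aux_sign (fun k => x k - p) n hn
    (fun k => by simp only [hper]) hcpos (v - p) hvp
  have hc := hcpos k
  have hline := (hd k).2.2.2.1 v hvi
  set c := cr (x k - p) (x (k + 1) - p) with hcdef
  set α := -cr (x (k + 1) - p) (v - p) / c with hα
  set β := cr (x k - p) (v - p) / c with hβ
  have hα0 : 0 ≤ α := div_nonneg (by linarith) hc.le
  have hβ0 : 0 ≤ β := div_nonneg hk1 hc.le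
  have hαc : α * c = -cr (x (k + 1) - p) (v - p) := by
    rw [hα]
    field_simp
  have hβc : β * c = cr (x k - p) (v - p) := by
    rw [hβ]
    field_simp
  have hre : v.re = (1 - α - β) * p.re + α * (x k).re + β * (x (k + 1)).re := by
    have h1 : (v.re - p.re) * c = α * c * ((x k).re - p.re) + β * c * ((x (k + 1)).re - p.re) := by
      rw [hαc, hβc, hcdef]
      unfold cr
      simp only [Complex.sub_re, Complex.sub_im]
      ring
    have h2 : (v.re - p.re - (α * ((x k).re - p.re) + β * ((x (k + 1)).re - p.re))) * c = 0 := by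
      linarith
    rcases mul_eq_zero.1 h2 with h3 | h3
    · linarith
    · exact absurd h3 hc.ne'
  have him : v.im = (1 - α - β) * p.im + α * (x k).im + β * (x (k + 1)).im := by
    have h1 : (v.im - p.im) * c = α * c * ((x k).im - p.im) + β * c * ((x (k + 1)).im - p.im) := by
      rw [hαc, hβc, hcdef]
      unfold cr
      simp only [Complex.sub_re, Complex.sub_im]
      ring
    have h2 : (v.im - p.im - (α * ((x k).im - p.im) + β * ((x (k + 1)).im - p.im))) * c = 0 := by
      linarith
    rcases mul_eq_zero.1 h2 with h3 | h3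
    · linarith
    · exact absurd h3 hc.ne'
  have hsum : α + β ≤ 1 := by
    have h1 : cr (x (k + 1) - x k) (v - x k) = (1 - α - β) * c := by
      rw [hcdef]
      unfold cr
      simp only [Complex.sub_re, Complex.sub_im]
      rw [hre, him]
      ring
    rw [h1] at hline
    by_contra hcon
    push Not at hcon
    nlinarith
  have hveq : v = (1 - α - β) • p + α • x k + β • x (k + 1) := by
    apply Complex.ext
    · simp only [Complex.add_re, Complex.real_smul, Complex.re_ofReal_mul]
      exact hre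
    · simp only [Complex.add_im, Complex.real_smul, Complex.im_ofReal_mul]
      exact him
  rcases hsum.lt_or_eq with hlt | heq
  · exfalso
    apply hvint
    rcases (add_nonneg hα0 hβ0).eq_or_lt with h0 | h0
    · have ha0 : α = 0 := by linarith
      have hb0 : β = 0 := by linarith
      rw [hveq, ha0, hb0]
      simpa using hpint
    · have hq : (α / (α + β)) • x k + (β / (α + β)) • x (k + 1) ∈ T i :=
        h.conv i (hxi k) (hxi (k + 1)) (by positivity) (by positivity) (by field_simp)
      have h1 := (h.conv i).combo_interior_self_mem_interior hpint hq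
        (a := 1 - α - β) (b := α + β) (by linarith) h0.le (by ring)
      have h2 : v = (1 - α - β) • p + (α + β) • ((α / (α + β)) • x k +
          (β / (α + β)) • x (k + 1)) := by
        rw [smul_add, smul_smul, smul_smul, mul_div_cancel₀ _ h0.ne', mul_div_cancel₀ _ h0.ne',
          ← add_assoc]
        exact hveq
      rw [h2]
      exact h1
  · have hveq' : v = α • x k + β • x (k + 1) := by
      rw [hveq, show 1 - α - β = 0 by linarith, zero_smul, zero_add]
    rcases hα0.eq_or_lt with ha | ha
    · refine ⟨k + 1, ?_⟩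
      rw [hveq', ← ha, show β = 1 by linarith, zero_smul, one_smul, zero_add]
    · rcases hβ0.eq_or_lt with hb | hb
      · refine ⟨k, ?_⟩
        rw [hveq', ← hb, show α = 1 by linarith, zero_smul, one_smul, add_zero]
      · exfalso
        exact ((dart_vertex h (hd k)).2.2 v ⟨α, β, ha, hb, heq, hveq'.symm⟩).1 hv

theorem rim_exists {ι : Type} {T : ι → Set ℂ} {u U : ℝ} (h : CT ι T u U) (i : ι) :
    ∃ (n : ℕ) (s : ℕ → ι) (x : ℕ → ℂ), Rim T i n s x := by
  obtain ⟨p, hp⟩ := h.ball i
  have hpi : p ∈ T i := hp (mem_closedBall_self h.upos.le)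
  let VV : Type := {v : ℂ // IsV T v ∧ v ∈ T i}
  have hfin : Finite VV := by
    have h1 := vfinite h p U
    have h2 : {v : ℂ | IsV T v ∧ v ∈ T i}.Finite :=
      h1.subset (fun v hv => ⟨hv.1, h.diam i v hv.2 p hpi⟩)
    exact h2.to_subtype
  have hmemR : ∀ {j : ι} {R L : ℂ}, Dart T i j R L → R ∈ T i := by
    intro j R L hd
    have h1 : R ∈ segment ℝ R L := left_mem_segment ℝ _ _
    rw [← hd.2.2.1] at h1
    exact h1.1
  have hmemL : ∀ {j : ι} {R L : ℂ}, Dart T i j R L → L ∈ T i := by
    intro j R L hd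
    have h1 : L ∈ segment ℝ R L := right_mem_segment ℝ _ _
    rw [← hd.2.2.1] at h1
    exact h1.1
  have hout : ∀ v : VV, ∃ (k : ι) (L : ℂ), Dart T i k v.1 L := by
    intro v
    obtain ⟨k, L, hd⟩ := (star_two h i v.1 v.2.1 v.2.2).2
    exact ⟨k, L, hd⟩
  choose nb Lf hLf using hout
  let nx : VV → VV := fun v => ⟨Lf v, (dart_vertex h (hLf v)).2.1, hmemL (hLf v)⟩
  have hnx : ∀ v, (nx v).1 = Lf v := fun v => rfl
  have hinj : Function.Injective nx := by
    intro v v' hvv
    have h1 : Lf v = Lf v' := congrArg Subtype.val hvv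
    have h2 := hLf v
    rw [h1] at h2
    exact Subtype.ext (star_uniq h h2 (hLf v')).2
  have hsurj : Function.Surjective nx := Finite.injective_iff_surjective.1 hinj
  -- mirror uniqueness
  have hmir : ∀ (v : VV) (j : ι) (L : ℂ), Dart T i j v.1 L → j = nb v := by
    intro v j L hd
    obtain ⟨v', hv'⟩ := hsurj ⟨L, (dart_vertex h hd).2.1, hmemL hd⟩
    have h1 : Lf v' = L := congrArg Subtype.val hv'
    have h2 := hLf v'
    rw [h1] at h2
    obtain ⟨h3, h4⟩ := star_uniq h hd h2
    have h5 : v = v' := Subtype.ext h4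
    rw [h3, h5]
  -- a vertex
  have hne : Nonempty VV := by
    have hfr : (frontier (T i)).Nonempty := by
      by_contra hcon
      rw [Set.not_nonempty_iff_eq_empty, frontier_eq_empty_iff] at hcon
      rcases hcon with h0 | h0
      · rw [h0] at hpi
        exact hpi
      · have h1 := h.comp i
        rw [h0] at h1
        exact noncompact_univ ℂ h1
    obtain ⟨y, hy⟩ := hfr
    have hcl : IsClosed (T i) := (h.comp i).isClosed
    rw [hcl.frontier_eq] at hy
    obtain ⟨j, hj, -⟩ := bdry h i y hy.1 hy.2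
    obtain ⟨R, L, hd⟩ := dart_exists h i j hj
    exact ⟨⟨R, (dart_vertex h hd).1, hmemR hd⟩⟩
  obtain ⟨v0⟩ := hne
  have hper0 : v0 ∈ Function.periodicPts nx := by
    exact Function.Injective.mem_periodicPts hinj v0
  set n := Function.minimalPeriod nx v0 with hndef
  have hnpos : 0 < n := Function.minimalPeriod_pos_of_mem_periodicPts hper0
  let X : ℕ → VV := fun k => nx^[k] v0
  have hX1 : ∀ k, X (k + 1) = nx (X k) := fun k => Function.iterate_succ_apply' nx k v0
  have hXn : ∀ k, X (k + n) = X k := fun k => Function.iterate_add_minimalPeriod_eq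
  have hXinj : ∀ k l, k < n → l < n → X k = X l → k = l := fun k l hk hl hkl =>
    Function.iterate_injOn_Iio_minimalPeriod hk hl hkl
  have hdart : ∀ k, Dart T i (nb (X k)) (X k).1 (X (k + 1)).1 := by
    intro k
    rw [hX1 k, hnx]
    exact hLf (X k)
  have hmod : ∀ k, X (k % n) = X k := fun k => Function.iterate_mod_minimalPeriod_eq
  have hallx : ∀ v, IsV T v → v ∈ T i → ∃ k, k < n ∧ (X k).1 = v := by
    intro v hv hvi
    obtain ⟨k, hk⟩ := rim_exists_aux_cone h i hp n hnpos (fun k => nb (X k)) (fun k => (X k).1)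
      (fun k => by simp only [hXn]) hdart v hv hvi
    exact ⟨k % n, Nat.mod_lt _ hnpos, by rw [hmod]; exact hk⟩
  refine ⟨n, fun k => nb (X k), fun k => (X k).1, ⟨?_, ?_, ?_, hdart, ?_, ?_, ?_, hallx⟩⟩
  · -- three
    by_contra hcon
    have hn12 : n = 1 ∨ n = 2 := by omega
    rcases hn12 with h1 | h1
    · have h2 := (hdart 0).2.1
      apply h2
      have h3 := hXn 0
      rw [h1] at h3
      rw [h3]
    · have h2 := rim_exists_aux_pos h.upos hp (hdart 0)
      have h3 := rim_exists_aux_pos h.upos hp (hdart 1)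
      have h4 := hXn 0
      rw [h1] at h4
      have h5 : X (1 + 1) = X 0 := h4
      rw [h5] at h3
      unfold cr at h2 h3
      simp only [Complex.sub_re, Complex.sub_im, zero_add] at h2 h3
      nlinarith
  · intro k
    simp only [hXn]
  · intro k
    simp only [hXn]
  · -- injs
    intro k l hk hl hkl
    have hkl' : nb (X k) = nb (X l) := hkl
    have h1 := hdart k
    have h2 := hdart l
    rw [hkl'] at h1
    exact hXinj k l hk hl (Subtype.ext (dart_unique h h1 h2).1)
  · intro k l hk hl hkl
    exact hXinj k l hk hl (Subtype.ext hkl)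
  · -- alls
    intro j hj
    obtain ⟨R, L, hd⟩ := dart_exists h i j hj
    obtain ⟨k, hk, hkR⟩ := hallx R (dart_vertex h hd).1 (hmemR hd)
    refine ⟨k, hk, ?_⟩
    rw [← hkR] at hd
    exact (hmir (X k) j L hd).symm

end Pool.Agent.Helper484.DT
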