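import Pool.Agent.Helper484.DT.Defs
import Pool.Agent.Helper484.DT.P_dart_adj
import Pool.Agent.Helper484.DT.P_rim_exists

set_option autoImplicit false

namespace Pool.Agent.Helper484.DT
open Set Metric Filter
open scoped Topology


theorem p_inj {ι : Type} {T : ι → Set ℂ} {u U : ℝ} (h : CT ι T u U) {p : ι → ℂ}
    {C δ α : ℝ} (hp : GoodP T p C δ α) : Function.Injective p := by
  intro i j hij
  by_contra hne
  obtain ⟨n, s, x, hr⟩ := rim_exists h i
  have h3 := hr.three
  obtain ⟨k, hk, hkj⟩ : ∃ k, Adj T i k ∧ j ≠ k := by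
    by_cases h0 : j = s 0
    · refine ⟨s 1, dart_adj (hr.dart 1), ?_⟩
      intro h1
      have := hr.injs 0 1 (by omega) (by omega) (h0.symm.trans h1)
      omega
    · exact ⟨s 0, dart_adj (hr.dart 0), h0⟩
  obtain ⟨z, hz⟩ := hk.2.nonempty
  have d1 := hp.disp i z hz.1
  have d2 := hp.disp k z hz.2
  have hC := hp.Cpos
  have d3 : dist (p i) (p k) ≤ 8 * C := by
    have := dist_triangle_right (p i) (p k) z
    linarith
  have d4 : dist (p i) (p j) ≤ 8 * C := by
    rw [hij, dist_self]
    linarith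
  have h5 := hp.gen i j k hne hkj hk.1 d4 d3
  have h6 : cr (p j - p i) (p k - p i) = 0 := by
    rw [hij]
    simp [cr]
  rw [h6, abs_zero] at h5
  exact absurd hp.αpos (not_lt.2 h5)

end Pool.Agent.Helper484.DT
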