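import Pool.Agent.Helper484.DT.Defs

set_option autoImplicit false

namespace Pool.Agent.Helper484.DT
open Set Metric Filter
open scoped Topology


theorem fan_cr_le (u v : ℂ) : |cr u v| ≤ ‖u‖ * ‖v‖ := by
  have h1 : cr u v ^ 2 + dt u v ^ 2 = (‖u‖ * ‖v‖) ^ 2 := by
    rw [mul_pow, ← Complex.normSq_eq_norm_sq, ← Complex.normSq_eq_norm_sq, Complex.normSq_apply,
      Complex.normSq_apply]
    unfold cr dt
    ring
  apply abs_le_of_sq_le_sq _ (by positivity)
  nlinarith [sq_nonneg (dt u v)]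

theorem fan_step1 (n : ℕ) (hn : 1 ≤ n) (d : ℕ → ℂ) (hper : ∀ k, d (k + n) = d k) (σ : ℝ)
    (hd : ∀ k, 0 < σ * cr (d k) (d (k + 1))) (z : ℂ) (hz : z ≠ 0) :
    ∃ k, 0 ≤ σ * cr (d k) z ∧ σ * cr (d (k + 1)) z ≤ 0 := by
  by_contra hcon
  push Not at hcon
  have hyper : ∀ m k, d (k + m * n) = d k := by
    intro m
    induction m with
    | zero => intro k; simp
    | succ m ih =>
      intro k
      rw [add_mul, one_mul, ← add_assoc, hper, ih]
  have hsame : ∀ k, 0 < (σ * cr (d k) z) * (σ * cr (d (k + 1)) z) := by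
    by_cases hex : ∃ k0, 0 ≤ σ * cr (d k0) z
    · obtain ⟨k0, hk0⟩ := hex
      have hlater : ∀ j, 0 < σ * cr (d (k0 + 1 + j)) z := by
        intro j
        induction j with
        | zero => exact hcon k0 hk0
        | succ j ih =>
          have := hcon _ ih.le
          rw [← add_assoc]
          exact this
      have hall : ∀ k, 0 < σ * cr (d k) z := by
        intro k
        have h1 : k0 + 1 ≤ k + (k0 + 1) * n := by nlinarith
        obtain ⟨j, hj⟩ := Nat.exists_eq_add_of_le h1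
        rw [← hyper (k0 + 1) k, hj]
        exact hlater j
      intro k
      exact mul_pos (hall k) (hall (k + 1))
    · push Not at hex
      intro k
      exact mul_pos_of_neg_of_neg (hex k) (hex (k + 1))
  have hz2 : 0 < z.re ^ 2 + z.im ^ 2 := by
    have h1 : 0 < Complex.normSq z := Complex.normSq_pos.mpr hz
    rw [Complex.normSq_apply] at h1
    nlinarith
  have hmono : StrictMono fun k => dt (d k) z / (σ * cr (d k) z) := by
    apply strictMono_nat_of_lt_succ
    intro k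
    have h1 := hsame k
    have hid : σ * cr (d k) (d (k + 1)) * (z.re ^ 2 + z.im ^ 2) =
        (σ * cr (d k) z) * dt (d (k + 1)) z - (σ * cr (d (k + 1)) z) * dt (d k) z := by
      unfold cr dt
      ring
    have h2 : 0 < (σ * cr (d k) z) * dt (d (k + 1)) z - (σ * cr (d (k + 1)) z) * dt (d k) z := by
      rw [← hid]
      exact mul_pos (hd k) hz2
    have hne1 : σ * cr (d k) z ≠ 0 := by
      intro h
      rw [h, zero_mul] at h1
      exact lt_irrefl _ h1
    have hne2 : σ * cr (d (k + 1)) z ≠ 0 := by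
      intro h
      rw [h, mul_zero] at h1
      exact lt_irrefl _ h1
    have h3 : dt (d (k + 1)) z / (σ * cr (d (k + 1)) z) - dt (d k) z / (σ * cr (d k) z) =
        ((σ * cr (d k) z) * dt (d (k + 1)) z - (σ * cr (d (k + 1)) z) * dt (d k) z) /
        ((σ * cr (d k) z) * (σ * cr (d (k + 1)) z)) := by
      rw [div_sub_div _ _ hne2 hne1]
      congr 1 <;> ring
    have h4 := div_pos h2 h1
    rw [← h3] at h4
    linarith
  have h0 := hmono (show 0 < n by omega)
  have h1 : d n = d 0 := by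
    have := hper 0
    rwa [zero_add] at this
  simp only [h1, lt_irrefl] at h0

theorem fan (n : ℕ) (hn : 1 ≤ n) (d : ℕ → ℂ) (hper : ∀ k, d (k + n) = d k) (σ : ℝ)
    (hσ : σ = 1 ∨ σ = -1) (hd : ∀ k, 0 < σ * cr (d k) (d (k + 1))) :
    ∃ ρ : ℝ, 0 < ρ ∧ ∀ z : ℂ, ‖z‖ ≤ ρ → ∃ k, z ∈ convexHull ℝ {0, d k, d (k + 1)} := by
  obtain ⟨f, hf⟩ : ∃ f : ℕ → ℝ, f = fun k => σ * cr (d k) (d (k + 1)) /
    (‖d k‖ + ‖d (k + 1)‖ + 1) := ⟨_, rfl⟩
  have hfper : Function.Periodic f n := by
    intro k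
    rw [hf]
    simp only
    rw [show k + n + 1 = (k + 1) + n by ring, hper, hper]
  have hfpos : ∀ k, 0 < f k := by
    intro k
    rw [hf]
    exact div_pos (hd k) (by positivity)
  obtain ⟨k0, hk0, hmin⟩ := Finset.exists_min_image (Finset.range n) f
    ⟨0, Finset.mem_range.mpr (by omega)⟩
  have hmin' : ∀ k, f k0 ≤ f k := by
    intro k
    rw [← hfper.map_mod_nat k]
    exact hmin _ (Finset.mem_range.mpr (Nat.mod_lt _ (by omega)))
  refine ⟨f k0, hfpos k0, ?_⟩
  intro z hz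
  by_cases hz0 : z = 0
  · refine ⟨0, subset_convexHull ℝ _ ?_⟩
    rw [hz0]
    simp
  obtain ⟨k, hk1, hk2⟩ := fan_step1 n hn d hper σ hd z hz0
  refine ⟨k, ?_⟩
  obtain ⟨A, hA⟩ : ∃ A, A = σ * cr (d k) (d (k + 1)) := ⟨_, rfl⟩
  have hApos : 0 < A := by rw [hA]; exact hd k
  obtain ⟨a, ha⟩ : ∃ a, a = -(σ * cr (d (k + 1)) z) / A := ⟨_, rfl⟩
  obtain ⟨b, hb⟩ : ∃ b, b = (σ * cr (d k) z) / A := ⟨_, rfl⟩
  have ha0 : 0 ≤ a := by rw [ha]; exact div_nonneg (by linarith) hApos.le
  have hb0 : 0 ≤ b := by rw [hb]; exact div_nonneg hk1 hApos.le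
  have hσa : |σ| = 1 := by
    rcases hσ with h | h <;> rw [h] <;> norm_num
  have hab : a + b ≤ 1 := by
    have h1 : -(σ * cr (d (k + 1)) z) ≤ ‖d (k + 1)‖ * ‖z‖ := by
      calc -(σ * cr (d (k + 1)) z) ≤ |σ * cr (d (k + 1)) z| := neg_le_abs _
        _ = |cr (d (k + 1)) z| := by rw [abs_mul, hσa, one_mul]
        _ ≤ _ := fan_cr_le _ _
    have h2 : σ * cr (d k) z ≤ ‖d k‖ * ‖z‖ := by
      calc σ * cr (d k) z ≤ |σ * cr (d k) z| := le_abs_self _
        _ = |cr (d k) z| := by rw [abs_mul, hσa, one_mul]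
        _ ≤ _ := fan_cr_le _ _
    rw [ha, hb, ← add_div, div_le_one hApos]
    have h3 : ‖z‖ ≤ A / (‖d k‖ + ‖d (k + 1)‖ + 1) := by
      refine hz.trans ((hmin' k).trans ?_)
      rw [hf, hA]
    rw [le_div_iff₀ (by positivity)] at h3
    nlinarith [norm_nonneg z]
  have hzeq : z = (a : ℂ) * d k + (b : ℂ) * d (k + 1) := by
    have hA0 : A ≠ 0 := hApos.ne'
    have e1 : A * z.re = -(σ * cr (d (k + 1)) z) * (d k).re + (σ * cr (d k) z) * (d (k + 1)).re := by
      rw [hA]
      unfold cr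
      ring
    have e2 : A * z.im = -(σ * cr (d (k + 1)) z) * (d k).im + (σ * cr (d k) z) * (d (k + 1)).im := by
      rw [hA]
      unfold cr
      ring
    apply Complex.ext
    · simp only [Complex.add_re, Complex.re_ofReal_mul]
      rw [ha, hb]
      field_simp
      linarith
    · simp only [Complex.add_im, Complex.im_ofReal_mul]
      rw [ha, hb]
      field_simp
      linarith
  have hconv := convex_convexHull ℝ ({0, d k, d (k + 1)} : Set ℂ)
  have m0 : (0 : ℂ) ∈ convexHull ℝ ({0, d k, d (k + 1)} : Set ℂ) :=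
    subset_convexHull ℝ _ (by simp)
  have m1 : d k ∈ convexHull ℝ ({0, d k, d (k + 1)} : Set ℂ) :=
    subset_convexHull ℝ _ (by simp)
  have m2 : d (k + 1) ∈ convexHull ℝ ({0, d k, d (k + 1)} : Set ℂ) :=
    subset_convexHull ℝ _ (by simp)
  have hs : 0 < a + b := by
    rcases (add_nonneg ha0 hb0).lt_or_eq with h | h
    · exact h
    · exfalso
      have h1 : a = 0 := by linarith
      have h2 : b = 0 := by linarith
      rw [h1, h2] at hzeq
      apply hz0
      rw [hzeq]
      simp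
  have hw := hconv m1 m2 (div_nonneg ha0 hs.le) (div_nonneg hb0 hs.le)
    (by rw [← add_div]; exact div_self hs.ne')
  have hfin := hconv m0 hw (show 0 ≤ 1 - (a + b) by linarith) hs.le (by ring)
  have : (1 - (a + b)) • (0 : ℂ) + (a + b) • ((a / (a + b)) • d k + (b / (a + b)) • d (k + 1)) =
      z := by
    rw [smul_zero, zero_add, smul_add, smul_smul, smul_smul, mul_div_cancel₀ _ hs.ne',
      mul_div_cancel₀ _ hs.ne', hzeq]
    simp only [Complex.real_smul]
  rw [this] at hfin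
  exact hfin

end Pool.Agent.Helper484.DT
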