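import Pool.Agent.Helper484.DT.Defs
import Pool.Agent.Helper484.DT.P_dart_symm
import Pool.Agent.Helper484.DT.P_dart_adj
import Pool.Agent.Helper484.DT.P_dart_unique

set_option autoImplicit false

namespace Pool.Agent.Helper484.DT
open Set Metric Filter
open scoped Topology


theorem corner {ι : Type} {T : ι → Set ℂ} {u U : ℝ} (h : CT ι T u U) {v : ℂ} {n : ℕ}
    {t : ℕ → ι} {r : ℕ → ℂ} (hs : Star T v n t r) {i : ι} {m : ℕ} {s : ℕ → ι} {x : ℕ → ℂ}
    (hr : Rim T i m s x) (k : ℕ) (hk : t (k + 1) = i) :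
    ∃ l, s l = t (k + 2) ∧ s (l + 1) = t k ∧ x (l + 1) = v := by
  have d1 : Dart T i (t (k + 2)) (r (k + 1)) v := by
    have := hs.dart (k + 1)
    rw [hk] at this
    exact this
  have d2 : Dart T i (t k) v (r k) := by
    have := dart_symm (hs.dart k)
    rw [hk] at this
    exact this
  obtain ⟨l, hl, hsl⟩ := hr.alls _ (dart_adj d1)
  obtain ⟨l', hl', hsl'⟩ := hr.alls _ (dart_adj d2)
  have hx1 : x (l + 1) = v := by
    have := hr.dart l
    rw [hsl] at this
    exact (dart_unique h this d1).2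
  have hx2 : x l' = v := by
    have := hr.dart l'
    rw [hsl'] at this
    exact (dart_unique h this d2).1
  refine ⟨l, hsl, ?_, hx1⟩
  have hm := hr.three
  by_cases hlm : l + 1 < m
  · have h1 := hr.injx l' (l + 1) hl' hlm (hx2.trans hx1.symm)
    rw [← h1]
    exact hsl'
  · have h2 : l + 1 = 0 + m := by omega
    rw [h2, hr.perx] at hx1
    have h1 := hr.injx l' 0 hl' (by omega) (hx2.trans hx1.symm)
    rw [h2, hr.pers, ← h1]
    exact hsl'

end Pool.Agent.Helper484.DT
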