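import Pool.Agent.Helper484.DT.Defs
import Pool.Agent.Helper484.DT.P_locfin
import Pool.Agent.Helper484.DT.P_dart_symm
import Pool.Agent.Helper484.DT.P_dart_adj
import Pool.Agent.Helper484.DT.P_dart_exists
import Pool.Agent.Helper484.DT.P_dart_unique
import Pool.Agent.Helper484.DT.P_nbhd
import Pool.Agent.Helper484.DT.P_two_tiles
import Pool.Agent.Helper484.DT.P_dart_vertex
import Pool.Agent.Helper484.DT.P_int_unique
import Pool.Agent.Helper484.DT.P_vfinite
import Pool.Agent.Helper484.DT.P_star_uniq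
import Pool.Agent.Helper484.DT.P_star_two

set_option autoImplicit false

namespace Pool.Agent.Helper484.DT
open Set Metric Filter
open scoped Topology


/-- the punctured disk is preconnected -/
theorem se_punctured (v : ℂ) (r : ℝ) : IsPreconnected (ball v r \ {v}) := by
  have h1 : ball v r \ {v} = (fun q : ℝ × ℝ => v + (q.1 : ℂ) * Complex.exp ((q.2 : ℂ) * Complex.I)) ''
      (Ioo 0 r ×ˢ univ) := by
    ext x
    constructor
    · rintro ⟨hx, hxv⟩
      have hne : x - v ≠ 0 := sub_ne_zero.mpr hxv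
      refine ⟨(‖x - v‖, Complex.arg (x - v)), ⟨⟨norm_pos_iff.mpr hne, ?_⟩, mem_univ _⟩, ?_⟩
      · rw [mem_ball, dist_eq_norm] at hx
        exact hx
      · simp only
        rw [Complex.norm_mul_exp_arg_mul_I]
        ring
    · rintro ⟨⟨ρ, θ⟩, ⟨⟨h0, hr⟩, _⟩, rfl⟩
      simp only at h0 hr
      have hn : ‖(ρ : ℂ) * Complex.exp ((θ : ℂ) * Complex.I)‖ = ρ := by
        rw [norm_mul, Complex.norm_exp_ofReal_mul_I, mul_one, Complex.norm_real, Real.norm_eq_abs,
          abs_of_pos h0]
      refine ⟨?_, ?_⟩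
      · rw [mem_ball, dist_eq_norm]
        simp only [add_sub_cancel_left]
        rw [hn]
        exact hr
      · intro hx
        simp only [mem_singleton_iff, add_eq_left] at hx
        rw [hx, norm_zero] at hn
        linarith
  rw [h1]
  apply IsPreconnected.image
  · exact (isPreconnected_Ioo).prod isPreconnected_univ
  · apply Continuous.continuousOn
    fun_prop

/-- interior points of a tile near a point of the tile -/
theorem se_interior {ι : Type} {T : ι → Set ℂ} {u U : ℝ} (h : CT ι T u U) (v : ℂ)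
    (hv : IsV T v) (b : ι) (hb : v ∈ T b) (r : ℝ) (hr : 0 < r) :
    ∃ x ∈ interior (T b), x ∈ ball v r \ {v} := by
  obtain ⟨w, hw⟩ := h.ball b
  have hwi : w ∈ interior (T b) := by
    rw [mem_interior_iff_mem_nhds]
    exact Filter.mem_of_superset (closedBall_mem_nhds w h.upos) hw
  have hwv : w ≠ v := by
    rintro rfl
    obtain ⟨i, j, k, hij, hjk, hik, hi, hj, hk⟩ := hv
    have h1 := int_unique h b i w hwi hi
    have h2 := int_unique h b j w hwi hj
    exact hij (h1.trans h2.symm)
  have hpos : 0 < ‖w - v‖ := norm_pos_iff.mpr (sub_ne_zero.mpr hwv)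
  obtain ⟨t, ht, ht1, htr⟩ : ∃ t : ℝ, 0 < t ∧ t ≤ 1 ∧ t * ‖w - v‖ < r := by
    refine ⟨min 1 (r / (2 * ‖w - v‖)), by positivity, min_le_left _ _, ?_⟩
    calc min 1 (r / (2 * ‖w - v‖)) * ‖w - v‖ ≤ r / (2 * ‖w - v‖) * ‖w - v‖ :=
          mul_le_mul_of_nonneg_right (min_le_right _ _) hpos.le
      _ = r / 2 := by field_simp
      _ < r := by linarith
  refine ⟨v + t • (w - v), (h.conv b).add_smul_sub_mem_interior hb hwi ⟨ht, ht1⟩, ?_, ?_⟩
  · rw [mem_ball, dist_eq_norm, add_sub_cancel_left, norm_smul, Real.norm_eq_abs, abs_of_pos ht]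
    exact htr
  · intro hx
    rw [mem_singleton_iff, add_eq_left, smul_eq_zero] at hx
    rcases hx with hx | hx
    · linarith
    · exact hwv (sub_eq_zero.mp hx)

theorem star_exists {ι : Type} {T : ι → Set ℂ} {u U : ℝ} (h : CT ι T u U) (v : ℂ)
    (hv : IsV T v) : ∃ (n : ℕ) (t : ℕ → ι) (r : ℕ → ℂ), Star T v n t r := by
  classical
  have hSfin : {i | v ∈ T i}.Finite := by
    obtain ⟨K, hK⟩ := locfin h 0
    refine (hK v).1.subset ?_
    intro i hi
    exact ⟨v, hi, by simp⟩
  have hfinite : Finite {i | v ∈ T i} := hSfin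
  have hex : ∀ i : {i | v ∈ T i}, ∃ j : {i | v ∈ T i}, ∃ R : ℂ, Dart T i j R v := by
    rintro ⟨i, hi⟩
    obtain ⟨⟨j, R, hd⟩, _⟩ := star_two h i v hv hi
    have hj : v ∈ T j := by
      have h1 : v ∈ T i ∩ T j := by
        rw [hd.2.2.1]
        exact right_mem_segment ℝ R v
      exact h1.2
    exact ⟨⟨j, hj⟩, R, hd⟩
  choose nx Rr hnx using hex
  have hsurj : Function.Surjective nx := by
    rintro ⟨i, hi⟩
    obtain ⟨_, ⟨k, L, hd⟩⟩ := star_two h i v hv hi
    have hd' := dart_symm hd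
    have hk : v ∈ T k := by
      have h1 : v ∈ T i ∩ T k := by
        rw [hd.2.2.1]
        exact left_mem_segment ℝ v L
      exact h1.2
    refine ⟨⟨k, hk⟩, ?_⟩
    apply Subtype.ext
    exact (star_uniq h (hnx ⟨k, hk⟩) hd').1
  have hinj : Function.Injective nx := Finite.injective_iff_surjective.mpr hsurj
  obtain ⟨i0, hi0⟩ : ∃ i0 : ι, v ∈ T i0 := h.cover v
  obtain ⟨s0, hs0⟩ : ∃ s0 : {i | v ∈ T i}, s0 = ⟨i0, hi0⟩ := ⟨_, rfl⟩
  have hper : s0 ∈ Function.periodicPts nx := hinj.mem_periodicPts s0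
  have hnpos := Function.minimalPeriod_pos_of_mem_periodicPts hper
  obtain ⟨n, hn⟩ : ∃ n, n = Function.minimalPeriod nx s0 := ⟨_, rfl⟩
  rw [← hn] at hnpos
  have hiter : ∀ k, nx^[k + n] s0 = nx^[k] s0 := by
    intro k
    rw [hn]
    exact Function.iterate_add_minimalPeriod_eq
  -- the orbit
  let O : Set {i | v ∈ T i} := {s | ∃ k, nx^[k] s0 = s}
  have hO1 : ∀ s ∈ O, nx s ∈ O := by
    rintro s ⟨k, rfl⟩
    exact ⟨k + 1, Function.iterate_succ_apply' nx k s0⟩
  have hO2 : ∀ s, nx s ∈ O → s ∈ O := by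
    rintro s ⟨k, hk⟩
    refine ⟨k + (n - 1), ?_⟩
    apply hinj
    rw [← hk, ← Function.iterate_succ_apply' nx, ← hiter k]
    congr 1
    omega
  -- all the tiles are in the orbit
  have hall : ∀ s : {i | v ∈ T i}, s ∈ O := by
    -- radius
    obtain ⟨r1, hr1, hnb⟩ := nbhd h v
    obtain ⟨r2, hr2, hnv⟩ : ∃ r2 : ℝ, 0 < r2 ∧ ∀ x ∈ ball v r2 \ {v}, ¬ IsV T x := by
      have hf := vfinite h v 1
      have hf' : ({w | IsV T w ∧ dist w v ≤ 1} \ {v}).Finite := hf.subset sdiff_subset
      have hcl : IsClosed ({w | IsV T w ∧ dist w v ≤ 1} \ {v}) := hf'.isClosed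
      have hmem : ({w | IsV T w ∧ dist w v ≤ 1} \ {v})ᶜ ∈ 𝓝 v := by
        apply hcl.isOpen_compl.mem_nhds
        simp
      obtain ⟨ε, hε, hball⟩ := Metric.mem_nhds_iff.mp hmem
      refine ⟨min ε 1, by positivity, ?_⟩
      rintro x ⟨hx, hxv⟩ hV
      rw [mem_ball] at hx
      have h1 : x ∈ ball v ε := by
        rw [mem_ball]
        exact hx.trans_le (min_le_left _ _)
      have h2 := hball h1
      apply h2
      exact ⟨⟨hV, (hx.trans_le (min_le_right _ _)).le⟩, hxv⟩
    obtain ⟨r, hr⟩ : ∃ r : ℝ, r = min r1 r2 := ⟨_, rfl⟩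
    have hrpos : 0 < r := by rw [hr]; exact lt_min hr1 hr2
    have hnb' : ∀ x ∈ ball v r, ∀ i, x ∈ T i → v ∈ T i := by
      intro x hx i hi
      apply hnb x _ i hi
      rw [mem_ball] at hx ⊢
      rw [hr] at hx
      exact hx.trans_le (min_le_left _ _)
    have hnv' : ∀ x ∈ ball v r \ {v}, ¬ IsV T x := by
      rintro x ⟨hx, hxv⟩
      apply hnv x ⟨_, hxv⟩
      rw [mem_ball] at hx ⊢
      rw [hr] at hx
      exact hx.trans_le (min_le_right _ _)
    let Q : Set ℂ := ⋃ s ∈ O, T (s : ι)
    have hQclosed : IsClosed Q := by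
      apply Set.Finite.isClosed_biUnion (Set.toFinite O)
      intro s _
      exact (h.comp s).isClosed
    have hopen : ∀ x ∈ ball v r \ {v}, x ∈ Q → x ∈ interior Q := by
      intro x hx hxQ
      simp only [Q, mem_iUnion] at hxQ
      obtain ⟨a, haO, hxa⟩ := hxQ
      rw [mem_interior_iff_mem_nhds]
      by_cases honly : ∀ j, x ∈ T j → j = (a : ι)
      · -- only one tile
        obtain ⟨rx, hrx, hnbx⟩ := nbhd h x
        refine Filter.mem_of_superset (ball_mem_nhds x hrx) ?_
        intro y hy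
        obtain ⟨j, hj⟩ := h.cover y
        have h1 := honly j (hnbx y hy j hj)
        rw [h1] at hj
        simp only [Q, mem_iUnion]
        exact ⟨a, haO, hj⟩
      · push Not at honly
        obtain ⟨b, hxb, hba⟩ := honly
        obtain ⟨R, L, hd, hxo, hnhd⟩ := two_tiles h (a : ι) b (Ne.symm hba) x hxa hxb (hnv' x hx)
        have hbv : v ∈ T b := hnb' x hx.1 b hxb
        have hav : v ∈ T (a : ι) := a.2
        have hvs : v ∈ segment ℝ R L := by
          rw [← hd.2.2.1]
          exact ⟨hav, hbv⟩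
        have hvend : v = R ∨ v = L := by
          by_contra hcon
          push Not at hcon
          have h1 : v ∈ openSegment ℝ R L :=
            mem_openSegment_of_ne_left_right (Ne.symm hcon.1) (Ne.symm hcon.2) hvs
          exact ((dart_vertex h hd).2.2 v h1).1 hv
        have hbO : (⟨b, hbv⟩ : {i | v ∈ T i}) ∈ O := by
          rcases hvend with e | e
          · rw [← e] at hd
            have hd' := dart_symm hd
            apply hO2
            have h1 : nx ⟨b, hbv⟩ = a := by
              apply Subtype.ext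
              exact (star_uniq h (hnx ⟨b, hbv⟩) hd').1
            rw [h1]
            exact haO
          · rw [← e] at hd
            have h1 : nx a = ⟨b, hbv⟩ := by
              apply Subtype.ext
              exact (star_uniq h (hnx a) hd).1
            rw [← h1]
            exact hO1 a haO
        refine Filter.mem_of_superset hnhd ?_
        rintro y (hy | hy)
        · simp only [Q, mem_iUnion]
          exact ⟨a, haO, hy⟩
        · simp only [Q, mem_iUnion]
          exact ⟨⟨b, hbv⟩, hbO, hy⟩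
    have hpc := se_punctured v r
    have hPQ : ball v r \ {v} ⊆ Q := by
      intro x hx
      by_contra hxQ
      have h1 : (ball v r \ {v} ∩ (interior Q ∩ Qᶜ)).Nonempty := by
        apply hpc (interior Q) Qᶜ isOpen_interior hQclosed.isOpen_compl
        · intro y hy
          by_cases hyQ : y ∈ Q
          · exact Or.inl (hopen y hy hyQ)
          · exact Or.inr hyQ
        · obtain ⟨y, hy, hyP⟩ := se_interior h v hv i0 hi0 r hrpos
          refine ⟨y, hyP, hopen y hyP ?_⟩
          simp only [Q, mem_iUnion]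
          refine ⟨s0, ⟨0, rfl⟩, ?_⟩
          rw [hs0]
          exact interior_subset hy
        · exact ⟨x, hx, hxQ⟩
      obtain ⟨y, _, hy1, hy2⟩ := h1
      exact hy2 (interior_subset hy1)
    rintro ⟨b, hb⟩
    obtain ⟨x, hx, hxP⟩ := se_interior h v hv b hb r hrpos
    have hxQ := hPQ hxP
    simp only [Q, mem_iUnion] at hxQ
    obtain ⟨a, haO, hxa⟩ := hxQ
    have h1 := int_unique h b a x hx hxa
    have h2 : a = ⟨b, hb⟩ := Subtype.ext h1
    rw [← h2]
    exact haO
  have hall' : ∀ i, v ∈ T i → ∃ k, k < n ∧ ((nx^[k] s0 : {i | v ∈ T i}) : ι) = i := by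
    intro i hi
    obtain ⟨k, hk⟩ := hall ⟨i, hi⟩
    refine ⟨k % n, Nat.mod_lt _ hnpos, ?_⟩
    rw [hn, Function.iterate_mod_minimalPeriod_eq, hk]
  refine ⟨n, fun k => ((nx^[k] s0 : {i | v ∈ T i}) : ι), fun k => Rr (nx^[k] s0), ?_, ?_, ?_, ?_, ?_, ?_⟩
  · obtain ⟨i, j, k, hij, hjk, hik, hi, hj, hk⟩ := hv
    obtain ⟨ki, hki, ei⟩ := hall' i hi
    obtain ⟨kj, hkj, ej⟩ := hall' j hj
    obtain ⟨kk, hkk, ek⟩ := hall' k hk
    have n1 : ki ≠ kj := by
      rintro rfl
      exact hij (ei.symm.trans ej)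
    have n2 : kj ≠ kk := by
      rintro rfl
      exact hjk (ej.symm.trans ek)
    have n3 : ki ≠ kk := by
      rintro rfl
      exact hik (ei.symm.trans ek)
    omega
  · intro k
    simp only [hiter]
  · intro k
    simp only [hiter]
  · intro k
    simp only [Function.iterate_succ_apply']
    exact hnx _
  · intro k l hk hl hkl
    rw [hn] at hk hl
    exact Function.iterate_injOn_Iio_minimalPeriod hk hl (Subtype.ext hkl)
  · intro i
    constructor
    · exact hall' i
    · rintro ⟨k, _, rfl⟩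
      exact (nx^[k] s0).2

end Pool.Agent.Helper484.DT
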