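import Pool.Agent.Helper484.DT.Defs
import Pool.Agent.Helper484.DT.P_dart_vertex
import Pool.Agent.Helper484.DT.P_star_exists
import Pool.Agent.Helper484.DT.P_rim_exists
import Pool.Agent.Helper484.DT.P_corner

set_option autoImplicit false

namespace Pool.Agent.Helper484.DT
open Set Metric Filter
open scoped Topology


theorem rim_pos {ι : Type} {T : ι → Set ℂ} {u U : ℝ} (h : CT ι T u U) {p : ι → ℂ}
    {C δ α : ℝ} (hp : GoodP T p C δ α) {σ : ℝ} (ho : Orient T p σ) {i : ι} {n : ℕ} {s : ℕ → ι}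
    {x : ℕ → ℂ} (hr : Rim T i n s x) (k : ℕ) :
    0 < σ * cr (p (s k) - p i) (p (s (k + 1)) - p i) := by
  have hd := hr.dart k
  have hv := (dart_vertex h hd).2.1
  obtain ⟨n', t, r, hs⟩ := star_exists h (x (k + 1)) hv
  have hvi : x (k + 1) ∈ T i := by
    have h1 : x (k + 1) ∈ T i ∩ T (s k) := by
      rw [hd.2.2.1]
      exact right_mem_segment ℝ _ _
    exact h1.1
  obtain ⟨k0, hk0, hk0i⟩ := (hs.all i).1 hvi
  have h3 := hs.three
  obtain ⟨a, ha⟩ : ∃ a, a + 1 = k0 + n' := ⟨k0 + n' - 1, by omega⟩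
  have hta : t (a + 1) = i := by rw [ha, hs.pert, hk0i]
  obtain ⟨l, hl1, hl2, hl3⟩ := corner h hs hr a hta
  have hperx : Function.Periodic x n := hr.perx
  have hpers : Function.Periodic s n := hr.pers
  have hpert : Function.Periodic t n' := hs.pert
  have hn3 := hr.three
  have hmod : (l + 1) % n = (k + 1) % n := by
    refine hr.injx _ _ (Nat.mod_lt _ (by omega)) (Nat.mod_lt _ (by omega)) ?_
    rw [hperx.map_mod_nat, hperx.map_mod_nat]
    exact hl3
  have hmod' : l ≡ k [MOD n] := Nat.ModEq.add_right_cancel' 1 hmod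
  have hsl : s l = s k := by
    rw [← hpers.map_mod_nat l, ← hpers.map_mod_nat k]
    exact congrArg s hmod'
  have hsl1 : s (l + 1) = s (k + 1) := by
    rw [← hpers.map_mod_nat (l + 1), ← hpers.map_mod_nat (k + 1), hmod]
  have hne1 : t a ≠ t (a + 1) := (hs.dart a).1
  have hne2 : t a ≠ t (a + 1 + 1) := by
    intro heq
    rw [← hpert.map_mod_nat a, ← hpert.map_mod_nat (a + 1 + 1)] at heq
    have h4 := hs.inj _ _ (Nat.mod_lt _ (by omega)) (Nat.mod_lt _ (by omega)) heq
    have h5 : a ≡ a + 2 [MOD n'] := h4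
    have h6 := (Nat.modEq_iff_dvd' (by omega)).1 h5
    have h7 := Nat.le_of_dvd (by omega) h6
    omega
  have h8 := ho.2 (x (k + 1)) n' t r hs (a + 1) a hne1 hne2
  have h9 : t (a + 1 + 1) = s k := by
    rw [← hsl]
    exact hl1.symm
  rw [h9, hta, ← hl2, hsl1] at h8
  exact h8

end Pool.Agent.Helper484.DT
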