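import Pool.Agent.Helper484.DT.Defs
import Pool.Agent.Helper484.DT.P_dart_vertex
import Pool.Agent.Helper484.DT.P_rim_exists
import Pool.Agent.Helper484.DT.P_rim_pos
import Pool.Agent.Helper484.DT.P_fan

set_option autoImplicit false

namespace Pool.Agent.Helper484.DT
open Set Metric Filter
open scoped Topology


theorem nb_p {ι : Type} {T : ι → Set ℂ} {u U : ℝ} (h : CT ι T u U) {p : ι → ℂ}
    {C δ α : ℝ} (hp : GoodP T p C δ α) {σ : ℝ} (ho : Orient T p σ) (i : ι) :
    {z | ∃ v, IsV T v ∧ v ∈ T i ∧ z ∈ Qd T p v} ∈ 𝓝 (p i) := by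
  obtain ⟨n, s, x, hr⟩ := rim_exists h i
  obtain ⟨ρ, hρ, hf⟩ := fan n (by have := hr.three; omega) (fun k => p (s k) - p i)
    (fun k => by simp only [hr.pers k]) σ ho.1 (fun k => rim_pos h hp ho hr k)
  refine Filter.mem_of_superset (Metric.closedBall_mem_nhds (p i) hρ) ?_
  intro z hz
  rw [mem_closedBall, dist_eq_norm] at hz
  obtain ⟨k, hk⟩ := hf (z - p i) hz
  have hd0 := hr.dart k
  have hd1 := hr.dart (k + 1)
  have h0 : x (k + 1) ∈ T i ∩ T (s k) := by
    rw [hd0.2.2.1]; exact right_mem_segment ℝ _ _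
  have h1 : x (k + 1) ∈ T i ∩ T (s (k + 1)) := by
    rw [hd1.2.2.1]; exact left_mem_segment ℝ _ _
  refine ⟨x (k + 1), (dart_vertex h hd0).2.1, h0.1, ?_⟩
  have hq : Convex ℝ (Qd T p (x (k + 1))) := convex_convexHull ℝ _
  have hmem : ∀ j, x (k + 1) ∈ T j → p j ∈ Qd T p (x (k + 1)) := fun j hj =>
    subset_convexHull ℝ _ ⟨j, hj, rfl⟩
  have hsub : convexHull ℝ {0, p (s k) - p i, p (s (k + 1)) - p i} ⊆
      {y | y + p i ∈ Qd T p (x (k + 1))} := by
    apply convexHull_min
    · intro y hy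
      simp only [mem_insert_iff, mem_singleton_iff] at hy
      rcases hy with rfl | rfl | rfl
      · simpa using hmem i h0.1
      · simpa using hmem _ h0.2
      · simpa using hmem _ h1.2
    · intro a ha b hb α β hα hβ hab
      simp only [mem_setOf_eq] at ha hb ⊢
      have := hq ha hb hα hβ hab
      convert this using 1
      have e : p i = (α + β) • p i := by rw [hab, one_smul]
      nth_rw 1 [e]
      rw [add_smul, smul_add, smul_add]
      abel
  have := hsub hk
  simpa using this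

end Pool.Agent.Helper484.DT
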