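import Pool.Agent.Helper484.DT.Defs
import Pool.Agent.Helper484.DT.P_star_exists

set_option autoImplicit false

namespace Pool.Agent.Helper484.DT
open Set Metric Filter
open scoped Topology


theorem dt_lin (w : ℂ) : IsLinearMap ℝ (dt w) where
  map_add := fun x y => by simp only [dt, Complex.add_re, Complex.add_im]; ring
  map_smul := fun a x => by
    simp only [dt, Complex.real_smul, Complex.mul_re, Complex.mul_im, Complex.ofReal_re,
      Complex.ofReal_im, smul_eq_mul]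
    ring

theorem cross_vertex {ι : Type} {T : ι → Set ℂ} {u U : ℝ} (h : CT ι T u U) {p : ι → ℂ}
    {C δ α : ℝ} (hp : GoodP T p C δ α) (w : ℂ) (hw : ‖w‖ = 1)
    (c : ℝ) (hav : ∀ i, dt w (p i) ≠ c) (v : ℂ) (hv : IsV T v) (z : ℂ) (hz : dt w z = c)
    (hzv : z ∈ Qd T p v) :
    ∃ i j R, Dart T i j R v ∧ dt w (p i) < c ∧ c < dt w (p j) := by
  obtain ⟨n, t, r, hs⟩ := star_exists h v hv
  have hA : ∃ k, k < n ∧ dt w (p (t k)) < c := by
    by_contra hcon
    have hsub : Qd T p v ⊆ {x | c < dt w x} := by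
      apply convexHull_min _ (convex_halfSpace_gt (dt_lin w) c)
      rintro _ ⟨i, hi, rfl⟩
      obtain ⟨k, hk, hki⟩ := (hs.all i).1 hi
      by_contra hlt
      have h1 : dt w (p i) ≤ c := not_lt.1 hlt
      exact hcon ⟨k, hk, by rw [hki]; exact lt_of_le_of_ne h1 (hav i)⟩
    have := hsub hzv
    simp only [Set.mem_setOf_eq] at this
    linarith
  have hB : ∃ k, k < n ∧ c < dt w (p (t k)) := by
    by_contra hcon
    have hsub : Qd T p v ⊆ {x | dt w x < c} := by
      apply convexHull_min _ (convex_halfSpace_lt (dt_lin w) c)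
      rintro _ ⟨i, hi, rfl⟩
      obtain ⟨k, hk, hki⟩ := (hs.all i).1 hi
      by_contra hlt
      have h1 : c ≤ dt w (p i) := not_lt.1 hlt
      exact hcon ⟨k, hk, by rw [hki]; exact lt_of_le_of_ne h1 (hav i).symm⟩
    have := hsub hzv
    simp only [Set.mem_setOf_eq] at this
    linarith
  obtain ⟨k1, hk1, h1⟩ := hA
  obtain ⟨k2, hk2, h2⟩ := hB
  have hex : ∃ m, k1 ≤ m ∧ c < dt w (p (t m)) :=
    ⟨k2 + n, by omega, by rw [hs.pert]; exact h2⟩
  classical
  obtain ⟨m, ⟨hm1, hm2⟩, hmin⟩ : ∃ m, (k1 ≤ m ∧ c < dt w (p (t m))) ∧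
      ∀ m' < m, ¬ (k1 ≤ m' ∧ c < dt w (p (t m'))) :=
    ⟨Nat.find hex, Nat.find_spec hex, fun m' hm' => Nat.find_min hex hm'⟩
  have hne : m ≠ k1 := by
    rintro rfl
    linarith
  have hlt : k1 ≤ m - 1 := by omega
  have h3 := hmin (m - 1) (by omega)
  have h4 : dt w (p (t (m - 1))) < c := by
    have h5 : ¬ c < dt w (p (t (m - 1))) := fun h => h3 ⟨hlt, h⟩
    exact lt_of_le_of_ne (not_lt.1 h5) (hav _)
  have hd := hs.dart (m - 1)
  rw [show m - 1 + 1 = m by omega] at hd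
  exact ⟨t (m - 1), t m, r (m - 1), hd, h4, hm2⟩

end Pool.Agent.Helper484.DT
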