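import Pool.Agent.Helper484.DT.Defs
import Pool.Agent.Helper484.DT.P_dart_symm
import Pool.Agent.Helper484.DT.P_dart_adj
import Pool.Agent.Helper484.DT.P_dart_exists
import Pool.Agent.Helper484.DT.P_dart_unique
import Pool.Agent.Helper484.DT.P_dart_vertex
import Pool.Agent.Helper484.DT.P_int_unique

set_option autoImplicit false

namespace Pool.Agent.Helper484.DT
open Set Metric Filter
open scoped Topology


/-- angle of the edge `[a,b]` seen from `x` -/
noncomputable def cwF (a b x : ℂ) : ℝ := Complex.arg ((b - x) / (a - x))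

theorem cw_slit (a b x : ℂ) (hx : x ∉ segment ℝ a b) : (b - x) / (a - x) ∈ Complex.slitPlane := by
  have ha : a - x ≠ 0 := by
    intro h
    apply hx
    rw [sub_eq_zero] at h
    rw [← h]
    exact left_mem_segment ℝ a b
  by_contra hcon
  rw [Complex.mem_slitPlane_iff] at hcon
  push Not at hcon
  obtain ⟨h1, h2⟩ := hcon
  obtain ⟨r, hr⟩ : ∃ r : ℝ, (b - x) / (a - x) = (r : ℂ) :=
    ⟨((b - x) / (a - x)).re, by apply Complex.ext <;> simp [h2]⟩
  have hr0 : r ≤ 0 := by
    rw [hr] at h1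
    simpa using h1
  have hb : b = x + (r : ℂ) * (a - x) := by
    rw [← hr, div_mul_cancel₀ _ ha]
    ring
  apply hx
  have h3 : (0 : ℝ) < 1 - r := by linarith
  refine ⟨(-r) / (1 - r), 1 / (1 - r), ?_, by positivity, ?_, ?_⟩
  · exact div_nonneg (by linarith) h3.le
  · field_simp
    ring
  · have h4 : (1 : ℂ) - (r : ℂ) ≠ 0 := by
      have : ((1 - r : ℝ) : ℂ) ≠ 0 := Complex.ofReal_ne_zero.2 h3.ne'
      push_cast at this
      exact this
    rw [hb, Complex.real_smul, Complex.real_smul]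
    push_cast
    field_simp
    ring

theorem cw_cont (a b R d : ℂ) (hs : ∀ t ∈ Set.Icc (0 : ℝ) 1, R + t * d ∉ segment ℝ a b) :
    ContinuousOn (fun t : ℝ => cwF a b (R + t * d)) (Set.Icc 0 1) := by
  intro t ht
  have h1 := cw_slit a b _ (hs t ht)
  have ha : a - (R + t * d) ≠ 0 := by
    intro h
    rw [h, div_zero] at h1
    exact Complex.slitPlane_ne_zero h1 rfl
  have h2 : ContinuousAt (fun t : ℝ => (b - (R + t * d)) / (a - (R + t * d))) t := by
    have e1 : ContinuousAt (fun t : ℝ => b - (R + t * d)) t := by fun_prop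
    have e2 : ContinuousAt (fun t : ℝ => a - (R + t * d)) t := by fun_prop
    exact e1.div e2 ha
  have h3 : ContinuousAt Complex.arg ((b - (R + t * d)) / (a - (R + t * d))) :=
    Complex.continuousAt_arg h1
  exact (ContinuousAt.comp (f := fun t : ℝ => (b - (R + t * d)) / (a - (R + t * d))) h3
    h2).continuousWithinAt

theorem cw_int (n : ℕ) (c m : ℕ → ℂ) (x : ℂ) (hc : ∀ k ≤ n, c k ≠ x) (hm : ∀ k < n, m k ≠ x)
    (hcl : c n = c 0) :
    ∃ z : ℤ, ∑ k ∈ Finset.range n, (cwF (c k) (m k) x + cwF (m k) (c (k + 1)) x) =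
      z * (2 * Real.pi) := by
  have h1 : ((∑ k ∈ Finset.range n, (cwF (c k) (m k) x + cwF (m k) (c (k + 1)) x) : ℝ) :
      Real.Angle) = 0 := by
    have h2 : ∀ k ∈ Finset.range n,
        ((cwF (c k) (m k) x + cwF (m k) (c (k + 1)) x : ℝ) : Real.Angle) =
        (Complex.arg (c (k + 1) - x) : Real.Angle) - (Complex.arg (c k - x) : Real.Angle) := by
      intro k hk
      rw [Finset.mem_range] at hk
      unfold cwF
      rw [Real.Angle.coe_add, Complex.arg_div_coe_angle (sub_ne_zero.2 (hm k hk))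
        (sub_ne_zero.2 (hc k hk.le)), Complex.arg_div_coe_angle (sub_ne_zero.2 (hc (k + 1) hk))
        (sub_ne_zero.2 (hm k hk))]
      abel
    have h3 : ((∑ k ∈ Finset.range n, (cwF (c k) (m k) x + cwF (m k) (c (k + 1)) x) : ℝ) :
        Real.Angle) = ∑ k ∈ Finset.range n,
          ((cwF (c k) (m k) x + cwF (m k) (c (k + 1)) x : ℝ) : Real.Angle) :=
      map_sum Real.Angle.coeHom _ _
    rw [h3, Finset.sum_congr rfl h2, Finset.sum_range_sub
      (fun k => (Complex.arg (c k - x) : Real.Angle)), hcl, sub_self]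
  rw [Real.Angle.coe_eq_zero_iff] at h1
  obtain ⟨z, hz⟩ := h1
  exact ⟨z, by rw [← hz, zsmul_eq_mul]⟩

theorem cw_arg_div (z : ℂ) (τ : ℝ) (hτ : τ ≠ 0) :
    (0 < z.im → Complex.arg (z / τ) = Complex.arg z - (if τ < 0 then Real.pi else 0)) ∧
    (z.im < 0 → Complex.arg (z / τ) = Complex.arg z + (if τ < 0 then Real.pi else 0)) := by
  rcases lt_or_gt_of_ne hτ with h | h
  · rw [if_pos h]
    have h1 : z / (τ : ℂ) = -(((-τ)⁻¹ : ℝ) * z) := by
      have : (τ : ℂ) ≠ 0 := Complex.ofReal_ne_zero.2 hτ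
      push_cast
      field_simp
    have h2 : (0 : ℝ) < (-τ)⁻¹ := inv_pos.2 (by linarith)
    have h3 : ((((-τ)⁻¹ : ℝ) : ℂ) * z).im = (-τ)⁻¹ * z.im := Complex.im_ofReal_mul _ _
    constructor
    · intro hz
      rw [h1, Complex.arg_neg_eq_arg_sub_pi_of_im_pos (by rw [h3]; positivity),
        Complex.arg_real_mul _ h2]
    · intro hz
      rw [h1, Complex.arg_neg_eq_arg_add_pi_of_im_neg (by rw [h3]; exact mul_neg_of_pos_of_neg h2 hz),
        Complex.arg_real_mul _ h2]
  · rw [if_neg (not_lt.2 h.le)]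
    have h1 : z / (τ : ℂ) = (((τ)⁻¹ : ℝ) * z) := by
      push_cast
      field_simp
    rw [h1, Complex.arg_real_mul _ (inv_pos.2 h)]
    simp

theorem cw_arg_inv (z : ℂ) (hz : z.im ≠ 0) : Complex.arg z⁻¹ = - Complex.arg z := by
  rw [Complex.arg_inv, if_neg]
  intro h
  rw [Complex.arg_eq_pi_iff] at h
  exact hz h.2

/-- the two edges of a step, on the line of the crossed edge -/
theorem cw_pair (R d ci cj : ℂ) (hd : d ≠ 0) (hi : 0 < ((ci - R) / d).im)
    (hj : ((cj - R) / d).im < 0) (t : ℝ) (ht : t ≠ 1 / 2) :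
    cwF ci (R + (1 / 2 : ℝ) * d) (R + t * d) + cwF (R + (1 / 2 : ℝ) * d) cj (R + t * d) =
      Complex.arg ((cj - (R + t * d)) / d) - Complex.arg ((ci - (R + t * d)) / d) +
        (if 1 / 2 < t then 2 * Real.pi else 0) ∧
    cwF cj (R + (1 / 2 : ℝ) * d) (R + t * d) + cwF (R + (1 / 2 : ℝ) * d) ci (R + t * d) =
      -(Complex.arg ((cj - (R + t * d)) / d) - Complex.arg ((ci - (R + t * d)) / d)) -
        (if 1 / 2 < t then 2 * Real.pi else 0) := by
  obtain ⟨τ, hτ⟩ : ∃ τ : ℝ, τ = 1 / 2 - t := ⟨_, rfl⟩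
  have hτ0 : τ ≠ 0 := by
    rw [hτ]
    intro h
    apply ht
    linarith
  have hτc : (τ : ℂ) ≠ 0 := Complex.ofReal_ne_zero.2 hτ0
  have hm : (R + (1 / 2 : ℝ) * d) - (R + t * d) = τ * d := by
    rw [hτ]
    push_cast
    ring
  have hz : ∀ c : ℂ, (c - (R + t * d)) / d = (c - R) / d - (t : ℂ) := by
    intro c
    field_simp
    ring
  have him : ∀ c : ℂ, ((c - (R + t * d)) / d).im = ((c - R) / d).im := by
    intro c
    rw [hz, Complex.sub_im, Complex.ofReal_im, sub_zero]
  have h1 : ∀ c : ℂ, cwF (R + (1 / 2 : ℝ) * d) c (R + t * d) =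
      Complex.arg (((c - (R + t * d)) / d) / τ) := by
    intro c
    unfold cwF
    rw [hm, div_div, mul_comm (τ : ℂ) d]
  have h2 : ∀ c : ℂ, ((c - R) / d).im ≠ 0 → cwF c (R + (1 / 2 : ℝ) * d) (R + t * d) =
      - Complex.arg (((c - (R + t * d)) / d) / τ) := by
    intro c hc
    rw [← cw_arg_inv]
    · unfold cwF
      rw [hm]
      congr 1
      rw [div_div, inv_div, mul_comm d (τ : ℂ)]
    · rw [Complex.div_ofReal_im, him]
      exact div_ne_zero hc hτ0
  have e1 := (cw_arg_div ((ci - (R + t * d)) / d) τ hτ0).1 (by rw [him]; exact hi)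
  have e2 := (cw_arg_div ((cj - (R + t * d)) / d) τ hτ0).2 (by rw [him]; exact hj)
  have e3 : (τ < 0) ↔ (1 / 2 < t) := by
    rw [hτ]
    constructor <;> intro h <;> linarith
  rw [h1, h1, h2 ci hi.ne', h2 cj hj.ne, e1, e2]
  simp only [e3]
  constructor
  · split_ifs <;> ring
  · split_ifs <;> ring

theorem cw_ivt (G : ℝ → ℝ) (hG : ContinuousOn G (Set.Icc 0 1))
    (hz : ∀ t ∈ Set.Icc (0 : ℝ) 1, t ≠ 1 / 2 → ∃ z : ℤ, G t = z * (2 * Real.pi)) : G 0 = G 1 := by
  by_contra hne
  have hpi := Real.two_pi_pos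
  obtain ⟨a, ha⟩ := hz 0 (by simp) (by norm_num)
  obtain ⟨b, hb⟩ := hz 1 (by simp) (by norm_num)
  have hab : a ≠ b := by
    intro h
    apply hne
    rw [ha, hb, h]
  have hG' : ContinuousOn G (Set.uIcc 0 1) := by rwa [Set.uIcc_of_le zero_le_one]
  have hiv := intermediate_value_uIcc hG'
  rw [Set.uIcc_of_le (zero_le_one (α := ℝ))] at hiv
  have key : ∀ θ : ℝ, 0 < θ → θ < 1 → ∃ t ∈ Set.Icc (0 : ℝ) 1,
      G t = (((min a b : ℤ) : ℝ) + θ) * (2 * Real.pi) := by
    intro θ h0 h1
    have hmem : (((min a b : ℤ) : ℝ) + θ) * (2 * Real.pi) ∈ Set.uIcc (G 0) (G 1) := by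
      rw [Set.mem_uIcc, ha, hb]
      rcases lt_or_gt_of_ne hab with h | h
      · left
        have h2 : (a : ℝ) + 1 ≤ b := by exact_mod_cast h
        rw [min_eq_left h.le]
        constructor <;> apply mul_le_mul_of_nonneg_right _ hpi.le <;> linarith
      · right
        have h2 : (b : ℝ) + 1 ≤ a := by exact_mod_cast h
        rw [min_eq_right h.le]
        constructor <;> apply mul_le_mul_of_nonneg_right _ hpi.le <;> linarith
    exact hiv hmem
  have key2 : ∀ θ : ℝ, 0 < θ → θ < 1 →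
      G (1 / 2) = (((min a b : ℤ) : ℝ) + θ) * (2 * Real.pi) := by
    intro θ h0 h1
    obtain ⟨t, ht, hGt⟩ := key θ h0 h1
    by_cases h : t = 1 / 2
    · rwa [h] at hGt
    · exfalso
      obtain ⟨z, hz⟩ := hz t ht h
      rw [hz] at hGt
      have h2 := mul_right_cancel₀ hpi.ne' hGt
      have h3 : ((min a b : ℤ) : ℝ) < z := by linarith
      have h4 : (z : ℝ) < ((min a b : ℤ) : ℝ) + 1 := by linarith
      have h5 : (min a b : ℤ) < z := by exact_mod_cast h3
      have h6 : z < (min a b : ℤ) + 1 := by exact_mod_cast h4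
      omega
  have h1 := key2 (1 / 3) (by norm_num) (by norm_num)
  have h2 := key2 (1 / 2) (by norm_num) (by norm_num)
  rw [h1] at h2
  have h3 := mul_right_cancel₀ hpi.ne' h2
  linarith

theorem cw_far (a b : ℂ) : Tendsto (cwF a b) (Bornology.cobounded ℂ) (𝓝 0) := by
  have h1 : Tendsto (fun x : ℂ => a - x) (Bornology.cobounded ℂ) (Bornology.cobounded ℂ) := by
    rw [← tendsto_norm_atTop_iff_cobounded]
    apply tendsto_atTop_mono (f := fun x : ℂ => ‖x‖ - ‖a‖)
    · intro x
      have := norm_sub_norm_le x a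
      rwa [norm_sub_rev] at this
    · exact tendsto_atTop_add_const_right _ (-‖a‖) tendsto_norm_cobounded_atTop
  have h2 : Tendsto (fun x : ℂ => (a - x)⁻¹) (Bornology.cobounded ℂ) (𝓝 0) :=
    tendsto_inv₀_cobounded.comp h1
  have h3 : Tendsto (fun x : ℂ => 1 + (b - a) * (a - x)⁻¹) (Bornology.cobounded ℂ) (𝓝 1) := by
    have := (h2.const_mul (b - a)).const_add 1
    simpa using this
  have h4 : Tendsto (fun x : ℂ => (b - x) / (a - x)) (Bornology.cobounded ℂ) (𝓝 1) := by
    apply h3.congr'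
    have h5 : ∀ᶠ x in Bornology.cobounded ℂ, x ≠ a := by
      have := (Filter.hasBasis_cobounded_norm (E := ℂ)).mem_of_mem (i := ‖a‖ + 1) trivial
      filter_upwards [this] with x hx h
      rw [h] at hx
      have hx' : ‖a‖ + 1 ≤ ‖a‖ := hx
      linarith
    filter_upwards [h5] with x hx
    have : a - x ≠ 0 := sub_ne_zero.2 (Ne.symm hx)
    field_simp
    ring
  have h6 : ContinuousAt Complex.arg 1 := Complex.continuousAt_arg Complex.one_mem_slitPlane
  have h7 := h6.tendsto.comp h4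
  rw [Complex.arg_one] at h7
  exact h7

theorem cw_cr_im (d z : ℂ) : (z / d).im = cr d z / Complex.normSq d := by
  rw [Complex.div_im, cr]
  ring

theorem cw_cr_pos {ι : Type} {T : ι → Set ℂ} {u : ℝ} (hu : 0 < u) {i j : ι} {R L : ℂ}
    (hd : Dart T i j R L) (ci cj : ℂ) (hi : closedBall ci u ⊆ T i) (hj : closedBall cj u ⊆ T j) :
    0 < ((ci - R) / (L - R)).im ∧ ((cj - R) / (L - R)).im < 0 := by
  obtain ⟨-, hRL, -, h1, h2⟩ := hd
  have hd0 : L - R ≠ 0 := sub_ne_zero.2 (Ne.symm hRL)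
  set d := L - R with hdd
  have hnd : 0 < ‖d‖ := norm_pos_iff.2 hd0
  have hns : 0 < Complex.normSq d := Complex.normSq_pos.2 hd0
  have hnorm : ‖((u / ‖d‖ : ℝ) : ℂ) * (Complex.I * d)‖ = u := by
    rw [norm_mul, norm_mul, Complex.norm_I, one_mul, Complex.norm_real,
      Real.norm_of_nonneg (by positivity), div_mul_cancel₀ _ hnd.ne']
  have hcrI : ∀ (s : ℝ) (w : ℂ), cr d (w + s * (Complex.I * d)) =
      cr d w + s * Complex.normSq d := by
    intro s w
    simp only [cr, Complex.add_re, Complex.add_im, Complex.mul_re, Complex.mul_im,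
      Complex.ofReal_re, Complex.ofReal_im, Complex.I_re, Complex.I_im, Complex.normSq_apply]
    ring
  have hpos : 0 < u / ‖d‖ * Complex.normSq d := by positivity
  constructor
  · have h3 := h1 (ci + ((-(u / ‖d‖) : ℝ) : ℂ) * (Complex.I * d)) (hi (by
      rw [mem_closedBall, dist_eq_norm, add_sub_cancel_left]
      push_cast
      rw [neg_mul, norm_neg]
      have := hnorm
      push_cast at this
      exact this.le))
    rw [add_sub_right_comm, hcrI] at h3
    rw [cw_cr_im]
    apply div_pos _ hns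
    linarith
  · have h3 := h2 (cj + (((u / ‖d‖) : ℝ) : ℂ) * (Complex.I * d)) (hj (by
      rw [mem_closedBall, dist_eq_norm, add_sub_cancel_left]
      exact hnorm.le))
    rw [add_sub_right_comm, hcrI] at h3
    rw [cw_cr_im]
    apply div_neg_of_neg_of_pos _ hns
    linarith

theorem cw_m {ι : Type} {T : ι → Set ℂ} {u U : ℝ} (h : CT ι T u U) :
    ∃ m : ι → ι → ℂ, ∀ i j R L, Dart T i j R L →
      m i j = R + (1 / 2 : ℝ) * (L - R) ∧ m j i = R + (1 / 2 : ℝ) * (L - R) := by
  classical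
  have key : ∀ i j, ∃ m : ℂ, ∀ R L, Dart T i j R L → m = R + (1 / 2 : ℝ) * (L - R) := by
    intro i j
    by_cases he : ∃ R L, Dart T i j R L
    · obtain ⟨R, L, hd⟩ := he
      refine ⟨R + (1 / 2 : ℝ) * (L - R), fun R' L' hd' => ?_⟩
      obtain ⟨rfl, rfl⟩ := dart_unique h hd hd'
      rfl
    · exact ⟨0, fun R L hd => absurd ⟨R, L, hd⟩ he⟩
  choose m hm using key
  refine ⟨m, fun i j R L hd => ⟨hm i j R L hd, ?_⟩⟩
  rw [hm j i L R (dart_symm hd)]
  push_cast
  ring

theorem cw_not_int {ι : Type} {T : ι → Set ℂ} {u U : ℝ} (h : CT ι T u U) {i j : ι} (hij : i ≠ j)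
    {x : ℂ} (hi : x ∈ T i) (hj : x ∈ T j) (k : ι) : x ∉ interior (T k) := by
  intro hx
  have h1 := int_unique h k i x hx hi
  have h2 := int_unique h k j x hx hj
  exact hij (h1.trans h2.symm)

theorem cw_seg {ι : Type} {T : ι → Set ℂ} {u U : ℝ} (h : CT ι T u U) {i j : ι} (hij : i ≠ j)
    {x : ℂ} (hi : x ∈ T i) (hj : x ∈ T j) (k : ι) (c m : ℂ) (hc : c ∈ interior (T k))
    (hm : m ∈ T k) (hxm : x ≠ m) : x ∉ segment ℝ c m := by
  rintro ⟨a, b, ha, hb, hab, rfl⟩
  rcases ha.lt_or_eq with h0 | h0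
  · exact cw_not_int h hij hi hj k ((h.conv k).combo_interior_self_mem_interior hc hm h0 hb hab)
  · rw [← h0, zero_add] at hab
    apply hxm
    rw [← h0, hab]
    simp

theorem cw_mid {ι : Type} {T : ι → Set ℂ} {u U : ℝ} (h : CT ι T u U) {p q : ι} {R L : ℂ}
    (hd : Dart T p q R L) : R + (1 / 2 : ℝ) * (L - R) ∈ T p ∧ R + (1 / 2 : ℝ) * (L - R) ∈ T q ∧
      ∀ i j : ι, i ≠ j → R + (1 / 2 : ℝ) * (L - R) ∈ T i → R + (1 / 2 : ℝ) * (L - R) ∈ T j →
        (p = i ∧ q = j) ∨ (p = j ∧ q = i) := by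
  have hop : R + (1 / 2 : ℝ) * (L - R) ∈ openSegment ℝ R L := by
    refine ⟨1 / 2, 1 / 2, by norm_num, by norm_num, by norm_num, ?_⟩
    rw [Complex.real_smul, Complex.real_smul]
    push_cast
    ring
  have hmem : R + (1 / 2 : ℝ) * (L - R) ∈ T p ∩ T q := by
    rw [hd.2.2.1]
    exact openSegment_subset_segment ℝ R L hop
  refine ⟨hmem.1, hmem.2, fun i j hij hi hj => ?_⟩
  have hnv := ((dart_vertex h hd).2.2 _ hop).1
  have hpq := hd.1
  have h1 : i = p ∨ i = q := by
    by_contra hcon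
    push Not at hcon
    exact hnv ⟨i, p, q, hcon.1, hpq, hcon.2, hi, hmem.1, hmem.2⟩
  have h2 : j = p ∨ j = q := by
    by_contra hcon
    push Not at hcon
    exact hnv ⟨j, p, q, hcon.1, hpq, hcon.2, hj, hmem.1, hmem.2⟩
  rcases h1 with rfl | rfl
  · rcases h2 with rfl | rfl
    · exact absurd rfl hij
    · exact Or.inl ⟨rfl, rfl⟩
  · rcases h2 with rfl | rfl
    · exact Or.inr ⟨rfl, rfl⟩
    · exact absurd rfl hij

theorem closed_walk {ι : Type} {T : ι → Set ℂ} {u U : ℝ} (h : CT ι T u U) (n : ℕ) (g : ℕ → ι)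
    (hg : ∀ k < n, Adj T (g k) (g (k + 1))) (hc : g n = g 0) :
    ∃ W : ℂ → ℤ, (∀ i j R L, Dart T i j R L →
        W L - W R = ({k | k < n ∧ g k = i ∧ g (k + 1) = j}.ncard : ℤ) -
          ({k | k < n ∧ g k = j ∧ g (k + 1) = i}.ncard : ℤ)) ∧
      ∃ ρ : ℝ, ∀ x : ℂ, ρ ≤ ‖x‖ → W x = 0 := by
  classical
  have hu := h.upos
  have hpi := Real.two_pi_pos
  choose c hcb using h.ball
  have hci : ∀ i, c i ∈ interior (T i) := fun i =>
    interior_mono (hcb i) (interior_maximal ball_subset_closedBall isOpen_ball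
      (mem_ball_self hu))
  obtain ⟨m, hm⟩ := cw_m h
  obtain ⟨S, hS⟩ : ∃ S : ℂ → ℝ, ∀ x, S x = ∑ k ∈ Finset.range n,
      (cwF (c (g k)) (m (g k) (g (k + 1))) x +
        cwF (m (g k) (g (k + 1))) (c (g (k + 1))) x) := ⟨_, fun _ => rfl⟩
  refine ⟨fun x => round (S x / (2 * Real.pi)), ?_, ?_⟩
  · intro i j R L hd
    have hij : i ≠ j := hd.1
    have hRL : R ≠ L := hd.2.1
    have hseg : T i ∩ T j = segment ℝ R L := hd.2.2.1
    have hd0 : L - R ≠ 0 := sub_ne_zero.2 (Ne.symm hRL)
    obtain ⟨him, hjm⟩ := cw_cr_pos hu hd (c i) (c j) (hcb i) (hcb j)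
    have hmij := (hm i j R L hd).1
    have hmji := (hm i j R L hd).2
    obtain ⟨xt, hxt⟩ : ∃ xt : ℝ → ℂ, ∀ t, xt t = R + t * (L - R) := ⟨_, fun _ => rfl⟩
    have hxT : ∀ t ∈ Set.Icc (0 : ℝ) 1, xt t ∈ T i ∧ xt t ∈ T j := by
      intro t ht
      have : xt t ∈ T i ∩ T j := by
        rw [hseg, hxt]
        refine ⟨1 - t, t, by linarith [ht.2], ht.1, by ring, ?_⟩
        rw [Complex.real_smul, Complex.real_smul]
        push_cast
        ring
      exact this
    have hxmid : ∀ t, t ≠ 1 / 2 → xt t ≠ R + (1 / 2 : ℝ) * (L - R) := by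
      intro t ht he
      rw [hxt] at he
      have h1 := mul_right_cancel₀ hd0 (add_left_cancel he)
      exact ht (Complex.ofReal_injective h1)
    -- the midpoints of the steps
    have hmk : ∀ k < n, m (g k) (g (k + 1)) ∈ T (g k) ∧ m (g k) (g (k + 1)) ∈ T (g (k + 1)) ∧
        (m (g k) (g (k + 1)) ∈ T i → m (g k) (g (k + 1)) ∈ T j →
          (g k = i ∧ g (k + 1) = j) ∨ (g k = j ∧ g (k + 1) = i)) := by
      intro k hk
      obtain ⟨R', L', hd'⟩ := dart_exists h _ _ (hg k hk)
      obtain ⟨h1, h2, h3⟩ := cw_mid h hd'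
      rw [(hm _ _ R' L' hd').1]
      exact ⟨h1, h2, fun h4 h5 => h3 i j hij h4 h5⟩
    -- integrality
    have hint : ∀ t ∈ Set.Icc (0 : ℝ) 1, t ≠ 1 / 2 → ∃ z : ℤ, S (xt t) = z * (2 * Real.pi) := by
      intro t ht ht2
      rw [hS]
      refine cw_int n (fun k => c (g k)) (fun k => m (g k) (g (k + 1))) (xt t) ?_ ?_ ?_
      · intro k _ he
        have h1 := hci (g k)
        rw [he] at h1
        exact cw_not_int h hij (hxT t ht).1 (hxT t ht).2 (g k) h1
      · intro k hk he
        have h1 := (hmk k hk).2.2 (by rw [he]; exact (hxT t ht).1) (by rw [he]; exact (hxT t ht).2)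
        apply hxmid t ht2
        rw [← he]
        rcases h1 with ⟨h2, h3⟩ | ⟨h2, h3⟩
        · rw [h2, h3, hmij]
        · rw [h2, h3, hmji]
      · simp only [hc]
    -- the continuous part
    obtain ⟨Q, hQ⟩ : ∃ Q : ℝ → ℝ, ∀ t, Q t = Complex.arg ((c j - xt t) / (L - R)) -
        Complex.arg ((c i - xt t) / (L - R)) := ⟨_, fun _ => rfl⟩
    obtain ⟨P, hP⟩ : ∃ P : ℕ → ℝ → ℝ, ∀ k t, P k t =
        if g k = i ∧ g (k + 1) = j then Q t else
          if g k = j ∧ g (k + 1) = i then -Q t else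
            (cwF (c (g k)) (m (g k) (g (k + 1))) (xt t) +
              cwF (m (g k) (g (k + 1))) (c (g (k + 1))) (xt t)) := ⟨_, fun _ _ => rfl⟩
    have hQc : ContinuousOn Q (Set.Icc 0 1) := by
      have hlin : ∀ z : ℂ, ((z - R) / (L - R)).im ≠ 0 →
          Continuous (fun t : ℝ => Complex.arg ((z - xt t) / (L - R))) := by
        intro z hz
        rw [continuous_iff_continuousAt]
        intro t
        have e0 : (fun t : ℝ => (z - xt t) / (L - R)) =
            fun t : ℝ => (z - R) / (L - R) - (t : ℂ) := by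
          funext t
          rw [hxt]
          field_simp
          ring
        have e1 : ContinuousAt (fun t : ℝ => (z - xt t) / (L - R)) t := by
          rw [e0]
          fun_prop
        have e2 : ((z - xt t) / (L - R)) ∈ Complex.slitPlane := by
          have := congrFun e0 t
          rw [this, Complex.mem_slitPlane_iff]
          right
          rw [Complex.sub_im, Complex.ofReal_im, sub_zero]
          exact hz
        exact ContinuousAt.comp (f := fun t : ℝ => (z - xt t) / (L - R))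
          (Complex.continuousAt_arg e2) e1
      have : Q = fun t => Complex.arg ((c j - xt t) / (L - R)) -
          Complex.arg ((c i - xt t) / (L - R)) := funext hQ
      rw [this]
      exact ((hlin _ hjm.ne).sub (hlin _ him.ne')).continuousOn
    have hPc : ∀ k ∈ Finset.range n, ContinuousOn (P k) (Set.Icc 0 1) := by
      intro k hk
      rw [Finset.mem_range] at hk
      have : P k = fun t => P k t := rfl
      rw [this]
      simp only [hP]
      split_ifs with h1 h2
      · exact hQc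
      · exact hQc.neg
      · have hnm : ∀ t ∈ Set.Icc (0 : ℝ) 1, xt t ≠ m (g k) (g (k + 1)) := by
          intro t ht he
          rcases (hmk k hk).2.2 (by rw [← he]; exact (hxT t ht).1)
            (by rw [← he]; exact (hxT t ht).2) with h3 | h3
          · exact h1 h3
          · exact h2 h3
        simp only [hxt]
        apply ContinuousOn.add
        · apply cw_cont
          intro t ht
          rw [← hxt]
          exact cw_seg h hij (hxT t ht).1 (hxT t ht).2 (g k) _ _ (hci _) (hmk k hk).1 (hnm t ht)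
        · apply cw_cont
          intro t ht
          rw [← hxt, segment_symm]
          exact cw_seg h hij (hxT t ht).1 (hxT t ht).2 (g (k + 1)) _ _ (hci _) (hmk k hk).2.1
            (hnm t ht)
    -- counting
    obtain ⟨Np, hNp⟩ : ∃ Np : ℕ, Np = {k | k < n ∧ g k = i ∧ g (k + 1) = j}.ncard := ⟨_, rfl⟩
    obtain ⟨Nm, hNm⟩ : ∃ Nm : ℕ, Nm = {k | k < n ∧ g k = j ∧ g (k + 1) = i}.ncard := ⟨_, rfl⟩
    have hcount : ∀ (p q : ι), ((Finset.range n).filter (fun k => g k = p ∧ g (k + 1) = q)).card =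
        {k | k < n ∧ g k = p ∧ g (k + 1) = q}.ncard := by
      intro p q
      rw [← Set.ncard_coe_finset]
      congr 1
      ext k
      simp
    have hrel : ∀ t, t ≠ 1 / 2 → S (xt t) = (∑ k ∈ Finset.range n, P k t) +
        (if 1 / 2 < t then 2 * Real.pi else 0) * ((Np : ℝ) - Nm) := by
      intro t ht
      have hsumP : ((Np : ℝ)) = ∑ k ∈ Finset.range n,
          (if g k = i ∧ g (k + 1) = j then (1 : ℝ) else 0) := by
        rw [Finset.sum_boole, hNp, hcount]
      have hsumM : ((Nm : ℝ)) = ∑ k ∈ Finset.range n,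
          (if g k = j ∧ g (k + 1) = i then (1 : ℝ) else 0) := by
        rw [Finset.sum_boole, hNm, hcount]
      rw [hS, hsumP, hsumM, ← Finset.sum_sub_distrib, Finset.mul_sum, ← Finset.sum_add_distrib]
      refine Finset.sum_congr rfl fun k _ => ?_
      rw [hP]
      obtain ⟨q1, q2⟩ := cw_pair R (L - R) (c i) (c j) hd0 him hjm t ht
      by_cases h1 : g k = i ∧ g (k + 1) = j
      · have h2 : ¬ (g k = j ∧ g (k + 1) = i) := fun h2 => hij (h1.1.symm.trans h2.1)
        rw [if_pos h1, if_pos h1, if_neg h2, h1.1, h1.2, hmij, hQ, hxt, q1]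
        ring
      · by_cases h2 : g k = j ∧ g (k + 1) = i
        · rw [if_neg h1, if_pos h2, if_neg h1, if_pos h2, h2.1, h2.2, hmji, hQ, hxt, q2]
          ring
        · rw [if_neg h1, if_neg h2, if_neg h1, if_neg h2]
          ring
    have hG := cw_ivt (fun t => ∑ k ∈ Finset.range n, P k t) (continuousOn_finsetSum _ hPc) (by
      intro t ht ht2
      obtain ⟨z, hz⟩ := hint t ht ht2
      have h1 := hrel t ht2
      rw [hz] at h1
      refine ⟨z - (if 1 / 2 < t then 1 else 0) * ((Np : ℤ) - Nm), ?_⟩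
      have h2 : ∑ k ∈ Finset.range n, P k t = z * (2 * Real.pi) -
        (if 1 / 2 < t then 2 * Real.pi else 0) * ((Np : ℝ) - Nm) := by linarith
      rw [h2]
      split_ifs
      · push_cast
        ring
      · push_cast
        ring)
    have h0 := hrel 0 (by norm_num)
    have h1 := hrel 1 (by norm_num)
    rw [if_neg (by norm_num), hG] at h0
    rw [if_pos (by norm_num)] at h1
    have hx0 : xt 0 = R := by rw [hxt]; simp
    have hx1 : xt 1 = L := by rw [hxt]; simp
    obtain ⟨z0, hz0⟩ := hint 0 (by simp) (by norm_num)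
    obtain ⟨z1, hz1⟩ := hint 1 (by simp) (by norm_num)
    rw [hx0] at h0 hz0
    rw [hx1] at h1 hz1
    have hW0 : round (S R / (2 * Real.pi)) = z0 := by
      rw [hz0, mul_div_cancel_right₀ _ hpi.ne', round_intCast]
    have hW1 : round (S L / (2 * Real.pi)) = z1 := by
      rw [hz1, mul_div_cancel_right₀ _ hpi.ne', round_intCast]
    simp only
    rw [hW0, hW1, ← hNp, ← hNm]
    rw [hz0] at h0
    rw [hz1] at h1
    have h2 : ((z1 : ℝ) - z0) * (2 * Real.pi) = ((Np : ℝ) - Nm) * (2 * Real.pi) := by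
      linarith
    have h3 := mul_right_cancel₀ hpi.ne' h2
    exact_mod_cast h3
  · have h1 : Tendsto S (Bornology.cobounded ℂ) (𝓝 0) := by
      have : S = fun x => ∑ k ∈ Finset.range n,
          (cwF (c (g k)) (m (g k) (g (k + 1))) x +
            cwF (m (g k) (g (k + 1))) (c (g (k + 1))) x) := funext hS
      rw [this]
      have h2 : Tendsto (fun x => ∑ k ∈ Finset.range n,
          (cwF (c (g k)) (m (g k) (g (k + 1))) x +
            cwF (m (g k) (g (k + 1))) (c (g (k + 1))) x)) (Bornology.cobounded ℂ)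
          (𝓝 (∑ k ∈ Finset.range n, ((0 : ℝ) + 0))) := by
        apply tendsto_finsetSum
        intro k _
        exact (cw_far _ _).add (cw_far _ _)
      simpa using h2
    have h2 : ∀ᶠ x in Bornology.cobounded ℂ, |S x| < 1 := by
      have := h1.abs
      rw [abs_zero] at this
      exact this.eventually (gt_mem_nhds one_pos)
    rw [(Filter.hasBasis_cobounded_norm (E := ℂ)).eventually_iff] at h2
    obtain ⟨ρ, -, hρ⟩ := h2
    refine ⟨ρ, fun x hx => ?_⟩
    have h3 := hρ hx
    simp only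
    rw [round_eq_zero_iff]
    rw [abs_lt] at h3
    have h4 := Real.pi_gt_three
    constructor
    · rw [le_div_iff₀ hpi]
      nlinarith
    · rw [div_lt_iff₀ hpi]
      nlinarith

end Pool.Agent.Helper484.DT
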