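import Pool.Agent.Helper484.DT.Defs

set_option autoImplicit false

namespace Pool.Agent.Helper484.DT
open Set Metric Filter
open scoped Topology


theorem cross_point {ι : Type} (p : ι → ℂ) (w : ℂ) (hw : ‖w‖ = 1) (c : ℝ) (i j : ι)
    (hi : dt w (p i) < c) (hj : c < dt w (p j)) :
    (c : ℂ) * w + (cs p w c i j : ℂ) * (Complex.I * w) ∈ openSegment ℝ (p i) (p j) ∧
    ∀ s : ℝ, (c : ℂ) * w + (s : ℂ) * (Complex.I * w) ∈ segment ℝ (p i) (p j) →
      s = cs p w c i j := by
  have hw2 : w.re * w.re + w.im * w.im = 1 := by
    have h := Complex.normSq_eq_norm_sq w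
    rw [hw, Complex.normSq_apply] at h
    linarith
  obtain ⟨τ, hτ⟩ : ∃ τ : ℝ, τ = (c - dt w (p i)) / (dt w (p j) - dt w (p i)) := ⟨_, rfl⟩
  have hD : 0 < dt w (p j) - dt w (p i) := by linarith
  have hτ0 : 0 < τ := by rw [hτ]; exact div_pos (by linarith) hD
  have hτ1 : τ < 1 := by rw [hτ, div_lt_one hD]; linarith
  have hτD : τ * (dt w (p j) - dt w (p i)) = c - dt w (p i) := by
    rw [hτ]; field_simp
  have hcs : cs p w c i j = w.re * ((p i).im + τ * ((p j).im - (p i).im)) -
      w.im * ((p i).re + τ * ((p j).re - (p i).re)) := by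
    unfold cs cr
    rw [← hτ]
    simp
  have hc : c = w.re * ((p i).re + τ * ((p j).re - (p i).re)) +
      w.im * ((p i).im + τ * ((p j).im - (p i).im)) := by
    unfold dt at hτD
    linear_combination -hτD
  constructor
  · refine ⟨1 - τ, τ, by linarith, hτ0, by ring, ?_⟩
    apply Complex.ext
    · simp only [Complex.add_re, Complex.real_smul, Complex.mul_re, Complex.ofReal_re,
        Complex.ofReal_im, Complex.I_re, Complex.I_im, Complex.mul_im]
      rw [hcs]
      linear_combination (-w.re) * hc - ((p i).re + τ * ((p j).re - (p i).re)) * hw2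
    · simp only [Complex.add_im, Complex.real_smul, Complex.mul_re, Complex.ofReal_re,
        Complex.ofReal_im, Complex.I_re, Complex.I_im, Complex.mul_im]
      rw [hcs]
      linear_combination (-w.im) * hc - ((p i).im + τ * ((p j).im - (p i).im)) * hw2
  · rintro s ⟨α, β, hα, hβ, hαβ, hz⟩
    have hre := congrArg Complex.re hz
    have him := congrArg Complex.im hz
    simp only [Complex.add_re, Complex.add_im, Complex.real_smul, Complex.mul_re,
      Complex.ofReal_re, Complex.ofReal_im, Complex.I_re, Complex.I_im, Complex.mul_im] at hre him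
    have hα' : α = 1 - β := by linarith
    subst hα'
    have h3 : β * (dt w (p j) - dt w (p i)) = c - dt w (p i) := by
      unfold dt
      linear_combination w.re * hre + w.im * him + c * hw2
    have hβτ : β = τ := by
      rw [hτ, eq_div_iff hD.ne']
      exact h3
    subst hβτ
    rw [hcs]
    linear_combination (-s) * hw2 - w.re * him + w.im * hre

end Pool.Agent.Helper484.DT
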