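import Pool.Agent.Helper484.DT.Defs
import Pool.Agent.Helper484.DT.P_locfin
import Pool.Agent.Helper484.DT.P_dart_adj
import Pool.Agent.Helper484.DT.P_nbhd
import Pool.Agent.Helper484.DT.P_two_tiles
import Pool.Agent.Helper484.DT.P_int_unique
import Pool.Agent.Helper484.DT.P_vcountable

set_option autoImplicit false

namespace Pool.Agent.Helper484.DT
open Set Metric Filter
open scoped Topology


theorem exists_int_pt {ι : Type} {T : ι → Set ℂ} {u U : ℝ} (h : CT ι T u U) {Ω : Set ℂ}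
    (hΩ : IsOpen Ω) {i : ι} (hi : (T i ∩ Ω).Nonempty) : (interior (T i) ∩ Ω).Nonempty := by
  obtain ⟨x, hx, hxΩ⟩ := hi
  obtain ⟨c, hc⟩ := h.ball i
  have hint : (interior (T i)).Nonempty := by
    refine ⟨c, ?_⟩
    apply interior_mono hc
    exact interior_mono ball_subset_closedBall (by
      rw [isOpen_ball.interior_eq]
      exact mem_ball_self h.upos)
  have hcl : x ∈ closure (interior (T i)) := by
    rw [(h.conv i).closure_interior_eq_closure_of_nonempty_interior hint]
    exact subset_closure hx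
  obtain ⟨y, hy, hy2⟩ := mem_closure_iff.1 hcl Ω hΩ hxΩ
  exact ⟨y, hy2, hy⟩

/-- from `a` not in the countable set `V` one can reach a point of the open set `W` by a segment
which avoids `V` -/
theorem exists_avoid {V : Set ℂ} (hV : V.Countable) {W : Set ℂ} (hW : IsOpen W)
    (hne : W.Nonempty) {a : ℂ} (ha : a ∉ V) : ∃ b ∈ W, ∀ x ∈ segment ℝ a b, x ∉ V := by
  obtain ⟨b₀, hb₀, hb₀a⟩ : ∃ b₀ ∈ W, b₀ ≠ a := by
    by_contra hcon
    push Not at hcon
    obtain ⟨b, hb⟩ := hne
    obtain ⟨r, hr, hball⟩ := Metric.isOpen_iff.1 hW b hb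
    have h1 := hcon b hb
    have h2 := hcon (b + ((r / 2 : ℝ) : ℂ)) (hball (by
      rw [mem_ball, dist_eq_norm, add_sub_cancel_left, Complex.norm_real, Real.norm_eq_abs,
        abs_of_pos (by linarith)]
      linarith))
    rw [h1] at h2
    have h3 := add_eq_left.1 h2
    have h4 : r / 2 = 0 := by exact_mod_cast h3
    linarith
  set d : ℂ := b₀ - a with hd
  have hd0 : d ≠ 0 := sub_ne_zero.2 hb₀a
  have hcont : Continuous fun t : ℝ => a + d * (1 + t * Complex.I) := by fun_prop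
  have h0 : ∀ᶠ t : ℝ in 𝓝 (0 : ℝ), a + d * (1 + (t : ℂ) * Complex.I) ∈ W := by
    apply hcont.continuousAt.eventually
    apply hW.mem_nhds
    have : a + d * (1 + ((0 : ℝ) : ℂ) * Complex.I) = b₀ := by
      rw [hd]
      push_cast
      ring
    change a + d * (1 + ((0 : ℝ) : ℂ) * Complex.I) ∈ W
    rw [this]
    exact hb₀
  obtain ⟨δ, hδ, hball⟩ := Metric.eventually_nhds_iff_ball.1 h0
  have hIoo : ∀ t ∈ Ioo (-δ) δ, a + d * (1 + (t : ℂ) * Complex.I) ∈ W := by
    intro t ht
    apply hball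
    rw [mem_ball, Real.dist_eq, sub_zero, abs_lt]
    exact ht
  by_contra hcon
  push Not at hcon
  have hbad : ∀ t ∈ Ioo (-δ) δ, ∃ v ∈ V, v ∈ segment ℝ a (a + d * (1 + (t : ℂ) * Complex.I)) := by
    intro t ht
    obtain ⟨x, hx, hxV⟩ := hcon _ (hIoo t ht)
    exact ⟨x, hxV, hx⟩
  choose! φ hφ1 hφ2 using hbad
  have hinj : InjOn φ (Ioo (-δ) δ) := by
    intro t ht t' ht' he
    have key : ∀ t ∈ Ioo (-δ) δ, ∃ s : ℝ, s ≠ 0 ∧
        φ t - a = d * ((s : ℂ) * (1 + (t : ℂ) * Complex.I)) := by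
      intro t ht
      have h1 := hφ2 t ht
      rw [segment_eq_image'] at h1
      obtain ⟨s, hs, hs2⟩ := h1
      refine ⟨s, ?_, ?_⟩
      · rintro rfl
        apply ha
        have : φ t = a := by
          rw [← hs2]
          simp
        rw [← this]
        exact hφ1 t ht
      · rw [← hs2]
        simp only [add_sub_cancel_left, Complex.real_smul]
        ring
    obtain ⟨s, hs, h1⟩ := key t ht
    obtain ⟨s', hs', h2⟩ := key t' ht'
    rw [he] at h1
    have h3 := mul_left_cancel₀ hd0 (h1.symm.trans h2)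
    have hre := congrArg Complex.re h3
    have him := congrArg Complex.im h3
    simp at hre him
    rw [← hre] at him
    exact mul_left_cancel₀ hs him
  have hc : (Ioo (-δ) δ).Countable :=
    Set.MapsTo.countable_of_injOn (t := V) (fun t ht => hφ1 t ht) hinj hV
  rw [Cardinal.Real.Ioo_countable_iff] at hc
  linarith

theorem conn_open {ι : Type} {T : ι → Set ℂ} {u U : ℝ} (h : CT ι T u U) (Ω : Set ℂ)
    (hΩ : IsOpen Ω) (hc : Convex ℝ Ω) (i j : ι) (hi : (T i ∩ Ω).Nonempty)
    (hj : (T j ∩ Ω).Nonempty) :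
    Relation.ReflTransGen (fun a b => Adj T a b ∧ (T a ∩ Ω).Nonempty ∧ (T b ∩ Ω).Nonempty) i j := by
  classical
  obtain ⟨a, ha, haΩ⟩ := exists_int_pt h hΩ hi
  have haV : a ∉ {v | IsV T v} := by
    rintro ⟨k, l, m, hkl, -, -, hk, hl, -⟩
    exact hkl ((int_unique h i k a ha hk).trans (int_unique h i l a ha hl).symm)
  obtain ⟨b, hb, hseg⟩ := exists_avoid (vcountable h).1 (isOpen_interior.inter hΩ)
    (exists_int_pt h hΩ hj) haV
  set R := Relation.ReflTransGen
    (fun a b => Adj T a b ∧ (T a ∩ Ω).Nonempty ∧ (T b ∩ Ω).Nonempty) with hR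
  have hsub : segment ℝ a b ⊆ Ω := hc.segment_subset haΩ hb.2
  let P : ℂ → Prop := fun x => ∃ k, x ∈ T k ∧ R i k
  have hloc : ∀ x ∈ segment ℝ a b, ∃ r > 0, ∀ y ∈ ball x r, (P y ↔ P x) := by
    intro x hx
    obtain ⟨r, hr, hnb⟩ := nbhd h x
    refine ⟨r, hr, fun y hy => ⟨?_, ?_⟩⟩
    · rintro ⟨k, hk, hRk⟩
      exact ⟨k, hnb y hy k hk, hRk⟩
    · rintro ⟨k, hk, hRk⟩
      obtain ⟨l, hl⟩ := h.cover y
      refine ⟨l, hl, ?_⟩
      have hxl := hnb y hy l hl
      by_cases hkl : k = l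
      · rw [← hkl]
        exact hRk
      · obtain ⟨R', L, hD, -, -⟩ := two_tiles h k l hkl x hk hxl (hseg x hx)
        exact hRk.tail ⟨dart_adj hD, ⟨x, hk, hsub hx⟩, ⟨x, hxl, hsub hx⟩⟩
  have hcont : ContinuousOn (fun x => if P x then (1 : ℕ) else 0) (segment ℝ a b) := by
    intro x hx
    apply ContinuousAt.continuousWithinAt
    obtain ⟨r, hr, hP⟩ := hloc x hx
    apply (continuousAt_const (y := (if P x then (1 : ℕ) else 0))).congr
    filter_upwards [ball_mem_nhds x hr] with y hy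
    have := hP y hy
    by_cases hPx : P x
    · rw [if_pos hPx, if_pos (this.2 hPx)]
    · rw [if_neg hPx, if_neg (fun h => hPx (this.1 h))]
  have heq := (convex_segment a b).isPreconnected.constant hcont (left_mem_segment ℝ a b)
    (right_mem_segment ℝ a b)
  have hPa : P a := ⟨i, interior_subset ha, Relation.ReflTransGen.refl⟩
  have hPb : P b := by
    by_contra hn
    have heq2 : (if P a then (1 : ℕ) else 0) = (if P b then (1 : ℕ) else 0) := heq
    rw [if_pos hPa, if_neg hn] at heq2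
    exact one_ne_zero heq2
  obtain ⟨k, hk, hRk⟩ := hPb
  have := int_unique h j k b hb.1 hk
  rw [this] at hRk
  exact hRk

end Pool.Agent.Helper484.DT
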