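import Pool.Agent.Helper484.DT.Defs
import Pool.Agent.Helper484.DT.P_conn_open

set_option autoImplicit false

namespace Pool.Agent.Helper484.DT
open Set Metric Filter
open scoped Topology


theorem conn_level {ι : Type} {T : ι → Set ℂ} {u U : ℝ} (h : CT ι T u U) (f : ι → ℝ) (w : ℂ)
    (hw : ‖w‖ = 1) (C : ℝ) (hf : ∀ i, ∀ x ∈ T i, |f i - dt w x| ≤ C)
    (hr : ∀ (i : ι) (M : ℝ), ∃ j, M ≤ f j ∧
      Relation.ReflTransGen (fun a b => Adj T a b ∧ f i ≤ f a ∧ f i ≤ f b) i j) (c : ℝ) :
    ConnIn T {i | c < f i} := by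
  classical
  intro i hi i' hi'
  have hi1 : c < f i := hi
  have hi2 : c < f i' := hi'
  set R : ι → ι → Prop := fun a b => Adj T a b ∧ a ∈ {i | c < f i} ∧ b ∈ {i | c < f i} with hR
  have hsym : ∀ a b, R a b → R b a := by
    intro a b hab
    exact ⟨⟨hab.1.1.symm, by rw [Set.inter_comm]; exact hab.1.2⟩, hab.2.2, hab.2.1⟩
  have rev : ∀ a b, Relation.ReflTransGen R a b → Relation.ReflTransGen R b a := by
    intro a b hab
    induction hab with
    | refl => exact Relation.ReflTransGen.refl
    | tail h1 h2 ih => exact Relation.ReflTransGen.head (hsym _ _ h2) ih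
  have mono : ∀ (Q : ι → ι → Prop), (∀ a b, Q a b → R a b) → ∀ a b,
      Relation.ReflTransGen Q a b → Relation.ReflTransGen R a b := by
    intro Q hQ a b hab
    induction hab with
    | refl => exact Relation.ReflTransGen.refl
    | tail h1 h2 ih => exact Relation.ReflTransGen.tail ih (hQ _ _ h2)
  have up : ∀ i, c < f i → ∃ j, c + 2 * C + 1 ≤ f j ∧ Relation.ReflTransGen R i j := by
    intro i hi
    obtain ⟨j, hj, hij⟩ := hr i (c + 2 * C + 1)
    refine ⟨j, hj, ?_⟩
    exact mono _
      (fun a b hab => ⟨hab.1, lt_of_lt_of_le hi hab.2.1, lt_of_lt_of_le hi hab.2.2⟩) _ _ hij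
  obtain ⟨j, hj, hij⟩ := up i hi1
  obtain ⟨j', hj', hij'⟩ := up i' hi2
  have hne : ∀ a, c + 2 * C + 1 ≤ f a → (T a ∩ {x | c + C < dt w x}).Nonempty := by
    intro a ha
    obtain ⟨x, hx⟩ := h.ball a
    have hxT : x ∈ T a := hx (mem_closedBall_self h.upos.le)
    refine ⟨x, hxT, ?_⟩
    have h1 := abs_le.1 (hf a x hxT)
    show c + C < dt w x
    linarith [h1.2]
  have hcl : ∀ a, (T a ∩ {x | c + C < dt w x}).Nonempty → c < f a := by
    rintro a ⟨x, hxT, hx⟩
    have hx' : c + C < dt w x := hx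
    have h1 := abs_le.1 (hf a x hxT)
    linarith [h1.1]
  have hopen : IsOpen {x : ℂ | c + C < dt w x} := by
    apply isOpen_lt continuous_const
    unfold dt
    fun_prop
  have hconv : Convex ℝ {x : ℂ | c + C < dt w x} := by
    apply convex_halfSpace_gt
    constructor
    · intro x y
      simp only [dt, Complex.add_re, Complex.add_im]
      ring
    · intro a x
      simp only [dt, Complex.real_smul, Complex.mul_re, Complex.mul_im, Complex.ofReal_re,
        Complex.ofReal_im, smul_eq_mul]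
      ring
  have mid := conn_open h {x : ℂ | c + C < dt w x} hopen hconv j j' (hne j hj) (hne j' hj')
  have mid' : Relation.ReflTransGen R j j' :=
    mono _
      (fun a b hab => ⟨hab.1, hcl a hab.2.1, hcl b hab.2.2⟩) _ _ mid
  exact (hij.trans mid').trans (rev _ _ hij')

end Pool.Agent.Helper484.DT
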