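import Pool.Agent.Helper484.DT.Defs

set_option autoImplicit false

namespace Pool.Agent.Helper484.DT
open Set Metric Filter
open scoped Topology


theorem rise_good {ι : Type} {T : ι → Set ℂ} {u U : ℝ} (h : CT ι T u U) {p : ι → ℂ}
    {C δ α : ℝ} (hp : GoodP T p C δ α) (w : ℂ) (hw : ‖w‖ = 1) (i : ι) (M : ℝ) :
    ∃ j, M ≤ dt w (p j) ∧ Relation.ReflTransGen (fun a b => Adj T a b ∧
      dt w (p i) ≤ dt w (p a) ∧ dt w (p i) ≤ dt w (p b)) i j := by
  have step : ∀ n : ℕ, ∃ j, dt w (p i) + n * δ ≤ dt w (p j) ∧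
      Relation.ReflTransGen (fun a b => Adj T a b ∧
        dt w (p i) ≤ dt w (p a) ∧ dt w (p i) ≤ dt w (p b)) i j := by
    intro n
    induction n with
    | zero => exact ⟨i, by simp, Relation.ReflTransGen.refl⟩
    | succ n ih =>
      obtain ⟨j, hj, hr⟩ := ih
      obtain ⟨k, hk, hk'⟩ := hp.hull j w hw
      have h1 : dt w (p k - p j) = dt w (p k) - dt w (p j) := by
        simp only [dt, Complex.sub_re, Complex.sub_im]; ring
      rw [h1] at hk'
      have h0 : 0 < δ := hp.δpos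
      have h2 : 0 ≤ (n : ℝ) * δ := by positivity
      refine ⟨k, ?_, hr.tail ⟨hk, by linarith, by linarith⟩⟩
      push_cast
      linarith
  obtain ⟨n, hn⟩ := exists_nat_gt ((M - dt w (p i)) / δ)
  obtain ⟨j, hj, hr⟩ := step n
  refine ⟨j, ?_, hr⟩
  have h3 : M - dt w (p i) < n * δ := (div_lt_iff₀ hp.δpos).1 hn
  linarith

end Pool.Agent.Helper484.DT
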