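import Pool.Agent.Helper484.DT.Defs
import Pool.Agent.Helper484.DT.P_conn_level
import Pool.Agent.Helper484.DT.P_rise_good

set_option autoImplicit false

namespace Pool.Agent.Helper484.DT
open Set Metric Filter
open scoped Topology


theorem h396_dt_le (w z : ℂ) : |dt w z| ≤ ‖w‖ * ‖z‖ := by
  have e : dt w z = ((starRingEnd ℂ) w * z).re := by
    simp only [dt, Complex.mul_re, Complex.conj_re, Complex.conj_im]
    ring
  rw [e]
  refine (Complex.abs_re_le_norm _).trans ?_
  rw [norm_mul, Complex.norm_conj]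

theorem h396_half {ι : Type} {T : ι → Set ℂ} {u U : ℝ} (h : CT ι T u U) {p : ι → ℂ}
    {C δ α : ℝ} (hp : GoodP T p C δ α) (w : ℂ) (hw : ‖w‖ = 1) (c : ℝ) :
    ConnIn T {i | c < dt w (p i)} := by
  apply conn_level h (fun i => dt w (p i)) w hw C
  · intro i x hx
    have e : dt w (p i) - dt w x = dt w (p i - x) := by
      simp only [dt, Complex.sub_re, Complex.sub_im]; ring
    show |dt w (p i) - dt w x| ≤ C
    rw [e]
    refine (h396_dt_le _ _).trans ?_
    rw [hw, one_mul, ← dist_eq_norm]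
    exact hp.disp i x hx
  · intro i M
    exact rise_good h hp w hw i M

theorem lev_conn {ι : Type} {T : ι → Set ℂ} {u U : ℝ} (h : CT ι T u U) {p : ι → ℂ}
    {C δ α : ℝ} (hp : GoodP T p C δ α) (w : ℂ) (hw : ‖w‖ = 1) (c : ℝ) :
    ConnIn T {i | c < dt w (p i)} ∧ ConnIn T {i | dt w (p i) < c} := by
  refine ⟨h396_half h hp w hw c, ?_⟩
  have h1 := h396_half h hp (-w) (by rw [norm_neg]; exact hw) (-c)
  have e : {i | -c < dt (-w) (p i)} = {i | dt w (p i) < c} := by
    ext i
    have e1 : dt (-w) (p i) = - dt w (p i) := by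
      simp only [dt, Complex.neg_re, Complex.neg_im]; ring
    simp only [Set.mem_setOf_eq, e1]
    exact neg_lt_neg_iff
  rw [e] at h1
  exact h1

end Pool.Agent.Helper484.DT
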