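import Pool.Agent.Helper484.DT.Defs

set_option autoImplicit false

namespace Pool.Agent.Helper484.DT
open Set Metric Filter
open scoped Topology


theorem walk_of {α : Type} {r : α → α → Prop} {a b : α} (h : Relation.ReflTransGen r a b) :
    ∃ (n : ℕ) (g : ℕ → α), g 0 = a ∧ g n = b ∧ ∀ k < n, r (g k) (g (k + 1)) := by
  induction h with
  | refl => exact ⟨0, fun _ => a, rfl, rfl, fun k hk => absurd hk (Nat.not_lt_zero k)⟩
  | @tail b c _ hbc ih =>
    obtain ⟨n, g, h0, hn, hs⟩ := ih
    refine ⟨n + 1, fun k => if k ≤ n then g k else c, ?_, ?_, ?_⟩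
    · change (if 0 ≤ n then g 0 else c) = a
      rw [if_pos (Nat.zero_le n)]
      exact h0
    · change (if n + 1 ≤ n then g (n + 1) else c) = c
      rw [if_neg (by omega)]
    · intro k hk
      change r (if k ≤ n then g k else c) (if k + 1 ≤ n then g (k + 1) else c)
      rw [if_pos (by omega : k ≤ n)]
      by_cases hk' : k + 1 ≤ n
      · rw [if_pos hk']
        exact hs k (by omega)
      · rw [if_neg hk']
        have : k = n := by omega
        rw [this, hn]
        exact hbc

end Pool.Agent.Helper484.DT
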