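import Pool.Agent.Helper484.DT.Defs
import Pool.Agent.Helper484.DT.P_dart_adj
import Pool.Agent.Helper484.DT.P_dart_unique
import Pool.Agent.Helper484.DT.P_closed_walk
import Pool.Agent.Helper484.DT.P_walk_of
import Pool.Agent.Helper484.DT.P_lev_conn
import Pool.Agent.Helper484.DT.P_cross_point

set_option autoImplicit false

namespace Pool.Agent.Helper484.DT
open Set Metric Filter
open scoped Topology


theorem single_chain {ι : Type} {T : ι → Set ℂ} {u U : ℝ} (h : CT ι T u U) {p : ι → ℂ}
    {C δ α : ℝ} (hp : GoodP T p C δ α) {σ : ℝ} (ho : Orient T p σ) (w : ℂ) (hw : ‖w‖ = 1)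
    (c : ℝ) (hav : ∀ i, dt w (p i) ≠ c) (ii jj : ℤ → ι) (V : ℤ → ℂ)
    (hch : ∀ k, Dart T (ii k) (jj k) (V k) (V (k + 1)) ∧
      dt w (p (ii k)) < c ∧ c < dt w (p (jj k)) ∧
      σ * cs p w c (ii k) (jj k) < σ * cs p w c (ii (k + 1)) (jj (k + 1)))
    (ht : Tendsto (fun k => σ * cs p w c (ii k) (jj k)) atTop atTop)
    (hb : Tendsto (fun k => σ * cs p w c (ii k) (jj k)) atBot atBot)
    (i j : ι) (R L : ℂ) (hd : Dart T i j R L) (hi : dt w (p i) < c) (hj : c < dt w (p j)) :
    ∃ k, i = ii k ∧ j = jj k := by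
  classical
  by_contra hcon
  push Not at hcon
  have hadjs : ∀ x y, Adj T x y → Adj T y x := by
    intro x y hxy
    refine ⟨hxy.1.symm, ?_⟩
    rw [inter_comm]
    exact hxy.2
  have hlow : ∀ k, dt w (p (ii k)) < c := fun k => (hch k).2.1
  have hhigh : ∀ k, c < dt w (p (jj k)) := fun k => (hch k).2.2.1
  obtain ⟨hc1, hc2⟩ := lev_conn h hp w hw c
  obtain ⟨a, ga, ga0, gaa, gas⟩ := walk_of (hc1 (jj 0) (hhigh 0) j hj)
  obtain ⟨b, gb, gb0, gbb, gbs⟩ := walk_of (hc2 i hi (ii 0) (hlow 0))
  have gaH : ∀ s ≤ a, c < dt w (p (ga s)) := by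
    intro s hs
    rcases Nat.eq_zero_or_pos s with h0 | h0
    · rw [h0, ga0]; exact hhigh 0
    · have := (gas (s - 1) (by omega)).2.2
      rw [show s - 1 + 1 = s by omega] at this
      exact this
  have gbL : ∀ s ≤ b, dt w (p (gb s)) < c := by
    intro s hs
    rcases Nat.eq_zero_or_pos s with h0 | h0
    · rw [h0, gb0]; exact hi
    · have := (gbs (s - 1) (by omega)).2.2
      rw [show s - 1 + 1 = s by omega] at this
      exact this
  let g : ℕ → ι := fun k => if k = 0 then ii 0 else if k ≤ a + 1 then ga (k - 1) else gb (k - (a + 2))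
  have g0 : g 0 = ii 0 := by simp [g]
  have g1 : ∀ s ≤ a, g (s + 1) = ga s := by
    intro s hs
    simp only [g]
    rw [if_neg (by omega), if_pos (by omega)]
    congr 1
  have g2 : ∀ s, g (s + (a + 2)) = gb s := by
    intro s
    simp only [g]
    rw [if_neg (by omega), if_neg (by omega)]
    congr 1
    omega
  have hgadj : ∀ k < b + (a + 2), Adj T (g k) (g (k + 1)) := by
    intro k hk
    rcases Nat.eq_zero_or_pos k with h0 | h0
    · subst h0
      rw [g0, g1 0 (by omega), ga0]
      exact dart_adj (hch 0).1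
    · rcases Nat.lt_or_ge k (a + 1) with h1 | h1
      · have e1 : g k = ga (k - 1) := by
          have := g1 (k - 1) (by omega)
          rw [show k - 1 + 1 = k by omega] at this
          exact this
        rw [e1, g1 k (by omega)]
        have := (gas (k - 1) (by omega)).1
        rw [show k - 1 + 1 = k by omega] at this
        exact this
      · rcases Nat.eq_or_lt_of_le h1 with h2 | h2
        · rw [← h2, g1 a le_rfl, gaa]
          have e2 : g (a + 1 + 1) = gb 0 := by
            have := g2 0
            rw [show 0 + (a + 2) = a + 1 + 1 by omega] at this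
            exact this
          rw [e2, gb0]
          exact hadjs _ _ (dart_adj hd)
        · have e1 : g k = gb (k - (a + 2)) := by
            have := g2 (k - (a + 2))
            rw [show k - (a + 2) + (a + 2) = k by omega] at this
            exact this
          have e2 : g (k + 1) = gb (k - (a + 2) + 1) := by
            have := g2 (k - (a + 2) + 1)
            rw [show k - (a + 2) + 1 + (a + 2) = k + 1 by omega] at this
            exact this
          rw [e1, e2]
          exact (gbs _ (by omega)).1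
  have hgc : g (b + (a + 2)) = g 0 := by rw [g2, g0, gbb]
  obtain ⟨W, hW, ρ, hρ⟩ := closed_walk h (b + (a + 2)) g hgadj hgc
  -- low to high steps
  have hLH : ∀ l < b + (a + 2), dt w (p (g l)) < c → c < dt w (p (g (l + 1))) → l = 0 := by
    intro l hl h1 h2
    by_contra h0
    rcases Nat.lt_or_ge l (a + 2) with h3 | h3
    · have e1 := g1 (l - 1) (by omega)
      rw [show l - 1 + 1 = l by omega] at e1
      rw [e1] at h1
      exact absurd h1 (not_lt.2 (gaH _ (by omega)).le)
    · have e1 := g2 (l + 1 - (a + 2))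
      rw [show l + 1 - (a + 2) + (a + 2) = l + 1 by omega] at e1
      rw [e1] at h2
      exact absurd h2 (not_lt.2 (gbL _ (by omega)).le)
  have hHL : ∀ l < b + (a + 2), c < dt w (p (g l)) → dt w (p (g (l + 1))) < c → l = a + 1 := by
    intro l hl h1 h2
    by_contra h0
    rcases Nat.eq_zero_or_pos l with h3 | h3
    · rw [h3, g0] at h1
      exact absurd h1 (not_lt.2 (hlow 0).le)
    rcases Nat.lt_or_ge l (a + 2) with h4 | h4
    · have e1 := g1 l (by omega)
      rw [e1] at h2
      exact absurd h2 (not_lt.2 (gaH _ (by omega)).le)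
    · have e1 := g2 (l - (a + 2))
      rw [show l - (a + 2) + (a + 2) = l by omega] at e1
      rw [e1] at h1
      exact absurd h1 (not_lt.2 (gbL _ (by omega)).le)
  have hmono : StrictMono (fun k : ℤ => σ * cs p w c (ii k) (jj k)) :=
    strictMono_int_of_lt_succ fun k => (hch k).2.2.2
  have hB : ∀ k : ℤ, {l | l < b + (a + 2) ∧ g l = jj k ∧ g (l + 1) = ii k}.ncard = 0 := by
    intro k
    rw [Set.ncard_eq_zero ((Set.finite_lt_nat (b + (a + 2))).subset fun l hl => hl.1)]
    rw [Set.eq_empty_iff_forall_notMem]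
    rintro l ⟨h1, h2, h3⟩
    have h4 := hHL l h1 (by rw [h2]; exact hhigh k) (by rw [h3]; exact hlow k)
    subst h4
    rw [g1 a le_rfl, gaa] at h2
    have e2 : g (a + 1 + 1) = gb 0 := by
      have := g2 0
      rw [show 0 + (a + 2) = a + 1 + 1 by omega] at this
      exact this
    rw [e2, gb0] at h3
    exact hcon k h3 h2
  have hA : ∀ k : ℤ, k ≠ 0 → {l | l < b + (a + 2) ∧ g l = ii k ∧ g (l + 1) = jj k}.ncard = 0 := by
    intro k hk
    rw [Set.ncard_eq_zero ((Set.finite_lt_nat (b + (a + 2))).subset fun l hl => hl.1)]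
    rw [Set.eq_empty_iff_forall_notMem]
    rintro l ⟨h1, h2, h3⟩
    have h4 := hLH l h1 (by rw [h2]; exact hlow k) (by rw [h3]; exact hhigh k)
    subst h4
    rw [g0] at h2
    rw [g1 0 (by omega), ga0] at h3
    apply hk
    apply hmono.injective
    simp only
    rw [← h2, ← h3]
  have hA0 : {l | l < b + (a + 2) ∧ g l = ii 0 ∧ g (l + 1) = jj 0}.ncard = 1 := by
    rw [Set.ncard_eq_one]
    refine ⟨0, ?_⟩
    ext l
    simp only [Set.mem_ofPred_eq, Set.mem_singleton_iff]
    constructor
    · rintro ⟨h1, h2, h3⟩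
      exact hLH l h1 (by rw [h2]; exact hlow 0) (by rw [h3]; exact hhigh 0)
    · rintro rfl
      refine ⟨by omega, g0, ?_⟩
      rw [g1 0 (by omega), ga0]
  have hWk : ∀ k : ℤ, k ≠ 0 → W (V (k + 1)) = W (V k) := by
    intro k hk
    have := hW _ _ _ _ (hch k).1
    rw [hA k hk, hB k] at this
    simp at this
    omega
  have hW0 : W (V 1) = W (V 0) + 1 := by
    have := hW _ _ _ _ (hch 0).1
    rw [hA0, hB 0] at this
    simp at this
    omega
  have hpos : ∀ n : ℕ, W (V (n + 1)) = W (V 1) := by
    intro n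
    induction n with
    | zero => simp
    | succ n ih =>
      rw [← ih]
      have := hWk ((n : ℤ) + 1) (by omega)
      push_cast
      exact this
  have hneg : ∀ n : ℕ, W (V (-(n : ℤ))) = W (V 0) := by
    intro n
    induction n with
    | zero => simp
    | succ n ih =>
      rw [← ih]
      have := hWk (-((n : ℤ) + 1)) (by omega)
      rw [show -((n : ℤ) + 1) + 1 = -(n : ℤ) by ring] at this
      push_cast
      rw [this]
  -- norms
  have hσ : |σ| = 1 := by
    rcases ho.1 with h1 | h1 <;> rw [h1] <;> simp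
  have hnorm : ∀ k, |σ * cs p w c (ii k) (jj k)| - |c| - C ≤ ‖V k‖ := by
    intro k
    have hVmem : V k ∈ T (ii k) ∩ T (jj k) := by
      rw [(hch k).1.2.2.1]
      exact left_mem_segment ℝ _ _
    have h1 : p (ii k) ∈ closedBall (V k) C := by
      rw [mem_closedBall]
      exact hp.disp _ _ hVmem.1
    have h2 : p (jj k) ∈ closedBall (V k) C := by
      rw [mem_closedBall]
      exact hp.disp _ _ hVmem.2
    have h3 := (cross_point p w hw c (ii k) (jj k) (hlow k) (hhigh k)).1
    have h4 := (convex_closedBall (V k) C).segment_subset h1 h2 (openSegment_subset_segment ℝ _ _ h3)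
    rw [mem_closedBall, dist_eq_norm] at h4
    set s := cs p w c (ii k) (jj k) with hs
    have h5 : |s| - |c| ≤ ‖(c : ℂ) * w + (s : ℂ) * (Complex.I * w)‖ := by
      have e1 : ‖(s : ℂ) * (Complex.I * w)‖ = |s| := by
        rw [norm_mul, norm_mul, Complex.norm_I, hw]
        simp
      have e2 : ‖(c : ℂ) * w‖ = |c| := by
        rw [norm_mul, hw]
        simp
      have e3 := norm_sub_le ((c : ℂ) * w + (s : ℂ) * (Complex.I * w)) ((c : ℂ) * w)
      rw [add_sub_cancel_left, e1, e2] at e3
      linarith
    have h6 : |σ * s| = |s| := by rw [abs_mul, hσ, one_mul]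
    rw [h6]
    have h7 := norm_sub_norm_le ((c : ℂ) * w + (s : ℂ) * (Complex.I * w)) (V k)
    linarith
  obtain ⟨k, hk1, hk2⟩ := ((ht.eventually_ge_atTop (ρ + |c| + C)).and
    (eventually_ge_atTop (1 : ℤ))).exists
  obtain ⟨k', hk1', hk2'⟩ := ((hb.eventually_le_atBot (-(ρ + |c| + C))).and
    (eventually_le_atBot (0 : ℤ))).exists
  have z1 : W (V k) = 0 := by
    apply hρ
    have := hnorm k
    have := le_abs_self (σ * cs p w c (ii k) (jj k))
    linarith
  have z2 : W (V k') = 0 := by
    apply hρ
    have := hnorm k'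
    have := neg_abs_le (σ * cs p w c (ii k') (jj k'))
    linarith
  have z3 := hpos (k - 1).toNat
  have z4 := hneg (-k').toNat
  rw [show (((k - 1).toNat : ℤ) + 1) = k by omega] at z3
  rw [show (-((-k').toNat : ℤ)) = k' by omega] at z4
  omega
end Pool.Agent.Helper484.DT
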