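import Pool.Agent.Helper484.DT.Defs
import Pool.Agent.Helper484.DT.P_locfin
import Pool.Agent.Helper484.DT.P_cross_point

set_option autoImplicit false

namespace Pool.Agent.Helper484.DT
open Set Metric Filter
open scoped Topology


theorem cross_fin {ι : Type} {T : ι → Set ℂ} {u U : ℝ} (h : CT ι T u U) {p : ι → ℂ}
    {C δ α : ℝ} (hp : GoodP T p C δ α) (w : ℂ) (hw : ‖w‖ = 1) (c : ℝ) (b : ℝ) :
    {e : ι × ι | Adj T e.1 e.2 ∧ dt w (p e.1) < c ∧ c < dt w (p e.2) ∧
      |cs p w c e.1 e.2| ≤ b}.Finite := by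
  obtain ⟨K, hK⟩ := locfin h (|c| + b + 3 * C)
  have hS := (hK 0).1
  refine (hS.prod hS).subset ?_
  rintro ⟨i, j⟩ ⟨hA, hi, hj, hb⟩
  obtain ⟨x, hxi, hxj⟩ := hA.2.nonempty
  have hX := (cross_point p w hw c i j hi hj).1
  set X : ℂ := (c : ℂ) * w + (cs p w c i j : ℂ) * (Complex.I * w) with hXd
  have hXn : ‖X‖ ≤ |c| + b := by
    refine (norm_add_le _ _).trans ?_
    rw [norm_mul, norm_mul, norm_mul, hw, Complex.norm_I, Complex.norm_real, Complex.norm_real,
      Real.norm_eq_abs, Real.norm_eq_abs, mul_one, mul_one, mul_one]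
    simp only at hb
    linarith
  have h1 : dist (p i) x ≤ C := hp.disp i x hxi
  have h2 : dist (p j) x ≤ C := hp.disp j x hxj
  have h3 : dist (p j) (p i) ≤ 2 * C := by
    have := dist_triangle_right (p j) (p i) x
    linarith
  have h4 : dist X (p i) ≤ 2 * C := by
    have hseg : segment ℝ (p i) (p j) ⊆ closedBall (p i) (2 * C) :=
      (convex_closedBall (p i) (2 * C)).segment_subset
        (mem_closedBall_self (by have := hp.Cpos; linarith)) (mem_closedBall.2 h3)
    exact mem_closedBall.1 (hseg (openSegment_subset_segment ℝ _ _ hX))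
  have h5 : x ∈ closedBall (0 : ℂ) (|c| + b + 3 * C) := by
    rw [mem_closedBall]
    have e1 := dist_triangle x (p i) 0
    have e2 := dist_triangle (p i) X 0
    rw [dist_comm x (p i)] at e1
    rw [dist_comm (p i) X, dist_zero_right X] at e2
    linarith
  exact ⟨⟨x, hxi, h5⟩, ⟨x, hxj, h5⟩⟩

end Pool.Agent.Helper484.DT
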