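import Pool.Agent.Helper484.DT.Defs

set_option autoImplicit false

namespace Pool.Agent.Helper484.DT
open Set Metric Filter
open scoped Topology


theorem poly_cr_comb (e p x y : ℂ) (a b : ℝ) (hab : a + b = 1) :
    cr e ((a • x + b • y) - p) = a * cr e (x - p) + b * cr e (y - p) := by
  unfold cr
  have hb : b = 1 - a := by linarith
  subst hb
  simp only [Complex.sub_re, Complex.sub_im, Complex.add_re, Complex.add_im, Complex.real_smul,
    Complex.mul_re, Complex.mul_im, Complex.ofReal_re, Complex.ofReal_im]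
  ring

theorem poly_id (e1 e2 w : ℂ) :
    (cr e1 e2) • w = (cr w e2) • e1 + (cr e1 w) • e2 := by
  unfold cr
  apply Complex.ext
  · simp only [Complex.add_re, Complex.real_smul,
      Complex.mul_re, Complex.ofReal_re, Complex.ofReal_im]
    ring
  · simp only [Complex.add_im, Complex.real_smul,
      Complex.mul_im, Complex.ofReal_re, Complex.ofReal_im]
    ring

theorem poly_cr_self (e : ℂ) : cr e e = 0 := by
  unfold cr; ring

theorem poly_cr_zero (e : ℂ) : cr e 0 = 0 := by
  unfold cr; simp

theorem poly_cr_add (e x y : ℂ) : cr e (x + y) = cr e x + cr e y := by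
  unfold cr
  simp only [Complex.add_re, Complex.add_im]
  ring

theorem poly_cr_neg (e x : ℂ) : cr x e = - cr e x := by
  unfold cr
  ring

theorem poly_cr_I (e : ℂ) (t : ℝ) : cr e (((t : ℝ) : ℂ) * (Complex.I * e)) = t * ‖e‖ ^ 2 := by
  rw [Complex.sq_norm, Complex.normSq_apply]
  unfold cr
  simp only [Complex.mul_re, Complex.mul_im, Complex.ofReal_re, Complex.ofReal_im, Complex.I_re,
    Complex.I_im]
  ring

theorem poly_cr_cont (e p : ℂ) : Continuous fun z : ℂ => cr e (z - p) := by
  unfold cr
  fun_prop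

theorem poly_part3 (e p q : ℂ) (σ : ℝ) (he : e = q - p) (S : Set ℂ)
    (hS : ∀ x ∈ S, x = p ∨ x = q ∨ 0 < σ * cr e (x - p)) (z : ℂ) (hz : z ∈ convexHull ℝ S)
    (h0 : cr e (z - p) = 0) : z ∈ segment ℝ p q := by
  have hseg : ∀ x ∈ segment ℝ p q, cr e (x - p) = 0 := by
    rintro x ⟨a, b, ha, hb, hab, rfl⟩
    rw [poly_cr_comb e p p q a b hab, sub_self, poly_cr_zero, he, poly_cr_self]
    ring
  have hconv : Convex ℝ (segment ℝ p q ∪ {z | 0 < σ * cr e (z - p)}) := by
    intro x hx y hy a b ha hb hab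
    have key : ∀ x ∈ (segment ℝ p q ∪ {z | 0 < σ * cr e (z - p)}), 0 ≤ σ * cr e (x - p) := by
      rintro x (hx | hx)
      · rw [hseg x hx, mul_zero]
      · exact le_of_lt hx
    have hx0 := key x hx
    have hy0 := key y hy
    by_cases hpos : 0 < σ * cr e ((a • x + b • y) - p)
    · exact Or.inr hpos
    · rw [poly_cr_comb e p x y a b hab] at hpos
      have h1 : 0 ≤ a * (σ * cr e (x - p)) := mul_nonneg ha hx0
      have h2 : 0 ≤ b * (σ * cr e (y - p)) := mul_nonneg hb hy0
      have h3 : a * (σ * cr e (x - p)) = 0 := by nlinarith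
      have h4 : b * (σ * cr e (y - p)) = 0 := by nlinarith
      rcases mul_eq_zero.1 h3 with ha0 | hxz
      · have hb1 : b = 1 := by linarith
        rw [ha0, hb1, zero_smul, one_smul, zero_add]
        exact hy
      · rcases mul_eq_zero.1 h4 with hb0 | hyz
        · have ha1 : a = 1 := by linarith
          rw [hb0, ha1, zero_smul, one_smul, add_zero]
          exact hx
        · have hx' : x ∈ segment ℝ p q := by
            rcases hx with hx | hx
            · exact hx
            · exact absurd hxz (ne_of_gt hx)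
          have hy' : y ∈ segment ℝ p q := by
            rcases hy with hy | hy
            · exact hy
            · exact absurd hyz (ne_of_gt hy)
          exact Or.inl (convex_segment p q hx' hy' ha hb hab)
  have hsub : S ⊆ segment ℝ p q ∪ {z | 0 < σ * cr e (z - p)} := by
    intro x hx
    rcases hS x hx with h | h | h
    · exact Or.inl (h ▸ left_mem_segment ℝ p q)
    · exact Or.inl (h ▸ right_mem_segment ℝ p q)
    · exact Or.inr h
  rcases convexHull_min hsub hconv hz with h | h
  · exact h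
  · have h' : 0 < σ * cr e (z - p) := h
    rw [h0, mul_zero] at h'
    exact absurd h' (lt_irrefl 0)

theorem poly (n : ℕ) (hn : 3 ≤ n) (P : ℕ → ℂ) (hper : ∀ k, P (k + n) = P k) (σ : ℝ)
    (hσ : σ = 1 ∨ σ = -1) (hs : ∀ k l, P l ≠ P k → P l ≠ P (k + 1) →
      0 < σ * cr (P (k + 1) - P k) (P l - P k)) (hne : ∀ k, P (k + 1) ≠ P k)
    (h3 : ∀ k, P (k + 2) ≠ P k) :
    convexHull ℝ (range P) = {z | ∀ k, 0 ≤ σ * cr (P (k + 1) - P k) (z - P k)} ∧
    interior (convexHull ℝ (range P)) = {z | ∀ k, 0 < σ * cr (P (k + 1) - P k) (z - P k)} ∧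
    ∀ k, ∀ z ∈ convexHull ℝ (range P), cr (P (k + 1) - P k) (z - P k) = 0 →
      z ∈ segment ℝ (P k) (P (k + 1)) := by
  have B1 : ∀ k l, 0 ≤ σ * cr (P (k + 1) - P k) (P l - P k) := by
    intro k l
    by_cases h1 : P l = P k
    · rw [h1, sub_self, poly_cr_zero, mul_zero]
    · by_cases h2 : P l = P (k + 1)
      · rw [h2, poly_cr_self, mul_zero]
      · exact (hs k l h1 h2).le
  have hmod : ∀ q k, P (k + n * q) = P k := by
    intro q
    induction q with
    | zero => intro k; rfl
    | succ q ih => intro k; rw [Nat.mul_succ, ← add_assoc, hper, ih]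
  have hmod' : ∀ k, P (k % n) = P k := by
    intro k
    conv_rhs => rw [← Nat.mod_add_div k n, hmod]
  have hmod1 : ∀ k, P (k % n + 1) = P (k + 1) := by
    intro k
    have : k + 1 = (k % n + 1) + n * (k / n) := by
      have := Nat.mod_add_div k n
      omega
    conv_rhs => rw [this, hmod]
  have hfin : (range P).Finite := by
    refine ((Set.finite_Iio n).image P).subset ?_
    rintro _ ⟨k, rfl⟩
    exact ⟨k % n, Nat.mod_lt _ (by omega), hmod' k⟩
  have part1 : convexHull ℝ (range P) = {z | ∀ k, 0 ≤ σ * cr (P (k + 1) - P k) (z - P k)} := by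
    apply Set.Subset.antisymm
    · apply convexHull_min
      · rintro _ ⟨l, rfl⟩ k
        exact B1 k l
      · intro x hx y hy a b ha hb hab k
        rw [poly_cr_comb _ _ x y a b hab]
        have h1 : 0 ≤ a * (σ * cr (P (k + 1) - P k) (x - P k)) := mul_nonneg ha (hx k)
        have h2 : 0 ≤ b * (σ * cr (P (k + 1) - P k) (y - P k)) := mul_nonneg hb (hy k)
        nlinarith
    · intro z hz
      by_contra hzn
      obtain ⟨f, u, hf1, hf2⟩ := geometric_hahn_banach_closed_point (convex_convexHull ℝ (range P))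
        (hfin.isCompact_convexHull ℝ).isClosed hzn
      obtain ⟨_, ⟨m, rfl⟩, hmax⟩ := Set.exists_max_image (range P) f hfin ⟨P 0, 0, rfl⟩
      obtain ⟨k, hk⟩ : ∃ k, m + n = k + 1 := ⟨m + n - 1, by omega⟩
      have hPm : P m = P (k + 1) := by rw [← hk, hper]
      rw [hPm] at hmax
      have hz1 : 0 ≤ σ * cr (P (k + 1) - P k) (z - P k) := hz k
      have hz2 : 0 ≤ σ * cr (P (k + 1 + 1) - P (k + 1)) (z - P (k + 1)) := hz (k + 1)
      have hD : 0 < σ * cr (P (k + 1) - P k) (P (k + 1 + 1) - P k) :=
        hs k (k + 1 + 1) (h3 k) (hne (k + 1))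
      have f1 : f (P k) ≤ f (P (k + 1)) := hmax _ ⟨k, rfl⟩
      have f2 : f (P (k + 1 + 1)) ≤ f (P (k + 1)) := hmax _ ⟨k + 1 + 1, rfl⟩
      have f3 : f (P (k + 1)) < f z := (hf1 _ (subset_convexHull ℝ _ ⟨k + 1, rfl⟩)).trans hf2
      have g1 : cr (P (k + 1) - P k) (z - P k) =
          cr (P (k + 1) - P k) (z - P (k + 1)) := by
        have : z - P k = (z - P (k + 1)) + (P (k + 1) - P k) := by ring
        rw [this, poly_cr_add, poly_cr_self, add_zero]
      have g2 : cr (P (k + 1) - P k) (P (k + 1 + 1) - P k) =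
          cr (P (k + 1) - P k) (P (k + 1 + 1) - P (k + 1)) := by
        have : P (k + 1 + 1) - P k = (P (k + 1 + 1) - P (k + 1)) + (P (k + 1) - P k) := by ring
        rw [this, poly_cr_add, poly_cr_self, add_zero]
      rw [g1] at hz1
      rw [g2] at hD
      have hid := congrArg f (poly_id (P (k + 1) - P k) (P (k + 1 + 1) - P (k + 1)) (z - P (k + 1)))
      rw [map_add, map_smul, map_smul, map_smul, smul_eq_mul, smul_eq_mul, smul_eq_mul,
        map_sub, map_sub, map_sub, poly_cr_neg (P (k + 1 + 1) - P (k + 1)) (z - P (k + 1))] at hid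
      have q1 : 0 ≤ (σ * cr (P (k + 1 + 1) - P (k + 1)) (z - P (k + 1))) *
        (f (P (k + 1)) - f (P k)) := mul_nonneg hz2 (by linarith)
      have q2 : 0 ≤ (σ * cr (P (k + 1) - P k) (z - P (k + 1))) *
        (f (P (k + 1)) - f (P (k + 1 + 1))) := mul_nonneg hz1 (by linarith)
      have q3 : 0 < (σ * cr (P (k + 1) - P k) (P (k + 1 + 1) - P (k + 1))) *
        (f z - f (P (k + 1))) := mul_pos hD (by linarith)
      have q4 : (σ * cr (P (k + 1) - P k) (P (k + 1 + 1) - P (k + 1))) *
        (f z - f (P (k + 1))) = - ((σ * cr (P (k + 1 + 1) - P (k + 1)) (z - P (k + 1))) *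
        (f (P (k + 1)) - f (P k))) - ((σ * cr (P (k + 1) - P k) (z - P (k + 1))) *
        (f (P (k + 1)) - f (P (k + 1 + 1)))) := by
        rw [mul_assoc, hid]
        ring
      linarith
  refine ⟨part1, ?_, ?_⟩
  · apply Set.Subset.antisymm
    · intro z hz k
      have hz' : z ∈ {z | ∀ k, 0 ≤ σ * cr (P (k + 1) - P k) (z - P k)} := by
        rw [← part1]; exact interior_subset hz
      have hz0 : 0 ≤ σ * cr (P (k + 1) - P k) (z - P k) := hz' k
      by_contra hneg
      rw [not_lt] at hneg
      have hv : σ * cr (P (k + 1) - P k) (z - P k) = 0 := le_antisymm hneg hz0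
      obtain ⟨ε, hε, hball⟩ := Metric.mem_nhds_iff.1 (mem_interior_iff_mem_nhds.1 hz)
      have he : P (k + 1) - P k ≠ 0 := sub_ne_zero.2 (hne k)
      have hen : 0 < ‖P (k + 1) - P k‖ := norm_pos_iff.2 he
      have hσ2 : σ * σ = 1 := by rcases hσ with h | h <;> rw [h] <;> norm_num
      have hσn : |σ| = 1 := by rcases hσ with h | h <;> rw [h] <;> norm_num
      set t : ℝ := -(σ * (ε / (2 * ‖P (k + 1) - P k‖))) with ht
      have hmem : z + ((t : ℝ) : ℂ) * (Complex.I * (P (k + 1) - P k)) ∈ ball z ε := by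
        rw [mem_ball, dist_eq_norm, add_sub_cancel_left, norm_mul, norm_mul, Complex.norm_I,
          one_mul, Complex.norm_real, ht, norm_neg, norm_mul, Real.norm_eq_abs σ, hσn, one_mul,
          Real.norm_of_nonneg (by positivity)]
        rw [div_mul_eq_mul_div, div_lt_iff₀ (by positivity)]
        nlinarith
      have h5 : z + ((t : ℝ) : ℂ) * (Complex.I * (P (k + 1) - P k)) ∈
          {z | ∀ k, 0 ≤ σ * cr (P (k + 1) - P k) (z - P k)} := by
        rw [← part1]; exact hball hmem
      have h6 : 0 ≤ σ * cr (P (k + 1) - P k)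
        (z + ((t : ℝ) : ℂ) * (Complex.I * (P (k + 1) - P k)) - P k) := h5 k
      have h7 : z + ((t : ℝ) : ℂ) * (Complex.I * (P (k + 1) - P k)) - P k =
        (z - P k) + ((t : ℝ) : ℂ) * (Complex.I * (P (k + 1) - P k)) := by ring
      rw [h7, poly_cr_add, poly_cr_I, mul_add, hv, zero_add, ht] at h6
      have h8 : σ * (-(σ * (ε / (2 * ‖P (k + 1) - P k‖))) * ‖P (k + 1) - P k‖ ^ 2) =
        - ((σ * σ) * ((ε / (2 * ‖P (k + 1) - P k‖)) * ‖P (k + 1) - P k‖ ^ 2)) := by ring
      rw [h8, hσ2, one_mul] at h6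
      have h9 : 0 < (ε / (2 * ‖P (k + 1) - P k‖)) * ‖P (k + 1) - P k‖ ^ 2 := by positivity
      linarith
    · apply interior_maximal
      · intro z hz
        rw [part1]
        intro k
        exact (hz k).le
      · have : {z | ∀ k, 0 < σ * cr (P (k + 1) - P k) (z - P k)} =
          ⋂ k ∈ Finset.range n, {z | 0 < σ * cr (P (k + 1) - P k) (z - P k)} := by
          ext z
          simp only [Set.mem_iInter, Finset.mem_range]
          constructor
          · intro h k _
            exact h k
          · intro h k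
            have h1 : 0 < σ * cr (P (k % n + 1) - P (k % n)) (z - P (k % n)) :=
              h (k % n) (Nat.mod_lt _ (by omega))
            rw [hmod', hmod1] at h1
            exact h1
        rw [this]
        refine isOpen_biInter_finset fun k _ => ?_
        exact isOpen_lt continuous_const (continuous_const.mul (poly_cr_cont _ _))
  · intro k z hz h0
    refine poly_part3 _ (P k) (P (k + 1)) σ rfl (range P) ?_ z hz h0
    rintro _ ⟨l, rfl⟩
    by_cases h1 : P l = P k
    · exact Or.inl h1
    · by_cases h2 : P l = P (k + 1)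
      · exact Or.inr (Or.inl h2)
      · exact Or.inr (Or.inr (hs k l h1 h2))

end Pool.Agent.Helper484.DT
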