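import Pool.Agent.Helper484.DT.Defs
import Pool.Agent.Helper484.DT.P_poly
import Pool.Agent.Helper484.DT.P_p_inj

set_option autoImplicit false

namespace Pool.Agent.Helper484.DT
open Set Metric Filter
open scoped Topology


theorem qd_star {ι : Type} {T : ι → Set ℂ} {u U : ℝ} (h : CT ι T u U) {p : ι → ℂ}
    {C δ α : ℝ} (hp : GoodP T p C δ α) {σ : ℝ} (ho : Orient T p σ) {v : ℂ} {n : ℕ}
    {t : ℕ → ι} {r : ℕ → ℂ} (hs : Star T v n t r) :
    Qd T p v = convexHull ℝ (range fun k => p (t k)) ∧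
    Qd T p v = {z | ∀ k, 0 ≤ σ * cr (p (t (k + 1)) - p (t k)) (z - p (t k))} ∧
    interior (Qd T p v) = {z | ∀ k, 0 < σ * cr (p (t (k + 1)) - p (t k)) (z - p (t k))} ∧
    ∀ k, ∀ z ∈ Qd T p v, cr (p (t (k + 1)) - p (t k)) (z - p (t k)) = 0 →
      z ∈ segment ℝ (p (t k)) (p (t (k + 1))) := by
  have hinj := p_inj h hp
  have tper : Function.Periodic t n := hs.pert
  have tmod : ∀ k, t (k % n) = t k := tper.map_mod_nat
  have n3 := hs.three
  have hne : ∀ k, t (k + 1) ≠ t k := fun k hk => (hs.dart k).1 hk.symm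
  have h3 : ∀ k, t (k + 2) ≠ t k := by
    intro k hk
    rw [← tmod (k + 2), ← tmod k] at hk
    have h4 := hs.inj _ _ (Nat.mod_lt _ (by omega)) (Nat.mod_lt _ (by omega)) hk
    have h5 : k + 2 ≡ k + 0 [MOD n] := h4
    have h6 : 2 ≡ 0 [MOD n] := Nat.ModEq.add_left_cancel' k h5
    have h7 : 2 % n = 0 % n := h6
    rw [Nat.mod_eq_of_lt (by omega : 2 < n), Nat.zero_mod] at h7
    omega
  have hset : {i | v ∈ T i} = range t := by
    ext i
    constructor
    · intro hi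
      obtain ⟨k, _, hk⟩ := (hs.all i).1 hi
      exact ⟨k, hk⟩
    · rintro ⟨k, rfl⟩
      exact (hs.all (t k)).2 ⟨k % n, Nat.mod_lt _ (by omega), tmod k⟩
  have hQ : Qd T p v = convexHull ℝ (range fun k => p (t k)) := by
    unfold Qd
    rw [hset, ← range_comp]
    rfl
  obtain ⟨a1, a2, a3⟩ := poly n n3 (fun k => p (t k)) (fun k => by simp only [hs.pert]) σ ho.1
    (fun k l h1 h2 => ho.2 v n t r hs k l (fun e => h1 (by simp only [e])) (fun e => h2 (by simp only [e])))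
    (fun k e => hne k (hinj e)) (fun k e => h3 k (hinj e))
  refine ⟨hQ, ?_, ?_, ?_⟩
  · rw [hQ, a1]
  · rw [hQ, a2]
  · rw [hQ]; exact a3

end Pool.Agent.Helper484.DT
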