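import Pool.Agent.Helper484.DT.Defs
import Pool.Agent.Helper484.DT.P_dart_symm
import Pool.Agent.Helper484.DT.P_dart_vertex
import Pool.Agent.Helper484.DT.P_star_uniq
import Pool.Agent.Helper484.DT.P_star_exists
import Pool.Agent.Helper484.DT.P_qd_star

set_option autoImplicit false

namespace Pool.Agent.Helper484.DT
open Set Metric Filter
open scoped Topology


theorem edge_half {ι : Type} {T : ι → Set ℂ} {u U : ℝ} (h : CT ι T u U) {p : ι → ℂ}
    {C δ α : ℝ} (hp : GoodP T p C δ α) {σ : ℝ} (ho : Orient T p σ) {i j : ι} {R L : ℂ}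
    (hd : Dart T i j R L) :
    (∀ z ∈ Qd T p L, 0 ≤ σ * cr (p j - p i) (z - p i)) ∧
    (∀ z ∈ Qd T p R, σ * cr (p j - p i) (z - p i) ≤ 0) ∧
    Qd T p L ∩ Qd T p R = segment ℝ (p i) (p j) := by
  have half : ∀ {i j : ι} {R L : ℂ}, Dart T i j R L →
      (∀ z ∈ Qd T p L, 0 ≤ σ * cr (p j - p i) (z - p i)) ∧
      (∀ z ∈ Qd T p L, cr (p j - p i) (z - p i) = 0 → z ∈ segment ℝ (p i) (p j)) := by
    intro i j R L hd
    have hv := (dart_vertex h hd).2.1
    obtain ⟨n, t, r, hs⟩ := star_exists h L hv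
    have hL : L ∈ T i ∩ T j := by
      rw [hd.2.2.1]
      exact right_mem_segment ℝ R L
    obtain ⟨k, _, hk⟩ := (hs.all i).1 hL.1
    subst hk
    have hj := (star_uniq h hd (hs.dart k)).1
    subst hj
    obtain ⟨_, h2, _, h4⟩ := qd_star h hp ho hs
    refine ⟨?_, ?_⟩
    · intro z hz
      rw [h2] at hz
      exact hz k
    · intro z hz h0
      exact h4 k z hz h0
  have hR : ∀ z ∈ Qd T p R, σ * cr (p j - p i) (z - p i) ≤ 0 := by
    intro z hz
    have h1 := (half (dart_symm hd)).1 z hz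
    have h2 : cr (p i - p j) (z - p j) = - cr (p j - p i) (z - p i) := by
      simp only [cr, Complex.sub_re, Complex.sub_im]
      ring
    rw [h2] at h1
    linarith
  have hL := half hd
  refine ⟨hL.1, hR, ?_⟩
  apply Set.Subset.antisymm
  · rintro z ⟨hz1, hz2⟩
    have h1 := hL.1 z hz1
    have h2 := hR z hz2
    have h3 : σ * cr (p j - p i) (z - p i) = 0 := le_antisymm h2 h1
    have hσ : σ ≠ 0 := by
      rcases ho.1 with h | h <;> rw [h] <;> norm_num
    exact hL.2 z hz1 ((mul_eq_zero.1 h3).resolve_left hσ)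
  · have hmem : ∀ v, v ∈ T i ∩ T j → segment ℝ (p i) (p j) ⊆ Qd T p v := by
      intro v hv
      refine (convex_convexHull ℝ _).segment_subset ?_ ?_
      · exact subset_convexHull ℝ _ ⟨i, hv.1, rfl⟩
      · exact subset_convexHull ℝ _ ⟨j, hv.2, rfl⟩
    intro z hz
    refine ⟨hmem L ?_ hz, hmem R ?_ hz⟩
    · rw [hd.2.2.1]; exact right_mem_segment ℝ R L
    · rw [hd.2.2.1]; exact left_mem_segment ℝ R L

end Pool.Agent.Helper484.DT
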