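import Pool.Agent.Helper484.DT.Defs
import Pool.Agent.Helper484.DT.P_dart_symm
import Pool.Agent.Helper484.DT.P_dart_vertex
import Pool.Agent.Helper484.DT.P_star_uniq
import Pool.Agent.Helper484.DT.P_star_exists
import Pool.Agent.Helper484.DT.P_p_inj
import Pool.Agent.Helper484.DT.P_qd_star
import Pool.Agent.Helper484.DT.P_edge_half
import Pool.Agent.Helper484.DT.P_cross_point

set_option autoImplicit false

namespace Pool.Agent.Helper484.DT
open Set Metric Filter
open scoped Topology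


theorem cn_cr (P Q w : ℂ) (c s s0 : ℝ)
    (hX : (c : ℂ) * w + (s0 : ℂ) * (Complex.I * w) ∈ openSegment ℝ P Q) :
    cr (Q - P) ((c : ℂ) * w + (s : ℂ) * (Complex.I * w) - P) = (s - s0) * (dt w Q - dt w P) := by
  obtain ⟨a, b, _, _, hab, hX⟩ := hX
  have e1 := congrArg Complex.re hX
  have e2 := congrArg Complex.im hX
  simp only [Complex.add_re, Complex.add_im, Complex.mul_re, Complex.mul_im, Complex.ofReal_re,
    Complex.ofReal_im, Complex.I_re, Complex.I_im, Complex.real_smul] at e1 e2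
  unfold cr dt
  simp only [Complex.add_re, Complex.add_im, Complex.mul_re, Complex.mul_im, Complex.ofReal_re,
    Complex.ofReal_im, Complex.I_re, Complex.I_im, Complex.sub_re, Complex.sub_im]
  linear_combination (-(Q.re - P.re)) * e2 + (Q.im - P.im) * e1 +
    ((Q.re - P.re) * P.im - (Q.im - P.im) * P.re) * hab

theorem cn_mem {ι : Type} (T : ι → Set ℂ) (p : ι → ℂ) (L : ℂ) (i : ι) (hi : L ∈ T i) :
    p i ∈ Qd T p L := subset_convexHull ℝ _ ⟨i, hi, rfl⟩

theorem cn_dart_mem {ι : Type} {T : ι → Set ℂ} {i j : ι} {R L : ℂ} (hd : Dart T i j R L) :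
    L ∈ T i ∧ L ∈ T j ∧ R ∈ T i ∧ R ∈ T j := by
  have h1 : L ∈ T i ∩ T j := by
    rw [hd.2.2.1]; exact right_mem_segment ℝ R L
  have h2 : R ∈ T i ∩ T j := by
    rw [hd.2.2.1]; exact left_mem_segment ℝ R L
  exact ⟨h1.1, h1.2, h2.1, h2.2⟩

theorem cn_comb (P Q A B : ℂ) (a b : ℝ) (hab : a + b = 1) :
    cr (Q - P) (a • A + b • B - P) = a * cr (Q - P) (A - P) + b * cr (Q - P) (B - P) := by
  unfold cr
  simp only [Complex.add_re, Complex.add_im, Complex.mul_re, Complex.mul_im, Complex.ofReal_re,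
    Complex.ofReal_im, Complex.sub_re, Complex.sub_im, Complex.real_smul]
  linear_combination ((Q.re - P.re) * P.im - (Q.im - P.im) * P.re) * hab

theorem cn_per {ι : Type} {T : ι → Set ℂ} {v : ℂ} {n : ℕ} {t : ℕ → ι} {r : ℕ → ℂ}
    (hs : Star T v n t r) (a : ℕ) : t (a % n) = t a := by
  have h : ∀ q b, t (b + q * n) = t b := by
    intro q
    induction q with
    | zero => intro b; simp
    | succ q ih =>
      intro b
      have e : b + (q + 1) * n = (b + q * n) + n := by ring
      rw [e, hs.pert, ih]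
  have h2 := h (a / n) (a % n)
  rw [← h2]
  congr 1
  have := Nat.mod_add_div a n
  rw [mul_comm] at this
  omega

theorem cn_mod {ι : Type} {T : ι → Set ℂ} {v : ℂ} {n : ℕ} {t : ℕ → ι} {r : ℕ → ℂ}
    (hs : Star T v n t r) (a b : ℕ) (hab : t a = t b) : a % n = b % n := by
  have hn : 0 < n := by have := hs.three; omega
  apply hs.inj _ _ (Nat.mod_lt _ hn) (Nat.mod_lt _ hn)
  rw [cn_per hs, cn_per hs, hab]

theorem cross_next {ι : Type} {T : ι → Set ℂ} {u U : ℝ} (h : CT ι T u U) {p : ι → ℂ}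
    {C δ α : ℝ} (hp : GoodP T p C δ α) {σ : ℝ} (ho : Orient T p σ) (w : ℂ) (hw : ‖w‖ = 1)
    (c : ℝ) (hav : ∀ i, dt w (p i) ≠ c) {i j : ι} {R L : ℂ} (hd : Dart T i j R L)
    (hi : dt w (p i) < c) (hj : c < dt w (p j)) :
    ∃ i' j' L', Dart T i' j' L L' ∧ dt w (p i') < c ∧ c < dt w (p j') ∧
      σ * cs p w c i j < σ * cs p w c i' j' ∧
      {s : ℝ | (c : ℂ) * w + (s : ℂ) * (Complex.I * w) ∈ Qd T p L} =
        uIcc (cs p w c i j) (cs p w c i' j') := by
  classical
  obtain ⟨n, t, r, hs⟩ := star_exists h L (dart_vertex h hd).2.1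
  obtain ⟨hLi, hLj, -, -⟩ := cn_dart_mem hd
  obtain ⟨k, hk, hki⟩ := (hs.all i).1 hLi
  have hdk := hs.dart k
  rw [hki] at hdk
  obtain ⟨hj1, -⟩ := star_uniq h hd hdk
  -- next crossing
  have hn3 := hs.three
  have hex : ∃ m, k + 1 ≤ m ∧ dt w (p (t (m + 1))) < c := by
    refine ⟨k + n - 1, by omega, ?_⟩
    have e : k + n - 1 + 1 = k + n := by omega
    rw [e, hs.pert, hki]
    exact hi
  obtain ⟨m, ⟨hm1, hm2⟩, hmin⟩ : ∃ m, (k + 1 ≤ m ∧ dt w (p (t (m + 1))) < c) ∧
      ∀ l, l < m → ¬ (k + 1 ≤ l ∧ dt w (p (t (l + 1))) < c) :=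
    ⟨Nat.find hex, Nat.find_spec hex, fun l hl => Nat.find_min hex hl⟩
  have hmn : m + 1 ≤ k + n := by
    by_contra hcon
    apply hmin (k + n - 1) (by omega)
    refine ⟨by omega, ?_⟩
    have e : k + n - 1 + 1 = k + n := by omega
    rw [e, hs.pert, hki]
    exact hi
  have hfm : c < dt w (p (t m)) := by
    rcases Nat.eq_or_lt_of_le hm1 with he | hlt
    · rw [← he, ← hj1]; exact hj
    · have h1 := hmin (m - 1) (by omega)
      have e : m - 1 + 1 = m := by omega
      rw [e] at h1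
      have h2 : ¬ dt w (p (t m)) < c := fun h3 => h1 ⟨by omega, h3⟩
      exact lt_of_le_of_ne (not_lt.1 h2) (Ne.symm (hav _))
  have hd' : Dart T (t (m + 1)) (t m) L (r m) := dart_symm (hs.dart m)
  obtain ⟨-, -, hLi', hLj'⟩ := cn_dart_mem hd'
  have hX0 := (cross_point p w hw c i j hi hj).1
  have hX1 := (cross_point p w hw c (t (m + 1)) (t m) hm2 hfm).1
  set s0 := cs p w c i j with hs0
  set s1 := cs p w c (t (m + 1)) (t m) with hs1
  have hD0 : 0 < dt w (p j) - dt w (p i) := by linarith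
  have hD1 : 0 < dt w (p (t m)) - dt w (p (t (m + 1))) := by linarith
  have hQc : Convex ℝ (Qd T p L) := convex_convexHull ℝ _
  have hm0 : (c : ℂ) * w + (s0 : ℂ) * (Complex.I * w) ∈ Qd T p L :=
    hQc.openSegment_subset (cn_mem T p L i hLi) (cn_mem T p L j hLj) hX0
  have hm1' : (c : ℂ) * w + (s1 : ℂ) * (Complex.I * w) ∈ Qd T p L :=
    hQc.openSegment_subset (cn_mem T p L _ hLi') (cn_mem T p L _ hLj') hX1
  obtain ⟨g1, -, -⟩ := edge_half h hp ho hd
  obtain ⟨-, g2, -⟩ := edge_half h hp ho hd'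
  have hlow : ∀ s : ℝ, (c : ℂ) * w + (s : ℂ) * (Complex.I * w) ∈ Qd T p L →
      0 ≤ σ * (s - s0) := by
    intro s hsm
    have h1 := g1 _ hsm
    rw [cn_cr (p i) (p j) w c s s0 hX0, ← mul_assoc] at h1
    exact nonneg_of_mul_nonneg_left h1 hD0
  have hupp : ∀ s : ℝ, (c : ℂ) * w + (s : ℂ) * (Complex.I * w) ∈ Qd T p L →
      σ * (s - s1) ≤ 0 := by
    intro s hsm
    have h1 := g2 _ hsm
    rw [cn_cr (p (t (m + 1))) (p (t m)) w c s s1 hX1, ← mul_assoc] at h1
    by_contra hcon
    push Not at hcon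
    have := mul_pos hcon hD1
    linarith
  -- strictness
  have hne : s0 ≠ s1 := by
    intro heq
    obtain ⟨a, b, ha, hb, hab, hX⟩ := hX1
    have hz : cr (p j - p i) ((c : ℂ) * w + (s1 : ℂ) * (Complex.I * w) - p i) = 0 := by
      rw [cn_cr (p i) (p j) w c s1 s0 hX0, heq]
      ring
    rw [← hX, cn_comb _ _ _ _ a b hab] at hz
    have k1 := g1 _ (cn_mem T p L _ hLi')
    have k2 := g1 _ (cn_mem T p L _ hLj')
    have hz2 : a * (σ * cr (p j - p i) (p (t (m + 1)) - p i)) +
        b * (σ * cr (p j - p i) (p (t m) - p i)) = 0 := by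
      have : σ * (a * cr (p j - p i) (p (t (m + 1)) - p i) +
        b * cr (p j - p i) (p (t m) - p i)) = 0 := by rw [hz, mul_zero]
      linarith
    have ni : t (m + 1) ≠ t (k + 1) := by
      intro he
      rw [he, ← hj1] at hm2
      linarith
    have nj : t m ≠ t k := by
      intro he
      rw [he, hki] at hfm
      linarith
    by_cases c1 : t (m + 1) = t k
    · by_cases c2 : t m = t (k + 1)
      · have q1 := cn_mod hs _ _ c1
        have q2 := cn_mod hs _ _ c2
        obtain ⟨x, hx⟩ : ∃ x, m = k + 1 + x := ⟨m - (k + 1), by omega⟩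
        have q3 : n ∣ x := by
          have h5 := (Nat.modEq_iff_dvd' (show k + 1 ≤ m by omega)).1 (show k + 1 ≡ m [MOD n] from q2.symm)
          rwa [hx, Nat.add_sub_cancel_left] at h5
        have hx0 : x = 0 := Nat.eq_zero_of_dvd_of_lt q3 (by omega)
        have q4 : n ∣ 2 := by
          have h5 := (Nat.modEq_iff_dvd' (show k ≤ m + 1 by omega)).1 (show k ≡ m + 1 [MOD n] from q1.symm)
          have e : m + 1 - k = 2 := by omega
          rwa [e] at h5
        have := Nat.le_of_dvd (by norm_num) q4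
        omega
      · have k3 := ho.2 L n t r hs k m nj c2
        rw [hki, ← hj1] at k3
        have k4 := mul_pos hb k3
        have k5 := mul_nonneg ha.le k1
        linarith
    · have k3 := ho.2 L n t r hs k (m + 1) c1 ni
      rw [hki, ← hj1] at k3
      have k4 := mul_pos ha k3
      have k5 := mul_nonneg hb.le k2
      linarith
  have hle : σ * s0 ≤ σ * s1 := by
    have := hlow s1 hm1'
    linarith
  have hlt : σ * s0 < σ * s1 := by
    apply lt_of_le_of_ne hle
    intro he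
    rcases ho.1 with h1 | h1 <;> rw [h1] at he
    · exact hne (by linarith)
    · exact hne (by linarith)
  refine ⟨t (m + 1), t m, r m, hd', hm2, hfm, hlt, ?_⟩
  have haff : ∀ s ∈ segment ℝ s0 s1, (c : ℂ) * w + (s : ℂ) * (Complex.I * w) ∈ Qd T p L := by
    rintro s ⟨a, b, ha, hb, hab, rfl⟩
    have h1 := hQc hm0 hm1' ha hb hab
    convert h1 using 1
    simp only [smul_eq_mul, Complex.real_smul]
    push_cast
    have habc : (a : ℂ) + (b : ℂ) = 1 := by exact_mod_cast hab
    linear_combination (-(c : ℂ) * w) * habc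
  ext s
  rw [Set.mem_setOf_eq, ← segment_eq_uIcc]
  constructor
  · intro hsm
    have l1 := hlow s hsm
    have l2 := hupp s hsm
    rw [segment_eq_uIcc, Set.mem_uIcc]
    rcases ho.1 with h1 | h1 <;> rw [h1] at l1 l2
    · left
      constructor <;> linarith
    · right
      constructor <;> linarith
  · exact haff s

end Pool.Agent.Helper484.DT
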