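import Pool.Agent.Helper484.DT.Defs
import Pool.Agent.Helper484.DT.P_dart_symm
import Pool.Agent.Helper484.DT.P_cross_next

set_option autoImplicit false

namespace Pool.Agent.Helper484.DT
open Set Metric Filter
open scoped Topology


theorem cross_prev_dt (w z : ℂ) : dt (-w) z = - dt w z := by
  simp only [dt, Complex.neg_re, Complex.neg_im]
  ring

theorem cross_prev_cr (w z : ℂ) : cr (-w) z = - cr w z := by
  simp only [cr, Complex.neg_re, Complex.neg_im]
  ring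

theorem cross_prev_cs {ι : Type} (p : ι → ℂ) (w : ℂ) (c : ℝ) (a b : ι)
    (hab : dt w (p a) ≠ dt w (p b)) : cs p (-w) (-c) b a = - cs p w c a b := by
  have h1 : dt w (p b) - dt w (p a) ≠ 0 := sub_ne_zero.2 hab.symm
  have h2 : -dt w (p a) - -dt w (p b) ≠ 0 := by
    intro h
    apply h1
    linarith
  have hτ : (-c - -dt w (p b)) / (-dt w (p a) - -dt w (p b)) =
      1 - (c - dt w (p a)) / (dt w (p b) - dt w (p a)) := by
    field_simp
    ring
  rw [cs, cs, cross_prev_dt, cross_prev_dt, cross_prev_cr, hτ]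
  congr 2
  push_cast
  ring

theorem cross_prev_mem (a b s : ℝ) : -s ∈ uIcc (-a) (-b) ↔ s ∈ uIcc b a := by
  rw [mem_uIcc, mem_uIcc]
  constructor
  · rintro (⟨h1, h2⟩ | ⟨h1, h2⟩)
    · exact Or.inl ⟨by linarith, by linarith⟩
    · exact Or.inr ⟨by linarith, by linarith⟩
  · rintro (⟨h1, h2⟩ | ⟨h1, h2⟩)
    · exact Or.inl ⟨by linarith, by linarith⟩
    · exact Or.inr ⟨by linarith, by linarith⟩

theorem cross_prev {ι : Type} {T : ι → Set ℂ} {u U : ℝ} (h : CT ι T u U) {p : ι → ℂ}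
    {C δ α : ℝ} (hp : GoodP T p C δ α) {σ : ℝ} (ho : Orient T p σ) (w : ℂ) (hw : ‖w‖ = 1)
    (c : ℝ) (hav : ∀ i, dt w (p i) ≠ c) {i j : ι} {R L : ℂ} (hd : Dart T i j R L)
    (hi : dt w (p i) < c) (hj : c < dt w (p j)) :
    ∃ i' j' R', Dart T i' j' R' R ∧ dt w (p i') < c ∧ c < dt w (p j') ∧
      σ * cs p w c i' j' < σ * cs p w c i j ∧
      {s : ℝ | (c : ℂ) * w + (s : ℂ) * (Complex.I * w) ∈ Qd T p R} =
        uIcc (cs p w c i' j') (cs p w c i j) := by
  obtain ⟨i1, j1, L', d1, a1, a2, a3, a4⟩ := cross_next h hp ho (-w) (by rw [norm_neg]; exact hw) (-c)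
    (fun k => by
      rw [cross_prev_dt]
      intro hk
      exact hav k (neg_injective hk)) (dart_symm hd)
    (by rw [cross_prev_dt]; linarith) (by rw [cross_prev_dt]; linarith)
  rw [cross_prev_dt] at a1 a2
  have hne1 : dt w (p i) ≠ dt w (p j) := by
    intro h0
    rw [h0] at hi
    linarith
  have hne2 : dt w (p j1) ≠ dt w (p i1) := by
    intro h0
    rw [h0] at a2
    linarith
  rw [cross_prev_cs p w c i j hne1, cross_prev_cs p w c j1 i1 hne2] at a3 a4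
  refine ⟨j1, i1, L', dart_symm d1, by linarith, by linarith, by linarith, ?_⟩
  ext s
  have h4 : -s ∈ {s : ℝ | ((-c : ℝ) : ℂ) * (-w) + (s : ℂ) * (Complex.I * (-w)) ∈ Qd T p R} ↔
      -s ∈ uIcc (-cs p w c i j) (-cs p w c j1 i1) := by rw [a4]
  rw [cross_prev_mem] at h4
  rw [← h4]
  have h5 : ((-c : ℝ) : ℂ) * (-w) + ((-s : ℝ) : ℂ) * (Complex.I * (-w)) =
      (c : ℂ) * w + (s : ℂ) * (Complex.I * w) := by
    push_cast
    ring
  show (c : ℂ) * w + (s : ℂ) * (Complex.I * w) ∈ Qd T p R ↔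
    ((-c : ℝ) : ℂ) * (-w) + ((-s : ℝ) : ℂ) * (Complex.I * (-w)) ∈ Qd T p R
  rw [h5]

end Pool.Agent.Helper484.DT
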