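import Pool.Agent.Helper484.DT.Defs
import Pool.Agent.Helper484.DT.P_dart_exists
import Pool.Agent.Helper484.DT.P_conn_open
import Pool.Agent.Helper484.DT.P_rise_good

set_option autoImplicit false

namespace Pool.Agent.Helper484.DT
open Set Metric Filter
open scoped Topology


theorem cross_start {ι : Type} {T : ι → Set ℂ} {u U : ℝ} (h : CT ι T u U) {p : ι → ℂ}
    {C δ α : ℝ} (hp : GoodP T p C δ α) (w : ℂ) (hw : ‖w‖ = 1)
    (c : ℝ) (hav : ∀ i, dt w (p i) ≠ c) :
    ∃ i j R L, Dart T i j R L ∧ dt w (p i) < c ∧ c < dt w (p j) := by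
  obtain ⟨i0, _⟩ := h.cover 0
  obtain ⟨a, ha, _⟩ := rise_good h hp w hw i0 (c + 1)
  obtain ⟨b, hb, _⟩ := rise_good h hp (-w) (by rw [norm_neg]; exact hw) i0 (1 - c)
  have hneg : dt (-w) (p b) = -dt w (p b) := by
    simp only [dt, Complex.neg_re, Complex.neg_im]
    ring
  rw [hneg] at hb
  have hne : ∀ i, (T i ∩ univ).Nonempty := by
    intro i
    obtain ⟨x, hx⟩ := h.ball i
    exact ⟨x, hx (mem_closedBall_self h.upos.le), mem_univ x⟩
  have hpath := conn_open h univ isOpen_univ convex_univ b a (hne b) (hne a)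
  by_contra hno
  have hall : ∀ x, Relation.ReflTransGen (fun a b => Adj T a b ∧ (T a ∩ univ).Nonempty ∧
      (T b ∩ univ).Nonempty) b x → dt w (p x) < c := by
    intro x hx
    induction hx with
    | refl => linarith
    | @tail x y _ hstep ih =>
      by_contra hy
      have hy' : c < dt w (p y) := lt_of_le_of_ne (not_lt.mp hy) (Ne.symm (hav y))
      obtain ⟨R, L, hD⟩ := dart_exists h x y hstep.1
      exact hno ⟨x, y, R, L, hD, ih, hy'⟩
  have := hall a hpath
  linarith

end Pool.Agent.Helper484.DT
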