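import Pool.Agent.Helper484.DT.Defs

set_option autoImplicit false

namespace Pool.Agent.Helper484.DT
open Set Metric Filter
open scoped Topology


theorem zchain {X : Type} (R : X → X → Prop) (hn : ∀ x, ∃ y, R x y) (hp : ∀ x, ∃ y, R y x)
    (x0 : X) : ∃ f : ℤ → X, f 0 = x0 ∧ ∀ k, R (f k) (f (k + 1)) := by
  choose nx hnx using hn
  choose pv hpv using hp
  obtain ⟨f, hf1, hf2⟩ : ∃ f : ℤ → X, (∀ n : ℕ, f (Int.ofNat n) = nx^[n] x0) ∧
      ∀ n : ℕ, f (Int.negSucc n) = pv^[n + 1] x0 :=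
    ⟨fun k => match k with
      | Int.ofNat n => nx^[n] x0
      | Int.negSucc n => pv^[n + 1] x0, fun _ => rfl, fun _ => rfl⟩
  refine ⟨f, hf1 0, ?_⟩
  intro k
  match k with
  | Int.ofNat n =>
    have h1 : (Int.ofNat n + 1 : ℤ) = Int.ofNat (n + 1) := rfl
    rw [h1, hf1, hf1, Function.iterate_succ_apply']
    exact hnx _
  | Int.negSucc 0 =>
    have h1 : (Int.negSucc 0 + 1 : ℤ) = Int.ofNat 0 := rfl
    rw [h1, hf1, hf2]
    exact hpv _
  | Int.negSucc (n + 1) =>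
    have h1 : (Int.negSucc (n + 1) + 1 : ℤ) = Int.negSucc n := rfl
    rw [h1, hf2, hf2, Function.iterate_succ_apply' pv (n + 1)]
    exact hpv _

end Pool.Agent.Helper484.DT
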