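import Pool.Agent.Helper484.DT.Defs
import Pool.Agent.Helper484.DT.P_dart_adj
import Pool.Agent.Helper484.DT.P_cross_next
import Pool.Agent.Helper484.DT.P_cross_prev
import Pool.Agent.Helper484.DT.P_zchain
import Pool.Agent.Helper484.DT.P_cross_start
import Pool.Agent.Helper484.DT.P_cross_fin

set_option autoImplicit false

namespace Pool.Agent.Helper484.DT
open Set Metric Filter
open scoped Topology


theorem sweep_chain {ι : Type} {T : ι → Set ℂ} {u U : ℝ} (h : CT ι T u U) {p : ι → ℂ}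
    {C δ α : ℝ} (hp : GoodP T p C δ α) {σ : ℝ} (ho : Orient T p σ) (w : ℂ) (hw : ‖w‖ = 1)
    (c : ℝ) (hav : ∀ i, dt w (p i) ≠ c) :
    ∃ (ii jj : ℤ → ι) (V : ℤ → ℂ), (∀ k, Dart T (ii k) (jj k) (V k) (V (k + 1)) ∧
      dt w (p (ii k)) < c ∧ c < dt w (p (jj k)) ∧
      σ * cs p w c (ii k) (jj k) < σ * cs p w c (ii (k + 1)) (jj (k + 1)) ∧
      {s : ℝ | (c : ℂ) * w + (s : ℂ) * (Complex.I * w) ∈ Qd T p (V (k + 1))} =
        uIcc (cs p w c (ii k) (jj k)) (cs p w c (ii (k + 1)) (jj (k + 1)))) ∧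
      Tendsto (fun k => σ * cs p w c (ii k) (jj k)) atTop atTop ∧
      Tendsto (fun k => σ * cs p w c (ii k) (jj k)) atBot atBot := by
  classical
  let X := {q : ι × ι × ℂ × ℂ // Dart T q.1 q.2.1 q.2.2.1 q.2.2.2 ∧ dt w (p q.1) < c ∧
    c < dt w (p q.2.1)}
  let R : X → X → Prop := fun q q' => q'.1.2.2.1 = q.1.2.2.2 ∧
    σ * cs p w c q.1.1 q.1.2.1 < σ * cs p w c q'.1.1 q'.1.2.1 ∧
    {s : ℝ | (c : ℂ) * w + (s : ℂ) * (Complex.I * w) ∈ Qd T p q.1.2.2.2} =
      uIcc (cs p w c q.1.1 q.1.2.1) (cs p w c q'.1.1 q'.1.2.1)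
  have hnext : ∀ x, ∃ y, R x y := by
    rintro ⟨⟨i, j, r, l⟩, hd, hi, hj⟩
    obtain ⟨i', j', L', h1, h2, h3, h4, h5⟩ := cross_next h hp ho w hw c hav hd hi hj
    exact ⟨⟨⟨i', j', l, L'⟩, h1, h2, h3⟩, rfl, h4, h5⟩
  have hprev : ∀ x, ∃ y, R y x := by
    rintro ⟨⟨i, j, r, l⟩, hd, hi, hj⟩
    obtain ⟨i', j', R', h1, h2, h3, h4, h5⟩ := cross_prev h hp ho w hw c hav hd hi hj
    exact ⟨⟨⟨i', j', R', r⟩, h1, h2, h3⟩, rfl, h4, h5⟩
  obtain ⟨i0, j0, R0, L0, hd0, hi0, hj0⟩ := cross_start h hp w hw c hav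
  obtain ⟨f, -, hf⟩ := zchain R hnext hprev ⟨⟨i0, j0, R0, L0⟩, hd0, hi0, hj0⟩
  have hmono : StrictMono (fun k => σ * cs p w c (f k).1.1 (f k).1.2.1) :=
    strictMono_int_of_lt_succ (fun k => (hf k).2.1)
  have hσ : |σ| = 1 := by
    rcases ho.1 with h | h <;> rw [h] <;> simp
  have habs : ∀ k, |cs p w c (f k).1.1 (f k).1.2.1| = |σ * cs p w c (f k).1.1 (f k).1.2.1| := by
    intro k
    rw [abs_mul, hσ, one_mul]
  have key : ∀ (e : ℕ → ℤ) (he : Function.Injective e) (B : ℝ),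
      (∀ n, |σ * cs p w c (f (e n)).1.1 (f (e n)).1.2.1| ≤ B) → False := by
    intro e he B hB
    have hinf := Set.infinite_of_injective_forall_mem
      (f := fun n : ℕ => ((f (e n)).1.1, (f (e n)).1.2.1))
      (s := {e : ι × ι | Adj T e.1 e.2 ∧ dt w (p e.1) < c ∧ c < dt w (p e.2) ∧
        |cs p w c e.1 e.2| ≤ B})
      (by
        intro a b hab
        simp only [Prod.mk.injEq] at hab
        apply he
        apply hmono.injective
        show σ * cs p w c (f (e a)).1.1 (f (e a)).1.2.1 = σ * cs p w c (f (e b)).1.1 (f (e b)).1.2.1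
        rw [hab.1, hab.2])
      (by
        intro n
        refine ⟨dart_adj (f (e n)).2.1, (f (e n)).2.2.1, (f (e n)).2.2.2, ?_⟩
        show |cs p w c (f (e n)).1.1 (f (e n)).1.2.1| ≤ B
        rw [habs]
        exact hB n)
    exact hinf (cross_fin h hp w hw c B)
  refine ⟨fun k => (f k).1.1, fun k => (f k).1.2.1, fun k => (f k).1.2.2.1, ?_, ?_, ?_⟩
  · intro k
    have hk := hf k
    have e : (f (k + 1)).1.2.2.1 = (f k).1.2.2.2 := hk.1
    refine ⟨?_, (f k).2.2.1, (f k).2.2.2, hk.2.1, ?_⟩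
    · show Dart T (f k).1.1 (f k).1.2.1 (f k).1.2.2.1 (f (k + 1)).1.2.2.1
      rw [e]
      exact (f k).2.1
    · show {s : ℝ | (c : ℂ) * w + (s : ℂ) * (Complex.I * w) ∈ Qd T p (f (k + 1)).1.2.2.1} = _
      rw [e]
      exact hk.2.2
  · apply tendsto_atTop_atTop_of_monotone hmono.monotone
    by_contra hcon
    push Not at hcon
    obtain ⟨b, hb⟩ := hcon
    apply key (fun n => (n : ℤ)) Nat.cast_injective
      (max |σ * cs p w c (f 0).1.1 (f 0).1.2.1| |b|)
    intro n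
    have h1 : σ * cs p w c (f 0).1.1 (f 0).1.2.1 ≤ σ * cs p w c (f n).1.1 (f n).1.2.1 :=
      hmono.monotone (by positivity)
    have h2 := (hb (n : ℤ)).le
    rw [abs_le]
    constructor
    · have := neg_abs_le (σ * cs p w c (f 0).1.1 (f 0).1.2.1)
      have := le_max_left |σ * cs p w c (f 0).1.1 (f 0).1.2.1| |b|
      linarith
    · have := le_abs_self b
      have := le_max_right |σ * cs p w c (f 0).1.1 (f 0).1.2.1| |b|
      linarith
  · apply tendsto_atBot_atBot_of_monotone hmono.monotone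
    by_contra hcon
    push Not at hcon
    obtain ⟨b, hb⟩ := hcon
    apply key (fun n => -(n : ℤ)) (fun a b hab => by simpa using hab)
      (max |σ * cs p w c (f 0).1.1 (f 0).1.2.1| |b|)
    intro n
    have h1 : σ * cs p w c (f (-n)).1.1 (f (-n)).1.2.1 ≤ σ * cs p w c (f 0).1.1 (f 0).1.2.1 :=
      hmono.monotone (by simp)
    have h2 := (hb (-(n : ℤ))).le
    rw [abs_le]
    constructor
    · have := neg_abs_le b
      have := le_max_right |σ * cs p w c (f 0).1.1 (f 0).1.2.1| |b|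
      linarith
    · have := le_abs_self (σ * cs p w c (f 0).1.1 (f 0).1.2.1)
      have := le_max_left |σ * cs p w c (f 0).1.1 (f 0).1.2.1| |b|
      linarith

end Pool.Agent.Helper484.DT
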