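import Pool.Agent.Helper484.DT.Defs
import Pool.Agent.Helper484.DT.P_sweep_chain
import Pool.Agent.Helper484.DT.P_single_chain
import Pool.Agent.Helper484.DT.P_cross_vertex
import Pool.Agent.Helper484.DT.P_dart_unique
import Pool.Agent.Helper484.DT.P_dart_vertex
set_option autoImplicit false

namespace Pool.Agent.Helper484.DT

open Set Metric Filter
open scoped Topology

theorem line_tiles {ι : Type} {T : ι → Set ℂ} {u U : ℝ} (h : CT ι T u U) {p : ι → ℂ}
    {C δ α : ℝ} (hp : GoodP T p C δ α) {σ : ℝ} (ho : Orient T p σ) (w : ℂ) (hw : ‖w‖ = 1)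
    (c : ℝ) (hav : ∀ i, dt w (p i) ≠ c) :
    (∀ z, dt w z = c → ∃ v, IsV T v ∧ z ∈ Qd T p v) ∧
    (∀ z v v', dt w z = c → IsV T v → IsV T v' → z ∈ interior (Qd T p v) →
      z ∈ Qd T p v' → v = v') := by
  obtain ⟨ii, jj, V, hch, ht, hb⟩ := sweep_chain h hp ho w hw c hav
  have hσ := ho.1
  set g : ℤ → ℝ := fun k => σ * cs p w c (ii k) (jj k) with hg
  have hmono : StrictMono g := strictMono_int_of_lt_succ (fun k => (hch k).2.2.2.1)
  have hn2 : w.re ^ 2 + w.im ^ 2 = 1 := by
    have := Complex.sq_norm w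
    rw [hw, Complex.normSq_apply] at this
    nlinarith
  have hz : ∀ z : ℂ, dt w z = c → (c : ℂ) * w + (cr w z : ℂ) * (Complex.I * w) = z := by
    intro z hz
    rw [← hz]
    apply Complex.ext
    · simp only [dt, cr, Complex.add_re, Complex.mul_re, Complex.ofReal_re, Complex.ofReal_im,
        Complex.I_re, Complex.I_im, Complex.mul_im]
      linear_combination z.re * hn2
    · simp only [dt, cr, Complex.add_im, Complex.mul_im, Complex.ofReal_re, Complex.ofReal_im,
        Complex.I_re, Complex.I_im, Complex.mul_re]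
      linear_combination z.im * hn2
  have hmem : ∀ (k : ℤ) (s : ℝ), (c : ℂ) * w + (s : ℂ) * (Complex.I * w) ∈ Qd T p (V (k + 1)) ↔
      g k ≤ σ * s ∧ σ * s ≤ g (k + 1) := by
    intro k s
    have h1 : s ∈ {s : ℝ | (c : ℂ) * w + (s : ℂ) * (Complex.I * w) ∈ Qd T p (V (k + 1))} ↔
        s ∈ uIcc (cs p w c (ii k) (jj k)) (cs p w c (ii (k + 1)) (jj (k + 1))) := by
      rw [(hch k).2.2.2.2]
    have h2 := (hch k).2.2.2.1
    simp only [mem_setOf_eq, mem_uIcc] at h1
    rw [h1]
    simp only [hg]
    generalize cs p w c (ii k) (jj k) = a at *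
    generalize cs p w c (ii (k + 1)) (jj (k + 1)) = b at *
    rcases hσ with hs | hs
    · rw [hs] at h2 ⊢
      constructor
      · rintro (h | h)
        · constructor <;> linarith [h.1, h.2]
        · constructor <;> linarith [h.1, h.2]
      · rintro ⟨h3, h4⟩
        left
        constructor <;> linarith
    · rw [hs] at h2 ⊢
      constructor
      · rintro (h | h)
        · constructor <;> linarith [h.1, h.2]
        · constructor <;> linarith [h.1, h.2]
      · rintro ⟨h3, h4⟩
        right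
        constructor <;> linarith
  have hfind : ∀ v, IsV T v → ∀ z, dt w z = c → z ∈ Qd T p v → ∃ k, v = V (k + 1) := by
    intro v hv z hzc hzv
    obtain ⟨i, j, R, hd, hi, hj⟩ := cross_vertex h hp w hw c hav v hv z hzc hzv
    obtain ⟨k, rfl, rfl⟩ := single_chain h hp ho w hw c hav ii jj V
      (fun k => ⟨(hch k).1, (hch k).2.1, (hch k).2.2.1, (hch k).2.2.2.1⟩) ht hb i j R v hd hi hj
    exact ⟨k, (dart_unique h hd (hch k).1).2⟩
  constructor
  · intro z hzc
    set s := cr w z
    have hlo : ∃ k0 : ℤ, g k0 ≤ σ * s := (hb.eventually (eventually_le_atBot (σ * s))).exists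
    have hhi : ∃ k1 : ℤ, ∀ k, k1 ≤ k → σ * s < g k := by
      have := ht.eventually (eventually_gt_atTop (σ * s))
      rw [eventually_atTop] at this
      exact this
    obtain ⟨k0, hk0⟩ := hlo
    obtain ⟨k1, hk1⟩ := hhi
    obtain ⟨k, hk, hkm⟩ := Int.exists_greatest_of_bdd (P := fun k => g k ≤ σ * s)
      ⟨k1, fun k hk => by
        by_contra hlt
        push Not at hlt
        have := hk1 k hlt.le
        linarith⟩ ⟨k0, hk0⟩
    have hk' : σ * s ≤ g (k + 1) := by
      by_contra hlt
      push Not at hlt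
      have := hkm (k + 1) hlt.le
      omega
    refine ⟨V (k + 1), (dart_vertex h (hch k).1).2.1, ?_⟩
    rw [← hz z hzc]
    exact (hmem k s).2 ⟨hk, hk'⟩
  · intro z v v' hzc hv hv' hzv hzv'
    obtain ⟨k, rfl⟩ := hfind v hv z hzc (interior_subset hzv)
    obtain ⟨k', rfl⟩ := hfind v' hv' z hzc hzv'
    have hz1 : z ∈ Qd T p (V (k' + 1)) := hzv'
    rw [← hz z hzc] at hz1
    have h1 := (hmem k' _).1 hz1
    -- interior
    have hcont : Continuous (fun s : ℝ => (c : ℂ) * w + (s : ℂ) * (Complex.I * w)) := by fun_prop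
    have hopen : (fun s : ℝ => (c : ℂ) * w + (s : ℂ) * (Complex.I * w)) ⁻¹'
        (interior (Qd T p (V (k + 1)))) ∈ 𝓝 (cr w z) := by
      apply hcont.continuousAt.preimage_mem_nhds
      rw [hz z hzc]
      exact isOpen_interior.mem_nhds hzv
    obtain ⟨ε, hε, hball⟩ := Metric.mem_nhds_iff.1 hopen
    have hin : ∀ t : ℝ, |t| < ε → g k ≤ σ * (cr w z + t) ∧ σ * (cr w z + t) ≤ g (k + 1) := by
      intro t ht'
      refine (hmem k _).1 ?_
      have : cr w z + t ∈ ball (cr w z) ε := by
        rw [mem_ball, Real.dist_eq]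
        simpa using ht'
      exact interior_subset (hball this)
    have ha := hin (ε / 2) (by rw [abs_of_pos (by linarith)]; linarith)
    have hb' := hin (-(ε / 2)) (by rw [abs_neg, abs_of_pos (by linarith)]; linarith)
    have hstrict : g k < σ * cr w z ∧ σ * cr w z < g (k + 1) := by
      rcases hσ with hs | hs
      · rw [hs] at ha hb' ⊢
        constructor <;> linarith [ha.1, ha.2, hb'.1, hb'.2]
      · rw [hs] at ha hb' ⊢
        constructor <;> linarith [ha.1, ha.2, hb'.1, hb'.2]
    rcases lt_trichotomy k k' with hlt | heq | hgt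
    · have := hmono.monotone (show k + 1 ≤ k' by omega)
      linarith [h1.1, hstrict.2]
    · rw [heq]
    · have := hmono.monotone (show k' + 1 ≤ k by omega)
      linarith [h1.2, hstrict.1]



end Pool.Agent.Helper484.DT
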