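import Pool.Agent.Helper484.DT.Defs
import Pool.Agent.Helper484.DT.P_dart_vertex
import Pool.Agent.Helper484.DT.P_vcountable
import Pool.Agent.Helper484.DT.P_rim_exists
import Pool.Agent.Helper484.DT.P_line_tiles

set_option autoImplicit false

namespace Pool.Agent.Helper484.DT
open Set Metric Filter
open scoped Topology


theorem q_cover_dir {ι : Type} (hι : Countable ι) (p : ι → ℂ) (z : ℂ) (hz : z ∉ range p) :
    ∃ w : ℂ, ‖w‖ = 1 ∧ ∀ i, dt w (p i) ≠ dt w z := by
  have hS : ({t : ℝ | ∃ i, (p i - z).re + t * (p i - z).im = 0}).Countable := by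
    have e : {t : ℝ | ∃ i, (p i - z).re + t * (p i - z).im = 0} =
        ⋃ i, {t : ℝ | (p i - z).re + t * (p i - z).im = 0} := by
      ext t
      simp
    rw [e]
    refine Set.countable_iUnion fun i => ?_
    apply Set.Subsingleton.countable
    intro t ht t' ht'
    have h1 : (p i - z).re + t * (p i - z).im = 0 := ht
    have h2 : (p i - z).re + t' * (p i - z).im = 0 := ht'
    have h3 : (p i - z).im ≠ 0 := by
      intro h0
      apply hz
      refine ⟨i, ?_⟩
      rw [h0, mul_zero, add_zero] at h1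
      have h4 : p i - z = 0 := Complex.ext h1 h0
      exact sub_eq_zero.1 h4
    have h4 : (t - t') * (p i - z).im = 0 := by linear_combination h1 - h2
    exact sub_eq_zero.1 ((mul_eq_zero.1 h4).resolve_right h3)
  obtain ⟨t, ht⟩ := (hS.dense_compl ℝ).nonempty
  have ht' : ∀ i, (p i - z).re + t * (p i - z).im ≠ 0 := fun i hi => ht ⟨i, hi⟩
  have hw0 : (⟨1, t⟩ : ℂ) ≠ 0 := by
    intro h
    have := congrArg Complex.re h
    simp at this
  have hn : 0 < ‖(⟨1, t⟩ : ℂ)‖ := norm_pos_iff.2 hw0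
  refine ⟨((‖(⟨1, t⟩ : ℂ)‖⁻¹ : ℝ) : ℂ) * ⟨1, t⟩, ?_, fun i hi => ?_⟩
  · rw [norm_mul, Complex.norm_real, norm_inv, norm_norm, inv_mul_cancel₀ hn.ne']
  · simp only [dt, Complex.mul_re, Complex.mul_im, Complex.ofReal_re, Complex.ofReal_im] at hi
    apply ht' i
    simp only [Complex.sub_re, Complex.sub_im]
    have h5 : ‖(⟨1, t⟩ : ℂ)‖⁻¹ * (((p i).re - z.re) + t * ((p i).im - z.im)) = 0 := by
      linear_combination hi
    exact (mul_eq_zero.1 h5).resolve_left (inv_ne_zero hn.ne')

theorem q_cover {ι : Type} {T : ι → Set ℂ} {u U : ℝ} (h : CT ι T u U) {p : ι → ℂ}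
    {C δ α : ℝ} (hp : GoodP T p C δ α) {σ : ℝ} (ho : Orient T p σ) :
    (∀ z, ∃ v, IsV T v ∧ z ∈ Qd T p v) ∧ (∀ v v', IsV T v → IsV T v' → v ≠ v' →
      Disjoint (interior (Qd T p v)) (interior (Qd T p v'))) := by
  have hι : Countable ι := (vcountable h).2
  constructor
  · intro z
    by_cases hz : z ∈ range p
    · obtain ⟨i, rfl⟩ := hz
      obtain ⟨n, s, x, hr⟩ := rim_exists h i
      have hd := hr.dart 0
      refine ⟨x 0, (dart_vertex h hd).1, ?_⟩
      have hx : x 0 ∈ T i := by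
        have h1 : x 0 ∈ T i ∩ T (s 0) := by
          rw [hd.2.2.1]
          exact left_mem_segment ℝ _ _
        exact h1.1
      exact subset_convexHull ℝ _ ⟨i, hx, rfl⟩
    · obtain ⟨w, hw, hne⟩ := q_cover_dir hι p z hz
      exact (line_tiles h hp ho w hw (dt w z) hne).1 z rfl
  · intro v v' hv hv' hne
    rw [Set.disjoint_iff_inter_eq_empty]
    by_contra hcon
    have hne2 := Set.nonempty_iff_ne_empty.2 hcon
    obtain ⟨z, hz1, hz2⟩ := ((countable_range p).dense_compl ℝ).inter_open_nonempty _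
      (isOpen_interior.inter isOpen_interior) hne2
    obtain ⟨w, hw, hne3⟩ := q_cover_dir hι p z hz2
    exact hne ((line_tiles h hp ho w hw (dt w z) hne3).2 z v v' rfl hv hv' hz1.1
      (interior_subset hz1.2))

end Pool.Agent.Helper484.DT
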