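import Pool.Agent.Helper484.DT.Defs

set_option autoImplicit false

namespace Pool.Agent.Helper484.DT
open Set Metric Filter
open scoped Topology


theorem tri_ball_cr (a b : ℂ) : |cr a b| ≤ ‖a‖ * ‖b‖ := by
  have h1 : cr a b = ((starRingEnd ℂ) a * b).im := by
    simp [cr, Complex.mul_im]
    ring
  rw [h1]
  refine le_trans (Complex.abs_im_le_norm _) ?_
  rw [norm_mul, Complex.norm_conj]

theorem tri_ball_conv {s : Set ℂ} (hs : Convex ℝ s) {a b c : ℂ} (ha : a ∈ s) (hb : b ∈ s)
    (hc : c ∈ s) {l m n : ℝ} (hl : 0 ≤ l) (hm : 0 ≤ m) (hn : 0 ≤ n) (h1 : l + m + n = 1) :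
    l • a + m • b + n • c ∈ s := by
  have h := hs.sum_mem (t := (Finset.univ : Finset (Fin 3))) (w := ![l, m, n]) (z := ![a, b, c])
    (by
      intro i _
      fin_cases i
      · exact hl
      · exact hm
      · exact hn)
    (by
      rw [Fin.sum_univ_three]
      exact h1)
    (by
      intro i _
      fin_cases i
      · exact ha
      · exact hb
      · exact hc)
  rw [Fin.sum_univ_three] at h
  exact h

theorem tri_ball_pos {A t α : ℝ} (hA : α ≤ |A|) (hα : 0 < α) (ht : |t| ≤ α / 3) :
    0 ≤ (A / 3 + t) / A := by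
  have hA0 : 0 < |A| := lt_of_lt_of_le hα hA
  rcases lt_or_gt_of_ne (abs_pos.1 hA0) with h | h
  · rw [abs_of_neg h] at hA
    rw [abs_le] at ht
    apply div_nonneg_of_nonpos
    · linarith [ht.2]
    · exact h.le
  · rw [abs_of_pos h] at hA
    rw [abs_le] at ht
    apply div_nonneg
    · linarith [ht.1]
    · exact h.le

theorem tri_ball (a b c v : ℂ) (C α : ℝ) (hC : 0 < C) (hα : 0 < α) (ha : dist a v ≤ C)
    (hb : dist b v ≤ C) (hc : dist c v ≤ C) (hcr : α ≤ |cr (b - a) (c - a)|) :
    ∃ x, closedBall x (α / (6 * C)) ⊆ convexHull ℝ {a, b, c} := by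
  refine ⟨(a + b + c) / 3, ?_⟩
  intro y hy
  rw [mem_closedBall, dist_eq_norm] at hy
  set A : ℝ := cr (b - a) (c - a) with hA
  have hA0 : A ≠ 0 := by
    intro h0
    rw [h0, abs_zero] at hcr
    linarith
  set h : ℂ := y - (a + b + c) / 3 with hh
  have hy' : y = (a + b + c) / 3 + h := by
    rw [hh]
    ring
  have hbound : ∀ p q : ℂ, dist p v ≤ C → dist q v ≤ C → |cr (p - q) h| ≤ α / 3 := by
    intro p q hp hq
    have h1 : ‖p - q‖ ≤ 2 * C := by
      rw [← dist_eq_norm]
      have := dist_triangle_right p q v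
      linarith
    refine le_trans (tri_ball_cr _ _) ?_
    calc ‖p - q‖ * ‖h‖ ≤ (2 * C) * (α / (6 * C)) :=
          mul_le_mul h1 hy (norm_nonneg _) (by positivity)
      _ = α / 3 := by
          field_simp
          ring
  have hre3 : ∀ z : ℂ, (z / 3).re = z.re / 3 := by
    intro z
    simp
  have him3 : ∀ z : ℂ, (z / 3).im = z.im / 3 := by
    intro z
    simp
  have e1 : cr (b - a) (y - a) = A / 3 + cr (b - a) h := by
    rw [hy', hA]
    simp only [cr, Complex.sub_re, Complex.sub_im, Complex.add_re, Complex.add_im, hre3, him3]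
    ring
  have e2 : cr (c - b) (y - b) = A / 3 + cr (c - b) h := by
    rw [hy', hA]
    simp only [cr, Complex.sub_re, Complex.sub_im, Complex.add_re, Complex.add_im, hre3, him3]
    ring
  have e3 : cr (a - c) (y - c) = A / 3 + cr (a - c) h := by
    rw [hy', hA]
    simp only [cr, Complex.sub_re, Complex.sub_im, Complex.add_re, Complex.add_im, hre3, him3]
    ring
  have p1 : 0 ≤ cr (b - a) (y - a) / A := by
    rw [e1]
    exact tri_ball_pos hcr hα (hbound b a hb ha)
  have p2 : 0 ≤ cr (c - b) (y - b) / A := by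
    rw [e2]
    exact tri_ball_pos hcr hα (hbound c b hc hb)
  have p3 : 0 ≤ cr (a - c) (y - c) / A := by
    rw [e3]
    exact tri_ball_pos hcr hα (hbound a c ha hc)
  have hsum : cr (c - b) (y - b) / A + cr (a - c) (y - c) / A + cr (b - a) (y - a) / A = 1 := by
    rw [← add_div, ← add_div, div_eq_one_iff_eq hA0, hA]
    simp only [cr, Complex.sub_re, Complex.sub_im]
    ring
  have hcomb : y = (cr (c - b) (y - b) / A) • a + (cr (a - c) (y - c) / A) • b +
      (cr (b - a) (y - a) / A) • c := by
    have key1 : A * y.re = cr (c - b) (y - b) * a.re + cr (a - c) (y - c) * b.re +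
        cr (b - a) (y - a) * c.re := by
      rw [hA]
      simp only [cr, Complex.sub_re, Complex.sub_im]
      ring
    have key2 : A * y.im = cr (c - b) (y - b) * a.im + cr (a - c) (y - c) * b.im +
        cr (b - a) (y - a) * c.im := by
      rw [hA]
      simp only [cr, Complex.sub_re, Complex.sub_im]
      ring
    apply Complex.ext
    · simp only [Complex.add_re, Complex.real_smul, Complex.mul_re, Complex.ofReal_re,
        Complex.ofReal_im, zero_mul, sub_zero]
      field_simp
      linarith
    · simp only [Complex.add_im, Complex.real_smul, Complex.mul_im, Complex.ofReal_re,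
        Complex.ofReal_im, zero_mul, add_zero]
      field_simp
      linarith
  rw [hcomb]
  exact tri_ball_conv (convex_convexHull ℝ _) (subset_convexHull ℝ _ (by simp))
    (subset_convexHull ℝ _ (by simp)) (subset_convexHull ℝ _ (by simp)) p2 p3 p1 hsum

end Pool.Agent.Helper484.DT
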