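import Pool.Agent.Helper484.DT.Defs
import Pool.Agent.Helper484.DT.P_locfin
import Pool.Agent.Helper484.DT.P_q_cover
import Pool.Agent.Helper484.DT.P_tri_ball

set_option autoImplicit false

namespace Pool.Agent.Helper484.DT
open Set Metric Filter
open scoped Topology


theorem q_ct {ι : Type} {T : ι → Set ℂ} {u U : ℝ} (h : CT ι T u U) {p : ι → ℂ}
    {C δ α : ℝ} (hp : GoodP T p C δ α) {σ : ℝ} (ho : Orient T p σ) :
    CT {v : ℂ // IsV T v} (fun v => Qd T p v) (α / (6 * C)) (2 * C) := by
  have hC := hp.Cpos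
  have hα := hp.αpos
  obtain ⟨hcov, hdis⟩ := q_cover h hp ho
  have hsub : ∀ v : ℂ, Qd T p v ⊆ closedBall v C := by
    intro v
    apply convexHull_min _ (convex_closedBall v C)
    rintro _ ⟨i, hi, rfl⟩
    exact hp.disp i v hi
  refine ⟨by positivity, ?_, ?_, ?_, ?_, ?_, ?_⟩
  · intro v
    exact convex_convexHull ℝ _
  · intro v
    obtain ⟨K, hK⟩ := locfin h 0
    have hfin : {i | (v : ℂ) ∈ T i}.Finite := by
      apply (hK (v : ℂ)).1.subset
      intro i hi
      exact ⟨(v : ℂ), hi, mem_closedBall_self le_rfl⟩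
    exact (hfin.image p).isCompact_convexHull (𝕜 := ℝ)
  · intro v
    obtain ⟨i, j, k, hij, hjk, hik, hi, hj, hk⟩ := v.2
    have di := hp.disp i v hi
    have dj := hp.disp j v hj
    have dk := hp.disp k v hk
    have d1 : dist (p i) (p j) ≤ 8 * C := by
      have := dist_triangle_right (p i) (p j) (v : ℂ)
      linarith
    have d2 : dist (p i) (p k) ≤ 8 * C := by
      have := dist_triangle_right (p i) (p k) (v : ℂ)
      linarith
    obtain ⟨x, hx⟩ := tri_ball (p i) (p j) (p k) v C α hC hα di dj dk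
      (hp.gen i j k hij hjk hik d1 d2)
    refine ⟨x, hx.trans ?_⟩
    apply convexHull_mono
    rintro y (rfl | rfl | rfl)
    · exact ⟨i, hi, rfl⟩
    · exact ⟨j, hj, rfl⟩
    · exact ⟨k, hk, rfl⟩
  · intro v x hx y hy
    have h1 := hsub v hx
    have h2 := hsub v hy
    rw [mem_closedBall] at h1 h2
    have := dist_triangle_right x y (v : ℂ)
    linarith
  · intro x
    obtain ⟨v, hv, hx⟩ := hcov x
    exact ⟨⟨v, hv⟩, hx⟩
  · intro v v' hvv
    exact hdis v v' v.2 v'.2 (fun he => hvv (Subtype.ext he))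

end Pool.Agent.Helper484.DT
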