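import Pool.Agent.Helper484.DT.Defs
import Pool.Agent.Helper484.DT.P_int_unique
import Pool.Agent.Helper484.DT.P_q_ct
import Pool.Agent.Helper484.DT.P_nb_p

set_option autoImplicit false

namespace Pool.Agent.Helper484.DT
open Set Metric Filter
open scoped Topology


theorem p_mem {ι : Type} {T : ι → Set ℂ} {u U : ℝ} (h : CT ι T u U) {p : ι → ℂ}
    {C δ α : ℝ} (hp : GoodP T p C δ α) {σ : ℝ} (ho : Orient T p σ) (i : ι) (v : ℂ)
    (hv : IsV T v) : p i ∈ Qd T p v ↔ v ∈ T i := by
  constructor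
  · intro hpi
    have hq := q_ct h hp ho
    have hconv : Convex ℝ (Qd T p v) := hq.conv ⟨v, hv⟩
    obtain ⟨x, hx⟩ := hq.ball ⟨v, hv⟩
    have hint : (interior (Qd T p v)).Nonempty :=
      ⟨x, interior_maximal (ball_subset_closedBall.trans hx) isOpen_ball
        (mem_ball_self hq.upos)⟩
    have hcl : p i ∈ closure (interior (Qd T p v)) := by
      rw [hconv.closure_interior_eq_closure_of_nonempty_interior hint]
      exact subset_closure hpi
    obtain ⟨z, hzN, hz⟩ := mem_closure_iff_nhds.mp hcl _ (nb_p h hp ho i)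
    obtain ⟨v', hv', hvi, hzv⟩ := hzN
    have h1 := int_unique hq ⟨v, hv⟩ ⟨v', hv'⟩ z hz hzv
    have h2 : v' = v := congrArg Subtype.val h1
    rw [← h2]
    exact hvi
  · intro hvi
    exact subset_convexHull ℝ _ ⟨i, hvi, rfl⟩

end Pool.Agent.Helper484.DT
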