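import Pool.Agent.Helper484.DT.Defs

set_option autoImplicit false

namespace Pool.Agent.Helper484.DT
open Set Metric Filter
open scoped Topology


theorem p_seg {ι : Type} {T : ι → Set ℂ} {u U : ℝ} (h : CT ι T u U) {p : ι → ℂ}
    {C δ α : ℝ} (hp : GoodP T p C δ α) (i j r : ι) (hij : Adj T i j)
    (hr : p r ∈ segment ℝ (p i) (p j)) : r = i ∨ r = j := by
  by_contra hcon
  push Not at hcon
  obtain ⟨hne, hnt⟩ := hij
  obtain ⟨z, hzi, hzj⟩ := hnt.nonempty
  have hC := hp.Cpos
  have h1 := hp.disp i z hzi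
  have h2 := hp.disp j z hzj
  have hdij : dist (p i) (p j) ≤ 2 * C := by
    have h3 := dist_triangle_right (p i) (p j) z
    linarith
  rw [segment_eq_image'] at hr
  obtain ⟨t, ht, hpr⟩ := hr
  have hsub : p r - p i = (t : ℂ) * (p j - p i) := by
    rw [← hpr]
    simp only [add_sub_cancel_left, Complex.real_smul]
  have hdir : dist (p i) (p r) ≤ 2 * C := by
    rw [dist_comm, dist_eq_norm, hsub, norm_mul, Complex.norm_real, Real.norm_eq_abs,
      abs_of_nonneg ht.1, ← dist_eq_norm, dist_comm]
    have := mul_le_of_le_one_left (dist_nonneg (x := p i) (y := p j)) ht.2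
    linarith
  have h4 := hp.gen i j r hne hcon.2.symm hcon.1.symm (by linarith) (by linarith)
  have h5 : cr (p j - p i) (p r - p i) = 0 := by
    rw [hsub]
    unfold cr
    rw [Complex.re_ofReal_mul, Complex.im_ofReal_mul]
    ring
  rw [h5, abs_zero] at h4
  linarith [hp.αpos]

end Pool.Agent.Helper484.DT
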