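import Pool.Agent.Helper484.DT.Defs
import Pool.Agent.Helper484.DT.P_int_unique
import Pool.Agent.Helper484.DT.P_p_inj
import Pool.Agent.Helper484.DT.P_p_seg
import Pool.Agent.Helper484.DT.P_q_ct
import Pool.Agent.Helper484.DT.P_p_mem

set_option autoImplicit false

namespace Pool.Agent.Helper484.DT
open Set Metric Filter
open scoped Topology


theorem b_incl {ι : Type} {T : ι → Set ℂ} {u U : ℝ} (h : CT ι T u U) {p : ι → ℂ}
    {C δ α : ℝ} (hp : GoodP T p C δ α) {σ : ℝ} (ho : Orient T p σ) :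
    (∀ i j, ({p j} : Set ℂ) ⊆ {p i} ↔ i = j) ∧
    (∀ i j k, Adj T i j → (({p k} : Set ℂ) ⊆ segment ℝ (p i) (p j) ↔ k = i ∨ k = j)) ∧
    (∀ i j k l, Adj T i j → Adj T k l → (segment ℝ (p k) (p l) ⊆ segment ℝ (p i) (p j) ↔
      (k = i ∨ k = j) ∧ (l = i ∨ l = j))) ∧
    (∀ i j k, Adj T j k → ¬ segment ℝ (p j) (p k) ⊆ {p i}) ∧
    (∀ i v, IsV T v → ¬ Qd T p v ⊆ {p i}) ∧
    (∀ i j v, IsV T v → Adj T i j → ¬ Qd T p v ⊆ segment ℝ (p i) (p j)) ∧
    (∀ i v, IsV T v → (({p i} : Set ℂ) ⊆ Qd T p v ↔ v ∈ T i)) ∧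
    (∀ i j v, IsV T v → (segment ℝ (p i) (p j) ⊆ Qd T p v ↔ v ∈ T i ∧ v ∈ T j)) ∧
    (∀ v v', IsV T v → IsV T v' → (Qd T p v' ⊆ Qd T p v ↔ v = v')) := by
  have hinj : Function.Injective p := p_inj h hp
  have hq := q_ct h hp ho
  refine ⟨?_, ?_, ?_, ?_, ?_, ?_, ?_, ?_, ?_⟩
  · intro i j
    rw [singleton_subset_singleton, hinj.eq_iff]
    exact eq_comm
  · intro i j k hij
    rw [singleton_subset_iff]
    constructor
    · exact p_seg h hp i j k hij
    · rintro (rfl | rfl)
      · exact left_mem_segment ℝ _ _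
      · exact right_mem_segment ℝ _ _
  · intro i j k l hij hkl
    constructor
    · intro hs
      exact ⟨p_seg h hp i j k hij (hs (left_mem_segment ℝ _ _)),
        p_seg h hp i j l hij (hs (right_mem_segment ℝ _ _))⟩
    · rintro ⟨hk, hl⟩
      have hk' : p k ∈ segment ℝ (p i) (p j) := by
        rcases hk with rfl | rfl
        · exact left_mem_segment ℝ _ _
        · exact right_mem_segment ℝ _ _
      have hl' : p l ∈ segment ℝ (p i) (p j) := by
        rcases hl with rfl | rfl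
        · exact left_mem_segment ℝ _ _
        · exact right_mem_segment ℝ _ _
      exact (convex_segment _ _).segment_subset hk' hl'
  · intro i j k hjk hs
    have h1 : p j = p i := hs (left_mem_segment ℝ _ _)
    have h2 : p k = p i := hs (right_mem_segment ℝ _ _)
    exact hjk.1 (hinj (h1.trans h2.symm))
  · rintro i v ⟨a, b, c, hab, -, -, ha, hb, -⟩ hs
    have h1 : p a = p i := hs (subset_convexHull ℝ _ ⟨a, ha, rfl⟩)
    have h2 : p b = p i := hs (subset_convexHull ℝ _ ⟨b, hb, rfl⟩)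
    exact hab (hinj (h1.trans h2.symm))
  · rintro i j v ⟨a, b, c, hab, hbc, hac, ha, hb, hc⟩ hij hs
    have h1 := p_seg h hp i j a hij (hs (subset_convexHull ℝ _ ⟨a, ha, rfl⟩))
    have h2 := p_seg h hp i j b hij (hs (subset_convexHull ℝ _ ⟨b, hb, rfl⟩))
    have h3 := p_seg h hp i j c hij (hs (subset_convexHull ℝ _ ⟨c, hc, rfl⟩))
    rcases h1 with h1 | h1 <;> rcases h2 with h2 | h2 <;> rcases h3 with h3 | h3
    · exact hab (h1.trans h2.symm)
    · exact hab (h1.trans h2.symm)
    · exact hac (h1.trans h3.symm)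
    · exact hbc (h2.trans h3.symm)
    · exact hbc (h2.trans h3.symm)
    · exact hac (h1.trans h3.symm)
    · exact hab (h1.trans h2.symm)
    · exact hab (h1.trans h2.symm)
  · intro i v hv
    rw [singleton_subset_iff]
    exact p_mem h hp ho i v hv
  · intro i j v hv
    constructor
    · intro hs
      exact ⟨(p_mem h hp ho i v hv).mp (hs (left_mem_segment ℝ _ _)),
        (p_mem h hp ho j v hv).mp (hs (right_mem_segment ℝ _ _))⟩
    · rintro ⟨hi, hj⟩
      exact (convex_convexHull ℝ _).segment_subset ((p_mem h hp ho i v hv).mpr hi)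
        ((p_mem h hp ho j v hv).mpr hj)
  · intro v v' hv hv'
    constructor
    · intro hs
      obtain ⟨x, hx⟩ := hq.ball ⟨v', hv'⟩
      have hxi : x ∈ interior (Qd T p v') := by
        rw [mem_interior]
        exact ⟨ball x (α / (6 * C)), fun y hy => hx (ball_subset_closedBall hy), isOpen_ball,
          mem_ball_self hq.upos⟩
      have := int_unique hq ⟨v', hv'⟩ ⟨v, hv⟩ x hxi (hs (interior_subset hxi))
      exact congrArg Subtype.val this
    · rintro rfl
      exact subset_rfl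

end Pool.Agent.Helper484.DT
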