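import Pool.Agent.Helper484.DT.Defs

set_option autoImplicit false

namespace Pool.Agent.Helper484.DT
open Set Metric Filter
open scoped Topology


theorem bary (K : ℕ) (D δ : ℝ) (hD : 0 < D) (hδ : 0 < δ) :
    ∃ l0 : ℝ, 0 < l0 ∧ ∀ (ι : Type) (S : Finset ι) (y : ι → ℂ), S.card ≤ K →
      (∀ j ∈ S, ‖y j‖ ≤ D) → (∀ w : ℂ, ‖w‖ = 1 → ∃ j ∈ S, δ ≤ dt w (y j)) →
      ∃ a : ι → ℝ, (∀ j ∈ S, l0 ≤ a j) ∧ ∑ j ∈ S, a j = 1 ∧ ∑ j ∈ S, (a j : ℂ) * y j = 0 := by
  classical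
  have hK1 : (0 : ℝ) < (K : ℝ) + 1 := by positivity
  refine ⟨min (1 / (2 * ((K : ℝ) + 1))) (δ / (2 * ((K : ℝ) + 1) * D)), by positivity, ?_⟩
  set l0 := min (1 / (2 * ((K : ℝ) + 1))) (δ / (2 * ((K : ℝ) + 1) * D)) with hl0
  have hl0pos : 0 < l0 := by positivity
  have hl1 : l0 ≤ 1 / (2 * ((K : ℝ) + 1)) := min_le_left _ _
  have hl2 : l0 ≤ δ / (2 * ((K : ℝ) + 1) * D) := min_le_right _ _
  rw [le_div_iff₀ (by positivity)] at hl1 hl2
  intro ι S y hS hy hw
  obtain ⟨j0, hj0, -⟩ := hw 1 (by simp)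
  have hScard : (S.card : ℝ) ≤ K := by exact_mod_cast hS
  have hS0 : (0 : ℝ) ≤ S.card := Nat.cast_nonneg _
  -- hull contains the ball
  have hball : ∀ z : ℂ, ‖z‖ ≤ δ → z ∈ convexHull ℝ (y '' (S : Set ι)) := by
    intro z hz
    by_contra hzn
    have hfin : (y '' (S : Set ι)).Finite := S.finite_toSet.image y
    obtain ⟨f, u, hf1, hf2⟩ := geometric_hahn_banach_closed_point
      (convex_convexHull ℝ (y '' (S : Set ι))) (hfin.isCompact_convexHull ℝ).isClosed hzn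
    set w0 : ℂ := ⟨f 1, f Complex.I⟩ with hw0
    have hfdt : ∀ x : ℂ, f x = dt w0 x := by
      intro x
      have h1 : x = x.re • (1 : ℂ) + x.im • Complex.I := by
        apply Complex.ext <;> simp
      conv_lhs => rw [h1]
      rw [map_add, map_smul, map_smul]
      show x.re * f 1 + x.im * f Complex.I = f 1 * x.re + f Complex.I * x.im
      ring
    have hCS : ∀ a b : ℂ, dt a b ≤ ‖a‖ * ‖b‖ := by
      intro a b
      have h1 : dt a b = ((starRingEnd ℂ) a * b).re := by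
        unfold dt
        simp [Complex.mul_re]
      rw [h1]
      refine (Complex.re_le_norm _).trans ?_
      rw [norm_mul, Complex.norm_conj]
    have hy0 : f (y j0) < u := hf1 _ (subset_convexHull ℝ _ ⟨j0, hj0, rfl⟩)
    have hw0ne : w0 ≠ 0 := by
      intro h
      rw [hfdt, h] at hf2 hy0
      unfold dt at hf2 hy0
      simp at hf2 hy0
      linarith
    have hn : 0 < ‖w0‖ := norm_pos_iff.mpr hw0ne
    obtain ⟨j, hj, hjw⟩ := hw ((‖w0‖⁻¹ : ℝ) • w0) (by
      rw [norm_smul, norm_inv, norm_norm, inv_mul_cancel₀ hn.ne'])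
    have hdts : ∀ x, dt ((‖w0‖⁻¹ : ℝ) • w0) x = ‖w0‖⁻¹ * dt w0 x := by
      intro x
      unfold dt
      simp only [Complex.real_smul, Complex.re_ofReal_mul, Complex.im_ofReal_mul]
      ring
    rw [hdts, ← hfdt] at hjw
    have h3 : f (y j) < f z := (hf1 _ (subset_convexHull ℝ _ ⟨j, hj, rfl⟩)).trans hf2
    have h4 : f z ≤ ‖w0‖ * δ := by
      rw [hfdt]
      exact (hCS w0 z).trans (mul_le_mul_of_nonneg_left hz hn.le)
    have h5 : ‖w0‖⁻¹ * f (y j) < ‖w0‖⁻¹ * (‖w0‖ * δ) :=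
      mul_lt_mul_of_pos_left (lt_of_lt_of_le h3 h4) (inv_pos.mpr hn)
    rw [← mul_assoc, inv_mul_cancel₀ hn.ne', one_mul] at h5
    linarith
  have hsub : convexHull ℝ (y '' (S : Set ι)) ⊆ {z | ∃ β : ι → ℝ, (∀ j ∈ S, 0 ≤ β j) ∧
      ∑ j ∈ S, β j = 1 ∧ ∑ j ∈ S, (β j : ℂ) * y j = z} := by
    refine convexHull_min ?_ ?_
    · rintro _ ⟨j, hj, rfl⟩
      have hj' : j ∈ S := hj
      refine ⟨fun i => if i = j then 1 else 0, ?_, ?_, ?_⟩
      · intro i _
        show (0 : ℝ) ≤ if i = j then 1 else 0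
        split_ifs <;> norm_num
      · rw [Finset.sum_ite_eq' S j (fun _ => (1 : ℝ)), if_pos hj']
      · rw [Finset.sum_eq_single j]
        · simp
        · intro i _ hi
          simp [hi]
        · intro h
          exact absurd hj' h
    · rintro z1 ⟨β1, p1, q1, r1⟩ z2 ⟨β2, p2, q2, r2⟩ a b ha hb hab
      refine ⟨fun j => a * β1 j + b * β2 j, ?_, ?_, ?_⟩
      · intro j hj
        have := mul_nonneg ha (p1 j hj)
        have := mul_nonneg hb (p2 j hj)
        show 0 ≤ a * β1 j + b * β2 j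
        linarith
      · rw [Finset.sum_add_distrib, ← Finset.mul_sum, ← Finset.mul_sum, q1, q2]
        linarith
      · rw [← r1, ← r2, Finset.smul_sum, Finset.smul_sum, ← Finset.sum_add_distrib]
        refine Finset.sum_congr rfl (fun j _ => ?_)
        rw [Complex.real_smul, Complex.real_smul]
        push_cast
        ring
  set b := 1 - S.card * l0 with hb
  have hbhalf : 1 / 2 ≤ b := by
    rw [hb]
    nlinarith
  have hb0 : 0 < b := by linarith
  set z : ℂ := -((l0 / b : ℝ) : ℂ) * ∑ j ∈ S, y j with hz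
  have hzn : ‖z‖ ≤ δ := by
    rw [hz, norm_mul, norm_neg, Complex.norm_real, Real.norm_eq_abs,
      abs_of_pos (div_pos hl0pos hb0)]
    have h1 : ‖∑ j ∈ S, y j‖ ≤ S.card * D := by
      refine (norm_sum_le _ _).trans ?_
      calc ∑ j ∈ S, ‖y j‖ ≤ ∑ j ∈ S, D := Finset.sum_le_sum (fun j hj => hy j hj)
        _ = S.card * D := by rw [Finset.sum_const, nsmul_eq_mul]
    have h2 : l0 / b ≤ 2 * l0 := by
      rw [div_le_iff₀ hb0]
      nlinarith
    have h3 : ‖∑ j ∈ S, y j‖ ≤ K * D := h1.trans (mul_le_mul_of_nonneg_right hScard hD.le)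
    calc l0 / b * ‖∑ j ∈ S, y j‖ ≤ 2 * l0 * (K * D) :=
          mul_le_mul h2 h3 (norm_nonneg _) (by positivity)
      _ ≤ δ := by nlinarith [mul_pos hl0pos hD]
  obtain ⟨β, hβ1, hβ2, hβ3⟩ := hsub (hball z hzn)
  refine ⟨fun j => l0 + b * β j, ?_, ?_, ?_⟩
  · intro j hj
    have := mul_nonneg hb0.le (hβ1 j hj)
    show l0 ≤ l0 + b * β j
    linarith
  · rw [Finset.sum_add_distrib, ← Finset.mul_sum, hβ2, Finset.sum_const, nsmul_eq_mul, hb]
    ring
  · have h1 : ∑ j ∈ S, ((l0 + b * β j : ℝ) : ℂ) * y j =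
        (l0 : ℂ) * ∑ j ∈ S, y j + (b : ℂ) * ∑ j ∈ S, (β j : ℂ) * y j := by
      rw [Finset.mul_sum, Finset.mul_sum, ← Finset.sum_add_distrib]
      refine Finset.sum_congr rfl (fun j _ => ?_)
      push_cast
      ring
    rw [h1, hβ3, hz]
    have hbc : (b : ℂ) ≠ 0 := by exact_mod_cast hb0.ne'
    push_cast
    field_simp
    ring

end Pool.Agent.Helper484.DT
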