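import Pool.Agent.Helper484.DT.Defs
import Pool.Agent.Helper484.DT.P_rim_exists

set_option autoImplicit false

namespace Pool.Agent.Helper484.DT
open Set Metric Filter
open scoped Topology


theorem w_const {ι : Type} {T : ι → Set ℂ} {u U : ℝ} (h : CT ι T u U) (n : ℕ) (g : ℕ → ι)
    (W : ℂ → ℤ) (hW : ∀ i j R L, Dart T i j R L →
        W L - W R = ({k | k < n ∧ g k = i ∧ g (k + 1) = j}.ncard : ℤ) -
          ({k | k < n ∧ g k = j ∧ g (k + 1) = i}.ncard : ℤ))
    (i : ι) (hi : ∀ k ≤ n, g k ≠ i) (v w : ℂ) (hv : IsV T v) (hw : IsV T w) (hvi : v ∈ T i)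
    (hwi : w ∈ T i) : W v = W w := by
  obtain ⟨m, s, x, hR⟩ := rim_exists h i
  obtain ⟨a, -, ha⟩ := hR.allx v hv hvi
  obtain ⟨b, -, hb⟩ := hR.allx w hw hwi
  have h1 : ∀ k, W (x (k + 1)) = W (x k) := by
    intro k
    have h2 := hW i (s k) (x k) (x (k + 1)) (hR.dart k)
    have h3 : {l | l < n ∧ g l = i ∧ g (l + 1) = s k} = (∅ : Set ℕ) := by
      refine Set.eq_empty_iff_forall_notMem.2 fun l hl => ?_
      exact hi l hl.1.le hl.2.1
    have h4 : {l | l < n ∧ g l = s k ∧ g (l + 1) = i} = (∅ : Set ℕ) := by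
      refine Set.eq_empty_iff_forall_notMem.2 fun l hl => ?_
      exact hi (l + 1) hl.1 hl.2.2
    rw [h3, h4, Set.ncard_empty] at h2
    omega
  have h2 : ∀ k, W (x k) = W (x 0) := by
    intro k
    induction k with
    | zero => rfl
    | succ k ih => rw [h1, ih]
  rw [← ha, ← hb, h2 a, h2 b]

end Pool.Agent.Helper484.DT
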