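import Pool.Agent.Helper484.DT.Defs
import Pool.Agent.Helper484.DT.P_dart_symm
import Pool.Agent.Helper484.DT.P_dart_exists
import Pool.Agent.Helper484.DT.P_dart_unique
import Pool.Agent.Helper484.DT.P_dart_vertex
import Pool.Agent.Helper484.DT.P_rim_exists
import Pool.Agent.Helper484.DT.P_conn_open
import Pool.Agent.Helper484.DT.P_walk_of

set_option autoImplicit false

namespace Pool.Agent.Helper484.DT
open Set Metric Filter
open scoped Topology


theorem wz_tile {ι : Type} {T : ι → Set ℂ} {u U : ℝ} (h : CT ι T u U) (v : ℂ) (D : ℂ → ℤ)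
    (hD : ∀ i j R L, Dart T i j R L → R ≠ v → L ≠ v → D L = D R) (i : ι) (y z : ℂ)
    (hy : IsV T y) (hz : IsV T z) (hyi : y ∈ T i) (hzi : z ∈ T i) (hyv : y ≠ v) (hzv : z ≠ v) :
    D y = D z := by
  obtain ⟨n, s, x, hR⟩ := rim_exists h i
  obtain ⟨a, ha, hxa⟩ := hR.allx y hy hyi
  obtain ⟨b, hb, hxb⟩ := hR.allx z hz hzi
  have hstep : ∀ k, x k ≠ v → x (k + 1) ≠ v → D (x (k + 1)) = D (x k) :=
    fun k h1 h2 => hD i (s k) (x k) (x (k + 1)) (hR.dart k) h1 h2
  have hn := hR.three
  by_cases hc : ∃ c, c < n ∧ x c = v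
  · obtain ⟨c, hcn, hcv⟩ := hc
    have hne : ∀ m, c + 1 ≤ m → m ≤ c + n - 1 → x m ≠ v := by
      intro m h1 h2 h3
      rcases lt_or_ge m n with hm | hm
      · have := hR.injx m c hm hcn (h3.trans hcv.symm)
        omega
      · have h4 : x m = x (m - n) := by
          have := hR.perx (m - n)
          rw [Nat.sub_add_cancel hm] at this
          exact this
        rw [h4] at h3
        have := hR.injx (m - n) c (by omega) hcn (h3.trans hcv.symm)
        omega
    have hall : ∀ m, c + 1 + m ≤ c + n - 1 → D (x (c + 1 + m)) = D (x (c + 1)) := by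
      intro m
      induction m with
      | zero => intro _; rfl
      | succ m ih =>
        intro hm
        rw [← ih (by omega)]
        exact hstep (c + 1 + m) (hne _ (by omega) (by omega)) (hne _ (by omega) (by omega))
    have hrep : ∀ a, a < n → x a ≠ v → D (x a) = D (x (c + 1)) := by
      intro a ha hav
      rcases lt_trichotomy a c with h1 | h1 | h1
      · have h2 := hall (a + n - (c + 1)) (by omega)
        have h3 : c + 1 + (a + n - (c + 1)) = a + n := by omega
        rw [h3, hR.perx] at h2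
        exact h2
      · exact absurd (h1 ▸ hcv) hav
      · have h2 := hall (a - (c + 1)) (by omega)
        have h3 : c + 1 + (a - (c + 1)) = a := by omega
        rw [h3] at h2
        exact h2
    rw [← hxa, ← hxb, hrep a ha (by rw [hxa]; exact hyv), hrep b hb (by rw [hxb]; exact hzv)]
  · push Not at hc
    have hall : ∀ m, m < n → D (x m) = D (x 0) := by
      intro m
      induction m with
      | zero => intro _; rfl
      | succ m ih =>
        intro hm
        rw [← ih (by omega)]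
        exact hstep m (hc m (by omega)) (hc _ hm)
    rw [← hxa, ← hxb, hall a ha, hall b hb]

theorem w_zero {ι : Type} {T : ι → Set ℂ} {u U : ℝ} (h : CT ι T u U) (v : ℂ) (D : ℂ → ℤ)
    (hD : ∀ i j R L, Dart T i j R L → R ≠ v → L ≠ v → D L = D R) (ρ : ℝ)
    (hρ : ∀ x : ℂ, ρ ≤ ‖x‖ → D x = 0) : ∀ x, IsV T x → x ≠ v → D x = 0 := by
  intro x hx' hxv
  obtain ⟨i, _, _, _, _, _, hxi, _, _⟩ := id hx'
  -- a far tile
  set z0 : ℂ := ((|ρ| + |U| : ℝ) : ℂ) with hz0
  obtain ⟨i', hi'⟩ := h.cover z0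
  have hfar : ∀ y ∈ T i', ρ ≤ ‖y‖ := by
    intro y hy
    have h1 := h.diam i' z0 hi' y hy
    have h2 : ‖z0‖ = |ρ| + |U| := by
      rw [hz0, Complex.norm_real, Real.norm_eq_abs, abs_of_nonneg (by positivity)]
    have h3 : ‖z0‖ ≤ dist z0 y + ‖y‖ := by
      have := norm_sub_norm_le z0 y
      rw [dist_eq_norm]; linarith
    have h4 := le_abs_self ρ
    have h5 := le_abs_self U
    linarith
  obtain ⟨n, s, w, hR⟩ := rim_exists h i'
  have hn := hR.three
  have hw01 : w 0 ≠ w 1 := by
    intro h0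
    have := hR.injx 0 1 (by omega) (by omega) h0
    omega
  have hwmem : ∀ k, w k ∈ T i' ∧ IsV T (w k) := by
    intro k
    have hd := hR.dart k
    refine ⟨?_, (dart_vertex h hd).1⟩
    have : w k ∈ T i' ∩ T (s k) := by
      rw [hd.2.2.1]; exact left_mem_segment ℝ _ _
    exact this.1
  obtain ⟨y, hyi, hyV, hyv⟩ : ∃ y, y ∈ T i' ∧ IsV T y ∧ y ≠ v := by
    by_cases h0 : w 0 = v
    · exact ⟨w 1, (hwmem 1).1, (hwmem 1).2, fun h1 => hw01 (h0.trans h1.symm)⟩
    · exact ⟨w 0, (hwmem 0).1, (hwmem 0).2, h0⟩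
  have hpath := conn_open h univ isOpen_univ convex_univ i i' ⟨x, hxi, mem_univ _⟩
    ⟨z0, hi', mem_univ _⟩
  have hkey : ∀ j, Relation.ReflTransGen (fun a b => Adj T a b ∧ (T a ∩ univ).Nonempty ∧
      (T b ∩ univ).Nonempty) i j → ∀ y, y ∈ T j → IsV T y → y ≠ v → D y = D x := by
    intro j hj
    induction hj with
    | refl =>
      intro y hy hyV hyv
      exact wz_tile h v D hD i y x hyV hx' hy hxi hyv hxv
    | tail _ hstep ih =>
      rename_i b c _
      intro y hy hyV hyv
      obtain ⟨hadj, _, _⟩ := hstep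
      obtain ⟨R, L, hd⟩ := dart_exists h b c hadj
      obtain ⟨hRV, hLV, _⟩ := dart_vertex h hd
      have hRm : R ∈ T b ∩ T c := by
        rw [hd.2.2.1]; exact left_mem_segment ℝ _ _
      have hLm : L ∈ T b ∩ T c := by
        rw [hd.2.2.1]; exact right_mem_segment ℝ _ _
      by_cases hRv : R = v
      · have hLv : L ≠ v := fun h1 => hd.2.1 (hRv.trans h1.symm)
        rw [wz_tile h v D hD c y L hyV hLV hy hLm.2 hyv hLv]
        exact ih L hLm.1 hLV hLv
      · rw [wz_tile h v D hD c y R hyV hRV hy hRm.2 hyv hRv]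
        exact ih R hRm.1 hRV hRv
  rw [← hkey i' hpath y hyi hyV hyv]
  exact hρ y (hfar y hyi)

end Pool.Agent.Helper484.DT
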