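import Pool.Agent.Helper484.DT.Defs
import Pool.Agent.Helper484.DT.P_dart_symm
import Pool.Agent.Helper484.DT.P_dart_adj
import Pool.Agent.Helper484.DT.P_dart_exists
import Pool.Agent.Helper484.DT.P_dart_unique
import Pool.Agent.Helper484.DT.P_dart_vertex
import Pool.Agent.Helper484.DT.P_closed_walk
import Pool.Agent.Helper484.DT.P_walk_of
import Pool.Agent.Helper484.DT.P_w_const
import Pool.Agent.Helper484.DT.P_w_zero

set_option autoImplicit false

namespace Pool.Agent.Helper484.DT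
open Set Metric Filter
open scoped Topology


theorem cnt_26430 {ι : Type} [DecidableEq ι] (g : ℕ → ι) (n : ℕ) (i j : ι) :
    ({k | k < n ∧ g k = i ∧ g (k + 1) = j}.ncard : ℤ) =
      ∑ k ∈ Finset.range n, (if g k = i ∧ g (k + 1) = j then (1 : ℤ) else 0) := by
  have e : {k | k < n ∧ g k = i ∧ g (k + 1) = j} =
      ((Finset.range n).filter (fun k => g k = i ∧ g (k + 1) = j) : Set ℕ) := by
    ext k
    simp
  rw [e, Set.ncard_coe_finset, Finset.card_filter]
  push_cast
  rfl

theorem cnt2_26430 {ι : Type} [DecidableEq ι] (g : ℕ → ι) (n : ℕ) (i j : ι) (τ : ι → ι → ℤ)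
    (hτ : ∀ x y, τ x y = (if x = i ∧ y = j then (1 : ℤ) else 0) -
      (if x = j ∧ y = i then (1 : ℤ) else 0)) :
    ({k | k < n ∧ g k = i ∧ g (k + 1) = j}.ncard : ℤ) -
      ({k | k < n ∧ g k = j ∧ g (k + 1) = i}.ncard : ℤ) =
      ∑ k ∈ Finset.range n, τ (g k) (g (k + 1)) := by
  rw [cnt_26430, cnt_26430, ← Finset.sum_sub_distrib]
  exact Finset.sum_congr rfl fun k _ => (hτ _ _).symm

theorem starinj_26430 {ι : Type} {T : ι → Set ℂ} {v : ℂ} {n : ℕ}
    {t : ℕ → ι} {r : ℕ → ℂ} (hs : Star T v n t r) (a x y : ℕ) (h1 : a ≤ x) (h2 : x < a + n)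
    (h3 : a ≤ y) (h4 : y < a + n) (h : t x = t y) : x = y := by
  have hn : 0 < n := lt_of_lt_of_le (by norm_num) hs.three
  have hm : ∀ k, t (k % n) = t k := fun k => Function.Periodic.map_mod_nat hs.pert k
  have h5 : x % n = y % n := by
    apply hs.inj _ _ (Nat.mod_lt _ hn) (Nat.mod_lt _ hn)
    rw [hm, hm, h]
  obtain ⟨x', rfl⟩ := Nat.exists_eq_add_of_le h1
  obtain ⟨y', rfl⟩ := Nat.exists_eq_add_of_le h3
  have h6 : x' ≡ y' [MOD n] := Nat.ModEq.add_left_cancel' a h5
  have h7 := Nat.ModEq.eq_of_lt_of_lt h6 (by omega) (by omega)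
  rw [h7]

theorem starmem_26430 {ι : Type} {T : ι → Set ℂ} {v : ℂ} {n : ℕ}
    {t : ℕ → ι} {r : ℕ → ℂ} (hs : Star T v n t r) (k : ℕ) : v ∈ T (t k) := by
  have hn : 0 < n := lt_of_lt_of_le (by norm_num) hs.three
  exact (hs.all _).2 ⟨k % n, Nat.mod_lt _ hn, Function.Periodic.map_mod_nat hs.pert k⟩

theorem prop_26430 {ι : Type} {T : ι → Set ℂ} {u U : ℝ} (h : CT ι T u U) (n : ℕ) (g : ℕ → ι)
    (W : ℂ → ℤ) (hW : ∀ i j R L, Dart T i j R L →
        W L - W R = ({k | k < n ∧ g k = i ∧ g (k + 1) = j}.ncard : ℤ) -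
          ({k | k < n ∧ g k = j ∧ g (k + 1) = i}.ncard : ℤ))
    (m : ℕ → ι) (e e' : ℕ) (hadj : ∀ l, e ≤ l → l < e' → Adj T (m l) (m (l + 1)))
    (hnot : ∀ l, e ≤ l → l ≤ e' → ∀ k ≤ n, g k ≠ m l) (x : ℂ) (hx : IsV T x)
    (hxm : x ∈ T (m e)) :
    ∀ l, e ≤ l → l ≤ e' → ∀ y, IsV T y → y ∈ T (m l) → W y = W x := by
  intro l hl
  induction l, hl using Nat.le_induction with
  | base =>
    intro h1 y hy hym
    exact w_const h n g W hW (m e) (hnot e le_rfl h1) y x hy hx hym hxm
  | succ l hl ih =>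
    intro h1 y hy hym
    have h2 := ih (by omega)
    obtain ⟨R, L, hd⟩ := dart_exists h _ _ (hadj l hl (by omega))
    have hR : R ∈ T (m l) ∩ T (m (l + 1)) := by
      rw [hd.2.2.1]
      exact left_mem_segment ℝ R L
    have hRV := (dart_vertex h hd).1
    rw [← h2 R hRV hR.1]
    exact w_const h n g W hW (m (l + 1)) (hnot (l + 1) (by omega) h1) y R hy hRV hym hR.2

theorem arcs_26430 {ι : Type} (m : ℕ → ι) (s : ℕ) (A1 A2 : ι → Prop) (h0 : A1 (m 0))
    (hs : A2 (m s)) (hd : ∀ i, A1 i → A2 i → False) :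
    ∃ e e', e < e' ∧ e' ≤ s ∧ A1 (m e) ∧ A2 (m e') ∧
      ∀ l, e < l → l < e' → ¬ A1 (m l) ∧ ¬ A2 (m l) := by
  classical
  have hex : ∃ l, A2 (m l) := ⟨s, hs⟩
  have hf := Nat.find_spec hex
  have hmin : ∀ l, l < Nat.find hex → ¬ A2 (m l) := fun l hl => Nat.find_min hex hl
  have hle : Nat.find hex ≤ s := Nat.find_min' hex hs
  obtain ⟨e', he'⟩ : ∃ e', e' = Nat.find hex := ⟨_, rfl⟩
  rw [← he'] at hf hmin hle
  have hpos : 0 < e' := by
    rcases Nat.eq_zero_or_pos e' with h | h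
    · rw [h] at hf
      exact (hd _ h0 hf).elim
    · exact h
  refine ⟨Nat.findGreatest (fun l => A1 (m l)) (e' - 1), e', ?_, hle, ?_, hf, ?_⟩
  · have := Nat.findGreatest_le (P := fun l => A1 (m l)) (e' - 1)
    omega
  · exact Nat.findGreatest_spec (P := fun l => A1 (m l)) (Nat.zero_le _) h0
  · intro l hl1 hl2
    exact ⟨Nat.findGreatest_is_greatest (P := fun l => A1 (m l)) hl1 (by omega), hmin l hl2⟩

theorem claimA {ι : Type} {T : ι → Set ℂ} {u U : ℝ} (h : CT ι T u U) {v : ℂ} {n : ℕ}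
    {t : ℕ → ι} {r : ℕ → ℂ} (hs : Star T v n t r) (P M : Set ι) (hP : ConnIn T P)
    (hM : ConnIn T M) (hPM : Disjoint P M) (a b c d : ℕ) (hab : a < b) (hbc : b < c)
    (hcd : c < d) (hda : d < a + n) (ha : t a ∈ P) (hc : t c ∈ P) (hb : t b ∈ M)
    (hd : t d ∈ M) : False := by
  classical
  have hn3 := hs.three
  have hdisj : ∀ i, i ∈ P → i ∈ M → False := fun i h1 h2 => Set.disjoint_left.1 hPM h1 h2
  have hvv : IsV T v := (dart_vertex h (hs.dart 0)).2.1
  -- the walk in P
  obtain ⟨q, p, hp0, hpq, hpstep⟩ := walk_of (hP _ ha _ hc)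
  have hpP : ∀ k ≤ q, p k ∈ P := by
    intro k hk
    rcases Nat.eq_zero_or_pos k with h0 | h0
    · rw [h0, hp0]
      exact ha
    · obtain ⟨k', rfl⟩ : ∃ k', k = k' + 1 := ⟨k - 1, by omega⟩
      exact (hpstep k' (by omega)).2.2
  -- the walk in M
  obtain ⟨s, m, hm0, hms, hmstep⟩ := walk_of (hM _ hb _ hd)
  have hmM : ∀ k ≤ s, m k ∈ M := by
    intro k hk
    rcases Nat.eq_zero_or_pos k with h0 | h0
    · rw [h0, hm0]
      exact hb
    · obtain ⟨k', rfl⟩ : ∃ k', k = k' + 1 := ⟨k - 1, by omega⟩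
      exact (hmstep k' (by omega)).2.2
  -- the closed walks
  obtain ⟨g1, hg1⟩ : ∃ g1 : ℕ → ι, ∀ k, g1 k = if k ≤ q then p k else t (c - (k - q)) :=
    ⟨_, fun _ => rfl⟩
  obtain ⟨g2, hg2⟩ : ∃ g2 : ℕ → ι, ∀ k, g2 k = if k ≤ q then p k else t (c + (k - q)) :=
    ⟨_, fun _ => rfl⟩
  have hg1p : ∀ k ≤ q, g1 k = p k := fun k hk => by rw [hg1, if_pos hk]
  have hg2p : ∀ k ≤ q, g2 k = p k := fun k hk => by rw [hg2, if_pos hk]
  have hg1t : ∀ k, g1 (q + k) = t (c - k) := by
    intro k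
    rcases Nat.eq_zero_or_pos k with h0 | h0
    · rw [h0, Nat.add_zero, Nat.sub_zero, hg1p q le_rfl, hpq]
    · rw [hg1, if_neg (by omega), Nat.add_sub_cancel_left]
  have hg2t : ∀ k, g2 (q + k) = t (c + k) := by
    intro k
    rcases Nat.eq_zero_or_pos k with h0 | h0
    · rw [h0, Nat.add_zero, Nat.add_zero, hg2p q le_rfl, hpq]
    · rw [hg2, if_neg (by omega), Nat.add_sub_cancel_left]
  obtain ⟨n1, hn1⟩ : ∃ n1, n1 = q + (c - a) := ⟨_, rfl⟩
  obtain ⟨n2, hn2⟩ : ∃ n2, n2 = q + (a + n - c) := ⟨_, rfl⟩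
  have hadj1 : ∀ k < n1, Adj T (g1 k) (g1 (k + 1)) := by
    intro k hk
    by_cases hkq : k < q
    · rw [hg1p k hkq.le, hg1p (k + 1) hkq]
      exact (hpstep k hkq).1
    · obtain ⟨k', rfl⟩ := Nat.exists_eq_add_of_le (not_lt.1 hkq)
      rw [hg1t, Nat.add_assoc, hg1t]
      have e : c - k' = (c - (k' + 1)) + 1 := by omega
      rw [e]
      exact dart_adj (dart_symm (hs.dart _))
  have hadj2 : ∀ k < n2, Adj T (g2 k) (g2 (k + 1)) := by
    intro k hk
    by_cases hkq : k < q
    · rw [hg2p k hkq.le, hg2p (k + 1) hkq]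
      exact (hpstep k hkq).1
    · obtain ⟨k', rfl⟩ := Nat.exists_eq_add_of_le (not_lt.1 hkq)
      rw [hg2t, Nat.add_assoc, hg2t]
      exact dart_adj (hs.dart _)
  have hcl1 : g1 n1 = g1 0 := by
    rw [hn1, hg1t, hg1p 0 (Nat.zero_le _), hp0]
    congr 1
    omega
  have hcl2 : g2 n2 = g2 0 := by
    rw [hn2, hg2t, hg2p 0 (Nat.zero_le _), hp0]
    have e : c + (a + n - c) = a + n := by omega
    rw [e, hs.pert]
  obtain ⟨W1, hW1, ρ1, hρ1⟩ := closed_walk h n1 g1 hadj1 hcl1
  obtain ⟨W2, hW2, ρ2, hρ2⟩ := closed_walk h n2 g2 hadj2 hcl2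
  -- difference formula
  have hdiff : ∀ (i j : ι) (R L : ℂ), Dart T i j R L → ∀ τ : ι → ι → ℤ,
      (∀ x y, τ x y = (if x = i ∧ y = j then (1 : ℤ) else 0) -
        (if x = j ∧ y = i then (1 : ℤ) else 0)) →
      (W2 L - W1 L) - (W2 R - W1 R) = ∑ l ∈ Finset.range n, τ (t (a + l)) (t (a + l + 1)) := by
    intro i j R L hdt τ hτ
    have e1 := hW1 i j R L hdt
    have e2 := hW2 i j R L hdt
    rw [cnt2_26430 g1 n1 i j τ hτ] at e1
    rw [cnt2_26430 g2 n2 i j τ hτ] at e2
    have hanti : ∀ x y, τ x y = - τ y x := by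
      intro x y
      rw [hτ, hτ]
      have c1 : (x = i ∧ y = j) ↔ (y = j ∧ x = i) := and_comm
      have c2 : (x = j ∧ y = i) ↔ (y = i ∧ x = j) := and_comm
      simp only [c1, c2]
      ring
    have f1 : ∑ k ∈ Finset.range n1, τ (g1 k) (g1 (k + 1)) =
        ∑ k ∈ Finset.range q, τ (p k) (p (k + 1)) -
          ∑ l ∈ Finset.range (c - a), τ (t (a + l)) (t (a + l + 1)) := by
      rw [hn1, Finset.sum_range_add, sub_eq_add_neg, ← Finset.sum_neg_distrib]
      congr 1
      · apply Finset.sum_congr rfl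
        intro k hk
        rw [Finset.mem_range] at hk
        rw [hg1p k hk.le, hg1p (k + 1) hk]
      · rw [← Finset.sum_range_reflect]
        apply Finset.sum_congr rfl
        intro k hk
        rw [Finset.mem_range] at hk
        rw [Nat.add_assoc, hg1t, hg1t, hanti]
        congr 3
        · omega
        · omega
    have f2 : ∑ k ∈ Finset.range n2, τ (g2 k) (g2 (k + 1)) =
        ∑ k ∈ Finset.range q, τ (p k) (p (k + 1)) +
          ∑ l ∈ Finset.range (a + n - c), τ (t (c + l)) (t (c + l + 1)) := by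
      rw [hn2, Finset.sum_range_add]
      congr 1
      · apply Finset.sum_congr rfl
        intro k hk
        rw [Finset.mem_range] at hk
        rw [hg2p k hk.le, hg2p (k + 1) hk]
      · apply Finset.sum_congr rfl
        intro k hk
        rw [Nat.add_assoc, hg2t, hg2t, Nat.add_assoc]
    have f3 : ∑ l ∈ Finset.range n, τ (t (a + l)) (t (a + l + 1)) =
        ∑ l ∈ Finset.range (c - a), τ (t (a + l)) (t (a + l + 1)) +
          ∑ l ∈ Finset.range (a + n - c), τ (t (c + l)) (t (c + l + 1)) := by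
      have e : n = (c - a) + (a + n - c) := by omega
      conv_lhs => rw [e]
      rw [Finset.sum_range_add]
      congr 1
      apply Finset.sum_congr rfl
      intro k hk
      have e : a + (c - a + k) = c + k := by omega
      rw [e]
    rw [f1] at e1
    rw [f2] at e2
    rw [f3]
    linarith
  -- D vanishes at the vertices different from v
  have hD0 : ∀ x, IsV T x → x ≠ v → W2 x - W1 x = 0 := by
    apply w_zero h v (fun x => W2 x - W1 x) _ (max ρ1 ρ2)
    · intro x hx
      have h1 := hρ1 x ((le_max_left _ _).trans hx)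
      have h2 := hρ2 x ((le_max_right _ _).trans hx)
      show W2 x - W1 x = 0
      rw [h1, h2, sub_zero]
    · intro i j R L hdt hR hL
      have h1 := hdiff i j R L hdt (fun x y => (if x = i ∧ y = j then (1 : ℤ) else 0) -
        (if x = j ∧ y = i then (1 : ℤ) else 0)) (fun _ _ => rfl)
      have h2 : ∑ l ∈ Finset.range n, ((if t (a + l) = i ∧ t (a + l + 1) = j then (1 : ℤ) else 0) -
        (if t (a + l) = j ∧ t (a + l + 1) = i then (1 : ℤ) else 0)) = 0 := by
        apply Finset.sum_eq_zero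
        intro l _
        rw [if_neg, if_neg, sub_zero]
        · rintro ⟨h3, h4⟩
          have h5 := hs.dart (a + l)
          rw [h3, h4] at h5
          exact hR (dart_unique h hdt (dart_symm h5)).1
        · rintro ⟨h3, h4⟩
          have h5 := hs.dart (a + l)
          rw [h3, h4] at h5
          exact hL (dart_unique h hdt h5).2
      have h3 : (W2 L - W1 L) - (W2 R - W1 R) = 0 := h1.trans h2
      show W2 L - W1 L = W2 R - W1 R
      linarith
  -- D v = 1
  have hDv : W2 v - W1 v = 1 := by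
    have hda' := hs.dart a
    have h1 := hdiff _ _ _ _ hda' (fun x y => (if x = t a ∧ y = t (a + 1) then (1 : ℤ) else 0) -
        (if x = t (a + 1) ∧ y = t a then (1 : ℤ) else 0)) (fun _ _ => rfl)
    have h0 := hD0 (r a) (dart_vertex h hda').1 hda'.2.1
    have h2 : ∑ l ∈ Finset.range n,
        ((if t (a + l) = t a ∧ t (a + l + 1) = t (a + 1) then (1 : ℤ) else 0) -
        (if t (a + l) = t (a + 1) ∧ t (a + l + 1) = t a then (1 : ℤ) else 0)) = 1 := by
      rw [Finset.sum_eq_single 0]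
      · rw [Nat.add_zero, if_pos ⟨rfl, rfl⟩, if_neg, sub_zero]
        rintro ⟨h3, _⟩
        have := starinj_26430 hs a a (a + 1) le_rfl (by omega) (by omega) (by omega) h3
        omega
      · intro l hl hl0
        rw [Finset.mem_range] at hl
        rw [if_neg, if_neg, sub_zero]
        · rintro ⟨h3, h4⟩
          have h5 := starinj_26430 hs a (a + l) (a + 1) (by omega) (by omega) (by omega)
            (by omega) h3
          have h6 : l = 1 := by omega
          rw [h6] at h4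
          have := starinj_26430 hs a (a + 1 + 1) a (by omega) (by omega) (by omega)
            (by omega) h4
          omega
        · rintro ⟨h3, h4⟩
          have h5 := starinj_26430 hs a (a + l) a (by omega) (by omega) (by omega)
            (by omega) h3
          omega
      · intro h3
        exact absurd (Finset.mem_range.2 (by omega)) h3
    have h3 : (W2 v - W1 v) - (W2 (r a) - W1 (r a)) = 1 := h1.trans h2
    rw [h0, sub_zero] at h3
    exact h3
  -- the arcs
  obtain ⟨e, e', hee, hes, hA1, hA2, hbet⟩ := arcs_26430 m s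
    (fun i => ∃ k, a < k ∧ k < c ∧ t k = i) (fun i => ∃ k, c < k ∧ k < a + n ∧ t k = i)
    ⟨b, hab, hbc, hm0.symm⟩ ⟨d, hcd, hda, hms.symm⟩ (by
      rintro i ⟨k, h1, h2, h3⟩ ⟨l, h4, h5, h6⟩
      have := starinj_26430 hs a k l (by omega) (by omega) (by omega) (by omega) (h3.trans h6.symm)
      omega)
  have hnot2 : ∀ k ≤ n2, g2 k ≠ m e := by
    intro k hk heq
    obtain ⟨l, h1, h2, h3⟩ := hA1
    have hMe := hmM e (by omega)
    by_cases hkq : k ≤ q
    · rw [hg2p k hkq] at heq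
      exact hdisj _ (hpP k hkq) (heq ▸ hMe)
    · obtain ⟨k', rfl⟩ := Nat.exists_eq_add_of_le (not_le.1 hkq).le
      rw [hg2t] at heq
      by_cases h4 : c + k' < a + n
      · have := starinj_26430 hs a (c + k') l (by omega) h4 (by omega) (by omega)
          (heq.trans h3.symm)
        omega
      · have h5 : c + k' = a + n := by omega
        rw [h5, hs.pert] at heq
        exact hdisj _ ha (heq ▸ hMe)
  have hnot1 : ∀ l, e + 1 ≤ l → l ≤ e' → ∀ k ≤ n1, g1 k ≠ m l := by
    intro l hl1 hl2 k hk heq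
    have hMl := hmM l (by omega)
    by_cases hkq : k ≤ q
    · rw [hg1p k hkq] at heq
      exact hdisj _ (hpP k hkq) (heq ▸ hMl)
    · obtain ⟨k', rfl⟩ := Nat.exists_eq_add_of_le (not_le.1 hkq).le
      rw [hg1t] at heq
      have hk'1 : 0 < k' := by omega
      have hk'2 : k' ≤ c - a := by omega
      by_cases h4 : c - k' = a
      · rw [h4] at heq
        exact hdisj _ ha (heq ▸ hMl)
      · rcases Nat.lt_or_ge l e' with h5 | h5
        · exact (hbet l (by omega) h5).1 ⟨c - k', by omega, by omega, heq⟩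
        · have h6 : l = e' := le_antisymm hl2 h5
          rw [h6] at heq
          obtain ⟨w, h7, h8, h9⟩ := hA2
          have := starinj_26430 hs a (c - k') w (by omega) (by omega) (by omega) (by omega)
            (heq.trans h9.symm)
          omega
  have hmadj : ∀ l, l < s → Adj T (m l) (m (l + 1)) := fun l hl => (hmstep l hl).1
  -- a vertex on the common edge of m e and m (e+1), different from v
  obtain ⟨x, hxV, hxv, hx1, hx2⟩ : ∃ x, IsV T x ∧ x ≠ v ∧ x ∈ T (m e) ∧ x ∈ T (m (e + 1)) := by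
    obtain ⟨R, L, hdt⟩ := dart_exists h _ _ (hmadj e (by omega))
    have hR : R ∈ T (m e) ∩ T (m (e + 1)) := by
      rw [hdt.2.2.1]
      exact left_mem_segment ℝ R L
    have hL : L ∈ T (m e) ∩ T (m (e + 1)) := by
      rw [hdt.2.2.1]
      exact right_mem_segment ℝ R L
    have hV := dart_vertex h hdt
    by_cases hRv : R = v
    · exact ⟨L, hV.2.1, fun h' => hdt.2.1 (hRv.trans h'.symm), hL.1, hL.2⟩
    · exact ⟨R, hV.1, hRv, hR.1, hR.2⟩
  have hvme : v ∈ T (m e) := by
    obtain ⟨k, _, _, hk⟩ := hA1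
    rw [← hk]
    exact starmem_26430 hs k
  have hvme' : v ∈ T (m e') := by
    obtain ⟨k, _, _, hk⟩ := hA2
    rw [← hk]
    exact starmem_26430 hs k
  have hw2 : W2 v = W2 x := w_const h n2 g2 W2 hW2 (m e) hnot2 v x hvv hxV hvme hx1
  have hw1 : W1 v = W1 x := prop_26430 h n1 g1 W1 hW1 m (e + 1) e'
    (fun l _ hl => hmadj l (by omega)) hnot1 x hxV hx2 e' (by omega) le_rfl v hvv hvme'
  have hx0 := hD0 x hxV hxv
  rw [hw1, hw2, hx0] at hDv
  exact absurd hDv (by norm_num)

end Pool.Agent.Helper484.DT
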