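import Pool.Agent.Helper484.DT.Defs
import Pool.Agent.Helper484.DT.P_dart_symm
import Pool.Agent.Helper484.DT.P_dart_adj
import Pool.Agent.Helper484.DT.P_dart_exists
import Pool.Agent.Helper484.DT.P_dart_unique
import Pool.Agent.Helper484.DT.P_dart_vertex
import Pool.Agent.Helper484.DT.P_closed_walk
import Pool.Agent.Helper484.DT.P_walk_of
import Pool.Agent.Helper484.DT.P_w_const

set_option autoImplicit false

namespace Pool.Agent.Helper484.DT
open Set Metric Filter
open scoped Topology


theorem claimB_mod {ι : Type} {T : ι → Set ℂ} {i : ι} {n : ℕ} {s : ℕ → ι} {x : ℕ → ℂ}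
    (hr : Rim T i n s x) (k l : ℕ) (hkl : k < l) (hl : l < k + n) : s k ≠ s l := by
  have hmul : ∀ q r, s (r + q * n) = s r := by
    intro q
    induction q with
    | zero => intro r; simp
    | succ q ih => intro r; rw [Nat.succ_mul, ← add_assoc, hr.pers, ih]
  have hper : ∀ k, s k = s (k % n) := by
    intro k
    conv_lhs => rw [← Nat.mod_add_div k n, mul_comm]
    rw [hmul]
  intro h
  rw [hper k, hper l] at h
  have hn : 0 < n := by have := hr.three; omega
  have h1 := hr.injs _ _ (Nat.mod_lt _ hn) (Nat.mod_lt _ hn) h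
  have h2 : (l - k) % n = 0 := Nat.sub_mod_eq_zero_of_mod_eq h1.symm
  have h3 := Nat.eq_zero_of_dvd_of_lt (Nat.dvd_of_mod_eq_zero h2) (by omega)
  omega

theorem claimB {ι : Type} {T : ι → Set ℂ} {u U : ℝ} (h : CT ι T u U) {i : ι} {n : ℕ}
    {s : ℕ → ι} {x : ℕ → ℂ} (hr : Rim T i n s x) (P M : Set ι) (hP : ConnIn T P)
    (hM : ConnIn T M) (hPM : Disjoint P M) (hiP : i ∉ P) (hiM : i ∉ M) (a b c d : ℕ)
    (hab : a < b) (hbc : b < c) (hcd : c < d) (hda : d < a + n) (ha : s a ∈ P) (hc : s c ∈ P)
    (hb : s b ∈ M) (hd : s d ∈ M) : False := by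
  classical
  obtain ⟨m, g0, hg0, hgm, hgw⟩ := walk_of (hP (s a) ha (s c) hc)
  have hg0P : ∀ k ≤ m, g0 k ∈ P := by
    intro k hk
    rcases lt_or_eq_of_le hk with h1 | h1
    · exact (hgw k h1).2.1
    · rw [h1, hgm]; exact hc
  obtain ⟨g, hgdef⟩ : ∃ g : ℕ → ι, g = fun k => if k = 0 then i else if k ≤ m + 1 then g0 (k - 1) else i :=
    ⟨_, rfl⟩
  have hgz : g 0 = i := by rw [hgdef]; simp
  have hgs : ∀ k ≤ m, g (k + 1) = g0 k := by
    intro k hk
    rw [hgdef]
    simp only [Nat.succ_ne_zero, if_false, add_tsub_cancel_right]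
    rw [if_pos (by omega)]
  have hge : g (m + 2) = i := by
    rw [hgdef]
    simp only
    rw [if_neg (by omega), if_neg (by omega)]
  have hadj : ∀ k < m + 2, Adj T (g k) (g (k + 1)) := by
    intro k hk
    rcases Nat.eq_zero_or_pos k with h0 | h0
    · subst h0
      rw [hgz, hgs 0 (Nat.zero_le _), hg0]
      exact dart_adj (hr.dart a)
    · obtain ⟨l, rfl⟩ : ∃ l, k = l + 1 := ⟨k - 1, by omega⟩
      rw [hgs l (by omega)]
      rcases Nat.lt_or_ge l m with h1 | h1
      · rw [hgs (l + 1) (by omega)]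
        exact (hgw l h1).1
      · have h2 : l = m := by omega
        subst h2
        rw [hge, hgm]
        exact dart_adj (dart_symm (hr.dart c))
  obtain ⟨W, hW, -⟩ := closed_walk h (m + 2) g hadj (by rw [hge, hgz])
  have hgi : ∀ k, k < m + 2 → g k = i → k = 0 := by
    intro k hk hki
    by_contra h0
    obtain ⟨l, rfl⟩ : ∃ l, k = l + 1 := ⟨k - 1, by omega⟩
    rw [hgs l (by omega)] at hki
    exact hiP (hki ▸ hg0P l (by omega))
  have hgi' : ∀ k, k < m + 2 → g (k + 1) = i → k = m + 1 := by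
    intro k hk hki
    by_contra h0
    rw [hgs k (by omega)] at hki
    exact hiP (hki ▸ hg0P k (by omega))
  have c1 : ∀ j, j ≠ s a → {k | k < m + 2 ∧ g k = i ∧ g (k + 1) = j}.ncard = 0 := by
    intro j hj
    have : {k | k < m + 2 ∧ g k = i ∧ g (k + 1) = j} = ∅ := by
      rw [Set.eq_empty_iff_forall_notMem]
      rintro k ⟨h1, h2, h3⟩
      have h4 := hgi k h1 h2
      subst h4
      rw [hgs 0 (Nat.zero_le _), hg0] at h3
      exact hj h3.symm
    rw [this, Set.ncard_empty]
  have c2 : ∀ j, j ≠ s c → {k | k < m + 2 ∧ g k = j ∧ g (k + 1) = i}.ncard = 0 := by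
    intro j hj
    have : {k | k < m + 2 ∧ g k = j ∧ g (k + 1) = i} = ∅ := by
      rw [Set.eq_empty_iff_forall_notMem]
      rintro k ⟨h1, h2, h3⟩
      have h4 := hgi' k h1 h3
      subst h4
      rw [hgs m le_rfl, hgm] at h2
      exact hj h2.symm
    rw [this, Set.ncard_empty]
  have c3 : {k | k < m + 2 ∧ g k = s c ∧ g (k + 1) = i}.ncard = 1 := by
    have : {k | k < m + 2 ∧ g k = s c ∧ g (k + 1) = i} = {m + 1} := by
      ext k
      constructor
      · rintro ⟨h1, h2, h3⟩
        exact hgi' k h1 h3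
      · intro hk
        have hk' : k = m + 1 := hk
        subst hk'
        refine ⟨by omega, ?_, hge⟩
        rw [hgs m le_rfl, hgm]
    rw [this, Set.ncard_singleton]
  have hstep : ∀ k, a < k → k < a + n → k ≠ c → W (x (k + 1)) = W (x k) := by
    intro k h1 h2 h3
    have h4 := hW i (s k) (x k) (x (k + 1)) (hr.dart k)
    have h5 : s k ≠ s a := (claimB_mod hr a k h1 h2).symm
    have h6 : s k ≠ s c := by
      rcases lt_or_gt_of_ne h3 with h7 | h7
      · exact claimB_mod hr k c h7 (by omega)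
      · exact (claimB_mod hr c k h7 (by omega)).symm
    rw [c1 _ h5, c2 _ h6] at h4
    simp only [Nat.cast_zero, sub_zero] at h4
    omega
  have hstepc : W (x (c + 1)) = W (x c) - 1 := by
    have h4 := hW i (s c) (x c) (x (c + 1)) (hr.dart c)
    have h5 : s c ≠ s a := (claimB_mod hr a c (by omega) (by omega)).symm
    rw [c1 _ h5, c3] at h4
    simp only [Nat.cast_zero, Nat.cast_one] at h4
    omega
  have hbc' : ∀ e, b + e ≤ c → W (x (b + e)) = W (x b) := by
    intro e
    induction e with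
    | zero => intro _; rfl
    | succ e ih =>
      intro he
      rw [← add_assoc, hstep (b + e) (by omega) (by omega) (by omega), ih (by omega)]
  have hcd' : ∀ e, c + 1 + e ≤ d → W (x (c + 1 + e)) = W (x (c + 1)) := by
    intro e
    induction e with
    | zero => intro _; rfl
    | succ e ih =>
      intro he
      rw [← add_assoc, hstep (c + 1 + e) (by omega) (by omega) (by omega), ih (by omega)]
  have e1 : W (x c) = W (x b) := by
    have := hbc' (c - b) (by omega)
    rwa [show b + (c - b) = c by omega] at this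
  have e2 : W (x d) = W (x (c + 1)) := by
    have := hcd' (d - (c + 1)) (by omega)
    rwa [show c + 1 + (d - (c + 1)) = d by omega] at this
  -- constancy along `M`
  have havoid : ∀ j ∈ M, ∀ k ≤ m + 2, g k ≠ j := by
    intro j hj k hk hkj
    rcases Nat.eq_zero_or_pos k with h0 | h0
    · subst h0
      rw [hgz] at hkj
      exact hiM (hkj ▸ hj)
    · obtain ⟨l, rfl⟩ : ∃ l, k = l + 1 := ⟨k - 1, by omega⟩
      rcases Nat.lt_or_ge m l with h1 | h1
      · have h2 : l = m + 1 := by omega
        subst h2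
        rw [hge] at hkj
        exact hiM (hkj ▸ hj)
      · rw [hgs l h1] at hkj
        exact Set.disjoint_left.1 hPM (hkj ▸ hg0P l h1) hj
  have hmem : ∀ k, x k ∈ T (s k) := by
    intro k
    have h1 : x k ∈ T i ∩ T (s k) := by
      rw [(hr.dart k).2.2.1]; exact left_mem_segment ℝ _ _
    exact h1.2
  have hcon : ∀ j, Relation.ReflTransGen (fun a b => Adj T a b ∧ a ∈ M ∧ b ∈ M) (s b) j →
      ∀ w, IsV T w → w ∈ T j → W (x b) = W w := by
    intro j hj
    induction hj with
    | refl =>
      intro w hw hwj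
      exact w_const h (m + 2) g W hW (s b) (havoid _ hb) (x b) w (dart_vertex h (hr.dart b)).1 hw
        (hmem b) hwj
    | @tail b' c' _ hjk ih =>
      intro w hw hwj
      obtain ⟨R, L, hRL⟩ := dart_exists h _ _ hjk.1
      have hR := (dart_vertex h hRL).1
      have hRm : R ∈ T b' ∩ T c' := by
        rw [hRL.2.2.1]; exact left_mem_segment ℝ _ _
      rw [ih R hR hRm.1]
      exact w_const h (m + 2) g W hW _ (havoid _ hjk.2.2) R w hR hw hRm.2 hwj
  have e3 := hcon (s d) (hM (s b) hb (s d) hd) (x d) (dart_vertex h (hr.dart d)).1 (hmem d)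
  omega

end Pool.Agent.Helper484.DT
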