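import Pool.Agent.Helper484.DT.Defs
import Pool.Agent.Helper484.DT.P_nbhd
import Pool.Agent.Helper484.DT.P_dart_vertex
import Pool.Agent.Helper484.DT.P_bdry
import Pool.Agent.Helper484.DT.P_int_unique

set_option autoImplicit false

namespace Pool.Agent.Helper484.DT
open Set Metric Filter
open scoped Topology


theorem comp_seg {ι : Type} {T : ι → Set ℂ} {u U : ℝ} (h : CT ι T u U) {i j : ι} {R L : ℂ}
    (hd : Dart T i j R L) (x : ℂ) (hx : x ∈ openSegment ℝ R L) :
    connectedComponentIn (frontier (T i) \ {y | IsV T y}) x = openSegment ℝ R L := by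
  set S := frontier (T i) \ {y | IsV T y} with hS
  have hij : i ≠ j := hd.1
  have hseg : T i ∩ T j = segment ℝ R L := hd.2.2.1
  obtain ⟨hvR, hvL, hvO⟩ := dart_vertex h hd
  have hclo : IsClosed (T i) := (h.comp i).isClosed
  have hcloj : IsClosed (T j) := (h.comp j).isClosed
  have hOseg : openSegment ℝ R L ⊆ segment ℝ R L := openSegment_subset_segment ℝ R L
  have hfr : ∀ y, y ∈ S ↔ (y ∈ T i ∧ y ∉ interior (T i)) ∧ ¬ IsV T y := by
    intro y
    rw [hS, hclo.frontier_eq]
    rfl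
  have ha : ∀ y ∈ openSegment ℝ R L, y ∈ S := by
    intro y hy
    have hy2 : y ∈ T i ∩ T j := by rw [hseg]; exact hOseg hy
    rw [hfr]
    refine ⟨⟨hy2.1, fun hint => ?_⟩, (hvO y hy).1⟩
    exact hij (int_unique h i j y hint hy2.2).symm
  have hb : ∀ y ∈ S, y ∈ T j → y ∈ openSegment ℝ R L := by
    intro y hy hyj
    rw [hfr] at hy
    have hy2 : y ∈ segment ℝ R L := by rw [← hseg]; exact ⟨hy.1.1, hyj⟩
    rw [← insert_endpoints_openSegment] at hy2
    rcases hy2 with h1 | h1 | h1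
    · exact absurd (h1 ▸ hvR) hy.2
    · exact absurd (h1 ▸ hvL) hy.2
    · exact h1
  have hc : ∀ y ∈ openSegment ℝ R L, ∃ r : ℝ, 0 < r ∧ ball y r ∩ S ⊆ openSegment ℝ R L := by
    intro y hy
    obtain ⟨r, hr, hball⟩ := nbhd h y
    refine ⟨r, hr, ?_⟩
    rintro y' ⟨hy', hyS⟩
    have hyS' := (hfr y').1 hyS
    obtain ⟨j', hadj, hj'⟩ := bdry h i y' hyS'.1.1 hyS'.1.2
    have hyj' : y ∈ T j' := hball y' hy' j' hj'
    have hy2 : y ∈ T i ∩ T j := by rw [hseg]; exact hOseg hy
    have hjj : j' = j := by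
      by_contra hne
      exact (hvO y hy).1 ⟨i, j, j', hij, fun e => hne e.symm, hadj.1, hy2.1, hy2.2, hyj'⟩
    rw [hjj] at hj'
    exact hb y' hyS hj'
  set W : Set ℂ := ⋃₀ {B | IsOpen B ∧ B ∩ S ⊆ openSegment ℝ R L} with hW
  have hWo : IsOpen W := isOpen_sUnion (fun B hB => hB.1)
  have hOW : openSegment ℝ R L ⊆ W := by
    intro y hy
    obtain ⟨r, hr, hsub⟩ := hc y hy
    exact ⟨ball y r, ⟨isOpen_ball, hsub⟩, mem_ball_self hr⟩
  have hWS : W ∩ S ⊆ openSegment ℝ R L := by
    rintro y ⟨⟨B, hB, hyB⟩, hyS⟩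
    exact hB.2 ⟨hyB, hyS⟩
  have hxS : x ∈ S := ha x hx
  apply Subset.antisymm
  · have hKS : connectedComponentIn S x ⊆ S := connectedComponentIn_subset S x
    have hpre := isPreconnected_connectedComponentIn (F := S) (x := x)
    have hxK : x ∈ connectedComponentIn S x := mem_connectedComponentIn hxS
    have hsegc : IsClosed (segment ℝ R L) := by rw [← hseg]; exact hclo.inter hcloj
    have e1 : connectedComponentIn S x ⊆ W ∪ (segment ℝ R L)ᶜ := by
      intro z hz
      by_cases hzs : z ∈ segment ℝ R L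
      · left
        have : z ∈ T i ∩ T j := by rw [hseg]; exact hzs
        exact hOW (hb z (hKS hz) this.2)
      · right; exact hzs
    have e2 : connectedComponentIn S x ∩ (W ∩ (segment ℝ R L)ᶜ) = ∅ := by
      apply eq_empty_iff_forall_notMem.mpr
      rintro z ⟨hz, hzW, hzs⟩
      exact hzs (hOseg (hWS ⟨hzW, hKS hz⟩))
    have e3 := (isPreconnected_iff_subset_of_disjoint.mp hpre) W (segment ℝ R L)ᶜ hWo
      hsegc.isOpen_compl e1 e2
    rcases e3 with h1 | h1
    · intro y hy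
      exact hWS ⟨h1 hy, hKS hy⟩
    · exact absurd (hOseg hx) (h1 hxK)
  · exact (convex_openSegment R L).isPreconnected.subset_connectedComponentIn hx (fun y hy => ha y hy)

end Pool.Agent.Helper484.DT
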