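import Pool.Agent.Helper484.DT.Defs

set_option autoImplicit false

namespace Pool.Agent.Helper484.DT
open Set Metric Filter
open scoped Topology


theorem ct_inj {ι : Type} {T : ι → Set ℂ} {u U : ℝ} (h : CT ι T u U) :
    Function.Injective T := by
  intro i j hij
  by_contra hne
  obtain ⟨x, hx⟩ := h.ball i
  have h1 : x ∈ interior (T i) :=
    interior_maximal (ball_subset_closedBall.trans hx) isOpen_ball (mem_ball_self h.upos)
  have h2 := h.disj i j hne
  rw [← hij] at h2
  exact Set.disjoint_left.1 h2 h1 h1

end Pool.Agent.Helper484.DT
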