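import Pool.Agent.Helper484.DT.Defs

set_option autoImplicit false

namespace Pool.Agent.Helper484.DT
open Set Metric Filter
open scoped Topology


theorem ct_of_normal (F : Set (Set ℂ)) (h : NormalTiling F) (hc : ∀ a ∈ F, Convex ℝ a) :
    ∃ u U : ℝ, CT F (fun a : F => (a : Set ℂ)) u U := by
  obtain ⟨u, U, hu, hb⟩ := h.bdd
  refine ⟨u, 2 * U, ?_⟩
  constructor
  · exact hu
  · exact fun i => hc i i.2
  · intro i
    obtain ⟨x, hx⟩ := (hb i i.2).2
    exact Metric.isCompact_of_isClosed_isBounded (h.closed i i.2) (isBounded_closedBall.subset hx)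
  · exact fun i => (hb i i.2).1
  · intro i x hx y hy
    obtain ⟨z, hz⟩ := (hb i i.2).2
    have h1 : dist x z ≤ U := hz hx
    have h2 : dist y z ≤ U := hz hy
    have h3 := dist_triangle_right x y z
    linarith
  · intro x
    have hx : x ∈ ⋃₀ F := by
      rw [h.cover]
      exact mem_univ x
    obtain ⟨a, ha, hxa⟩ := hx
    exact ⟨⟨a, ha⟩, hxa⟩
  · intro i j hij
    exact h.disj i i.2 j j.2 (fun e => hij (Subtype.ext e))

end Pool.Agent.Helper484.DT
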