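import Pool.Agent.Helper484.DT.Defs
import Pool.Agent.Helper484.DT.P_ct_inj

set_option autoImplicit false

namespace Pool.Agent.Helper484.DT
open Set Metric Filter
open scoped Topology


theorem vertex_iff {ι : Type} {T : ι → Set ℂ} {u U : ℝ} (h : CT ι T u U) (x : ℂ) :
    IsVertex (range T) x ↔ IsV T x := by
  have hinj := ct_inj h
  constructor
  · rintro ⟨_, ⟨i, rfl⟩, _, ⟨j, rfl⟩, _, ⟨k, rfl⟩, h1, h2, h3, h4, h5, h6⟩
    exact ⟨i, j, k, fun e => h1 (by rw [e]), fun e => h2 (by rw [e]), fun e => h3 (by rw [e]),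
      h4, h5, h6⟩
  · rintro ⟨i, j, k, h1, h2, h3, h4, h5, h6⟩
    exact ⟨T i, ⟨i, rfl⟩, T j, ⟨j, rfl⟩, T k, ⟨k, rfl⟩, fun e => h1 (hinj e),
      fun e => h2 (hinj e), fun e => h3 (hinj e), h4, h5, h6⟩

end Pool.Agent.Helper484.DT
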