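import Pool.Agent.Helper484.DT.Defs
import Pool.Agent.Helper484.DT.P_dart_exists
import Pool.Agent.Helper484.DT.P_two_tiles
import Pool.Agent.Helper484.DT.P_dart_vertex
import Pool.Agent.Helper484.DT.P_bdry
import Pool.Agent.Helper484.DT.P_int_unique
import Pool.Agent.Helper484.DT.P_vertex_iff
import Pool.Agent.Helper484.DT.P_comp_seg

set_option autoImplicit false

namespace Pool.Agent.Helper484.DT
open Set Metric Filter
open scoped Topology


theorem edge_iff {ι : Type} {T : ι → Set ℂ} {u U : ℝ} (h : CT ι T u U) (e : Set ℂ) :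
    IsEdge (range T) e ↔ ∃ i j, Adj T i j ∧ e = T i ∩ T j := by
  have hset : {y | IsVertex (range T) y} = {y | IsV T y} := by
    ext y
    exact vertex_iff h y
  unfold IsEdge
  rw [hset]
  constructor
  · rintro ⟨a, ⟨i, rfl⟩, x, hx, hxV, rfl⟩
    have hcl : IsClosed (T i) := (h.comp i).isClosed
    have hxi : x ∈ T i := hcl.frontier_subset hx
    have hxn : x ∉ interior (T i) := hx.2
    have hxV' : ¬ IsV T x := fun hv => hxV ((vertex_iff h x).2 hv)
    obtain ⟨j, hadj, hxj⟩ := bdry h i x hxi hxn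
    obtain ⟨R, L, hd, hxo, _⟩ := two_tiles h i j hadj.1 x hxi hxj hxV'
    refine ⟨i, j, hadj, ?_⟩
    rw [comp_seg h hd x hxo, closure_openSegment, hd.2.2.1]
  · rintro ⟨i, j, hadj, rfl⟩
    obtain ⟨R, L, hd⟩ := dart_exists h i j hadj
    have hxo : (1 / 2 : ℝ) • R + (1 / 2 : ℝ) • L ∈ openSegment ℝ R L :=
      ⟨1 / 2, 1 / 2, by norm_num, by norm_num, by norm_num, rfl⟩
    set x := (1 / 2 : ℝ) • R + (1 / 2 : ℝ) • L with hxdef
    have hmem : x ∈ T i ∩ T j := by
      rw [hd.2.2.1]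
      exact openSegment_subset_segment ℝ R L hxo
    have hfr : x ∈ frontier (T i) := by
      refine ⟨subset_closure hmem.1, fun hint => ?_⟩
      exact hadj.1 (int_unique h i j x hint hmem.2).symm
    have hnv : ¬ IsV T x := ((dart_vertex h hd).2.2 x hxo).1
    refine ⟨T i, ⟨i, rfl⟩, x, hfr, fun hv => hnv ((vertex_iff h x).1 hv), ?_⟩
    rw [comp_seg h hd x hxo, closure_openSegment, hd.2.2.1]

end Pool.Agent.Helper484.DT
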