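import Pool.Agent.Helper484.DT.Defs
import Pool.Agent.Helper484.DT.P_p_inj
import Pool.Agent.Helper484.DT.P_edge_half

set_option autoImplicit false

namespace Pool.Agent.Helper484.DT
open Set Metric Filter
open scoped Topology


theorem q_dart {ι : Type} {T : ι → Set ℂ} {u U : ℝ} (h : CT ι T u U) {p : ι → ℂ}
    {C δ α : ℝ} (hp : GoodP T p C δ α) {σ : ℝ} (ho : Orient T p σ) {i j : ι} {R L : ℂ}
    (hd : Dart T i j R L) (hR : IsV T R) (hL : IsV T L) :
    ∃ a b : ℂ, (a = p i ∧ b = p j ∨ a = p j ∧ b = p i) ∧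
      Dart (fun v : {v : ℂ // IsV T v} => Qd T p v) ⟨L, hL⟩ ⟨R, hR⟩ a b := by
  obtain ⟨e1, e2, e3⟩ := edge_half h hp ho hd
  have hij : p i ≠ p j := fun he => hd.1 (p_inj h hp he)
  have hLR : (⟨L, hL⟩ : {v : ℂ // IsV T v}) ≠ ⟨R, hR⟩ := fun he =>
    hd.2.1 (congrArg Subtype.val he).symm
  rcases ho.1 with hσ | hσ
  · refine ⟨p i, p j, Or.inl ⟨rfl, rfl⟩, hLR, hij, e3, fun z hz => ?_, fun z hz => ?_⟩
    · have := e1 z hz
      rwa [hσ, one_mul] at this
    · have := e2 z hz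
      rwa [hσ, one_mul] at this
  · have hcr : ∀ z : ℂ, cr (p i - p j) (z - p j) = -1 * cr (p j - p i) (z - p i) := by
      intro z
      simp only [cr, Complex.sub_re, Complex.sub_im]
      ring
    refine ⟨p j, p i, Or.inr ⟨rfl, rfl⟩, hLR, hij.symm, ?_, fun z hz => ?_, fun z hz => ?_⟩
    · change Qd T p L ∩ Qd T p R = _
      rw [e3, segment_symm]
    · have := e1 z hz
      rw [hσ] at this
      rw [hcr]
      exact this
    · have := e2 z hz
      rw [hσ] at this
      rw [hcr]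
      exact this

end Pool.Agent.Helper484.DT
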