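import Pool.Agent.Helper484.DT.Defs
import Pool.Agent.Helper484.DT.P_dart_vertex
import Pool.Agent.Helper484.DT.P_int_unique
import Pool.Agent.Helper484.DT.P_star_exists
import Pool.Agent.Helper484.DT.P_rim_exists
import Pool.Agent.Helper484.DT.P_qd_star
import Pool.Agent.Helper484.DT.P_q_ct
import Pool.Agent.Helper484.DT.P_q_dart

set_option autoImplicit false

namespace Pool.Agent.Helper484.DT
open Set Metric Filter
open scoped Topology


theorem q_vertex {ι : Type} {T : ι → Set ℂ} {u U : ℝ} (h : CT ι T u U) {p : ι → ℂ}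
    {C δ α : ℝ} (hp : GoodP T p C δ α) {σ : ℝ} (ho : Orient T p σ) (z : ℂ) :
    IsV (fun v : {v : ℂ // IsV T v} => Qd T p v) z ↔ ∃ i, z = p i := by
  have hq := q_ct h hp ho
  constructor
  · rintro ⟨v1, v2, v3, h12, h23, h13, hz1, hz2, hz3⟩
    by_contra hcon
    have hne : ∀ i, p i ≠ z := fun i hi => hcon ⟨i, hi.symm⟩
    have hint : z ∉ interior (Qd T p v1) := fun hi => h12 (int_unique hq v1 v2 z hi hz2).symm
    obtain ⟨n, t, r, hs⟩ := star_exists h v1 v1.2
    obtain ⟨_, e2, e3, e4⟩ := qd_star h hp ho hs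
    have hz1' : z ∈ Qd T p v1 := hz1
    have hall := hz1'
    rw [e2] at hall
    rw [e3] at hint
    have hex : ∃ k, ¬ 0 < σ * cr (p (t (k + 1)) - p (t k)) (z - p (t k)) := by
      by_contra hc
      exact hint fun k => by
        by_contra hk
        exact hc ⟨k, hk⟩
    obtain ⟨k, hk⟩ := hex
    have h0 : σ * cr (p (t (k + 1)) - p (t k)) (z - p (t k)) = 0 :=
      le_antisymm (not_lt.1 hk) (hall k)
    have hσ : σ ≠ 0 := by
      rcases ho.1 with h5 | h5
      · rw [h5]
        exact one_ne_zero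
      · rw [h5]
        norm_num
    have hc0 : cr (p (t (k + 1)) - p (t k)) (z - p (t k)) = 0 :=
      (mul_eq_zero.1 h0).resolve_left hσ
    have hseg := e4 k z hz1' hc0
    have hop : z ∈ openSegment ℝ (p (t k)) (p (t (k + 1))) :=
      mem_openSegment_of_ne_left_right (hne _) (hne _) hseg
    obtain ⟨hR, hL, _⟩ := dart_vertex h (hs.dart k)
    obtain ⟨a, b, hab, hd⟩ := q_dart h hp ho (hs.dart k) hR hL
    have hzab : z ∈ openSegment ℝ a b := by
      rcases hab with ⟨ha, hb⟩ | ⟨ha, hb⟩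
      · rw [ha, hb]
        exact hop
      · rw [ha, hb, openSegment_symm]
        exact hop
    exact ((dart_vertex hq hd).2.2 z hzab).1 ⟨v1, v2, v3, h12, h23, h13, hz1, hz2, hz3⟩
  · rintro ⟨i, rfl⟩
    obtain ⟨n, s, x, hr⟩ := rim_exists h i
    have hn := hr.three
    have hV : ∀ k, IsV T (x k) := fun k => (dart_vertex h (hr.dart k)).1
    have hT : ∀ k, x k ∈ T i := by
      intro k
      have h1 : x k ∈ segment ℝ (x k) (x (k + 1)) := left_mem_segment ℝ _ _
      rw [← (hr.dart k).2.2.1] at h1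
      exact h1.1
    have hQ : ∀ k, p i ∈ Qd T p (x k) := fun k =>
      subset_convexHull ℝ _ ⟨i, hT k, rfl⟩
    have hd : ∀ k l, k < n → l < n → k ≠ l →
        (⟨x k, hV k⟩ : {v : ℂ // IsV T v}) ≠ ⟨x l, hV l⟩ := by
      intro k l hk hl hkl he
      exact hkl (hr.injx k l hk hl (congrArg Subtype.val he))
    exact ⟨⟨x 0, hV 0⟩, ⟨x 1, hV 1⟩, ⟨x 2, hV 2⟩, hd 0 1 (by omega) (by omega) (by omega),
      hd 1 2 (by omega) (by omega) (by omega), hd 0 2 (by omega) (by omega) (by omega),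
      hQ 0, hQ 1, hQ 2⟩

end Pool.Agent.Helper484.DT
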