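import Pool.Agent.Helper484.DT.Defs
import Pool.Agent.Helper484.DT.P_dart_exists
import Pool.Agent.Helper484.DT.P_dart_vertex
import Pool.Agent.Helper484.DT.P_q_ct
import Pool.Agent.Helper484.DT.P_p_mem
import Pool.Agent.Helper484.DT.P_q_vertex

set_option autoImplicit false

namespace Pool.Agent.Helper484.DT
open Set Metric Filter
open scoped Topology


theorem q_inter {ι : Type} {T : ι → Set ℂ} {u U : ℝ} (h : CT ι T u U) {p : ι → ℂ}
    {C δ α : ℝ} (hp : GoodP T p C δ α) {σ : ℝ} (ho : Orient T p σ) (v v' : ℂ)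
    (hv : IsV T v) (hv' : IsV T v') (hne : v ≠ v') (hn : (Qd T p v ∩ Qd T p v').Nontrivial) :
    ∃ i j, Adj T i j ∧ Qd T p v ∩ Qd T p v' = segment ℝ (p i) (p j) := by
  have hq := q_ct h hp ho
  have hadj : Adj (fun v : {v : ℂ // IsV T v} => Qd T p v) ⟨v, hv⟩ ⟨v', hv'⟩ :=
    ⟨fun he => hne (congrArg Subtype.val he), hn⟩
  obtain ⟨a, b, hd⟩ := dart_exists hq _ _ hadj
  obtain ⟨ha, hb, -⟩ := dart_vertex hq hd
  obtain ⟨i, rfl⟩ := (q_vertex h hp ho a).1 ha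
  obtain ⟨j, rfl⟩ := (q_vertex h hp ho b).1 hb
  obtain ⟨-, hab, hseg, -, -⟩ := hd
  have hseg' : Qd T p v ∩ Qd T p v' = segment ℝ (p i) (p j) := hseg
  have hi : p i ∈ Qd T p v ∩ Qd T p v' := by
    rw [hseg']; exact left_mem_segment ℝ _ _
  have hj : p j ∈ Qd T p v ∩ Qd T p v' := by
    rw [hseg']; exact right_mem_segment ℝ _ _
  have hi1 := (p_mem h hp ho i v hv).1 hi.1
  have hi2 := (p_mem h hp ho i v' hv').1 hi.2
  have hj1 := (p_mem h hp ho j v hv).1 hj.1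
  have hj2 := (p_mem h hp ho j v' hv').1 hj.2
  refine ⟨i, j, ⟨fun he => hab (by rw [he]), ⟨v, ⟨hi1, hj1⟩, v', ⟨hi2, hj2⟩, hne⟩⟩, hseg'⟩

end Pool.Agent.Helper484.DT
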