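import Pool.Agent.Helper484.DT.Defs
import Pool.Agent.Helper484.DT.P_dart_exists
import Pool.Agent.Helper484.DT.P_dart_vertex
import Pool.Agent.Helper484.DT.P_int_unique

set_option autoImplicit false

namespace Pool.Agent.Helper484.DT
open Set Metric Filter
open scoped Topology


theorem t_incl {ι : Type} {T : ι → Set ℂ} {u U : ℝ} (h : CT ι T u U) :
    (∀ i j, T i ⊆ T j ↔ i = j) ∧ (∀ i j k, Adj T i j → (T i ∩ T j ⊆ T k ↔ k = i ∨ k = j)) ∧
    (∀ i j k, Adj T j k → ¬ T i ⊆ T j ∩ T k) ∧ (∀ i (v : ℂ), ¬ T i ⊆ {v}) ∧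
    (∀ i j (v : ℂ), Adj T i j → ¬ T i ∩ T j ⊆ {v}) := by
  have h1 : ∀ i j, T i ⊆ T j ↔ i = j := by
    intro i j
    constructor
    · intro hij
      obtain ⟨x, hx⟩ := h.ball i
      have hxi : x ∈ interior (T i) := by
        apply interior_mono hx
        exact ball_subset_interior_closedBall (mem_ball_self h.upos)
      exact (int_unique h i j x hxi (hij (interior_subset hxi))).symm
    · rintro rfl
      exact Subset.rfl
  refine ⟨h1, ?_, ?_, ?_, ?_⟩
  · intro i j k hij
    constructor
    · intro hk
      by_contra hcon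
      push Not at hcon
      obtain ⟨R, L, hd⟩ := dart_exists h i j hij
      have hv := (dart_vertex h hd).2.2
      have hmid : midpoint ℝ R L ∈ openSegment ℝ R L := by
        refine ⟨1 / 2, 1 / 2, by norm_num, by norm_num, by norm_num, ?_⟩
        rw [midpoint_eq_smul_add]
        norm_num
      have hseg : midpoint ℝ R L ∈ T i ∩ T j := by
        rw [hd.2.2.1]
        exact openSegment_subset_segment ℝ R L hmid
      exact (hv _ hmid).1 ⟨i, j, k, hij.1, hcon.2.symm, hcon.1.symm, hseg.1, hseg.2, hk hseg⟩
    · rintro (rfl | rfl)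
      · exact inter_subset_left
      · exact inter_subset_right
  · intro i j k hjk hi
    have e1 := (h1 i j).1 (hi.trans inter_subset_left)
    have e2 := (h1 i k).1 (hi.trans inter_subset_right)
    exact hjk.1 (e1.symm.trans e2)
  · intro i v hv
    obtain ⟨x, hx⟩ := h.ball i
    have e1 : x = v := hv (hx (mem_closedBall_self h.upos.le))
    have e2 : x + (u : ℂ) = v := hv (hx (by
      rw [mem_closedBall, dist_eq_norm, add_sub_cancel_left, Complex.norm_real,
        Real.norm_of_nonneg h.upos.le]))
    rw [e1] at e2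
    have : (u : ℂ) = 0 := by linear_combination e2
    exact h.upos.ne' (by exact_mod_cast this)
  · intro i j v hij hv
    obtain ⟨x, hx, y, hy, hxy⟩ := hij.2
    exact hxy ((hv hx).trans (hv hy).symm)

end Pool.Agent.Helper484.DT
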