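import Pool.Agent.Helper484.DT.Defs
import Pool.Agent.Helper484.DT.P_dart_exists
import Pool.Agent.Helper484.DT.P_dart_vertex
import Pool.Agent.Helper484.DT.P_p_inj
import Pool.Agent.Helper484.DT.P_edge_half
import Pool.Agent.Helper484.DT.P_q_ct
import Pool.Agent.Helper484.DT.P_q_vertex
import Pool.Agent.Helper484.DT.P_q_inter
import Pool.Agent.Helper484.DT.P_vertex_iff
import Pool.Agent.Helper484.DT.P_edge_iff
import Pool.Agent.Helper484.DT.P_dual_of_maps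
import Pool.Agent.Helper484.DT.P_t_incl
import Pool.Agent.Helper484.DT.P_b_incl

set_option autoImplicit false

namespace Pool.Agent.Helper484.DT
open Set Metric Filter
open scoped Topology


theorem dual_ct {ι : Type} {T : ι → Set ℂ} {u U : ℝ} (h : CT ι T u U) {p : ι → ℂ}
    {C δ α : ℝ} (hp : GoodP T p C δ α) {σ : ℝ} (ho : Orient T p σ) :
    IsDual (range T) (range fun v : {v : ℂ // IsV T v} => Qd T p v) := by
  obtain ⟨t1, t2, t3, t4, t5⟩ := t_incl h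
  obtain ⟨b1, b2, b3, b4, b5, b6, b7, b8, b9⟩ := b_incl h hp ho
  have hq := q_ct h hp ho
  set Q : {v : ℂ // IsV T v} → Set ℂ := fun v => Qd T p v with hQ
  refine dual_of_maps (X := ι ⊕ ({e : ι × ι // Adj T e.1 e.2} ⊕ {v : ℂ // IsV T v}))
    (Sum.elim T (Sum.elim (fun e => T e.1.1 ∩ T e.1.2) (fun v => {v.1})))
    (Sum.elim (fun i => {p i}) (Sum.elim (fun e => segment ℝ (p e.1.1) (p e.1.2))
      (fun v => Qd T p v.1))) (range T) (range Q) ?_ ?_ ?_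
  · ext s
    constructor
    · rintro ⟨x, rfl⟩
      rcases x with i | ⟨⟨i, j⟩, hij⟩ | ⟨v, hv⟩
      · exact Or.inl (Or.inl ⟨i, rfl⟩)
      · exact Or.inl (Or.inr ((edge_iff h _).2 ⟨i, j, hij, rfl⟩))
      · exact Or.inr ⟨v, (vertex_iff h v).2 hv, rfl⟩
    · rintro ((⟨i, rfl⟩ | he) | ⟨v, hv, rfl⟩)
      · exact ⟨Sum.inl i, rfl⟩
      · obtain ⟨i, j, hij, rfl⟩ := (edge_iff h _).1 he
        exact ⟨Sum.inr (Sum.inl ⟨(i, j), hij⟩), rfl⟩
      · exact ⟨Sum.inr (Sum.inr ⟨v, (vertex_iff h v).1 hv⟩), rfl⟩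
  · ext s
    constructor
    · rintro ⟨x, rfl⟩
      rcases x with i | ⟨⟨i, j⟩, hij⟩ | ⟨v, hv⟩
      · refine Or.inr ⟨p i, (vertex_iff hq _).2 ((q_vertex h hp ho _).2 ⟨i, rfl⟩), rfl⟩
      · refine Or.inl (Or.inr ((edge_iff hq _).2 ?_))
        obtain ⟨R, L, hd⟩ := dart_exists h i j hij
        obtain ⟨hR, hL, -⟩ := dart_vertex h hd
        obtain ⟨-, -, hseg⟩ := edge_half h hp ho hd
        have hne : p i ≠ p j := fun hh => hij.1 (p_inj h hp hh)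
        refine ⟨⟨L, hL⟩, ⟨R, hR⟩, ⟨?_, ?_⟩, ?_⟩
        · intro hh
          exact hd.2.1 (congrArg Subtype.val hh).symm
        · show (Qd T p L ∩ Qd T p R).Nontrivial
          rw [hseg]
          exact ⟨p i, left_mem_segment ℝ _ _, p j, right_mem_segment ℝ _ _, hne⟩
        · show segment ℝ (p i) (p j) = Qd T p L ∩ Qd T p R
          exact hseg.symm
      · exact Or.inl (Or.inl ⟨⟨v, hv⟩, rfl⟩)
    · rintro ((⟨v, rfl⟩ | he) | ⟨z, hz, rfl⟩)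
      · exact ⟨Sum.inr (Sum.inr v), rfl⟩
      · obtain ⟨⟨v, hv⟩, ⟨v', hv'⟩, ⟨hne, hnt⟩, rfl⟩ := (edge_iff hq _).1 he
        obtain ⟨i, j, hij, hseg⟩ := q_inter h hp ho v v' hv hv'
          (fun hh => hne (Subtype.ext hh)) hnt
        exact ⟨Sum.inr (Sum.inl ⟨(i, j), hij⟩), hseg.symm⟩
      · obtain ⟨i, rfl⟩ := (q_vertex h hp ho _).1 ((vertex_iff hq _).1 hz)
        exact ⟨Sum.inl i, rfl⟩
  · rintro (i | ⟨⟨i, j⟩, hij⟩ | ⟨v, hv⟩) (k | ⟨⟨k, l⟩, hkl⟩ | ⟨w, hw⟩)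
    · show T i ⊆ T k ↔ ({p k} : Set ℂ) ⊆ {p i}
      rw [t1, b1]
    · show T i ⊆ T k ∩ T l ↔ segment ℝ (p k) (p l) ⊆ {p i}
      exact iff_of_false (t3 i k l hkl) (b4 i k l hkl)
    · show T i ⊆ {w} ↔ Qd T p w ⊆ {p i}
      exact iff_of_false (t4 i w) (b5 i w hw)
    · show T i ∩ T j ⊆ T k ↔ ({p k} : Set ℂ) ⊆ segment ℝ (p i) (p j)
      rw [t2 i j k hij, b2 i j k hij]
    · show T i ∩ T j ⊆ T k ∩ T l ↔ segment ℝ (p k) (p l) ⊆ segment ℝ (p i) (p j)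
      rw [subset_inter_iff, t2 i j k hij, t2 i j l hij, b3 i j k l hij hkl]
    · show T i ∩ T j ⊆ {w} ↔ Qd T p w ⊆ segment ℝ (p i) (p j)
      exact iff_of_false (t5 i j w hij) (b6 i j w hw hij)
    · show ({v} : Set ℂ) ⊆ T k ↔ ({p k} : Set ℂ) ⊆ Qd T p v
      rw [singleton_subset_iff, b7 k v hv]
    · show ({v} : Set ℂ) ⊆ T k ∩ T l ↔ segment ℝ (p k) (p l) ⊆ Qd T p v
      rw [singleton_subset_iff, b8 k l v hv]
      rfl
    · show ({v} : Set ℂ) ⊆ {w} ↔ Qd T p w ⊆ Qd T p v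
      rw [singleton_subset_iff, mem_singleton_iff, b9 v w hv hw]

end Pool.Agent.Helper484.DT
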