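import Pool.Agent.Helper484.DT.Defs

set_option autoImplicit false

namespace Pool.Agent.Helper484.DT
open Set Metric Filter
open scoped Topology


theorem dual_of_maps {X : Type} (A B : X → Set ℂ) (F G : Set (Set ℂ))
    (hA : range A = elements F) (hB : range B = elements G)
    (hinc : ∀ x y, A x ⊆ A y ↔ B y ⊆ B x) : IsDual F G := by
  have heq : ∀ x y, A x = A y ↔ B x = B y := by
    intro x y
    constructor
    · intro h
      exact Set.Subset.antisymm ((hinc y x).1 h.symm.subset) ((hinc x y).1 h.subset)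
    · intro h
      exact Set.Subset.antisymm ((hinc x y).2 h.symm.subset) ((hinc y x).2 h.subset)
  have h1 : ∀ a : elements F, ∃ x, A x = a := by
    rintro ⟨a, ha⟩
    rw [← hA] at ha
    exact ha
  have h2 : ∀ b : elements G, ∃ x, B x = b := by
    rintro ⟨b, hb⟩
    rw [← hB] at hb
    exact hb
  choose f hf using h1
  choose g hg using h2
  have hBm : ∀ x, B x ∈ elements G := by
    intro x
    rw [← hB]
    exact mem_range_self x
  have hAm : ∀ x, A x ∈ elements F := by
    intro x
    rw [← hA]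
    exact mem_range_self x
  refine ⟨⟨fun a => ⟨B (f a), hBm _⟩, fun b => ⟨A (g b), hAm _⟩, ?_, ?_⟩, ?_⟩
  · intro a
    apply Subtype.ext
    show A (g ⟨B (f a), hBm _⟩) = a
    refine Eq.trans ?_ (hf a)
    rw [heq]
    exact hg ⟨B (f a), hBm _⟩
  · intro b
    apply Subtype.ext
    show B (f ⟨A (g b), hAm _⟩) = b
    refine Eq.trans ?_ (hg b)
    rw [← heq]
    exact hf ⟨A (g b), hAm _⟩
  · intro a b
    show B (f b) ⊆ B (f a) ↔ (a : Set ℂ) ⊆ (b : Set ℂ)
    rw [← hinc (f a) (f b), hf a, hf b]

end Pool.Agent.Helper484.DT
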