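import Pool.Agent.Helper484.DT.Defs

set_option autoImplicit false

namespace Pool.Agent.Helper484.DT
open Set Metric Filter
open scoped Topology


theorem generic_rec {ι α : Type} (r : ι → ι → Prop) (hr : WellFounded r)
    (P : ∀ i, (∀ j, r j i → α) → α → Prop) (h : ∀ i f, ∃ x, P i f x) :
    ∃ q : ι → α, ∀ i, P i (fun j _ => q j) (q i) := by
  choose g hg using h
  refine ⟨hr.fix g, fun i => ?_⟩
  have h1 := hg i (fun j _ => hr.fix g j)
  rw [← hr.fix_eq g i] at h1
  exact h1

theorem generic_cr (a b z : ℂ) : cr (a - z) (b - z) =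
    cr a b + z.re * (a.im - b.im) - z.im * (a.re - b.re) := by
  unfold cr
  simp only [Complex.sub_re, Complex.sub_im]
  ring

theorem generic_quad (c U V ε h s1 s2 s3 : ℝ) (hh : 0 < h) (hh1 : h ≤ 1)
    (h1 : 0 ≤ s1) (h1' : s1 ≤ 1) (h2 : 0 ≤ s2) (h2' : s2 ≤ 1) (h3 : 0 ≤ s3) (h3' : s3 ≤ 1)
    (d12 : h ≤ |s1 - s2|) (d13 : h ≤ |s1 - s3|) (d23 : h ≤ |s2 - s3|)
    (e1 : |c + U * s1 + V * s1 ^ 2| < ε) (e2 : |c + U * s2 + V * s2 ^ 2| < ε)
    (e3 : |c + U * s3 + V * s3 ^ 2| < ε) : U ^ 2 + V ^ 2 < 116 * (ε / h ^ 2) ^ 2 := by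
  have hε : 0 < ε := lt_of_le_of_lt (abs_nonneg _) e1
  have k12 : |U + V * (s1 + s2)| * h < 2 * ε := by
    have h4 : |(s1 - s2) * (U + V * (s1 + s2))| < 2 * ε := by
      have h5 : (s1 - s2) * (U + V * (s1 + s2)) =
        (c + U * s1 + V * s1 ^ 2) - (c + U * s2 + V * s2 ^ 2) := by ring
      rw [h5]
      have := abs_sub (c + U * s1 + V * s1 ^ 2) (c + U * s2 + V * s2 ^ 2)
      linarith
    rw [abs_mul] at h4
    nlinarith [abs_nonneg (U + V * (s1 + s2))]
  have k13 : |U + V * (s1 + s3)| * h < 2 * ε := by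
    have h4 : |(s1 - s3) * (U + V * (s1 + s3))| < 2 * ε := by
      have h5 : (s1 - s3) * (U + V * (s1 + s3)) =
        (c + U * s1 + V * s1 ^ 2) - (c + U * s3 + V * s3 ^ 2) := by ring
      rw [h5]
      have := abs_sub (c + U * s1 + V * s1 ^ 2) (c + U * s3 + V * s3 ^ 2)
      linarith
    rw [abs_mul] at h4
    nlinarith [abs_nonneg (U + V * (s1 + s3))]
  have kV : |V| * h ^ 2 < 4 * ε := by
    have h4 : |(s2 - s3) * V| * h < 4 * ε := by
      have h5 : (s2 - s3) * V = (U + V * (s1 + s2)) - (U + V * (s1 + s3)) := by ring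
      rw [h5]
      have := abs_sub (U + V * (s1 + s2)) (U + V * (s1 + s3))
      nlinarith
    rw [abs_mul] at h4
    have h6 : h * |V| * h ≤ |s2 - s3| * |V| * h := by
      apply mul_le_mul_of_nonneg_right _ hh.le
      exact mul_le_mul_of_nonneg_right d23 (abs_nonneg V)
    nlinarith
  have kU : |U| * h ^ 2 < 10 * ε := by
    have h4 : |U| ≤ |U + V * (s1 + s2)| + |V| * 2 := by
      have h5 : U = (U + V * (s1 + s2)) - V * (s1 + s2) := by ring
      have h6 : |U| ≤ |U + V * (s1 + s2)| + |V * (s1 + s2)| := by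
        conv_lhs => rw [h5]
        exact abs_sub _ _
      have h7 : |V * (s1 + s2)| ≤ |V| * 2 := by
        rw [abs_mul, abs_of_nonneg (by linarith : 0 ≤ s1 + s2)]
        exact mul_le_mul_of_nonneg_left (by linarith) (abs_nonneg V)
      linarith
    have h8 : |U| * h ^ 2 ≤ |U + V * (s1 + s2)| * h ^ 2 + 2 * (|V| * h ^ 2) := by
      nlinarith [sq_nonneg h]
    have h9 : |U + V * (s1 + s2)| * h ^ 2 ≤ |U + V * (s1 + s2)| * h := by
      have : h ^ 2 ≤ h := by nlinarith
      exact mul_le_mul_of_nonneg_left this (abs_nonneg _)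
    linarith
  have hh2 : 0 < h ^ 2 := by positivity
  have kV' : |V| < 4 * (ε / h ^ 2) := by
    rw [mul_div_assoc', lt_div_iff₀ hh2]; exact kV
  have kU' : |U| < 10 * (ε / h ^ 2) := by
    rw [mul_div_assoc', lt_div_iff₀ hh2]; exact kU
  have hq : 0 < ε / h ^ 2 := by positivity
  have a1 : V ^ 2 < (4 * (ε / h ^ 2)) ^ 2 := by
    rw [← sq_abs V]
    exact pow_lt_pow_left₀ kV' (abs_nonneg V) two_ne_zero
  have a2 : U ^ 2 < (10 * (ε / h ^ 2)) ^ 2 := by
    rw [← sq_abs U]
    exact pow_lt_pow_left₀ kU' (abs_nonneg U) two_ne_zero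
  nlinarith

theorem generic_gap (T : ℕ) (hT : 0 < T) (t t' : ℕ) (h : t ≠ t') :
    1 / (T : ℝ) ≤ |(t : ℝ) / T - (t' : ℝ) / T| := by
  have hT' : (0 : ℝ) < T := by exact_mod_cast hT
  rw [← sub_div, abs_div, abs_of_pos hT']
  apply div_le_div_of_nonneg_right _ hT'.le
  have h1 : (1 : ℤ) ≤ |(t : ℤ) - (t' : ℤ)| := by
    apply Int.one_le_abs
    intro h2
    apply h
    omega
  have h2 : ((1 : ℤ) : ℝ) ≤ ((|(t : ℤ) - (t' : ℤ)| : ℤ) : ℝ) := by exact_mod_cast h1
  push_cast at h2
  exact h2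

theorem generic_step (p : ℂ) (η : ℝ) (hη : 0 < η) (L T : ℕ) (hT : 2 * L ^ 2 + L < T)
    (F : Finset ℂ) (hF : F.card ≤ L) :
    ∃ z : ℂ, dist z p ≤ η ∧ (∀ a ∈ F, η / (4 * T) ≤ dist z a) ∧
      ∀ a ∈ F, ∀ b ∈ F, η / (4 * T) ≤ dist a b →
        η * (η / (4 * T)) * (1 / (T : ℝ)) ^ 2 / 24 ≤ |cr (a - z) (b - z)| := by
  classical
  have hT0 : 0 < T := by omega
  have hTr : (0 : ℝ) < T := by exact_mod_cast hT0
  have hT1 : (1 : ℝ) ≤ T := by exact_mod_cast hT0
  set β := η / (4 * T) with hβ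
  have hβ0 : 0 < β := by positivity
  set α := η * β * (1 / (T : ℝ)) ^ 2 / 24 with hα
  have hα0 : 0 < α := by positivity
  let s : ℕ → ℝ := fun t => (t : ℝ) / T
  let zz : ℕ → ℂ := fun t => p + (⟨η / 2 * s t, η / 2 * (s t) ^ 2⟩ : ℂ)
  have hs0 : ∀ t, 0 ≤ s t := fun t => by positivity
  have hs1 : ∀ t, t < T → s t ≤ 1 := by
    intro t ht
    show (t : ℝ) / T ≤ 1
    rw [div_le_one hTr]
    exact_mod_cast ht.le
  have hzre : ∀ t, (zz t).re = p.re + η / 2 * s t := fun t => rfl
  have hzim : ∀ t, (zz t).im = p.im + η / 2 * (s t) ^ 2 := fun t => rfl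
  have hzp : ∀ t, t < T → dist (zz t) p ≤ η := by
    intro t ht
    have h1 : zz t - p = (⟨η / 2 * s t, η / 2 * (s t) ^ 2⟩ : ℂ) := by
      show p + _ - p = _
      ring
    rw [dist_eq_norm, h1]
    refine (Complex.norm_le_abs_re_add_abs_im _).trans ?_
    show |η / 2 * s t| + |η / 2 * (s t) ^ 2| ≤ η
    rw [abs_of_nonneg (mul_nonneg (by linarith) (hs0 t)),
      abs_of_nonneg (mul_nonneg (by linarith) (sq_nonneg _))]
    have h2 := hs0 t
    have h3 := hs1 t ht
    have h4 : s t ^ 2 ≤ 1 := by nlinarith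
    nlinarith
  let Ba : ℂ → Finset ℕ := fun a => (Finset.range T).filter (fun t => dist (zz t) a < β)
  let Bab : ℂ × ℂ → Finset ℕ := fun ab => if β ≤ dist ab.1 ab.2 then
    (Finset.range T).filter (fun t => |cr (ab.1 - zz t) (ab.2 - zz t)| < α) else ∅
  have hBa : ∀ a, (Ba a).card ≤ 1 := by
    intro a
    rw [Finset.card_le_one]
    intro t ht t' ht'
    by_contra hne
    have h1 : dist (zz t) a < β := (Finset.mem_filter.mp ht).2
    have h2 : dist (zz t') a < β := (Finset.mem_filter.mp ht').2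
    have h3 : dist (zz t) (zz t') < 2 * β := by
      have := dist_triangle_right (zz t) (zz t') a
      linarith
    have h4 : |(zz t - zz t').re| ≤ dist (zz t) (zz t') := by
      rw [dist_eq_norm]; exact Complex.abs_re_le_norm _
    have h5 : (zz t - zz t').re = η / 2 * (s t - s t') := by
      rw [Complex.sub_re, hzre, hzre]; ring
    rw [h5, abs_mul, abs_of_pos (by linarith : 0 < η / 2)] at h4
    have h6 := generic_gap T hT0 t t' hne
    have h7 : η / 2 * (1 / (T : ℝ)) ≤ η / 2 * |s t - s t'| :=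
      mul_le_mul_of_nonneg_left h6 (by linarith)
    have h8 : η / 2 * (1 / (T : ℝ)) = 2 * β := by
      rw [hβ]; field_simp; ring
    linarith
  have hBab : ∀ ab, (Bab ab).card ≤ 2 := by
    intro ab
    by_cases hab : β ≤ dist ab.1 ab.2
    · by_contra hcard
      rw [not_le, Finset.two_lt_card] at hcard
      obtain ⟨t1, m1, t2, m2, t3, m3, n12, n13, n23⟩ := hcard
      have hB : Bab ab = (Finset.range T).filter
          (fun t => |cr (ab.1 - zz t) (ab.2 - zz t)| < α) := if_pos hab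
      rw [hB, Finset.mem_filter, Finset.mem_range] at m1 m2 m3
      obtain ⟨l1, m1⟩ := m1
      obtain ⟨l2, m2⟩ := m2
      obtain ⟨l3, m3⟩ := m3
      have hform : ∀ t, cr (ab.1 - zz t) (ab.2 - zz t) =
          (cr ab.1 ab.2 + p.re * (ab.1.im - ab.2.im) - p.im * (ab.1.re - ab.2.re)) +
          (η / 2 * (ab.1.im - ab.2.im)) * s t + (-(η / 2 * (ab.1.re - ab.2.re))) * (s t) ^ 2 := by
        intro t
        rw [generic_cr, hzre, hzim]
        ring
      rw [hform] at m1 m2 m3
      have hq := generic_quad _ _ _ α (1 / (T : ℝ)) (s t1) (s t2) (s t3) (by positivity)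
        (by rw [div_le_one hTr]; exact hT1) (hs0 _) (hs1 _ l1) (hs0 _) (hs1 _ l2) (hs0 _)
        (hs1 _ l3) (generic_gap T hT0 _ _ n12) (generic_gap T hT0 _ _ n13)
        (generic_gap T hT0 _ _ n23) m1 m2 m3
      have hd : dist ab.1 ab.2 ^ 2 = (ab.1.re - ab.2.re) ^ 2 + (ab.1.im - ab.2.im) ^ 2 := by
        rw [dist_eq_norm, Complex.sq_norm, Complex.normSq_apply, Complex.sub_re, Complex.sub_im]
        ring
      have hαd : α / (1 / (T : ℝ)) ^ 2 = η * β / 24 := by
        rw [hα]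
        field_simp
      rw [hαd] at hq
      have h9 : β ^ 2 ≤ dist ab.1 ab.2 ^ 2 := pow_le_pow_left₀ hβ0.le hab 2
      have h10 : (η / 2 * (ab.1.im - ab.2.im)) ^ 2 + (-(η / 2 * (ab.1.re - ab.2.re))) ^ 2 =
          η ^ 2 / 4 * dist ab.1 ab.2 ^ 2 := by
        rw [hd]; ring
      rw [h10] at hq
      have h11 : η ^ 2 / 4 * β ^ 2 ≤ η ^ 2 / 4 * dist ab.1 ab.2 ^ 2 :=
        mul_le_mul_of_nonneg_left h9 (by positivity)
      have h12 : 0 < η ^ 2 * β ^ 2 := by positivity
      nlinarith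
    · have hB : Bab ab = ∅ := if_neg hab
      rw [hB, Finset.card_empty]
      omega
  set B := F.biUnion Ba ∪ (F ×ˢ F).biUnion Bab with hB
  have hBc : B.card < (Finset.range T).card := by
    rw [Finset.card_range]
    have h1 : (F.biUnion Ba).card ≤ F.card * 1 :=
      Finset.card_biUnion_le_card_mul _ _ _ (fun a _ => hBa a)
    have h2 : ((F ×ˢ F).biUnion Bab).card ≤ (F ×ˢ F).card * 2 :=
      Finset.card_biUnion_le_card_mul _ _ _ (fun a _ => hBab a)
    rw [Finset.card_product] at h2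
    have h3 := Finset.card_union_le (F.biUnion Ba) ((F ×ˢ F).biUnion Bab)
    have h4 : F.card * F.card ≤ L ^ 2 := by
      rw [sq]; exact Nat.mul_le_mul hF hF
    calc B.card ≤ (F.biUnion Ba).card + ((F ×ˢ F).biUnion Bab).card := h3
      _ ≤ F.card * 1 + F.card * F.card * 2 := Nat.add_le_add h1 h2
      _ ≤ L + L ^ 2 * 2 := by
          rw [mul_one]
          exact Nat.add_le_add hF (Nat.mul_le_mul_right 2 h4)
      _ < T := by omega
  obtain ⟨t, htT, htB⟩ := Finset.exists_mem_notMem_of_card_lt_card hBc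
  rw [hB, Finset.mem_union, not_or] at htB
  obtain ⟨hb1, hb2⟩ := htB
  refine ⟨zz t, hzp t (Finset.mem_range.mp htT), ?_, ?_⟩
  · intro a ha
    by_contra hlt
    rw [not_le] at hlt
    apply hb1
    rw [Finset.mem_biUnion]
    exact ⟨a, ha, Finset.mem_filter.mpr ⟨htT, hlt⟩⟩
  · intro a ha b hb hab
    by_contra hlt
    rw [not_le] at hlt
    apply hb2
    rw [Finset.mem_biUnion]
    refine ⟨(a, b), Finset.mem_product.mpr ⟨ha, hb⟩, ?_⟩
    have hB : Bab (a, b) = (Finset.range T).filter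
          (fun t => |cr (a - zz t) (b - zz t)| < α) := if_pos hab
    rw [hB]
    exact Finset.mem_filter.mpr ⟨htT, hlt⟩

theorem generic {ι : Type} [Countable ι] (p : ι → ℂ) (η Rg : ℝ) (hη : 0 < η) (K : ℕ)
    (hK : ∀ i, {j | dist (p i) (p j) ≤ Rg + 2 * η}.Finite ∧
      {j | dist (p i) (p j) ≤ Rg + 2 * η}.ncard ≤ K) :
    ∃ q : ι → ℂ, (∀ i, dist (q i) (p i) ≤ η) ∧ ∃ α : ℝ, 0 < α ∧ ∀ i j k, i ≠ j → j ≠ k → i ≠ k →
      dist (q i) (q j) ≤ Rg → dist (q i) (q k) ≤ Rg →
        α ≤ |cr (q j - q i) (q k - q i)| := by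
  classical
  obtain ⟨code, hcode⟩ := exists_injective_nat ι
  let N : ι → Finset ι := fun i => (hK i).1.toFinset
  have hN : ∀ i j, j ∈ N i ↔ dist (p i) (p j) ≤ Rg + 2 * η := by
    intro i j
    exact Set.Finite.mem_toFinset _
  have hNc : ∀ i, (N i).card ≤ K := by
    intro i
    have h1 := (hK i).2
    rw [Set.ncard_eq_toFinset_card _ (hK i).1] at h1
    exact h1
  let M : ι → Finset ι := fun i => (N i).biUnion N
  have hMc : ∀ i, (M i).card ≤ K * K := by
    intro i
    refine (Finset.card_biUnion_le_card_mul _ _ _ (fun a _ => hNc a)).trans ?_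
    exact Nat.mul_le_mul_right K (hNc i)
  set L := K * K with hL
  set T := 2 * L ^ 2 + L + 1 with hT
  have hTr : (0 : ℝ) < T := by
    have : 0 < T := by omega
    exact_mod_cast this
  set β := η / (4 * (T : ℝ)) with hβ
  have hβ0 : 0 < β := by positivity
  set α := η * β * (1 / (T : ℝ)) ^ 2 / 24 with hα
  have hα0 : 0 < α := by positivity
  obtain ⟨q, hq⟩ := generic_rec (fun a b : ι => code a < code b)
    (InvImage.wf code Nat.lt_wfRel.wf)
    (fun i f z => dist z (p i) ≤ η ∧ (∀ a (ha : code a < code i), a ∈ M i → β ≤ dist z (f a ha)) ∧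
      ∀ a (ha : code a < code i) b (hb : code b < code i), a ∈ M i → b ∈ M i →
        β ≤ dist (f a ha) (f b hb) → α ≤ |cr (f a ha - z) (f b hb - z)|) (by
      intro i f
      let f' : ι → ℂ := fun a => if h : code a < code i then f a h else 0
      have hf' : ∀ a (h : code a < code i), f' a = f a h := fun a h => dif_pos h
      obtain ⟨z, hz1, hz2, hz3⟩ := generic_step (p i) η hη L T (by omega) ((M i).image f')
        (Finset.card_image_le.trans (hMc i))
      refine ⟨z, hz1, ?_, ?_⟩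
      · intro a ha haM
        rw [← hf' a ha]
        exact hz2 _ (Finset.mem_image_of_mem _ haM)
      · intro a ha b hb haM hbM hab
        rw [← hf' a ha, ← hf' b hb] at hab ⊢
        exact hz3 _ (Finset.mem_image_of_mem _ haM) _ (Finset.mem_image_of_mem _ hbM) hab)
  have hq1 : ∀ i, dist (q i) (p i) ≤ η := fun i => (hq i).1
  refine ⟨q, hq1, α, hα0, ?_⟩
  have hclose : ∀ i j, dist (q i) (q j) ≤ Rg → dist (p i) (p j) ≤ Rg + 2 * η := by
    intro i j h
    have h1 := dist_triangle4 (p i) (q i) (q j) (p j)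
    have h2 := hq1 i
    have h3 := hq1 j
    rw [dist_comm] at h2
    linarith
  have hsep : ∀ a b, a ≠ b → a ∈ M b → b ∈ M a → β ≤ dist (q a) (q b) := by
    intro a b hab h1 h2
    rcases lt_or_gt_of_ne (fun h => hab (hcode h)) with h | h
    · rw [dist_comm]
      exact (hq b).2.1 a h h1
    · exact (hq a).2.1 b h h2
  have hkey : ∀ m a b, code a < code m → code b < code m → a ≠ b → a ∈ M m → b ∈ M m →
      a ∈ M b → b ∈ M a → α ≤ |cr (q a - q m) (q b - q m)| := by
    intro m a b ha hb hab haM hbM h1 h2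
    exact (hq m).2.2 a ha b hb haM hbM (hsep a b hab h1 h2)
  intro i j k hij hjk hik dij dik
  have hR : 0 ≤ Rg := le_trans dist_nonneg dij
  have nself : ∀ x, x ∈ N x := by
    intro x
    rw [hN, dist_self]
    linarith
  have nij : j ∈ N i := (hN i j).mpr (hclose i j dij)
  have nik : k ∈ N i := (hN i k).mpr (hclose i k dik)
  have nji : i ∈ N j := (hN j i).mpr (by rw [dist_comm]; exact hclose i j dij)
  have nki : i ∈ N k := (hN k i).mpr (by rw [dist_comm]; exact hclose i k dik)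
  have mM : ∀ x y c, c ∈ N y → x ∈ N c → x ∈ M y := fun x y c h1 h2 =>
    Finset.mem_biUnion.mpr ⟨c, h1, h2⟩
  have jMi : j ∈ M i := mM j i j nij (nself j)
  have kMi : k ∈ M i := mM k i k nik (nself k)
  have iMj : i ∈ M j := mM i j i nji (nself i)
  have iMk : i ∈ M k := mM i k i nki (nself i)
  have kMj : k ∈ M j := mM k j i nji nik
  have jMk : j ∈ M k := mM j k i nki nij
  have cij : code i ≠ code j := fun h => hij (hcode h)
  have cjk : code j ≠ code k := fun h => hjk (hcode h)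
  have cik : code i ≠ code k := fun h => hik (hcode h)
  by_cases hmi : code j < code i ∧ code k < code i
  · exact hkey i j k hmi.1 hmi.2 hjk jMi kMi jMk kMj
  · by_cases hmj : code i < code j ∧ code k < code j
    · have h1 := hkey j i k hmj.1 hmj.2 hik iMj kMj iMk kMi
      have h2 : cr (q i - q j) (q k - q j) = - cr (q j - q i) (q k - q i) := by
        unfold cr
        simp only [Complex.sub_re, Complex.sub_im]
        ring
      rw [h2, abs_neg] at h1
      exact h1
    · have hmk : code i < code k ∧ code j < code k := by omega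
      have h1 := hkey k i j hmk.1 hmk.2 hij iMk jMk iMj jMi
      have h2 : cr (q i - q k) (q j - q k) = cr (q j - q i) (q k - q i) := by
        unfold cr
        simp only [Complex.sub_re, Complex.sub_im]
        ring
      rw [h2] at h1
      exact h1

end Pool.Agent.Helper484.DT
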