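import Pool.Agent.Helper484.DT.Defs

set_option autoImplicit false

namespace Pool.Agent.Helper484.DT
open Set Metric Filter
open scoped Topology


theorem exit_both_aux {ι : Type} (s : Finset ι) (w g : ι → ℝ) (l0 : ℝ) (h0 : 0 < l0)
    (hw : ∀ j ∈ s, l0 ≤ w j) (hs : ∑ j ∈ s, w j = 1) (v m e : ℝ) (he : 0 < e)
    (hv : v = ∑ j ∈ s, w j * g j) (hvm : v ≤ m + e) (x : ι) (hx : x ∈ s)
    (hgx : 4 / l0 * e < g x - m) : (m + e < g x) ∧ ∃ y ∈ s, g y < m - e := by
  have hl1 : l0 ≤ 1 := by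
    rw [← hs]
    exact (hw x hx).trans (Finset.single_le_sum (f := w) (fun j hj => h0.le.trans (hw j hj)) hx)
  have h4 : 4 ≤ 4 / l0 := by rw [le_div_iff₀ h0]; nlinarith
  refine ⟨by nlinarith, ?_⟩
  by_contra hcon
  push Not at hcon
  have h1 : ∑ j ∈ s, w j * (g j - (m - e)) = v - (m - e) := by
    simp only [mul_sub, Finset.sum_sub_distrib, ← Finset.sum_mul]
    rw [hs, ← hv]; ring
  have h2 : w x * (g x - (m - e)) ≤ ∑ j ∈ s, w j * (g j - (m - e)) :=
    Finset.single_le_sum (f := fun j => w j * (g j - (m - e)))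
      (fun j hj => mul_nonneg (h0.le.trans (hw j hj)) (by linarith [hcon j hj])) hx
  have h3 : l0 * (g x - (m - e)) ≤ w x * (g x - (m - e)) :=
    mul_le_mul_of_nonneg_right (hw x hx) (by linarith [hcon x hx])
  have h5 : l0 * (4 / l0 * e) = 4 * e := by field_simp
  have h6 : l0 * (4 / l0 * e) < l0 * (g x - m) := mul_lt_mul_of_pos_left hgx h0
  nlinarith

theorem exit_both {ι : Type} (N : ι → Finset ι) (f : ι → ℝ) (l0 : ℝ) (h0 : 0 < l0)
    (hh : HarmR N l0 f) (c e : ℝ) (he : 0 < e) (b x : ι) (hb : |f b - c| ≤ e) (hx : x ∈ N b)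
    (hfx : 4 / l0 * e < |f x - c|) :
    (∃ y ∈ N b, c + e < f y) ∧ (∃ y ∈ N b, f y < c - e) := by
  obtain ⟨w, hw, hs, hf⟩ := hh b
  rw [abs_le] at hb
  rcases le_total 0 (f x - c) with h | h
  · rw [abs_of_nonneg h] at hfx
    obtain ⟨h1, h2⟩ := exit_both_aux (N b) w f l0 h0 hw hs (f b) c e he hf (by linarith) x hx hfx
    exact ⟨⟨x, hx, h1⟩, h2⟩
  · rw [abs_of_nonpos h] at hfx
    obtain ⟨h1, y, hy, h2⟩ := exit_both_aux (N b) w (fun j => -f j) l0 h0 hw hs (-f b) (-c) e he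
      (by rw [hf, ← Finset.sum_neg_distrib]; exact Finset.sum_congr rfl fun j _ => by ring)
      (by linarith) x hx (by linarith)
    exact ⟨⟨y, hy, by linarith⟩, ⟨x, hx, by linarith⟩⟩

end Pool.Agent.Helper484.DT
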