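import Pool.Agent.Helper484.DT.Defs

set_option autoImplicit false

namespace Pool.Agent.Helper484.DT
open Set Metric Filter
open scoped Topology


theorem pigeon {α : Type} (B : Finset α) (F : α → ℝ) (κ δ : ℝ) (hκ : 1 < κ) (hδ : 0 < δ) :
    ∃ k ≤ B.card, ∀ j ∈ B, ¬ (δ * κ ^ k < F j ∧ F j ≤ δ * κ ^ (k + 1)) := by
  classical
  by_contra hcon
  push Not at hcon
  haveI : Nonempty α := ⟨(hcon 0 (Nat.zero_le _)).choose⟩
  choose! j hj hj2 using hcon
  have hmono : ∀ a b : ℕ, a < b → δ * κ ^ (a + 1) ≤ δ * κ ^ b := by
    intro a b hab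
    exact mul_le_mul_of_nonneg_left (pow_le_pow_right₀ hκ.le hab) hδ.le
  have hne : ∀ a b : ℕ, a ≤ B.card → b ≤ B.card → a < b → j a ≠ j b := by
    intro a b ha hb hab h
    have h1 := (hj2 a ha).2
    have h2 := (hj2 b hb).1
    rw [h] at h1
    have h3 := hmono a b hab
    linarith
  have hcard : (Finset.range (B.card + 1)).card ≤ B.card := by
    refine Finset.card_le_card_of_injOn j ?_ ?_
    · intro k hk
      have hk' : k < B.card + 1 := by simpa using hk
      exact hj k (by omega)
    · intro a ha b hb hab
      have ha' : a < B.card + 1 := by simpa using ha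
      have hb' : b < B.card + 1 := by simpa using hb
      rcases lt_trichotomy a b with h | h | h
      · exact absurd hab (hne a b (by omega) (by omega) h)
      · exact h
      · exact absurd hab.symm (hne b a (by omega) (by omega) h)
  rw [Finset.card_range] at hcard
  omega
end Pool.Agent.Helper484.DT
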