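import Pool.Agent.Helper484.DT.Defs
import Pool.Agent.Helper484.DT.P_locfin
import Pool.Agent.Helper484.DT.P_conn_open
import Pool.Agent.Helper484.DT.P_walk_of

set_option autoImplicit false

namespace Pool.Agent.Helper484.DT
open Set Metric Filter
open scoped Topology


/-- a walk can be taken without repetitions -/
theorem walk_inj {α : Type} {R : α → α → Prop} {a b : α} (h : Relation.ReflTransGen R a b) :
    ∃ (n : ℕ) (g : ℕ → α), g 0 = a ∧ g n = b ∧ (∀ k < n, R (g k) (g (k + 1))) ∧
      ∀ p q, p < q → q ≤ n → g p ≠ g q := by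
  classical
  have hex : ∃ n : ℕ, ∃ g : ℕ → α, g 0 = a ∧ g n = b ∧ ∀ k < n, R (g k) (g (k + 1)) := walk_of h
  obtain ⟨g, h0, hn, hr⟩ := Nat.find_spec hex
  have hmin := fun m (hm : m < Nat.find hex) => Nat.find_min hex hm
  generalize Nat.find hex = n at *
  refine ⟨n, g, h0, hn, hr, fun p q hpq hqn heq => ?_⟩
  refine hmin (n - (q - p)) (by omega)
    ⟨fun k => if k ≤ p then g k else g (k + (q - p)), ?_, ?_, ?_⟩
  · simp [h0]
  · by_cases hc : n - (q - p) ≤ p
    · have h1 : n - (q - p) = p := by omega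
      have h2 : q = n := by omega
      simp only [h1, le_refl, if_true]
      rw [heq, h2, hn]
    · simp only [hc, if_false]
      rw [← hn]; congr 1; omega
  · intro k hk
    by_cases h1 : k + 1 ≤ p
    · have h2 : k ≤ p := by omega
      simp only [h1, h2, if_true]
      exact hr k (by omega)
    · by_cases h2 : k ≤ p
      · have h3 : k = p := by omega
        simp only [h1, h2, if_true, if_false]
        subst h3
        rw [heq]
        have h4 : k + 1 + (q - k) = q + 1 := by omega
        rw [h4]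
        exact hr q (by omega)
      · simp only [h1, h2, if_false]
        have h4 : k + 1 + (q - p) = (k + (q - p)) + 1 := by omega
        rw [h4]
        exact hr _ (by omega)

theorem short_path {ι : Type} {T : ι → Set ℂ} {u U : ℝ} (h : CT ι T u U) (r : ℝ) :
    ∃ L : ℕ, ∀ (x : ℂ) (i j : ι), (T i ∩ ball x r).Nonempty → (T j ∩ ball x r).Nonempty →
      ∃ n ≤ L, ∃ g : ℕ → ι, g 0 = i ∧ g n = j ∧ (∀ k < n, Adj T (g k) (g (k + 1))) ∧
        ∀ k ≤ n, (T (g k) ∩ ball x r).Nonempty := by
  classical
  obtain ⟨K, hK⟩ := locfin h r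
  refine ⟨K, fun x i j hi hj => ?_⟩
  obtain ⟨n, g, h0, hn, hr, hinj⟩ :=
    walk_inj (conn_open h (ball x r) isOpen_ball (convex_ball x r) i j hi hj)
  have hmem : ∀ k ≤ n, (T (g k) ∩ ball x r).Nonempty := by
    intro k hk
    rcases Nat.eq_zero_or_pos k with h1 | h1
    · subst h1; rw [h0]; exact hi
    · have h2 := (hr (k - 1) (by omega)).2.2
      rwa [Nat.sub_add_cancel h1] at h2
  refine ⟨n, ?_, g, h0, hn, fun k hk => (hr k hk).1, hmem⟩
  obtain ⟨hf, hc⟩ := hK x
  have hsub : (((Finset.range (n + 1)).image g : Finset ι) : Set ι) ⊆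
      {i | (T i ∩ closedBall x r).Nonempty} := by
    intro y hy
    rw [Finset.mem_coe, Finset.mem_image] at hy
    obtain ⟨k, hk, rfl⟩ := hy
    rw [Finset.mem_range] at hk
    exact (hmem k (by omega)).mono (inter_subset_inter_right _ ball_subset_closedBall)
  have h1 := Set.ncard_le_ncard hsub hf
  rw [Set.ncard_coe_finset, Finset.card_image_of_injOn, Finset.card_range] at h1
  · omega
  · intro p hp q hq hpq
    simp only [Finset.coe_range, Set.mem_Iio] at hp hq
    by_contra hne
    rcases lt_or_gt_of_ne hne with h2 | h2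
    · exact hinj p q h2 (by omega) hpq
    · exact hinj q p h2 (by omega) hpq.symm

end Pool.Agent.Helper484.DT
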