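import Pool.Agent.Helper484.DT.Defs
import Pool.Agent.Helper484.DT.P_conn_open
import Pool.Agent.Helper484.DT.P_short_path

set_option autoImplicit false

namespace Pool.Agent.Helper484.DT
open Set Metric Filter
open scoped Topology


theorem rise_harm {ι : Type} {T : ι → Set ℂ} {u U : ℝ} (h : CT ι T u U) (N : ι → Finset ι)
    (hN : ∀ i j, j ∈ N i ↔ Adj T i j) (f : ι → ℝ) (w : ℂ) (hw : ‖w‖ = 1) (C : ℝ)
    (hf : ∀ i, ∀ x ∈ T i, |f i - dt w x| ≤ C) (l0 : ℝ) (h0 : 0 < l0) (hh : HarmR N l0 f)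
    (i : ι) (M : ℝ) : ∃ j, M ≤ f j ∧
      Relation.ReflTransGen (fun a b => Adj T a b ∧ f i ≤ f a ∧ f i ≤ f b) i j := by
  classical
  by_contra hcon
  push Not at hcon
  let R : ι → ι → Prop := fun a b => Adj T a b ∧ f i ≤ f a ∧ f i ≤ f b
  let X : Set ι := {j | Relation.ReflTransGen R i j}
  have hXi : i ∈ X := Relation.ReflTransGen.refl
  have hX1 : ∀ j ∈ X, f i ≤ f j := by
    intro j hj
    rcases Relation.ReflTransGen.cases_tail hj with h1 | ⟨c, _, h2⟩
    · rw [h1]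
    · exact h2.2.2
  have hXM : ∀ j ∈ X, f j < M := by
    intro j hj
    by_contra h'
    exact hcon j (not_lt.1 h') hj
  have hXs : ∀ j ∈ X, ∀ k, Adj T j k → f i ≤ f k → k ∈ X := by
    intro j hj k hk hfk
    exact Relation.ReflTransGen.tail hj ⟨hk, hX1 j hj, hfk⟩
  have hbdd : BddAbove (f '' X) := ⟨M, by rintro _ ⟨j, hj, rfl⟩; exact (hXM j hj).le⟩
  have hne : (f '' X).Nonempty := ⟨f i, i, hXi, rfl⟩
  obtain ⟨m, hmdef⟩ : ∃ m, m = sSup (f '' X) := ⟨_, rfl⟩
  have hm : ∀ j ∈ X, f j ≤ m := by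
    intro j hj
    rw [hmdef]
    exact le_csSup hbdd ⟨j, hj, rfl⟩
  have hmi : f i ≤ m := hm i hXi
  -- neighbours
  have hnb : ∀ j ∈ X, ∀ k, Adj T j k → f k ≤ m := by
    intro j hj k hk
    by_cases hfk : f i ≤ f k
    · exact hm k (hXs j hj k hk hfk)
    · exact (not_le.1 hfk).le.trans hmi
  have hstep : ∀ j ∈ X, ∀ k, Adj T j k → l0 * (m - f k) ≤ m - f j := by
    intro j hj k hk
    obtain ⟨wt, hw1, hw2, hw3⟩ := hh j
    have h1 : m - f j = ∑ k' ∈ N j, wt k' * (m - f k') := by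
      simp only [mul_sub, Finset.sum_sub_distrib]
      rw [← Finset.sum_mul, hw2, one_mul, ← hw3]
    have h2 : wt k * (m - f k) ≤ ∑ k' ∈ N j, wt k' * (m - f k') := by
      apply Finset.single_le_sum (f := fun k' => wt k' * (m - f k')) _ ((hN j k).2 hk)
      intro k' hk'
      have h3 := hnb j hj k' ((hN j k').1 hk')
      have h4 := hw1 k' hk'
      exact mul_nonneg (h0.le.trans h4) (by linarith)
    have h5 := hnb j hj k hk
    have h6 := hw1 k ((hN j k).2 hk)
    rw [h1]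
    exact (mul_le_mul_of_nonneg_right h6 (by linarith)).trans h2
  have hl1 : l0 ≤ 1 := by
    obtain ⟨wt, hw1, hw2, hw3⟩ := hh i
    have hNne : (N i).Nonempty := by
      by_contra hemp
      rw [Finset.not_nonempty_iff_eq_empty.1 hemp] at hw2
      simp at hw2
    obtain ⟨k, hk⟩ := hNne
    have h2 : wt k ≤ ∑ k' ∈ N i, wt k' :=
      Finset.single_le_sum (f := fun k' => wt k') (fun k' hk' => h0.le.trans (hw1 k' hk')) hk
    rw [hw2] at h2
    exact (hw1 k hk).trans h2
  set s : ℝ := m - f i + 2 * |C| + 1 with hs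
  have hs0 : 0 < s := by have := abs_nonneg C; linarith
  obtain ⟨L, hL⟩ := short_path h (s + 1)
  -- a good starting tile
  have hstart : ∃ j ∈ X, m - f j ≤ (m - f i) * l0 ^ L := by
    rcases hmi.eq_or_lt with h1 | h1
    · refine ⟨i, hXi, ?_⟩
      rw [← h1]; simp
    · have h2 : m - (m - f i) * l0 ^ L < sSup (f '' X) := by
        rw [← hmdef]
        have : 0 < (m - f i) * l0 ^ L := mul_pos (by linarith) (pow_pos h0 _)
        linarith
      obtain ⟨_, ⟨j, hj, rfl⟩, h3⟩ := exists_lt_of_lt_csSup hne h2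
      exact ⟨j, hj, by linarith⟩
  obtain ⟨j, hj, hjm⟩ := hstart
  obtain ⟨x, hx⟩ : ∃ x, x ∈ T j := by
    obtain ⟨x, hx⟩ := h.ball j
    exact ⟨x, hx (mem_closedBall_self h.upos.le)⟩
  obtain ⟨j', hj'⟩ := h.cover (x - (s : ℂ) * w)
  have hww : dt w w = 1 := by
    have h1 : ‖w‖ ^ 2 = w.re * w.re + w.im * w.im := by
      rw [← Complex.normSq_eq_norm_sq, Complex.normSq_apply]
    rw [hw] at h1
    unfold dt
    linarith
  have hdt : dt w (x - (s : ℂ) * w) = dt w x - s * dt w w := by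
    unfold dt
    simp
    ring
  have hfj' : f j' < f i := by
    have h1 := (abs_le.1 (hf j' _ hj')).2
    have h2 := (abs_le.1 (hf j x hx)).1
    rw [hdt, hww] at h1
    have h3 := hm j hj
    have h4 := le_abs_self C
    linarith
  obtain ⟨n, hnL, g, hg0, hgn, hgadj, -⟩ := hL x j j' ⟨x, hx, mem_ball_self (by linarith)⟩
    ⟨x - (s : ℂ) * w, hj', by
      rw [mem_ball, dist_eq_norm]
      have : x - (s : ℂ) * w - x = -((s : ℂ) * w) := by ring
      rw [this, norm_neg, norm_mul, hw, mul_one, Complex.norm_real, Real.norm_of_nonneg hs0.le]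
      linarith⟩
  have ind : ∀ k ≤ n, g k ∈ X ∧ m - f (g k) ≤ (m - f i) * l0 ^ (L - k) := by
    intro k
    induction k with
    | zero =>
      intro _
      rw [hg0]
      exact ⟨hj, hjm⟩
    | succ k ih =>
      intro hk
      obtain ⟨h1, h2⟩ := ih (by omega)
      have h3 := hstep (g k) h1 (g (k+1)) (hgadj k (by omega))
      have h4 : L - k = (L - (k+1)) + 1 := by omega
      rw [h4, pow_succ] at h2
      have h5 : l0 * (m - f (g (k+1))) ≤ l0 * ((m - f i) * l0 ^ (L - (k+1))) := by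
        calc _ ≤ m - f (g k) := h3
          _ ≤ (m - f i) * (l0 ^ (L - (k+1)) * l0) := h2
          _ = _ := by ring
      have h6 := le_of_mul_le_mul_left h5 h0
      have h7 : (m - f i) * l0 ^ (L - (k+1)) ≤ (m - f i) * 1 :=
        mul_le_mul_of_nonneg_left (pow_le_one₀ h0.le hl1) (by linarith)
      exact ⟨hXs (g k) h1 _ (hgadj k (by omega)) (by linarith), h6⟩
  have h8 := hX1 _ (ind n le_rfl).1
  rw [hgn] at h8
  linarith

end Pool.Agent.Helper484.DT
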