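import Pool.Agent.Helper484.DT.Defs
import Pool.Agent.Helper484.DT.P_dart_symm
import Pool.Agent.Helper484.DT.P_dart_adj
import Pool.Agent.Helper484.DT.P_dart_exists
import Pool.Agent.Helper484.DT.P_dart_unique
import Pool.Agent.Helper484.DT.P_dart_vertex
import Pool.Agent.Helper484.DT.P_int_unique
import Pool.Agent.Helper484.DT.P_rim_exists
import Pool.Agent.Helper484.DT.P_closed_walk
import Pool.Agent.Helper484.DT.P_walk_of
import Pool.Agent.Helper484.DT.P_w_const
import Pool.Agent.Helper484.DT.P_w_zero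

set_option autoImplicit false

namespace Pool.Agent.Helper484.DT
open Set Metric Filter
open scoped Topology


/-! ### proof of theta -/

section thetaAux

open Classical in
/-- net number of steps from `i` to `j` -/
private noncomputable def st {ι : Type} (g : ℕ → ι) (n : ℕ) (i j : ι) : ℤ :=
  ∑ k ∈ Finset.range n, ((if g k = i ∧ g (k + 1) = j then 1 else 0) -
    (if g k = j ∧ g (k + 1) = i then 1 else 0))

open Classical in
private theorem cnt_eq (n : ℕ) (P : ℕ → Prop) :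
    ({k | k < n ∧ P k}.ncard : ℤ) = ∑ k ∈ Finset.range n, (if P k then (1 : ℤ) else 0) := by
  have : {k | k < n ∧ P k} = (((Finset.range n).filter P : Finset ℕ) : Set ℕ) := by
    ext k; simp
  rw [this, Set.ncard_coe_finset, Finset.card_filter]
  push_cast
  rfl

private theorem st_eq {ι : Type} (g : ℕ → ι) (n : ℕ) (i j : ι) :
    ({k | k < n ∧ g k = i ∧ g (k + 1) = j}.ncard : ℤ) -
      ({k | k < n ∧ g k = j ∧ g (k + 1) = i}.ncard : ℤ) = st g n i j := by
  rw [cnt_eq n (fun k => g k = i ∧ g (k + 1) = j), cnt_eq n (fun k => g k = j ∧ g (k + 1) = i),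
    st, Finset.sum_sub_distrib]
  congr 1 <;> exact Finset.sum_congr rfl (fun k _ => by congr)

/-- there is a walk from `a` to `b` inside `V` with net step counts `c` -/
private def Wk {ι : Type} (T : ι → Set ℂ) (V : Set ι) (a b : ι) (c : ι → ι → ℤ) : Prop :=
  ∃ (n : ℕ) (g : ℕ → ι), g 0 = a ∧ g n = b ∧ (∀ k < n, Adj T (g k) (g (k + 1))) ∧
    (∀ k ≤ n, g k ∈ V) ∧ ∀ i j, c i j = st g n i j

private theorem adj_symm {ι : Type} {T : ι → Set ℂ} {i j : ι} (h : Adj T i j) : Adj T j i :=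
  ⟨h.1.symm, by rw [Set.inter_comm]; exact h.2⟩

open Classical in
private noncomputable def dl {ι : Type} (a b i j : ι) : ℤ :=
  (if a = i ∧ b = j then 1 else 0) - (if a = j ∧ b = i then 1 else 0)

private theorem Wk.single {ι : Type} {T : ι → Set ℂ} {V : Set ι} {a b : ι} (h : Adj T a b)
    (ha : a ∈ V) (hb : b ∈ V) : Wk T V a b (dl a b) := by
  refine ⟨1, fun k => if k = 0 then a else b, by simp, by simp, ?_, ?_, ?_⟩
  · intro k hk
    have : k = 0 := by omega
    subst this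
    simpa using h
  · intro k hk
    by_cases h0 : k = 0
    · simp [h0, ha]
    · simp [h0, hb]
  · intro i j
    unfold st dl
    rw [Finset.sum_range_one]
    simp

private theorem Wk.mono {ι : Type} {T : ι → Set ℂ} {V V' : Set ι} {a b : ι} {c : ι → ι → ℤ}
    (h : Wk T V a b c) (hV : V ⊆ V') : Wk T V' a b c := by
  obtain ⟨n, g, h0, hn, h1, h2, h3⟩ := h
  exact ⟨n, g, h0, hn, h1, fun k hk => hV (h2 k hk), h3⟩

private theorem Wk.trans {ι : Type} {T : ι → Set ℂ} {V : Set ι} {a b d : ι} {c c' : ι → ι → ℤ}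
    (h : Wk T V a b c) (h' : Wk T V b d c') : Wk T V a d (fun i j => c i j + c' i j) := by
  obtain ⟨n, g, h0, hn, h1, h2, h3⟩ := h
  obtain ⟨n', g', h0', hn', h1', h2', h3'⟩ := h'
  set w : ℕ → ι := fun k => if k ≤ n then g k else g' (k - n) with hw
  have wl : ∀ k, k ≤ n → w k = g k := fun k hk => by simp [hw, hk]
  have wr : ∀ k, w (n + k) = g' k := by
    intro k
    rcases Nat.eq_zero_or_pos k with hk | hk
    · subst hk
      simp only [hw, add_zero, le_refl, if_true]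
      rw [hn, h0']
    · have : ¬ (n + k ≤ n) := by omega
      simp only [hw, this, if_false]
      congr 1; omega
  refine ⟨n + n', w, ?_, ?_, ?_, ?_, ?_⟩
  · rw [wl 0 (Nat.zero_le _), h0]
  · rw [wr, hn']
  · intro k hk
    rcases lt_or_ge k n with hkn | hkn
    · rw [wl k hkn.le, wl (k + 1) hkn]
      exact h1 k hkn
    · obtain ⟨m, rfl⟩ := Nat.exists_eq_add_of_le hkn
      rw [wr m, add_assoc, wr (m + 1)]
      exact h1' m (by omega)
  · intro k hk
    rcases le_or_gt k n with hkn | hkn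
    · rw [wl k hkn]; exact h2 k hkn
    · obtain ⟨m, rfl⟩ := Nat.exists_eq_add_of_le hkn.le
      rw [wr m]; exact h2' m (by omega)
  · intro i j
    simp only [h3, h3']
    unfold st
    rw [Finset.sum_range_add]
    congr 1
    · refine Finset.sum_congr rfl ?_
      intro k hk
      rw [Finset.mem_range] at hk
      rw [wl k hk.le, wl (k + 1) hk]
    · refine Finset.sum_congr rfl ?_
      intro k hk
      rw [wr k, add_assoc, wr (k + 1)]

private theorem Wk.rev {ι : Type} {T : ι → Set ℂ} {V : Set ι} {a b : ι} {c : ι → ι → ℤ}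
    (h : Wk T V a b c) : Wk T V b a (fun i j => - c i j) := by
  obtain ⟨n, g, h0, hn, h1, h2, h3⟩ := h
  refine ⟨n, fun k => g (n - k), by simpa using hn, by simpa using h0, ?_, ?_, ?_⟩
  · intro k hk
    have h4 := h1 (n - (k + 1)) (by omega)
    have h5 : n - (k + 1) + 1 = n - k := by omega
    rw [h5] at h4
    exact adj_symm h4
  · intro k hk
    exact h2 _ (Nat.sub_le _ _)
  · intro i j
    simp only [h3]
    unfold st
    rw [← Finset.sum_neg_distrib, ← Finset.sum_range_reflect]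
    refine Finset.sum_congr rfl ?_
    intro k hk
    rw [Finset.mem_range] at hk
    have e1 : n - 1 - k + 1 = n - k := by omega
    have e2 : n - (k + 1) = n - 1 - k := by omega
    have e3 : g (n - 1 - k + 1) = g (n - k) := by rw [e1]
    have e4 : g (n - (k + 1)) = g (n - 1 - k) := by rw [e2]
    have e5 : (g (n - 1 - k) = j ∧ g (n - 1 - k + 1) = i) =
        (g (n - k) = i ∧ g (n - (k + 1)) = j) := by
      rw [e3, e4]; exact propext and_comm
    have e6 : (g (n - 1 - k) = i ∧ g (n - 1 - k + 1) = j) =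
        (g (n - k) = j ∧ g (n - (k + 1)) = i) := by
      rw [e3, e4]; exact propext and_comm
    simp only [neg_sub]
    congr 1
    · congr 1
    · congr 1

private theorem Wk.supp {ι : Type} {T : ι → Set ℂ} {V : Set ι} {a b : ι} {c : ι → ι → ℤ}
    (h : Wk T V a b c) {i j : ι} (hi : i ∉ V ∨ j ∉ V) : c i j = 0 := by
  obtain ⟨n, g, h0, hn, h1, h2, h3⟩ := h
  rw [h3]
  unfold st
  refine Finset.sum_eq_zero ?_
  intro k hk
  rw [Finset.mem_range] at hk
  have ha := h2 k hk.le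
  have hb := h2 (k + 1) hk
  have e1 : ¬ (g k = i ∧ g (k + 1) = j) := by
    rintro ⟨rfl, rfl⟩
    rcases hi with hi | hi <;> contradiction
  have e2 : ¬ (g k = j ∧ g (k + 1) = i) := by
    rintro ⟨rfl, rfl⟩
    rcases hi with hi | hi <;> contradiction
  simp [e1, e2]

private theorem Wk.of_conn {ι : Type} {T : ι → Set ℂ} {S : Set ι} (hS : ConnIn T S) {a b : ι}
    (ha : a ∈ S) (hb : b ∈ S) : ∃ c, Wk T S a b c := by
  obtain ⟨n, g, h0, hn, h1⟩ := walk_of (hS a ha b hb)
  refine ⟨st g n, n, g, h0, hn, fun k hk => (h1 k hk).1, ?_, fun i j => rfl⟩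
  intro k hk
  rcases Nat.eq_zero_or_pos k with h | h
  · subst h; rw [h0]; exact ha
  · have := (h1 (k - 1) (by omega)).2.2
    rwa [Nat.sub_add_cancel h] at this

private theorem Wk.closed {ι : Type} {T : ι → Set ℂ} {u U : ℝ} (h : CT ι T u U) {V : Set ι}
    {a : ι} {c : ι → ι → ℤ} (hc : Wk T V a a c) :
    ∃ W : ℂ → ℤ, (∀ i j R L, Dart T i j R L → W L - W R = c i j) ∧
      (∃ ρ : ℝ, ∀ x : ℂ, ρ ≤ ‖x‖ → W x = 0) ∧
      ∀ i, i ∉ V → ∀ v w, IsV T v → IsV T w → v ∈ T i → w ∈ T i → W v = W w := by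
  obtain ⟨n, g, h0, hn, h1, h2, h3⟩ := hc
  obtain ⟨W, hW, ρ, hρ⟩ := closed_walk h n g h1 (by rw [h0, hn])
  refine ⟨W, ?_, ⟨ρ, hρ⟩, ?_⟩
  · intro i j R L hd
    rw [hW i j R L hd, st_eq, h3]
  · intro i hi v w hv hw hvi hwi
    refine w_const h n g W hW i ?_ v w hv hw hvi hwi
    rintro k hk rfl
    exact hi (h2 k hk)

/-- a rim starting at `y` -/
private theorem rim_rot {ι : Type} {T : ι → Set ℂ} {u U : ℝ} (h : CT ι T u U) {i y p m : ι}
    (hy : Adj T i y) (hp : Adj T i p) (hm : Adj T i m) (hyp : y ≠ p) (hym : y ≠ m) (hpm : p ≠ m) :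
    ∃ (n : ℕ) (s : ℕ → ι) (x : ℕ → ℂ) (c e : ℕ), (∀ k, Dart T i (s k) (x k) (x (k + 1))) ∧
      (∀ k l, k < n → l < n → s k = s l → k = l) ∧ s 0 = y ∧ s c = p ∧ s e = m ∧
      0 < c ∧ c < n ∧ 0 < e ∧ e < n ∧ c ≠ e := by
  obtain ⟨n, s, x, hr⟩ := rim_exists h i
  have hn : 0 < n := by have := hr.three; omega
  obtain ⟨a, han, hay⟩ := hr.alls y hy
  have per : ∀ k, s (k % n) = s k := by
    intro k
    have : Function.Periodic s n := hr.pers
    exact this.map_mod_nat k
  have key : ∀ j, Adj T i j → ∃ k, k < n ∧ s (k + a) = j := by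
    intro j hj
    obtain ⟨b, hbn, hb⟩ := hr.alls j hj
    refine ⟨(b + (n - a)) % n, Nat.mod_lt _ hn, ?_⟩
    rw [← per, Nat.mod_add_mod]
    have : b + (n - a) + a = b + n := by omega
    rw [this, Nat.add_mod_right, per, hb]
  obtain ⟨c, hcn, hc⟩ := key p hp
  obtain ⟨e, hen, he⟩ := key m hm
  refine ⟨n, fun k => s (k + a), fun k => x (k + a), c, e, ?_, ?_, by simpa using hay, hc, he,
    ?_, hcn, ?_, hen, ?_⟩
  · intro k
    have := hr.dart (k + a)
    have e1 : k + 1 + a = k + a + 1 := by omega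
    simp only [e1]
    exact this
  · intro k l hk hl hkl
    simp only at hkl
    rw [← per (k + a), ← per (l + a)] at hkl
    have h1 := hr.injs _ _ (Nat.mod_lt _ hn) (Nat.mod_lt _ hn) hkl
    have h2 : k ≡ l [MOD n] := Nat.ModEq.add_right_cancel' a h1
    have h3 := h2
    unfold Nat.ModEq at h3
    rwa [Nat.mod_eq_of_lt hk, Nat.mod_eq_of_lt hl] at h3
  · rcases Nat.eq_zero_or_pos c with h0 | h0
    · exfalso; subst h0; apply hyp; rw [← hay, ← hc]; simp
    · exact h0
  · rcases Nat.eq_zero_or_pos e with h0 | h0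
    · exfalso; subst h0; apply hym; rw [← hay, ← he]; simp
    · exact h0
  · rintro rfl
    exact hpm (by rw [← hc, ← he])

private theorem dart_left {ι : Type} {T : ι → Set ℂ} {i j : ι} {R L : ℂ} (h : Dart T i j R L) :
    R ∈ T i ∧ R ∈ T j ∧ L ∈ T i ∧ L ∈ T j := by
  have h1 : R ∈ T i ∩ T j := by rw [h.2.2.1]; exact left_mem_segment ℝ R L
  have h2 : L ∈ T i ∩ T j := by rw [h.2.2.1]; exact right_mem_segment ℝ R L
  exact ⟨h1.1, h1.2, h2.1, h2.2⟩

private theorem const_on {ι : Type} {T : ι → Set ℂ} {u U : ℝ} (h : CT ι T u U) {S : Set ι}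
    (hS : ConnIn T S) (W : ℂ → ℤ)
    (hW : ∀ i ∈ S, ∀ v w, IsV T v → IsV T w → v ∈ T i → w ∈ T i → W v = W w)
    {i j : ι} (hi : i ∈ S) (hj : j ∈ S) {v w : ℂ} (hv : IsV T v) (hw : IsV T w) (hvi : v ∈ T i)
    (hwj : w ∈ T j) : W v = W w := by
  have hc := hS i hi j hj
  induction hc generalizing w with
  | refl => exact hW i hi v w hv hw hvi hwj
  | tail hab hbc ih =>
    obtain ⟨hadj, hbS, hcS⟩ := hbc
    obtain ⟨R, L, hd⟩ := dart_exists h _ _ hadj
    have hR := (dart_vertex h hd).1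
    obtain ⟨hRb, hRc, -, -⟩ := dart_left hd
    rw [ih hbS hR hRb]
    exact hW _ hcS _ _ hR hw hRc hwj

end thetaAux

section thetaCore

open Finset in
private theorem tele (f : ℕ → ℤ) (n p q : ℕ) (α β : ℤ)
    (hf : ∀ k, k < n → f (k + 1) - f k = (if k = p then α else 0) + (if k = q then β else 0)) :
    f n - f 0 = (if p < n then α else 0) + (if q < n then β else 0) := by
  rw [← Finset.sum_range_sub, Finset.sum_congr rfl (fun k hk => hf k (Finset.mem_range.1 hk)),
    Finset.sum_add_distrib, Finset.sum_ite_eq', Finset.sum_ite_eq']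
  simp

/-- the core: two tiles with the same cyclic order -/
private theorem core {ι : Type} {T : ι → Set ℂ} {u U : ℝ} (h : CT ι T u U) (Y P M : Set ι)
    (hY : ConnIn T Y) (hP : ConnIn T P) (hM : ConnIn T M) (hYP : Disjoint Y P)
    (hYM : Disjoint Y M) (hPM : Disjoint P M) (A B : ι) (hAB : A ≠ B)
    (hAY : A ∉ Y) (hAP : A ∉ P) (hAM : A ∉ M) (hBY : B ∉ Y) (hBP : B ∉ P) (hBM : B ∉ M)
    {yA pA mA yB pB mB : ι} (hyA : yA ∈ Y) (hyB : yB ∈ Y) (hpA : pA ∈ P) (hpB : pB ∈ P)
    (hmA : mA ∈ M) (hmB : mB ∈ M) (n : ℕ) (s : ℕ → ι) (x : ℕ → ℂ) (c e : ℕ)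
    (hd : ∀ k, Dart T A (s k) (x k) (x (k + 1)))
    (inj : ∀ k l, k < n → l < n → s k = s l → k = l) (s0 : s 0 = yA) (sc : s c = pA)
    (se : s e = mA) (c0 : 0 < c) (ce : c < e) (en : e < n)
    (n' : ℕ) (s' : ℕ → ι) (x' : ℕ → ℂ) (c' e' : ℕ)
    (hd' : ∀ k, Dart T B (s' k) (x' k) (x' (k + 1)))
    (inj' : ∀ k l, k < n' → l < n' → s' k = s' l → k = l) (s0' : s' 0 = yB) (sc' : s' c' = pB)
    (se' : s' e' = mB) (c0' : 0 < c') (ce' : c' < e') (en' : e' < n') : False := by
  classical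
  have adjA : ∀ k, Adj T A (s k) := fun k => dart_adj (hd k)
  have adjB : ∀ k, Adj T B (s' k) := fun k => dart_adj (hd' k)
  obtain ⟨cY, hcY⟩ := Wk.of_conn hY hyA hyB
  obtain ⟨cP, hcP⟩ := Wk.of_conn hP hpA hpB
  obtain ⟨cM, hcM⟩ := Wk.of_conn hM hmA hmB
  -- set facts
  have YP : ∀ i, i ∈ Y → i ∉ P := fun i a b => Set.disjoint_left.1 hYP a b
  have YM : ∀ i, i ∈ Y → i ∉ M := fun i a b => Set.disjoint_left.1 hYM a b
  have PM : ∀ i, i ∈ P → i ∉ M := fun i a b => Set.disjoint_left.1 hPM a b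
  have aAy : Adj T A yA := s0 ▸ adjA 0
  have aAp : Adj T A pA := sc ▸ adjA c
  have aAm : Adj T A mA := se ▸ adjA e
  have aBy : Adj T B yB := s0' ▸ adjB 0
  have aBp : Adj T B pB := sc' ▸ adjB c'
  have aBm : Adj T B mB := se' ▸ adjB e'
  -- general closed walk
  have gen : ∀ (S S' : Set ι) (a b a' b' : ι) (cS cS' : ι → ι → ℤ), Wk T S a b cS →
      Wk T S' a' b' cS' → a ∈ S → b ∈ S → a' ∈ S' → b' ∈ S' → Adj T A a → Adj T B b →
      Adj T A a' → Adj T B b' →
      Wk T (S ∪ S' ∪ {A, B}) A A (fun i j => dl A a i j + cS i j + dl b B i j + dl B b' i j +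
        (- cS' i j) + dl a' A i j) := by
    intro S S' a b a' b' cS cS' w1 w2 ha hb ha' hb' a1 a2 a3 a4
    have sub1 : S ⊆ S ∪ S' ∪ {A, B} := fun z hz => Or.inl (Or.inl hz)
    have sub2 : S' ⊆ S ∪ S' ∪ {A, B} := fun z hz => Or.inl (Or.inr hz)
    have hA : A ∈ S ∪ S' ∪ {A, B} := Or.inr (by simp)
    have hB : B ∈ S ∪ S' ∪ {A, B} := Or.inr (by simp)
    exact ((((Wk.single a1 hA (sub1 ha)).trans (w1.mono sub1)).trans
      (Wk.single (adj_symm a2) (sub1 hb) hB)).trans (Wk.single a4 hB (sub2 hb'))).trans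
      ((w2.mono sub2).rev) |>.trans (Wk.single (adj_symm a3) (sub2 ha') hA)
  have g1 := gen Y P yA yB pA pB cY cP hcY hcP hyA hyB hpA hpB aAy aBy aAp aBp
  have g2 := gen P M pA pB mA mB cP cM hcP hcM hpA hpB hmA hmB aAp aBp aAm aBm
  have g3 := gen M Y mA mB yA yB cM cY hcM hcY hmA hmB hyA hyB aAm aBm aAy aBy
  obtain ⟨W1, f1, ⟨ρ1, z1⟩, k1⟩ := Wk.closed h g1
  obtain ⟨W2, f2, ⟨ρ2, z2⟩, k2⟩ := Wk.closed h g2
  obtain ⟨W3, f3, ⟨ρ3, z3⟩, k3⟩ := Wk.closed h g3
  -- the sum vanishes on the vertices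
  have hsum : ∀ v, IsV T v → W1 v + W2 v + W3 v = 0 := by
    intro v hv
    refine w_zero h (v + 1) (fun x => W1 x + W2 x + W3 x) ?_ (max ρ1 (max ρ2 ρ3)) ?_ v hv ?_
    · intro i j R L hdd _ _
      have e1 := f1 i j R L hdd
      have e2 := f2 i j R L hdd
      have e3 := f3 i j R L hdd
      have e4 : ∀ a b : ι, dl a b i j = - dl b a i j := by
        intro a b
        unfold dl
        simp only [neg_sub]
        congr 1 <;> exact if_congr and_comm rfl rfl
      have q1 := e4 A yA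
      have q2 := e4 A pA
      have q3 := e4 A mA
      have q4 := e4 B yB
      have q5 := e4 B pB
      have q6 := e4 B mB
      linarith
    · intro z hz
      rw [z1 z (le_trans (le_max_left _ _) hz),
        z2 z (le_trans (le_trans (le_max_left _ _) (le_max_right _ _)) hz),
        z3 z (le_trans (le_trans (le_max_right _ _) (le_max_right _ _)) hz)]
      simp
    · intro hv'
      have : (1 : ℂ) = 0 := by
        have := congrArg (fun t => t - v) hv'
        simpa using this.symm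
      exact one_ne_zero this
  -- vertices of the rims
  have vA : ∀ k, IsV T (x k) := fun k => (dart_vertex h (hd k)).1
  have vB : ∀ k, IsV T (x' k) := fun k => (dart_vertex h (hd' k)).1
  -- steps around A and B
  have nA : ∀ k, s k ≠ A := fun k hk => (adjA k).1 hk.symm
  have nB : ∀ k, s' k ≠ B := fun k hk => (adjB k).1 hk.symm
  have YA : ∀ i, i ∈ Y → i ≠ A := fun i hi hh => hAY (hh ▸ hi)
  have PA : ∀ i, i ∈ P → i ≠ A := fun i hi hh => hAP (hh ▸ hi)
  have MA : ∀ i, i ∈ M → i ≠ A := fun i hi hh => hAM (hh ▸ hi)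
  have YB : ∀ i, i ∈ Y → i ≠ B := fun i hi hh => hBY (hh ▸ hi)
  have PB : ∀ i, i ∈ P → i ≠ B := fun i hi hh => hBP (hh ▸ hi)
  have MB : ∀ i, i ∈ M → i ≠ B := fun i hi hh => hBM (hh ▸ hi)
  have stepA : ∀ (S S' : Set ι) (a b a' b' : ι) (cS cS' : ι → ι → ℤ) (W : ℂ → ℤ) (p q : ℕ),
      Wk T S a b cS → Wk T S' a' b' cS' → A ∉ S → A ∉ S' → b ∈ S → b' ∈ S' → a ∈ S → a' ∈ S' →
      (∀ i j R L, Dart T i j R L → W L - W R = dl A a i j + cS i j + dl b B i j +
        dl B b' i j + (- cS' i j) + dl a' A i j) → s p = a → s q = a' → p < n → q < n →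
      ∀ k, k < n → W (x (k + 1)) - W (x k) =
        (if k = p then 1 else 0) + (if k = q then -1 else 0) := by
    intro S S' a b a' b' cS cS' W p q w1 w2 hS hS' hb hb' ha ha' hW hp hq hpn hqn k hk
    rw [hW _ _ _ _ (hd k), w1.supp (Or.inl hS), w2.supp (Or.inl hS')]
    have hbA : b ≠ A := fun hh => hS (hh ▸ hb)
    have hb'A : b' ≠ A := fun hh => hS' (hh ▸ hb')
    have haA : a ≠ A := fun hh => hS (hh ▸ ha)
    have ha'A : a' ≠ A := fun hh => hS' (hh ▸ ha')
    have hsk : ∀ (t : ι) (r : ℕ), s r = t → r < n → (t = s k ↔ k = r) := by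
      intro t r hr hrn
      constructor
      · intro ht
        exact inj k r hk hrn (by rw [hr, ht])
      · rintro rfl; exact hr.symm
    have hp' := hsk a p hp hpn
    have hq' := hsk a' q hq hqn
    unfold dl
    simp only [hbA, hb'A, haA, ha'A, hp', hq', hAB.symm, (nA k).symm, false_and, and_false,
      true_and, and_true, if_false]
    split_ifs <;> simp
  have stepB : ∀ (S S' : Set ι) (a b a' b' : ι) (cS cS' : ι → ι → ℤ) (W : ℂ → ℤ) (p q : ℕ),
      Wk T S a b cS → Wk T S' a' b' cS' → B ∉ S → B ∉ S' → b ∈ S → b' ∈ S' → a ∈ S → a' ∈ S' →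
      (∀ i j R L, Dart T i j R L → W L - W R = dl A a i j + cS i j + dl b B i j +
        dl B b' i j + (- cS' i j) + dl a' A i j) → s' p = b → s' q = b' → p < n' → q < n' →
      ∀ k, k < n' → W (x' (k + 1)) - W (x' k) =
        (if k = p then -1 else 0) + (if k = q then 1 else 0) := by
    intro S S' a b a' b' cS cS' W p q w1 w2 hS hS' hb hb' ha ha' hW hp hq hpn hqn k hk
    rw [hW _ _ _ _ (hd' k), w1.supp (Or.inl hS), w2.supp (Or.inl hS')]
    have hbA : b ≠ B := fun hh => hS (hh ▸ hb)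
    have hb'A : b' ≠ B := fun hh => hS' (hh ▸ hb')
    have haA : a ≠ B := fun hh => hS (hh ▸ ha)
    have ha'A : a' ≠ B := fun hh => hS' (hh ▸ ha')
    have hsk : ∀ (t : ι) (r : ℕ), s' r = t → r < n' → (t = s' k ↔ k = r) := by
      intro t r hr hrn
      constructor
      · intro ht
        exact inj' k r hk hrn (by rw [hr, ht])
      · rintro rfl; exact hr.symm
    have hp' := hsk b p hp hpn
    have hq' := hsk b' q hq hqn
    unfold dl
    simp only [hbA, hb'A, haA, ha'A, hp', hq', hAB, (nB k).symm, false_and, and_false,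
      true_and, and_true, if_false]
    split_ifs <;> simp
  have A1 := tele (fun k => W1 (x k)) e 0 c 1 (-1) (fun k hk =>
    stepA Y P yA yB pA pB cY cP W1 0 c hcY hcP hAY hAP hyB hpB hyA hpA f1 s0 sc (by omega)
      (by omega) k (by omega))
  have A3 := tele (fun k => W3 (x k)) c e 0 1 (-1) (fun k hk =>
    stepA M Y mA mB yA yB cM cY W3 e 0 hcM hcY hAM hAY hmB hyB hmA hyA f3 se s0 (by omega)
      (by omega) k (by omega))
  have B1 := tele (fun k => W1 (x' k)) e' 0 c' (-1) 1 (fun k hk =>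
    stepB Y P yA yB pA pB cY cP W1 0 c' hcY hcP hBY hBP hyB hpB hyA hpA f1 s0' sc' (by omega)
      (by omega) k (by omega))
  have B3 := tele (fun k => W3 (x' k)) c' e' 0 (-1) 1 (fun k hk =>
    stepB M Y mA mB yA yB cM cY W3 e' 0 hcM hcY hBM hBY hmB hyB hmA hyA f3 se' s0' (by omega)
      (by omega) k (by omega))
  rw [if_pos (by omega), if_pos (by omega)] at A1 B1
  rw [if_neg (by omega), if_pos (by omega)] at A3 B3
  -- constancy
  have C1 : W1 (x e) = W1 (x' e') := by
    refine const_on h hM W1 ?_ hmA hmB (vA e) (vB e') ?_ ?_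
    · intro i hi
      refine k1 i ?_
      rintro ((hh | hh) | hh)
      · exact YM i hh hi
      · exact PM i hh hi
      · rcases hh with hh | hh
        · exact MA i hi hh
        · exact MB i hi hh
    · rw [← se]; exact (dart_left (hd e)).2.1
    · rw [← se']; exact (dart_left (hd' e')).2.1
  have C2 : W2 (x 0) = W2 (x' 0) := by
    refine const_on h hY W2 ?_ hyA hyB (vA 0) (vB 0) ?_ ?_
    · intro i hi
      refine k2 i ?_
      rintro ((hh | hh) | hh)
      · exact YP i hi hh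
      · exact YM i hi hh
      · rcases hh with hh | hh
        · exact YA i hi hh
        · exact YB i hi hh
    · rw [← s0]; exact (dart_left (hd 0)).2.1
    · rw [← s0']; exact (dart_left (hd' 0)).2.1
  have C3 : W3 (x c) = W3 (x' c') := by
    refine const_on h hP W3 ?_ hpA hpB (vA c) (vB c') ?_ ?_
    · intro i hi
      refine k3 i ?_
      rintro ((hh | hh) | hh)
      · exact PM i hi hh
      · exact YP i hh hi
      · rcases hh with hh | hh
        · exact PA i hi hh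
        · exact PB i hi hh
    · rw [← sc]; exact (dart_left (hd c)).2.1
    · rw [← sc']; exact (dart_left (hd' c')).2.1
  have S1 := hsum (x 0) (vA 0)
  have S2 := hsum (x' 0) (vB 0)
  omega

end thetaCore

theorem theta {ι : Type} {T : ι → Set ℂ} {u U : ℝ} (h : CT ι T u U) (Y P M : Set ι)
    (hY : ConnIn T Y) (hP : ConnIn T P) (hM : ConnIn T M) (hYP : Disjoint Y P)
    (hYM : Disjoint Y M) (hPM : Disjoint P M) (b : Fin 3 → ι) (hb : Function.Injective b)
    (hbY : ∀ k, b k ∉ Y) (hbP : ∀ k, b k ∉ P) (hbM : ∀ k, b k ∉ M)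
    (hy : ∀ k, ∃ y ∈ Y, Adj T (b k) y) (hp : ∀ k, ∃ y ∈ P, Adj T (b k) y)
    (hm : ∀ k, ∃ y ∈ M, Adj T (b k) y) : False := by
  choose y hyY hya using hy
  choose p hpP hpa using hp
  choose m hmM hma using hm
  have rims : ∀ k, ∃ (n : ℕ) (s : ℕ → ι) (x : ℕ → ℂ) (c e : ℕ),
      (∀ l, Dart T (b k) (s l) (x l) (x (l + 1))) ∧
      (∀ l l', l < n → l' < n → s l = s l' → l = l') ∧ s 0 = y k ∧ s c = p k ∧ s e = m k ∧
      0 < c ∧ c < n ∧ 0 < e ∧ e < n ∧ c ≠ e := fun k =>
    rim_rot h (hya k) (hpa k) (hma k)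
      (fun hh => Set.disjoint_left.1 hYP (hyY k) (hh ▸ hpP k))
      (fun hh => Set.disjoint_left.1 hYM (hyY k) (hh ▸ hmM k))
      (fun hh => Set.disjoint_left.1 hPM (hpP k) (hh ▸ hmM k))
  choose n s x c e hd inj s0 sc se c0 cn e0 en ce using rims
  have main1 : ∀ k l, k ≠ l → c k < e k → c l < e l → False := by
    intro k l hkl h1 h2
    exact core h Y P M hY hP hM hYP hYM hPM (b k) (b l) (fun hh => hkl (hb hh)) (hbY k) (hbP k)
      (hbM k) (hbY l) (hbP l) (hbM l) (hyY k) (hyY l) (hpP k) (hpP l) (hmM k) (hmM l)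
      (n k) (s k) (x k) (c k) (e k) (hd k) (inj k) (s0 k) (sc k) (se k) (c0 k) h1 (en k)
      (n l) (s l) (x l) (c l) (e l) (hd l) (inj l) (s0 l) (sc l) (se l) (c0 l) h2 (en l)
  have main2 : ∀ k l, k ≠ l → e k < c k → e l < c l → False := by
    intro k l hkl h1 h2
    exact core h Y M P hY hM hP hYM hYP hPM.symm (b k) (b l) (fun hh => hkl (hb hh)) (hbY k)
      (hbM k) (hbP k) (hbY l) (hbM l) (hbP l) (hyY k) (hyY l) (hmM k) (hmM l) (hpP k) (hpP l)
      (n k) (s k) (x k) (e k) (c k) (hd k) (inj k) (s0 k) (se k) (sc k) (e0 k) h1 (cn k)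
      (n l) (s l) (x l) (e l) (c l) (hd l) (inj l) (s0 l) (se l) (sc l) (e0 l) h2 (cn l)
  have h01 : (0 : Fin 3) ≠ 1 := by decide
  have h02 : (0 : Fin 3) ≠ 2 := by decide
  have h12 : (1 : Fin 3) ≠ 2 := by decide
  rcases lt_or_gt_of_ne (ce 0) with a | a <;> rcases lt_or_gt_of_ne (ce 1) with b' | b' <;>
    rcases lt_or_gt_of_ne (ce 2) with d | d
  · exact main1 0 1 h01 a b'
  · exact main1 0 1 h01 a b'
  · exact main1 0 2 h02 a d
  · exact main2 1 2 h12 b' d
  · exact main1 1 2 h12 b' d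
  · exact main2 0 2 h02 a d
  · exact main2 0 1 h01 a b'
  · exact main2 0 1 h01 a b'

end Pool.Agent.Helper484.DT
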