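import Pool.Agent.Helper484.DT.Defs
import Pool.Agent.Helper484.DT.P_sepline
import Pool.Agent.Helper484.DT.P_dart_symm
import Pool.Agent.Helper484.DT.P_dart_adj
import Pool.Agent.Helper484.DT.P_dart_unique
import Pool.Agent.Helper484.DT.P_nbhd
import Pool.Agent.Helper484.DT.P_two_tiles
import Pool.Agent.Helper484.DT.P_dart_vertex
import Pool.Agent.Helper484.DT.P_int_unique
import Pool.Agent.Helper484.DT.P_star_exists

set_option autoImplicit false

namespace Pool.Agent.Helper484.DT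
open Set Metric Filter
open scoped Topology


theorem three_nb_km {s C : Set ℂ} (hs : IsCompact s) (hC : Convex ℝ C) (hCc : IsClosed C)
    (hsub : s.extremePoints ℝ ⊆ C) : s ⊆ C := by
  by_contra hn
  obtain ⟨x, hxA, hxt⟩ := not_subset.1 hn
  obtain ⟨l, r, hlr, hrx⟩ := geometric_hahn_banach_closed_point hC hCc hxt
  have h : IsExposed ℝ s ({ y ∈ s | ∀ z ∈ s, l z ≤ l y }) := fun _ => ⟨l, rfl⟩
  obtain ⟨z, hzA, hz⟩ := hs.exists_isMaxOn ⟨x, hxA⟩ l.continuous.continuousOn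
  obtain ⟨y, hy⟩ := (h.isCompact hs).extremePoints_nonempty ⟨z, hzA, hz⟩
  linarith [hlr _ (hsub (h.isExtreme.extremePoints_subset_extremePoints hy)), hy.1.2 x hxA]

theorem three_nb_mid {K : Set ℂ} {x v : ℂ} (hv : v ≠ 0) (hx : x ∈ K.extremePoints ℝ)
    (h1 : x + v ∈ K) (h2 : x - v ∈ K) : False := by
  have h3 : x ∈ openSegment ℝ (x + v) (x - v) := by
    refine ⟨1 / 2, 1 / 2, by norm_num, by norm_num, by norm_num, ?_⟩
    rw [Complex.real_smul, Complex.real_smul]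
    push_cast
    ring
  have h4 := hx.2 h1 h2 h3
  exact hv (by simpa using h4)

theorem three_nb_comp {ι : Type} {T : ι → Set ℂ} {u U : ℝ} (h : CT ι T u U) (Y : Set ι)
    (hf : Y.Finite) : IsCompact (⋃ y ∈ Y, T y) :=
  hf.isCompact_biUnion (fun y _ => h.comp y)

theorem three_nb_geo {ι : Type} {T : ι → Set ℂ} {u U : ℝ} (h : CT ι T u U) (Y : Set ι)
    (hf : Y.Finite) {x : ℂ} {y c : ι} (hyx : x ∈ T y) (hcx : x ∈ T c) (hcy : c ≠ y)
    (hall : ∀ i, x ∈ T i → i ∈ Y ∨ i = c)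
    (hx : x ∈ (⋃ y ∈ Y, T y).extremePoints ℝ) : False := by
  obtain ⟨w, hw, c0, h1, h2⟩ := sepline h c y hcy
  have hxw : dt w x = c0 := le_antisymm (h2 x hyx) (h1 x hcx)
  obtain ⟨r, hr, hball⟩ := nbhd h x
  have hW : IsClosed (⋃ y ∈ Y, T y) := (three_nb_comp h Y hf).isClosed
  have hlow : ∀ z ∈ ball x r, dt w z < c0 → z ∈ ⋃ y ∈ Y, T y := by
    intro z hz hlt
    obtain ⟨i, hi⟩ := h.cover z
    rcases hall i (hball z hz i hi) with hY | rfl
    · exact mem_biUnion hY hi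
    · exact absurd (h1 z hi) (not_le.2 hlt)
  have hw0 : 0 < ‖w‖ := norm_pos_iff.2 hw
  have hww : 0 < w.re * w.re + w.im * w.im := by
    have : ‖w‖ ^ 2 = w.re * w.re + w.im * w.im := by
      rw [← Complex.normSq_eq_norm_sq, Complex.normSq_apply]
    rw [← this]
    positivity
  have key : ∀ s : ℝ, |s| * ‖w‖ < r → x + (s : ℂ) * (Complex.I * w) ∈ ⋃ y ∈ Y, T y := by
    intro s hs
    set F : ℝ → ℂ := fun δ => x + (s : ℂ) * (Complex.I * w) - (δ : ℂ) * w with hF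
    have hFc : Continuous F := by
      rw [hF]
      fun_prop
    have hF0 : F 0 = x + (s : ℂ) * (Complex.I * w) := by
      simp [hF]
    have hFt : Tendsto F (𝓝[>] 0) (𝓝 (x + (s : ℂ) * (Complex.I * w))) := by
      have := hFc.tendsto 0
      rw [hF0] at this
      exact this.mono_left nhdsWithin_le_nhds
    have hin : x + (s : ℂ) * (Complex.I * w) ∈ ball x r := by
      rw [mem_ball, dist_eq_norm, add_sub_cancel_left, norm_mul, norm_mul, Complex.norm_I,
        one_mul, Complex.norm_real, Real.norm_eq_abs]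
      exact hs
    have hev : ∀ᶠ δ in 𝓝[>] (0 : ℝ), F δ ∈ ⋃ y ∈ Y, T y := by
      filter_upwards [hFt.eventually (isOpen_ball.mem_nhds hin), self_mem_nhdsWithin] with δ hδ hδ0
      refine hlow _ hδ ?_
      have e : dt w (F δ) = dt w x - δ * (w.re * w.re + w.im * w.im) := by
        simp only [hF, dt, Complex.sub_re, Complex.add_re, Complex.mul_re, Complex.ofReal_re,
          Complex.ofReal_im, Complex.I_re, Complex.I_im, Complex.sub_im, Complex.add_im,
          Complex.mul_im]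
        ring
      rw [e, hxw]
      have : 0 < δ * (w.re * w.re + w.im * w.im) := mul_pos hδ0 hww
      linarith
    exact hW.mem_of_tendsto hFt hev
  have hs1 : |r / (2 * ‖w‖)| * ‖w‖ < r := by
    rw [abs_of_pos (by positivity)]
    field_simp
    linarith
  have k1 := key (r / (2 * ‖w‖)) hs1
  have k2 := key (-(r / (2 * ‖w‖))) (by rw [abs_neg]; exact hs1)
  refine three_nb_mid (v := ((r / (2 * ‖w‖) : ℝ) : ℂ) * (Complex.I * w)) ?_ hx k1 ?_
  · refine mul_ne_zero ?_ (mul_ne_zero Complex.I_ne_zero hw)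
    exact_mod_cast (by positivity : r / (2 * ‖w‖) ≠ 0)
  · convert k2 using 1
    push_cast
    ring

theorem three_nb_int {ι : Type} {T : ι → Set ℂ} {u U : ℝ} (h : CT ι T u U) (Y : Set ι)
    {x : ℂ} (hall : ∀ i, x ∈ T i → i ∈ Y)
    (hx : x ∈ (⋃ y ∈ Y, T y).extremePoints ℝ) : False := by
  obtain ⟨r, hr, hball⟩ := nbhd h x
  have hin : ∀ z ∈ ball x r, z ∈ ⋃ y ∈ Y, T y := by
    intro z hz
    obtain ⟨i, hi⟩ := h.cover z
    exact mem_biUnion (hall i (hball z hz i hi)) hi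
  have hn : ‖((r / 2 : ℝ) : ℂ)‖ < r := by
    rw [Complex.norm_real, Real.norm_eq_abs, abs_of_pos (by positivity)]
    linarith
  refine three_nb_mid (v := ((r / 2 : ℝ) : ℂ)) ?_ hx (hin _ ?_) (hin _ ?_)
  · exact_mod_cast (by positivity : r / 2 ≠ 0)
  · rw [mem_ball, dist_eq_norm, add_sub_cancel_left]
    exact hn
  · rw [mem_ball, dist_eq_norm, sub_sub_cancel_left, norm_neg]
    exact hn

theorem three_nb_star {ι : Type} {T : ι → Set ℂ} (Y : Set ι)
    {x : ℂ} {n : ℕ} {t : ℕ → ι} {r : ℕ → ℂ} (hs : Star T x n t r) {c : ι}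
    (hc : ∀ b, b ∉ Y → (∃ y ∈ Y, Adj T y b) → x ∈ T b → b = c) {y : ι} (hy : y ∈ Y)
    (hyx : x ∈ T y) (hcY : c ∉ Y) (hcx : x ∈ T c) : ∀ i, x ∈ T i → i ∈ Y ∨ i = c := by
  have h3 := hs.three
  have hmod : ∀ k, t (k % n) = t k := (show Function.Periodic t n from hs.pert).map_mod_nat
  have hadj : ∀ k, Adj T (t k) (t (k + 1)) := fun k => dart_adj (hs.dart k)
  have hadj' : ∀ k, Adj T (t (k + 1)) (t k) := fun k => dart_adj (dart_symm (hs.dart k))
  have hmem : ∀ k, x ∈ T (t k) := fun k => (hs.all (t k)).2 ⟨k % n, Nat.mod_lt _ (by omega), hmod k⟩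
  have fwd : ∀ k, t k ∈ Y → t (k + 1) ∈ Y ∨ t (k + 1) = c := by
    intro k hk
    by_cases hk' : t (k + 1) ∈ Y
    · exact Or.inl hk'
    · exact Or.inr (hc _ hk' ⟨_, hk, hadj k⟩ (hmem _))
  have bwd : ∀ k, t (k + 1) ∈ Y → t k ∈ Y ∨ t k = c := by
    intro k hk
    by_cases hk' : t k ∈ Y
    · exact Or.inl hk'
    · exact Or.inr (hc _ hk' ⟨_, hk, hadj' k⟩ (hmem _))
  obtain ⟨m0, hm0, hm⟩ := (hs.all c).1 hcx
  have hsurj : ∀ i, x ∈ T i → ∃ j, j < n ∧ t (m0 + j) = i := by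
    intro i hi
    obtain ⟨k, hk, hki⟩ := (hs.all i).1 hi
    rcases le_or_gt m0 k with hle | hlt
    · exact ⟨k - m0, by omega, by rw [Nat.add_sub_cancel' hle]; exact hki⟩
    · refine ⟨k + n - m0, by omega, ?_⟩
      have : m0 + (k + n - m0) = k + n := by omega
      rw [this, hs.pert, hki]
  have hnc : ∀ j, 0 < j → j < n → t (m0 + j) ≠ c := by
    intro j hj0 hjn hjc
    rcases lt_or_ge (m0 + j) n with hlt | hge
    · have := hs.inj (m0 + j) m0 hlt hm0 (hjc.trans hm.symm)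
      omega
    · have e : m0 + j = (m0 + j - n) + n := by omega
      rw [e, hs.pert] at hjc
      have := hs.inj (m0 + j - n) m0 (by omega) hm0 (hjc.trans hm.symm)
      omega
  obtain ⟨j1, hj1n, hj1⟩ := hsurj y hyx
  have hj10 : 0 < j1 := by
    rcases Nat.eq_zero_or_pos j1 with h0 | h0
    · exfalso
      rw [h0, add_zero, hm] at hj1
      exact hcY (hj1 ▸ hy)
    · exact h0
  have up : ∀ d, j1 + d < n → t (m0 + (j1 + d)) ∈ Y := by
    intro d
    induction d with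
    | zero => intro _; rw [add_zero, hj1]; exact hy
    | succ d ih =>
      intro hd
      rcases fwd _ (ih (by omega)) with h1 | h1
      · exact h1
      · exact absurd h1 (hnc (j1 + d + 1) (by omega) (by omega))
  have dn : ∀ d, d < j1 → t (m0 + (j1 - d)) ∈ Y := by
    intro d
    induction d with
    | zero => intro _; rw [Nat.sub_zero, hj1]; exact hy
    | succ d ih =>
      intro hd
      have h0 := ih (by omega)
      have e : m0 + (j1 - d) = (m0 + (j1 - (d + 1))) + 1 := by omega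
      rw [e] at h0
      rcases bwd _ h0 with h1 | h1
      · exact h1
      · exact absurd h1 (hnc (j1 - (d + 1)) (by omega) (by omega))
  intro i hi
  obtain ⟨j, hjn, hji⟩ := hsurj i hi
  rcases Nat.eq_zero_or_pos j with h0 | h0
  · right
    rw [h0, add_zero, hm] at hji
    exact hji.symm
  · left
    rcases le_or_gt j1 j with hle | hlt
    · have := up (j - j1) (by omega)
      rw [Nat.add_sub_cancel' hle, hji] at this
      exact this
    · have := dn (j1 - j) (by omega)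
      rw [show j1 - (j1 - j) = j by omega, hji] at this
      exact this

theorem three_nb_trans {ι : Type} {T : ι → Set ℂ} (Y : Set ι)
    {x : ℂ} {n : ℕ} {t : ℕ → ι} {r : ℕ → ℂ} (hs : Star T x n t r) {c y : ι}
    (hy : y ∈ Y) (hyx : x ∈ T y) (hcY : c ∉ Y) (hcx : x ∈ T c) :
    ∃ b, b ∉ Y ∧ (∃ y ∈ Y, Adj T y b) ∧ x ∈ T b := by
  have h3 := hs.three
  have hmod : ∀ k, t (k % n) = t k := (show Function.Periodic t n from hs.pert).map_mod_nat
  have hadj : ∀ k, Adj T (t k) (t (k + 1)) := fun k => dart_adj (hs.dart k)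
  have hmem : ∀ k, x ∈ T (t k) := fun k => (hs.all (t k)).2 ⟨k % n, Nat.mod_lt _ (by omega), hmod k⟩
  by_contra hno
  push Not at hno
  have fwd : ∀ k, t k ∈ Y → t (k + 1) ∈ Y := by
    intro k hk
    by_contra hk'
    exact hno _ hk' ⟨_, hk, hadj k⟩ (hmem _)
  obtain ⟨k0, hk0, hk0y⟩ := (hs.all y).1 hyx
  obtain ⟨m, hm, hmc⟩ := (hs.all c).1 hcx
  have up : ∀ d, t (k0 + d) ∈ Y := by
    intro d
    induction d with
    | zero => rw [add_zero, hk0y]; exact hy
    | succ d ih => exact fwd _ ih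
  have h1 := up (m + n - k0)
  have e : k0 + (m + n - k0) = m + n := by omega
  rw [e, hs.pert, hmc] at h1
  exact hcY h1

theorem three_nb_two {ι : Type} {T : ι → Set ℂ} {u U : ℝ} (h : CT ι T u U) (Y : Set ι)
    (hf : Y.Finite) {x : ℂ} (hx : x ∈ (⋃ y ∈ Y, T y).extremePoints ℝ) :
    ∃ b b', b ≠ b' ∧ (b ∉ Y ∧ (∃ y ∈ Y, Adj T y b) ∧ x ∈ T b) ∧
      (b' ∉ Y ∧ (∃ y ∈ Y, Adj T y b') ∧ x ∈ T b') := by
  have hxW : x ∈ ⋃ y ∈ Y, T y := hx.1
  rw [mem_iUnion₂] at hxW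
  obtain ⟨y, hy, hyx⟩ := hxW
  by_cases hall : ∀ i, x ∈ T i → i ∈ Y
  · exact (three_nb_int h Y hall hx).elim
  push Not at hall
  obtain ⟨c, hcx, hcY⟩ := hall
  have hcy : c ≠ y := fun e => hcY (e ▸ hy)
  by_cases hV : IsV T x
  · obtain ⟨n, t, r, hs⟩ := star_exists h x hV
    obtain ⟨b, hbY, hbA, hbx⟩ := three_nb_trans Y hs hy hyx hcY hcx
    by_contra hno
    push Not at hno
    have hb : ∀ b', b' ∉ Y → (∃ y ∈ Y, Adj T y b') → x ∈ T b' → b' = b := by
      intro b' h1 h2 h3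
      by_contra hne
      exact hno b b' (Ne.symm hne) ⟨hbY, hbA, hbx⟩ h1 h2 h3
    have hall := three_nb_star Y hs hb hy hyx hbY hbx
    exact three_nb_geo h Y hf hyx hbx (fun e => hbY (e ▸ hy)) hall hx
  · exfalso
    refine three_nb_geo h Y hf hyx hcx hcy (fun i hi => ?_) hx
    by_contra hi'
    push Not at hi'
    exact hV ⟨y, c, i, hcy.symm, hi'.2.symm, fun e => hi'.1 (e ▸ hy), hyx, hcx, hi⟩

theorem three_nb {ι : Type} {T : ι → Set ℂ} {u U : ℝ} (h : CT ι T u U) (Y : Set ι)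
    (hf : Y.Finite) (hne : Y.Nonempty) :
    ∃ b1 b2 b3 : ι, b1 ≠ b2 ∧ b2 ≠ b3 ∧ b1 ≠ b3 ∧ ∀ b ∈ ({b1, b2, b3} : Set ι),
      b ∉ Y ∧ ∃ y ∈ Y, Adj T y b := by
  by_contra hno
  have hcomp := three_nb_comp h Y hf
  obtain ⟨y0, hy0⟩ := hne
  obtain ⟨z0, hz0⟩ := h.ball y0
  have hne' : (⋃ y ∈ Y, T y).Nonempty :=
    ⟨z0, mem_biUnion hy0 (hz0 (mem_closedBall_self h.upos.le))⟩
  obtain ⟨x0, hx0⟩ := hcomp.extremePoints_nonempty hne'
  obtain ⟨a, b, hab, ⟨ha1, ha2, -⟩, ⟨hb1, hb2, -⟩⟩ := three_nb_two h Y hf hx0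
  have honly : ∀ c, c ∉ Y → (∃ y ∈ Y, Adj T y c) → c = a ∨ c = b := by
    intro c hc1 hc2
    by_contra hc3
    push Not at hc3
    refine hno ⟨a, b, c, hab, hc3.2.symm, hc3.1.symm, ?_⟩
    intro d hd
    rcases hd with rfl | rfl | rfl
    · exact ⟨ha1, ha2⟩
    · exact ⟨hb1, hb2⟩
    · exact ⟨hc1, hc2⟩
  have hsub : (⋃ y ∈ Y, T y).extremePoints ℝ ⊆ T a := by
    intro x hx
    obtain ⟨p, q, hpq, ⟨hp1, hp2, hp3⟩, ⟨hq1, hq2, hq3⟩⟩ := three_nb_two h Y hf hx
    rcases honly p hp1 hp2 with rfl | rfl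
    · exact hp3
    · rcases honly q hq1 hq2 with rfl | rfl
      · exact hq3
      · exact absurd rfl hpq
  have hWa := three_nb_km hcomp (h.conv a) (h.comp a).isClosed hsub
  have hya : T y0 ⊆ T a := fun z hz => hWa (mem_biUnion hy0 hz)
  have hz1 : z0 ∈ interior (T y0) := by
    rw [mem_interior]
    exact ⟨ball z0 u, ball_subset_closedBall.trans hz0, isOpen_ball, mem_ball_self h.upos⟩
  have hz2 : z0 ∈ interior (T a) := interior_mono hya hz1
  have hne2 : y0 ≠ a := fun e => ha1 (e ▸ hy0)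
  exact (Set.disjoint_left.1 (h.disj y0 a hne2)) hz1 hz2

end Pool.Agent.Helper484.DT
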