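import Pool.Agent.Helper484.DT.Defs
import Pool.Agent.Helper484.DT.P_locfin
import Pool.Agent.Helper484.DT.P_conn_open
import Pool.Agent.Helper484.DT.P_three_nb
import Pool.Agent.Helper484.DT.P_walk_of

set_option autoImplicit false

namespace Pool.Agent.Helper484.DT
open Set Metric Filter
open scoped Topology


theorem first147 {α : Type} {r : α → α → Prop} {P : α → Prop} {a b : α}
    (h : Relation.ReflTransGen r a b) (ha : P a) (hb : ¬ P b) :
    ∃ x y, Relation.ReflTransGen r a x ∧ r x y ∧ P x ∧ ¬ P y := by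
  induction h with
  | refl => exact absurd ha hb
  | @tail c d hac hcd ih =>
    by_cases hc : P c
    · exact ⟨c, d, hac, hcd, hc, hb⟩
    · exact ih hc

theorem adj_symm147 {ι : Type} {T : ι → Set ℂ} {i j : ι} (h : Adj T i j) : Adj T j i :=
  ⟨h.1.symm, by rw [inter_comm]; exact h.2⟩

theorem rsym147 {α : Type} {r : α → α → Prop} (hr : ∀ a b, r a b → r b a) {a b : α}
    (h : Relation.ReflTransGen r a b) : Relation.ReflTransGen r b a := by
  induction h with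
  | refl => exact Relation.ReflTransGen.refl
  | tail _ hbc ih => exact Relation.ReflTransGen.head (hr _ _ hbc) ih

theorem inj147 {α : Type} {a b c : α} (h1 : a ≠ b) (h2 : b ≠ c) (h3 : a ≠ c) :
    Function.Injective ![a, b, c] := by
  intro i j hij
  fin_cases i <;> fin_cases j <;> simp_all

theorem three_exits {ι : Type} {T : ι → Set ℂ} {u U : ℝ} (h : CT ι T u U) (C : ℝ) :
    ∃ R : ℝ, ∀ (f : ι → ℝ) (w : ℂ), ‖w‖ = 1 → (∀ i, ∀ x ∈ T i, |f i - dt w x| ≤ C) →
      ∀ (i0 : ι) (x0 : ℂ) (c0 e e' : ℝ), x0 ∈ T i0 → e ≤ e' → e' ≤ 1 → |f i0 - c0| ≤ e →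
      (∀ j, Adj T i0 j → |f j - c0| ≤ e) →
      (∀ j, (T j ∩ closedBall x0 R).Nonempty → |f j - c0| ≤ e ∨ e' < |f j - c0|) →
      ∃ (Y : Set ι) (b : Fin 3 → ι), ConnIn T Y ∧ (∀ y ∈ Y, |f y - c0| ≤ e) ∧
        Function.Injective b ∧ ∀ k, b k ∉ Y ∧ |f (b k) - c0| ≤ e ∧ (∃ y ∈ Y, Adj T (b k) y) ∧
          ∃ x, Adj T (b k) x ∧ e' < |f x - c0| := by
  refine ⟨20 * ((2 * |C| + 10) + |U| + 1), ?_⟩
  intro f w hw hf i0 x0 c0 e e' hx0 hee he1 hfi0 hnb hgap
  have hU : 0 ≤ U := by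
    have := h.diam i0 x0 hx0 x0 hx0
    rwa [dist_self] at this
  have hC : 0 ≤ C := le_trans (abs_nonneg _) (hf i0 x0 hx0)
  rw [abs_of_nonneg hU, abs_of_nonneg hC] at hgap
  set ρ : ℝ := 2 * C + 10 with hρ
  set S : ℝ := ρ + U + 1 with hS
  have hρ0 : 0 < ρ := by rw [hρ]; linarith
  have hS0 : 0 < S := by rw [hS]; linarith
  set R : ℝ := 20 * S with hR
  have hRU : 0 ≤ R - U := by rw [hR, hS]; linarith
  set D : Set ι := {j | (T j ∩ closedBall x0 (R - U)).Nonempty ∧ |f j - c0| ≤ e ∧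
    ∀ j', Adj T j j' → |f j' - c0| ≤ e} with hD
  set Y : Set ι := {j | Relation.ReflTransGen (fun a b => Adj T a b ∧ a ∈ D ∧ b ∈ D) i0 j} with hY
  have hi0D : i0 ∈ D := ⟨⟨x0, hx0, mem_closedBall_self hRU⟩, hfi0, hnb⟩
  have hi0Y : i0 ∈ Y := Relation.ReflTransGen.refl
  have hYD : ∀ j ∈ Y, j ∈ D := by
    intro j hj
    rcases Relation.ReflTransGen.cases_tail hj with h1 | ⟨c, -, hc⟩
    · rw [h1]; exact hi0D
    · exact hc.2.2
  have hstep : ∀ a ∈ Y, ∀ b, Adj T a b → b ∈ D → b ∈ Y := by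
    intro a ha b hab hb
    exact Relation.ReflTransGen.tail ha ⟨hab, hYD a ha, hb⟩
  have hYfin : Y.Finite := by
    obtain ⟨K, hK⟩ := locfin h (R - U)
    exact (hK x0).1.subset fun j hj => (hYD j hj).1
  have hto : ∀ j ∈ Y, Relation.ReflTransGen (fun a b => Adj T a b ∧ a ∈ Y ∧ b ∈ Y) i0 j := by
    intro j hj
    have hj' : Relation.ReflTransGen (fun a b => Adj T a b ∧ a ∈ D ∧ b ∈ D) i0 j := hj
    induction hj' with
    | refl => exact Relation.ReflTransGen.refl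
    | @tail c d hac hcd ih =>
      have hcY : c ∈ Y := hac
      exact (ih hcY).tail ⟨hcd.1, hcY, hj⟩
  have hconn : ConnIn T Y := by
    intro i hi j hj
    exact (rsym147 (fun a b hab => ⟨adj_symm147 hab.1, hab.2.2, hab.2.1⟩) (hto i hi)).trans
      (hto j hj)
  have hexit : ∀ b, b ∉ Y → (∃ y ∈ Y, Adj T y b) → (T b ∩ closedBall x0 (R - U)).Nonempty →
      |f b - c0| ≤ e ∧ ∃ x, Adj T b x ∧ e' < |f x - c0| := by
    rintro b hb ⟨y, hy, hyb⟩ hmeet
    have h1 : |f b - c0| ≤ e := (hYD y hy).2.2 b hyb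
    have h2 : b ∉ D := fun hbD => hb (hstep y hy b hyb hbD)
    have h3 : ∃ j', Adj T b j' ∧ ¬ |f j' - c0| ≤ e := by
      by_contra hcon
      push Not at hcon
      exact h2 ⟨hmeet, h1, fun j' hj' => hcon j' hj'⟩
    obtain ⟨j', hj', hj2⟩ := h3
    refine ⟨h1, j', hj', ?_⟩
    have h4 : (T j' ∩ closedBall x0 R).Nonempty := by
      obtain ⟨z, hz1, hz2⟩ := hj'.2.nonempty
      obtain ⟨z', hz3, hz4⟩ := hmeet
      refine ⟨z, hz2, ?_⟩
      rw [mem_closedBall] at hz4 ⊢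
      have := h.diam b z hz1 z' hz3
      have := dist_triangle z z' x0
      linarith
    exact (hgap j' h4).resolve_left hj2
  by_cases hcase : ∀ y ∈ Y, T y ⊆ closedBall x0 (R - U)
  · obtain ⟨b1, b2, b3, h12, h23, h13, hb⟩ := three_nb h Y hYfin ⟨i0, hi0Y⟩
    have hmain : ∀ b ∈ ({b1, b2, b3} : Set ι), b ∉ Y ∧ |f b - c0| ≤ e ∧
        (∃ y ∈ Y, Adj T b y) ∧ ∃ x, Adj T b x ∧ e' < |f x - c0| := by
      intro b hbm
      obtain ⟨h1, y, hy, hyb⟩ := hb b hbm
      obtain ⟨z, hz1, hz2⟩ := hyb.2.nonempty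
      obtain ⟨h2, h3⟩ := hexit b h1 ⟨y, hy, hyb⟩ ⟨z, hz2, hcase y hy hz1⟩
      exact ⟨h1, h2, ⟨y, hy, adj_symm147 hyb⟩, h3⟩
    refine ⟨Y, ![b1, b2, b3], hconn, fun y hy => (hYD y hy).2.1, inj147 h12 h23 h13, ?_⟩
    intro k
    fin_cases k
    · exact hmain b1 (by simp)
    · exact hmain b2 (by simp)
    · exact hmain b3 (by simp)
  · push Not at hcase
    obtain ⟨y, hy, hyn⟩ := hcase
    obtain ⟨z, hzy, hzn⟩ := not_subset.1 hyn
    rw [mem_closedBall, not_le] at hzn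
    -- points at given distances
    have hlevel : ∀ s : ℝ, U < s → s ≤ R - U → ∃ y' ∈ Y, ∃ z' ∈ T y', s ≤ dist z' x0 ∧
        dist z' x0 ≤ s + U := by
      intro s hs1 hs2
      obtain ⟨a, b, ha, hab, hPa, hPb⟩ := first147 (P := fun j => ∀ z ∈ T j, dist z x0 < s)
        (hto y hy) (fun q hq => lt_of_le_of_lt (h.diam i0 q hq x0 hx0) hs1)
        (fun hcon => by have := hcon z hzy; linarith)
      push Not at hPb
      obtain ⟨z', hz', hz's⟩ := hPb
      refine ⟨b, hab.2.2, z', hz', hz's, ?_⟩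
      obtain ⟨q, hq1, hq2⟩ := hab.1.2.nonempty
      have h1 := hPa q hq1
      have h2 := h.diam b z' hz' q hq2
      have h3 := dist_triangle z' q x0
      linarith
    have hnear : ∀ y' ∈ Y, ∀ z' ∈ T y', ∃ b, b ∉ Y ∧ (∃ y'' ∈ Y, Adj T y'' b) ∧
        ∃ q ∈ T b, dist q z' < ρ := by
      intro y' hy' z' hz'
      set p : ℂ := z' + ((2 * C + 3 : ℝ) : ℂ) * w with hp
      obtain ⟨j', hj'⟩ := h.cover p
      have hpz : dist p z' = 2 * C + 3 := by
        rw [hp, dist_eq_norm, add_sub_cancel_left, norm_mul, hw, mul_one, Complex.norm_real,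
          Real.norm_of_nonneg (by linarith)]
      have hww : w.re * w.re + w.im * w.im = 1 := by
        have h1 : Complex.normSq w = 1 := by
          rw [Complex.normSq_eq_norm_sq, hw]; norm_num
        rwa [Complex.normSq_apply] at h1
      have hdt : dt w p = dt w z' + (2 * C + 3) := by
        unfold dt
        rw [hp]
        simp only [Complex.add_re, Complex.add_im, Complex.mul_re, Complex.mul_im,
          Complex.ofReal_re, Complex.ofReal_im, zero_mul, sub_zero, add_zero]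
        linear_combination (2 * C + 3) * hww
      have hj'Y : j' ∉ Y := by
        intro hjY
        have h1 := (abs_le.1 (hf j' p hj')).1
        have h2 := (abs_le.1 (hf y' z' hz')).2
        have h3 := (abs_le.1 (hYD y' hy').2.1).1
        have h4 := (abs_le.1 (hYD j' hjY).2.1).2
        rw [hdt] at h1
        linarith
      have hchain := conn_open h (ball z' ρ) isOpen_ball (convex_ball z' ρ) y' j'
        ⟨z', hz', mem_ball_self hρ0⟩ ⟨p, hj', by rw [mem_ball, hpz, hρ]; linarith⟩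
      obtain ⟨a, b, -, hab, hPa, hPb⟩ := first147 (P := fun j => j ∈ Y) hchain hy' hj'Y
      obtain ⟨q, hq1, hq2⟩ := hab.2.2
      exact ⟨b, hPb, ⟨a, hPa, hab.1⟩, q, hq1, hq2⟩
    obtain ⟨y1, hy1, z1, hz1, hd1, hd1'⟩ := hlevel (3 * S) (by rw [hS]; linarith)
      (by rw [hR, hS]; linarith)
    obtain ⟨y2, hy2, z2, hz2, hd2, hd2'⟩ := hlevel (7 * S) (by rw [hS]; linarith)
      (by rw [hR, hS]; linarith)
    obtain ⟨b0, hb0, hb0y, q0, hq0, hq0d⟩ := hnear i0 hi0Y x0 hx0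
    obtain ⟨b1, hb1, hb1y, q1, hq1, hq1d⟩ := hnear y1 hy1 z1 hz1
    obtain ⟨b2, hb2, hb2y, q2, hq2, hq2d⟩ := hnear y2 hy2 z2 hz2
    have hfar : ∀ (b b' : ι) (q q' s s' : ℂ), q ∈ T b → q' ∈ T b' → dist q s < ρ →
        dist q' s' < ρ → 2 * ρ + U < dist s s' → b ≠ b' := by
      intro b b' q q' s s' hq hq' hqs hqs' hss hbb
      subst hbb
      have h1 := h.diam b q hq q' hq'
      have h2 := dist_triangle s q s'
      have h3 := dist_triangle q q' s'
      rw [dist_comm s q] at h2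
      linarith
    have h01 : b0 ≠ b1 := hfar b0 b1 q0 q1 x0 z1 hq0 hq1 hq0d hq1d (by
      rw [dist_comm]; linarith)
    have h02 : b0 ≠ b2 := hfar b0 b2 q0 q2 x0 z2 hq0 hq2 hq0d hq2d (by
      rw [dist_comm]; linarith)
    have h12 : b1 ≠ b2 := hfar b1 b2 q1 q2 z1 z2 hq1 hq2 hq1d hq2d (by
      have h3 := dist_triangle z2 z1 x0
      rw [dist_comm z2 z1] at h3
      linarith)
    have hmain : ∀ (b : ι) (q s : ℂ), b ∉ Y → (∃ y'' ∈ Y, Adj T y'' b) → q ∈ T b →
        dist q s < ρ → dist s x0 ≤ 7 * S + U → b ∉ Y ∧ |f b - c0| ≤ e ∧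
        (∃ y ∈ Y, Adj T b y) ∧ ∃ x, Adj T b x ∧ e' < |f x - c0| := by
      intro b q s hb hby hq hqs hs
      have hmeet : (T b ∩ closedBall x0 (R - U)).Nonempty := by
        refine ⟨q, hq, ?_⟩
        rw [mem_closedBall]
        have := dist_triangle q s x0
        rw [hR]
        linarith
      obtain ⟨h2, h3⟩ := hexit b hb hby hmeet
      obtain ⟨y'', hy'', hyb⟩ := hby
      exact ⟨hb, h2, ⟨y'', hy'', adj_symm147 hyb⟩, h3⟩
    refine ⟨Y, ![b0, b1, b2], hconn, fun y hy => (hYD y hy).2.1, inj147 h01 h12 h02, ?_⟩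
    intro k
    fin_cases k
    · exact hmain b0 q0 x0 hb0 hb0y hq0 hq0d (by rw [dist_self]; linarith)
    · exact hmain b1 q1 z1 hb1 hb1y hq1 hq1d (by linarith)
    · exact hmain b2 q2 z2 hb2 hb2y hq2 hq2d (by linarith)

end Pool.Agent.Helper484.DT
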