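import Pool.Agent.Helper484.DT.Defs
import Pool.Agent.Helper484.DT.P_locfin
import Pool.Agent.Helper484.DT.P_theta
import Pool.Agent.Helper484.DT.P_conn_level
import Pool.Agent.Helper484.DT.P_rise_harm
import Pool.Agent.Helper484.DT.P_pigeon
import Pool.Agent.Helper484.DT.P_exit_both
import Pool.Agent.Helper484.DT.P_three_exits

set_option autoImplicit false

namespace Pool.Agent.Helper484.DT
open Set Metric Filter
open scoped Topology


theorem dt_sub_aux (w a b : ℂ) : dt w (a - b) = dt w a - dt w b := by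
  simp only [dt, Complex.sub_re, Complex.sub_im]; ring

theorem dt_abs_le_aux (w a : ℂ) (hw : ‖w‖ = 1) : |dt w a| ≤ ‖a‖ := by
  have h1 : ‖w‖ ^ 2 = w.re * w.re + w.im * w.im := by
    rw [← Complex.normSq_eq_norm_sq, Complex.normSq_apply]
  have h2 : ‖a‖ ^ 2 = a.re * a.re + a.im * a.im := by
    rw [← Complex.normSq_eq_norm_sq, Complex.normSq_apply]
  rw [hw] at h1
  refine abs_le_of_sq_le_sq ?_ (norm_nonneg a)
  rw [h2]
  unfold dt
  nlinarith [sq_nonneg (w.re * a.im - w.im * a.re)]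

theorem dt_sum_aux {ι : Type} (w : ℂ) (s : Finset ι) (v : ι → ℝ) (p : ι → ℂ) :
    dt w (∑ j ∈ s, (v j : ℂ) * p j) = ∑ j ∈ s, v j * dt w (p j) := by
  have h1 : ∀ j, v j * dt w (p j) = w.re * ((v j : ℂ) * p j).re + w.im * ((v j : ℂ) * p j).im := by
    intro j
    rw [Complex.re_ofReal_mul, Complex.im_ofReal_mul]
    unfold dt; ring
  rw [Finset.sum_congr rfl fun j _ => h1 j, Finset.sum_add_distrib, ← Finset.mul_sum,
    ← Finset.mul_sum, ← Complex.re_sum, ← Complex.im_sum]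
  rfl

theorem qmain {ι : Type} {T : ι → Set ℂ} {u U : ℝ} (h : CT ι T u U) (N : ι → Finset ι)
    (hN : ∀ i j, j ∈ N i ↔ Adj T i j) (p : ι → ℂ) (C l0 : ℝ)
    (hC : ∀ i, ∀ x ∈ T i, dist (p i) x ≤ C) (h0 : 0 < l0) (hh : Harm N l0 p) :
    ∃ δ : ℝ, 0 < δ ∧ ∀ (i : ι) (w : ℂ), ‖w‖ = 1 → ∃ j, Adj T i j ∧ δ ≤ dt w (p j - p i) := by
  classical
  obtain ⟨R, hR⟩ := three_exits h C
  obtain ⟨K, hK⟩ := locfin h R
  obtain ⟨κ, hκ⟩ : ∃ κ : ℝ, κ = 4 / l0 + 4 := ⟨_, rfl⟩
  have h4 : 0 < 4 / l0 := by positivity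
  have hκ1 : 1 < κ := by rw [hκ]; linarith
  have hκ0 : 0 < κ := by linarith
  refine ⟨l0 / κ ^ (K + 1), by positivity, ?_⟩
  intro i0 w hw
  by_contra hcon
  push Not at hcon
  obtain ⟨δ, hδ⟩ : ∃ δ : ℝ, δ = l0 / κ ^ (K + 1) := ⟨_, rfl⟩
  rw [← hδ] at hcon
  have hδ0 : 0 < δ := by rw [hδ]; positivity
  obtain ⟨f, hf⟩ : ∃ f : ι → ℝ, ∀ j, f j = dt w (p j) := ⟨_, fun _ => rfl⟩
  have hhf : HarmR N l0 f := by
    intro i
    obtain ⟨v, hv1, hv2, hv3⟩ := hh i
    refine ⟨v, hv1, hv2, ?_⟩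
    rw [hf, hv3, dt_sum_aux]
    exact Finset.sum_congr rfl fun j _ => by rw [hf]
  have hfC : ∀ i, ∀ x ∈ T i, |f i - dt w x| ≤ C := by
    intro i x hx
    rw [hf, ← dt_sub_aux]
    refine (dt_abs_le_aux w _ hw).trans ?_
    rw [← dist_eq_norm]
    exact hC i x hx
  have hcon' : ∀ j ∈ N i0, f j - f i0 < δ := by
    intro j hj
    have := hcon j ((hN i0 j).1 hj)
    rw [dt_sub_aux, ← hf, ← hf] at this
    exact this
  -- neighbours of i0
  obtain ⟨v, hv1, hv2, hv3⟩ := hhf i0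
  have hvle : ∀ j ∈ N i0, v j ≤ 1 := by
    intro j hj
    rw [← hv2]
    exact Finset.single_le_sum (fun i hi => h0.le.trans (hv1 i hi)) hj
  have hl1 : l0 ≤ 1 := by
    have hne : (N i0).Nonempty := by
      rw [Finset.nonempty_iff_ne_empty]
      intro he
      rw [he, Finset.sum_empty] at hv2
      exact zero_ne_one hv2
    obtain ⟨j, hj⟩ := hne
    exact (hv1 j hj).trans (hvle j hj)
  obtain ⟨d0, hd0⟩ : ∃ d0 : ℝ, d0 = δ / l0 := ⟨_, rfl⟩
  have hd00 : 0 < d0 := by rw [hd0]; positivity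
  have hδd : δ = l0 * d0 := by rw [hd0]; field_simp
  have hδd' : δ ≤ d0 := by rw [hδd]; nlinarith
  have hnb : ∀ j, Adj T i0 j → |f j - f i0| ≤ d0 := by
    intro j hj
    have hj' := (hN i0 j).2 hj
    rw [abs_le]
    refine ⟨?_, ((hcon' j hj').le).trans hδd'⟩
    by_contra hlt
    push Not at hlt
    have h5 : ∑ i ∈ N i0, v i * (f i - f i0) = 0 := by
      simp only [mul_sub, Finset.sum_sub_distrib, ← Finset.sum_mul, hv2]
      rw [← hv3]; ring
    have h6 := Finset.add_sum_erase (N i0) (fun i => v i * (f i - f i0)) hj'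
    rw [h5] at h6
    have h7 : ∑ i ∈ (N i0).erase j, v i * (f i - f i0) ≤ ∑ i ∈ (N i0).erase j, v i * δ := by
      refine Finset.sum_le_sum fun i hi => ?_
      have hi' := Finset.mem_of_mem_erase hi
      exact mul_le_mul_of_nonneg_left (hcon' i hi').le (h0.le.trans (hv1 i hi'))
    have h8 : ∑ i ∈ (N i0).erase j, v i * δ ≤ δ := by
      rw [← Finset.sum_mul]
      have h9 : ∑ i ∈ (N i0).erase j, v i ≤ 1 := by
        rw [← hv2]
        exact Finset.sum_le_sum_of_subset_of_nonneg (Finset.erase_subset _ _)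
          (fun i hi _ => h0.le.trans (hv1 i hi))
      nlinarith
    have h10 : v j * (f j - f i0) ≤ l0 * (f j - f i0) := by
      have := hv1 j hj'
      nlinarith
    have h11 : l0 * (f j - f i0) < l0 * (-d0) := mul_lt_mul_of_pos_left hlt h0
    have h12 : v j * (f j - f i0) + ∑ i ∈ (N i0).erase j, v i * (f i - f i0) = 0 := h6
    nlinarith
  obtain ⟨x0, hx0⟩ : ∃ x0, x0 ∈ T i0 := by
    obtain ⟨x, hx⟩ := h.ball i0
    exact ⟨x, hx (mem_closedBall_self h.upos.le)⟩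
  obtain ⟨hfin, hcard⟩ := hK x0
  have hcardB : hfin.toFinset.card ≤ K := by
    rw [← Set.ncard_eq_toFinset_card _ hfin]; exact hcard
  obtain ⟨k, hk, hpig⟩ := pigeon hfin.toFinset (fun j => |f j - f i0|) κ d0 hκ1 hd00
  have hkK : k ≤ K := hk.trans hcardB
  obtain ⟨e, he⟩ : ∃ e : ℝ, e = d0 * κ ^ k := ⟨_, rfl⟩
  obtain ⟨e', he'⟩ : ∃ e' : ℝ, e' = d0 * κ ^ (k + 1) := ⟨_, rfl⟩
  have he0 : 0 < e := by rw [he]; positivity
  have hee' : e' = κ * e := by rw [he, he']; ring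
  have hle : e ≤ e' := by rw [hee']; nlinarith
  have hd0e : d0 ≤ e := by
    rw [he]
    have := one_le_pow₀ (n := k) hκ1.le
    nlinarith
  have he'1 : e' ≤ 1 := by
    rw [he', hd0, hδ]
    have h5 : κ ^ (k + 1) ≤ κ ^ (K + 1) := pow_le_pow_right₀ hκ1.le (by omega)
    have h6 : 0 < κ ^ (K + 1) := by positivity
    rw [show l0 / κ ^ (K + 1) / l0 * κ ^ (k + 1) = κ ^ (k + 1) / κ ^ (K + 1) by field_simp,
      div_le_one h6]
    exact h5
  obtain ⟨Y, b, hYc, hYe, hbi, hb⟩ := hR f w hw hfC i0 x0 (f i0) e e' hx0 hle he'1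
    (by rw [sub_self, abs_zero]; exact he0.le) (fun j hj => (hnb j hj).trans hd0e) (by
      intro j hj
      have h5 := hpig j (hfin.mem_toFinset.2 hj)
      rw [← he, ← he'] at h5
      by_cases h6 : |f j - f i0| ≤ e
      · exact Or.inl h6
      · right
        push Not at h6
        by_contra h7
        push Not at h7
        exact h5 ⟨h6, h7⟩)
  have hconnP : ConnIn T {j | f i0 + e < f j} :=
    conn_level h f w hw C hfC (fun i M => rise_harm h N hN f w hw C hfC l0 h0 hhf i M) (f i0 + e)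
  have hw' : ‖-w‖ = 1 := by rw [norm_neg]; exact hw
  have hhf' : HarmR N l0 (fun j => - f j) := by
    intro i
    obtain ⟨v, hv1, hv2, hv3⟩ := hhf i
    refine ⟨v, hv1, hv2, ?_⟩
    simp only [mul_neg, Finset.sum_neg_distrib]
    rw [hv3]
  have hfC' : ∀ i, ∀ x ∈ T i, |(-f i) - dt (-w) x| ≤ C := by
    intro i x hx
    have h5 : (-f i) - dt (-w) x = -(f i - dt w x) := by
      simp only [dt, Complex.neg_re, Complex.neg_im]; ring
    rw [h5, abs_neg]
    exact hfC i x hx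
  have hconnM : ConnIn T {j | f j < f i0 - e} := by
    have h5 := conn_level h (fun j => - f j) (-w) hw' C hfC'
      (fun i M => rise_harm h N hN (fun j => - f j) (-w) hw' C hfC' l0 h0 hhf' i M) (-(f i0 - e))
    have h6 : {i | -(f i0 - e) < - f i} = {j | f j < f i0 - e} := by
      ext j
      simp only [Set.mem_ofPred_eq]
      constructor
      · intro h7; linarith
      · intro h7; linarith
    rw [h6] at h5
    exact h5
  have hexit : ∀ k, (∃ y ∈ N (b k), f i0 + e < f y) ∧ (∃ y ∈ N (b k), f y < f i0 - e) := by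
    intro k
    obtain ⟨h5, h6, h7, x, h8, h9⟩ := hb k
    refine exit_both N f l0 h0 hhf (f i0) e he0 (b k) x h6 ((hN _ _).2 h8) ?_
    refine lt_of_le_of_lt ?_ h9
    rw [hee', hκ]
    nlinarith
  refine theta h Y {j | f i0 + e < f j} {j | f j < f i0 - e} hYc hconnP hconnM ?_ ?_ ?_ b hbi
    (fun k => (hb k).1) ?_ ?_ (fun k => (hb k).2.2.1) ?_ ?_
  · rw [Set.disjoint_left]
    intro y hy hyP
    have h5 := (abs_le.1 (hYe y hy)).2
    have h6 : f i0 + e < f y := hyP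
    linarith
  · rw [Set.disjoint_left]
    intro y hy hyM
    have h5 := (abs_le.1 (hYe y hy)).1
    have h6 : f y < f i0 - e := hyM
    linarith
  · rw [Set.disjoint_left]
    intro y hyP hyM
    have h5 : f i0 + e < f y := hyP
    have h6 : f y < f i0 - e := hyM
    linarith
  · intro k hk
    have h5 := (abs_le.1 (hb k).2.1).2
    have h6 : f i0 + e < f (b k) := hk
    linarith
  · intro k hk
    have h5 := (abs_le.1 (hb k).2.1).1
    have h6 : f (b k) < f i0 - e := hk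
    linarith
  · intro k
    obtain ⟨y, hy1, hy2⟩ := (hexit k).1
    exact ⟨y, hy2, (hN _ _).1 hy1⟩
  · intro k
    obtain ⟨y, hy1, hy2⟩ := (hexit k).2
    exact ⟨y, hy2, (hN _ _).1 hy1⟩

end Pool.Agent.Helper484.DT
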