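import Pool.Agent.Helper484.DT.Defs
import Pool.Agent.Helper484.DT.P_locfin
import Pool.Agent.Helper484.DT.P_vcountable
import Pool.Agent.Helper484.DT.P_qmain
import Pool.Agent.Helper484.DT.P_generic

set_option autoImplicit false

namespace Pool.Agent.Helper484.DT
open Set Metric Filter
open scoped Topology


theorem exists_good_dt (w a : ℂ) (hw : ‖w‖ = 1) : -‖a‖ ≤ dt w a := by
  have h1 : (dt w a) ^ 2 ≤ ‖a‖ ^ 2 := by
    have hw2 : w.re * w.re + w.im * w.im = 1 := by
      have := Complex.normSq_apply w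
      rw [Complex.normSq_eq_norm_sq, hw] at this
      linarith
    have ha2 : a.re * a.re + a.im * a.im = ‖a‖ ^ 2 := by
      rw [← Complex.normSq_eq_norm_sq, Complex.normSq_apply]
    rw [← ha2]
    unfold dt
    nlinarith [sq_nonneg (w.re * a.im - w.im * a.re)]
  exact (abs_le.1 (abs_le_of_sq_le_sq h1 (norm_nonneg a))).1

theorem exists_good {ι : Type} {T : ι → Set ℂ} {u U : ℝ} (h : CT ι T u U) (N : ι → Finset ι)
    (hN : ∀ i j, j ∈ N i ↔ Adj T i j) (p : ι → ℂ) (C l0 : ℝ)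
    (hC : ∀ i, ∀ x ∈ T i, dist (p i) x ≤ C) (h0 : 0 < l0) (hh : Harm N l0 p) :
    ∃ (q : ι → ℂ) (C' δ α : ℝ), GoodP T q C' δ α := by
  obtain ⟨δ, hδ, hq⟩ := qmain h N hN p C l0 hC h0 hh
  have hne : ∀ i, (T i).Nonempty := fun i => by
    obtain ⟨x, hx⟩ := h.ball i
    exact ⟨x, hx (mem_closedBall_self h.upos.le)⟩
  obtain ⟨η, hηdef⟩ : ∃ η : ℝ, η = min (δ / 4) 1 := ⟨_, rfl⟩
  have hη : 0 < η := by rw [hηdef]; exact lt_min (by linarith) one_pos
  have hη1 : η ≤ 1 := by rw [hηdef]; exact min_le_right _ _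
  have hηδ : η ≤ δ / 4 := by rw [hηdef]; exact min_le_left _ _
  obtain ⟨C', hC'def⟩ : ∃ C' : ℝ, C' = |C| + 1 := ⟨_, rfl⟩
  have hC' : 0 < C' := by rw [hC'def]; positivity
  have : Countable ι := (vcountable h).2
  obtain ⟨K, hK⟩ := locfin h (C + (8 * C' + 2 * η) + C)
  have hKK : ∀ i, {j | dist (p i) (p j) ≤ 8 * C' + 2 * η}.Finite ∧
      {j | dist (p i) (p j) ≤ 8 * C' + 2 * η}.ncard ≤ K := by
    intro i
    obtain ⟨x, hx⟩ := hne i
    have hsub : {j | dist (p i) (p j) ≤ 8 * C' + 2 * η} ⊆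
        {j | (T j ∩ closedBall x (C + (8 * C' + 2 * η) + C)).Nonempty} := by
      intro j hj
      obtain ⟨y, hy⟩ := hne j
      refine ⟨y, hy, ?_⟩
      rw [mem_closedBall]
      have h1 := hC j y hy
      have h2 := hC i x hx
      have h3 : dist (p i) (p j) ≤ 8 * C' + 2 * η := hj
      calc dist y x ≤ dist y (p j) + dist (p j) (p i) + dist (p i) x := dist_triangle4 _ _ _ _
        _ ≤ C + (8 * C' + 2 * η) + C := by
          rw [dist_comm y (p j), dist_comm (p j) (p i)]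
          linarith
    exact ⟨(hK x).1.subset hsub, (Set.ncard_le_ncard hsub (hK x).1).trans (hK x).2⟩
  obtain ⟨q, hqp, α, hα, hgen⟩ := generic p η (8 * C') hη K hKK
  refine ⟨q, C', δ / 2, α, ⟨hC', by linarith, hα, ?_, ?_, ?_⟩⟩
  · intro i x hx
    have h1 := hC i x hx
    have h2 := hqp i
    have h3 := dist_triangle (q i) (p i) x
    have h4 := le_abs_self C
    rw [hC'def]
    linarith
  · intro i w hw
    obtain ⟨j, hj, hd⟩ := hq i w hw
    refine ⟨j, hj, ?_⟩
    have h1 := exists_good_dt w (q j - p j) hw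
    have h2 := exists_good_dt w (p i - q i) hw
    have h3 : ‖q j - p j‖ ≤ η := by rw [← dist_eq_norm]; exact hqp j
    have h4 : ‖p i - q i‖ ≤ η := by rw [← dist_eq_norm, dist_comm]; exact hqp i
    have h5 : dt w (q j - q i) = dt w (p j - p i) + dt w (q j - p j) + dt w (p i - q i) := by
      unfold dt
      simp only [Complex.sub_re, Complex.sub_im]
      ring
    rw [h5]
    linarith
  · exact hgen

end Pool.Agent.Helper484.DT
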