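import Pool.Agent.Helper484.DT.Defs

set_option autoImplicit false

namespace Pool.Agent.Helper484.DT
open Set Metric Filter
open scoped Topology


theorem hull3_dt_le (w z : ℂ) (hw : ‖w‖ = 1) : -‖z‖ ≤ dt w z := by
  have h1 : dt w z = ((starRingEnd ℂ) w * z).re := by
    simp only [dt, Complex.mul_re, Complex.conj_re, Complex.conj_im]
    ring
  have h2 : |((starRingEnd ℂ) w * z).re| ≤ ‖(starRingEnd ℂ) w * z‖ := Complex.abs_re_le_norm _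
  rw [norm_mul, Complex.norm_conj, hw, one_mul] at h2
  rw [h1]
  exact (abs_le.1 h2).1

theorem hull3_one (L m : ℕ) (hm : 1 ≤ m ∧ m ≤ L) (v y w : ℂ) (hw : ‖w‖ = 1)
    (he : ‖y - v / m‖ ≤ 1 / (16 * L)) (hv : 3 / 16 ≤ dt w v) : 1 / (8 * (L : ℝ)) ≤ dt w y := by
  have hm0 : (0 : ℝ) < m := by exact_mod_cast hm.1
  have hmL : (m : ℝ) ≤ L := by exact_mod_cast hm.2
  have hL0 : (0 : ℝ) < L := lt_of_lt_of_le hm0 hmL
  have h1 : dt w y = dt w v / m + dt w (y - v / m) := by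
    have hre : (v / (m : ℂ)).re = v.re / m := by
      rw [← Complex.ofReal_natCast, Complex.div_ofReal_re]
    have him : (v / (m : ℂ)).im = v.im / m := by
      rw [← Complex.ofReal_natCast, Complex.div_ofReal_im]
    simp only [dt, Complex.sub_re, Complex.sub_im, hre, him]
    ring
  have h2 := hull3_dt_le w (y - v / m) hw
  have h3 : 3 / 16 / (L : ℝ) ≤ dt w v / m := by
    calc 3 / 16 / (L : ℝ) ≤ 3 / 16 / (m : ℝ) := by
          apply div_le_div_of_nonneg_left (by norm_num) hm0 hmL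
      _ ≤ dt w v / m := by
          apply div_le_div_of_nonneg_right hv hm0.le
  have h4 : 1 / (8 * (L : ℝ)) = 3 / 16 / (L : ℝ) - 1 / (16 * L) := by
    field_simp
    norm_num
  rw [h4, h1]
  linarith

theorem hull3_real (x Y : ℝ) (h : x ^ 2 + Y ^ 2 = 1) :
    3 / 16 ≤ -x - Y / 4 ∨ 3 / 16 ≤ x - Y / 4 ∨ 3 / 16 ≤ 3 * Y / 4 := by
  by_contra hc
  rw [not_or, not_or, not_le, not_le, not_le] at hc
  obtain ⟨c1, c2, c3⟩ := hc
  have hp : 0 < 3 / 16 + Y / 4 := by linarith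
  have hq : 3 / 16 + Y / 4 < 1 / 4 := by linarith
  have h1 : x ^ 2 < (3 / 16 + Y / 4) ^ 2 := by
    apply sq_lt_sq'
    · linarith
    · linarith
  have h2 : (3 / 16 + Y / 4) ^ 2 < (1 / 4) ^ 2 := by
    apply sq_lt_sq'
    · linarith
    · linarith
  nlinarith

theorem hull3 (M : ℝ) (hM : 1 ≤ M) (L : ℕ) (σ : ℝ) (hσ : σ = 1 ∨ σ = -1)
    (m1 m2 m3 : ℕ) (h1 : 1 ≤ m1 ∧ m1 ≤ L) (h2 : 1 ≤ m2 ∧ m2 ≤ L) (h3 : 1 ≤ m3 ∧ m3 ≤ L)
    (y1 y2 y3 : ℂ) (e1 : ‖y1 - (⟨-M, -(σ * M / 4)⟩ : ℂ) / m1‖ ≤ 1 / (16 * L))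
    (e2 : ‖y2 - (⟨M, -(σ * M / 4)⟩ : ℂ) / m2‖ ≤ 1 / (16 * L))
    (e3 : ‖y3 - (⟨0, σ * (3 * M / 4)⟩ : ℂ) / m3‖ ≤ 1 / (16 * L)) (w : ℂ) (hw : ‖w‖ = 1) :
    1 / (8 * (L : ℝ)) ≤ dt w y1 ∨ 1 / (8 * (L : ℝ)) ≤ dt w y2 ∨
      1 / (8 * (L : ℝ)) ≤ dt w y3 := by
  have hn : w.re ^ 2 + w.im ^ 2 = 1 := by
    have := Complex.sq_norm w
    rw [hw, Complex.normSq_apply] at this
    linarith
  have hσ2 : σ ^ 2 = 1 := by rcases hσ with h | h <;> rw [h] <;> norm_num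
  have hn' : w.re ^ 2 + (σ * w.im) ^ 2 = 1 := by
    rw [mul_pow, hσ2, one_mul]; exact hn
  rcases hull3_real w.re (σ * w.im) hn' with h | h | h
  · left
    refine hull3_one L m1 h1 _ y1 w hw e1 ?_
    show 3 / 16 ≤ w.re * (-M) + w.im * (-(σ * M / 4))
    nlinarith
  · right; left
    refine hull3_one L m2 h2 _ y2 w hw e2 ?_
    show 3 / 16 ≤ w.re * M + w.im * (-(σ * M / 4))
    nlinarith
  · right; right
    refine hull3_one L m3 h3 _ y3 w hw e3 ?_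
    show 3 / 16 ≤ w.re * 0 + w.im * (σ * (3 * M / 4))
    nlinarith

end Pool.Agent.Helper484.DT
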