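import Pool.Agent.Helper484.DT.Defs

set_option autoImplicit false

namespace Pool.Agent.Helper484.DT
open Set Metric Filter
open scoped Topology


/-- discrete maximum principle -/
theorem second_diff_max (m : ℕ) (f : ℕ → ℝ) (h0 : f 0 ≤ 0) (hm : f m ≤ 0)
    (hf : ∀ k, 0 < k → k < m → 2 * f k ≤ f (k - 1) + f (k + 1)) : ∀ k ≤ m, f k ≤ 0 := by
  classical
  obtain ⟨k₁, hk₁, hmax⟩ := Finset.exists_max_image (Finset.range (m + 1)) f ⟨0, by simp⟩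
  have hex : ∃ k, k ≤ m ∧ f k = f k₁ := ⟨k₁, by
    have := Finset.mem_range.mp hk₁; omega, rfl⟩
  have hs := Nat.find_spec hex
  have hmin : ∀ j < Nat.find hex, ¬ (j ≤ m ∧ f j = f k₁) := fun j hj => Nat.find_min hex hj
  generalize Nat.find hex = k₀ at hs hmin
  obtain ⟨hs1, hs2⟩ := hs
  have hle : ∀ k ≤ m, f k ≤ f k₀ := by
    intro k hk
    rw [hs2]
    exact hmax k (Finset.mem_range.mpr (by omega))
  intro k hk
  refine le_trans (hle k hk) ?_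
  rcases Nat.eq_zero_or_pos k₀ with h1 | h1
  · rw [h1]; exact h0
  rcases Nat.eq_or_lt_of_le hs1 with h2 | h2
  · rw [h2]; exact hm
  exfalso
  have h3 := hf k₀ h1 h2
  have h4 := hle (k₀ + 1) h2
  have h5 := hle (k₀ - 1) (by omega)
  have h6 : f (k₀ - 1) = f k₀ := by linarith
  exact hmin (k₀ - 1) (by omega) ⟨by omega, by rw [h6, hs2]⟩

theorem second_diff (m : ℕ) (hm : 0 < m) (x : ℕ → ℂ) (η : ℝ)
    (hx : ∀ k, 0 < k → k < m → ‖x (k - 1) - 2 * x k + x (k + 1)‖ ≤ η) (hη : 0 ≤ η) (k : ℕ)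
    (hk : k ≤ m) :
    ‖x k - ((1 - (k : ℂ) / m) * x 0 + ((k : ℂ) / m) * x m)‖ ≤ η * (m : ℝ) ^ 2 := by
  have hmC : (m : ℂ) ≠ 0 := by exact_mod_cast hm.ne'
  set y : ℕ → ℂ := fun k => x k - ((1 - (k : ℂ) / m) * x 0 + ((k : ℂ) / m) * x m) with hy
  have hy0 : y 0 = 0 := by simp [hy]
  have hym : y m = 0 := by
    simp only [hy]
    rw [div_self hmC]; ring
  have hyd : ∀ k, 0 < k → k < m → 2 * ‖y k‖ ≤ ‖y (k - 1)‖ + ‖y (k + 1)‖ + η := by
    intro k h1 h2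
    obtain ⟨j, rfl⟩ : ∃ j, k = j + 1 := ⟨k - 1, by omega⟩
    have h3 := hx (j + 1) h1 h2
    simp only [Nat.add_sub_cancel] at h3 ⊢
    have h4 : 2 * y (j + 1) = y j + y (j + 1 + 1) - (x j - 2 * x (j + 1) + x (j + 1 + 1)) := by
      simp only [hy]
      push_cast
      field_simp
      ring
    have h5 : ‖(2 : ℂ) * y (j + 1)‖ = 2 * ‖y (j + 1)‖ := by
      rw [norm_mul]; simp
    rw [← h5, h4]
    calc ‖y j + y (j + 1 + 1) - (x j - 2 * x (j + 1) + x (j + 1 + 1))‖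
        ≤ ‖y j + y (j + 1 + 1)‖ + ‖x j - 2 * x (j + 1) + x (j + 1 + 1)‖ := norm_sub_le _ _
      _ ≤ ‖y j‖ + ‖y (j + 1 + 1)‖ + η := by
          have := norm_add_le (y j) (y (j + 1 + 1))
          linarith
  have hmain := second_diff_max m (fun k => ‖y k‖ - η * ((k : ℝ) * ((m : ℝ) - k)) / 2)
    (by simp [hy0]) (by simp [hym]) (by
      intro k h1 h2
      obtain ⟨j, rfl⟩ : ∃ j, k = j + 1 := ⟨k - 1, by omega⟩
      have h3 := hyd (j + 1) h1 h2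
      simp only [Nat.add_sub_cancel] at h3 ⊢
      push_cast
      nlinarith [h3]) k hk
  have h7 : ‖y k‖ ≤ η * ((k : ℝ) * ((m : ℝ) - k)) / 2 := by
    have := hmain
    linarith
  have hkR : (k : ℝ) ≤ (m : ℝ) := by exact_mod_cast hk
  have hk0 : (0 : ℝ) ≤ (k : ℝ) := Nat.cast_nonneg k
  have h8 : (k : ℝ) * ((m : ℝ) - k) / 2 ≤ (m : ℝ) ^ 2 := by nlinarith
  calc ‖x k - ((1 - (k : ℂ) / m) * x 0 + ((k : ℂ) / m) * x m)‖ = ‖y k‖ := rfl
    _ ≤ η * ((k : ℝ) * ((m : ℝ) - k)) / 2 := h7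
    _ = η * ((k : ℝ) * ((m : ℝ) - k) / 2) := by ring
    _ ≤ η * (m : ℝ) ^ 2 := mul_le_mul_of_nonneg_left h8 hη

end Pool.Agent.Helper484.DT
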