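import Pool.Agent.Helper484.DT.Defs
import Pool.Agent.Helper484.DT.P_locfin
import Pool.Agent.Helper484.DT.P_dart_symm
import Pool.Agent.Helper484.DT.P_dart_adj
import Pool.Agent.Helper484.DT.P_dart_exists
import Pool.Agent.Helper484.DT.P_dart_unique
import Pool.Agent.Helper484.DT.P_nbhd
import Pool.Agent.Helper484.DT.P_two_tiles
import Pool.Agent.Helper484.DT.P_dart_vertex
import Pool.Agent.Helper484.DT.P_int_unique

set_option autoImplicit false

namespace Pool.Agent.Helper484.DT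
open Set Metric Filter
open scoped Topology


theorem lc_cont (z0 e : ℂ) : Continuous (fun s : ℝ => z0 + s * e) := by fun_prop

theorem lc_par {a e : ℂ} (he : ‖e‖ = 1) (h0 : cr a e = 0) : a = ((dt a e : ℝ) : ℂ) * e := by
  have h1 : e.re ^ 2 + e.im ^ 2 = 1 := by
    have h2 := Complex.sq_norm e
    rw [he, Complex.normSq_apply] at h2
    nlinarith
  unfold cr at h0
  apply Complex.ext
  · simp only [Complex.mul_re, Complex.ofReal_re, Complex.ofReal_im, zero_mul, sub_zero]
    unfold dt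
    linear_combination (-a.re) * h1 + e.im * h0
  · simp only [Complex.mul_im, Complex.ofReal_re, Complex.ofReal_im, zero_mul, add_zero]
    unfold dt
    linear_combination (-a.im) * h1 - e.re * h0

theorem lc_loc {ι : Type} {T : ι → Set ℂ} {u U : ℝ} (h : CT ι T u U) (z0 e : ℂ)
    (he : ‖e‖ = 1) (hav : ∀ s : ℝ, ¬ IsV T (z0 + s * e)) (i j : ι) (hij : i ≠ j) (s : ℝ)
    (hi : z0 + s * e ∈ T i) (hj : z0 + s * e ∈ T j) : Adj T i j ∧ ∃ ε : ℝ, 0 < ε ∧
    (((∀ s' : ℝ, s < s' → s' < s + ε → z0 + s' * e ∈ T i) ∧ (∀ s' : ℝ, s < s' → z0 + s' * e ∉ T j) ∧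
      (∀ s' : ℝ, s' < s → z0 + s' * e ∉ T i) ∧ (∀ s' : ℝ, s - ε < s' → s' < s → z0 + s' * e ∈ T j)) ∨
    ((∀ s' : ℝ, s < s' → s' < s + ε → z0 + s' * e ∈ T j) ∧ (∀ s' : ℝ, s < s' → z0 + s' * e ∉ T i) ∧
      (∀ s' : ℝ, s' < s → z0 + s' * e ∉ T j) ∧ (∀ s' : ℝ, s - ε < s' → s' < s → z0 + s' * e ∈ T i))) := by
  obtain ⟨R, L, hd, hseg, hnb⟩ := two_tiles h i j hij _ hi hj (hav s)
  refine ⟨dart_adj hd, ?_⟩
  obtain ⟨-, hRL, -, hTi, hTj⟩ := id hd
  have hvR : IsV T R := (dart_vertex h hd).1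
  rw [openSegment_eq_image'] at hseg
  obtain ⟨θ, hθ, hθe⟩ := hseg
  simp only at hθe
  have hc : cr (L - R) e ≠ 0 := by
    intro h0
    have h1 := lc_par he h0
    apply hav (s - θ * dt (L - R) e)
    have h2 : z0 + ((s - θ * dt (L - R) e : ℝ) : ℂ) * e = R := by
      have h3 : R = (z0 + s * e) - θ • (L - R) := by rw [← hθe]; ring
      rw [Complex.real_smul] at h3
      push_cast
      linear_combination (θ : ℂ) * h1 - h3
    rw [h2]
    exact hvR
  have hg : ∀ s' : ℝ, cr (L - R) (z0 + s' * e - R) = (s' - s) * cr (L - R) e := by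
    intro s'
    have h3 : z0 + s' * e - R = ((s' - s : ℝ) : ℂ) * e + θ • (L - R) := by
      have h4 : z0 = R + θ • (L - R) - s * e := by rw [hθe]; ring
      rw [h4]
      push_cast
      ring
    rw [h3]
    unfold cr
    simp
    ring
  have hnb' : (fun s' : ℝ => z0 + s' * e) ⁻¹' (T i ∪ T j) ∈ 𝓝 s :=
    (lc_cont z0 e).continuousAt.preimage_mem_nhds hnb
  obtain ⟨ε, hε, hball⟩ := Metric.mem_nhds_iff.mp hnb'
  have hin : ∀ s' : ℝ, |s' - s| < ε → z0 + s' * e ∈ T i ∨ z0 + s' * e ∈ T j := by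
    intro s' hs'
    have : s' ∈ ball s ε := by rw [mem_ball, Real.dist_eq]; exact hs'
    exact hball this
  refine ⟨ε, hε, ?_⟩
  rcases lt_or_gt_of_ne hc with hc' | hc'
  · right
    have n1 : ∀ s' : ℝ, s < s' → z0 + s' * e ∉ T i := by
      intro s' hs' hm
      have := hTi _ hm
      rw [hg] at this
      nlinarith
    have n2 : ∀ s' : ℝ, s' < s → z0 + s' * e ∉ T j := by
      intro s' hs' hm
      have := hTj _ hm
      rw [hg] at this
      nlinarith
    refine ⟨?_, n1, n2, ?_⟩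
    · intro s' h1 h2
      rcases hin s' (by rw [abs_lt]; constructor <;> linarith) with h3 | h3
      · exact absurd h3 (n1 s' h1)
      · exact h3
    · intro s' h1 h2
      rcases hin s' (by rw [abs_lt]; constructor <;> linarith) with h3 | h3
      · exact h3
      · exact absurd h3 (n2 s' h2)
  · left
    have n1 : ∀ s' : ℝ, s < s' → z0 + s' * e ∉ T j := by
      intro s' hs' hm
      have := hTj _ hm
      rw [hg] at this
      nlinarith
    have n2 : ∀ s' : ℝ, s' < s → z0 + s' * e ∉ T i := by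
      intro s' hs' hm
      have := hTi _ hm
      rw [hg] at this
      nlinarith
    refine ⟨?_, n1, n2, ?_⟩
    · intro s' h1 h2
      rcases hin s' (by rw [abs_lt]; constructor <;> linarith) with h3 | h3
      · exact h3
      · exact absurd h3 (n1 s' h1)
    · intro s' h1 h2
      rcases hin s' (by rw [abs_lt]; constructor <;> linarith) with h3 | h3
      · exact absurd h3 (n2 s' h2)
      · exact h3

theorem lc_int {ι : Type} {T : ι → Set ℂ} {u U : ℝ} (h : CT ι T u U) (x : ℂ) (i : ι)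
    (hn : ∀ j, j ≠ i → x ∉ T j) : x ∈ interior (T i) := by
  obtain ⟨r, hr, hball⟩ := nbhd h x
  rw [mem_interior_iff_mem_nhds, Metric.mem_nhds_iff]
  refine ⟨r, hr, ?_⟩
  intro y hy
  obtain ⟨k, hk⟩ := h.cover y
  have h1 := hball y hy k hk
  have h2 : k = i := by
    by_contra hne
    exact hn k hne h1
  rw [← h2]
  exact hk

theorem lc_int' {ι : Type} {T : ι → Set ℂ} (z0 e : ℂ) (i : ι) (s : ℝ)
    (hs : z0 + s * e ∈ interior (T i)) :
    ∃ ε : ℝ, 0 < ε ∧ ∀ s' : ℝ, |s' - s| < ε → z0 + s' * e ∈ T i := by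
  have hnb : T i ∈ 𝓝 (z0 + s * e) := mem_interior_iff_mem_nhds.mp hs
  have hnb' : (fun s' : ℝ => z0 + s' * e) ⁻¹' (T i) ∈ 𝓝 s :=
    (lc_cont z0 e).continuousAt.preimage_mem_nhds hnb
  obtain ⟨ε, hε, hball⟩ := Metric.mem_nhds_iff.mp hnb'
  refine ⟨ε, hε, ?_⟩
  intro s' hs'
  have : s' ∈ ball s ε := by rw [mem_ball, Real.dist_eq]; exact hs'
  exact hball this

theorem lc_interval {ι : Type} {T : ι → Set ℂ} {u U : ℝ} (h : CT ι T u U) (z0 e : ℂ)
    (he : ‖e‖ = 1) (hav : ∀ s : ℝ, ¬ IsV T (z0 + s * e)) (i : ι)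
    (hne : {s : ℝ | z0 + s * e ∈ T i}.Nonempty) :
    sInf {s : ℝ | z0 + s * e ∈ T i} < sSup {s : ℝ | z0 + s * e ∈ T i} ∧
    {s : ℝ | z0 + s * e ∈ T i} =
      Icc (sInf {s : ℝ | z0 + s * e ∈ T i}) (sSup {s : ℝ | z0 + s * e ∈ T i}) := by
  set S : Set ℝ := {s : ℝ | z0 + s * e ∈ T i} with hS
  have hclosed : IsClosed S := (h.comp i).isClosed.preimage (lc_cont z0 e)
  have hbdd : Bornology.IsBounded S := by
    rw [Metric.isBounded_iff]
    refine ⟨U, ?_⟩
    intro s hs s' hs'
    have h1 := h.diam i _ hs _ hs'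
    have h2 : dist (z0 + (s : ℂ) * e) (z0 + (s' : ℂ) * e) = dist s s' := by
      rw [dist_eq_norm, Real.dist_eq]
      have : z0 + (s : ℂ) * e - (z0 + (s' : ℂ) * e) = ((s - s' : ℝ) : ℂ) * e := by
        push_cast
        ring
      rw [this, norm_mul, he, mul_one, Complex.norm_real, Real.norm_eq_abs]
    rw [h2] at h1
    exact h1
  have hcomp : IsCompact S := Metric.isCompact_of_isClosed_isBounded hclosed hbdd
  have hconv : Convex ℝ S := by
    intro s hs s' hs' a b ha hb hab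
    have h1 := h.conv i hs hs' ha hb hab
    have h2 : a • (z0 + (s : ℂ) * e) + b • (z0 + (s' : ℂ) * e) =
        z0 + ((a • s + b • s' : ℝ) : ℂ) * e := by
      have hab' : (a : ℂ) + b = 1 := by exact_mod_cast hab
      simp only [Complex.real_smul, smul_eq_mul]
      push_cast
      linear_combination z0 * hab'
    rw [h2] at h1
    exact h1
  have hEq : S = Icc (sInf S) (sSup S) :=
    eq_Icc_of_connected_compact ⟨hne, hconv.isPreconnected⟩ hcomp
  refine ⟨?_, hEq⟩
  have hle : sInf S ≤ sSup S := by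
    obtain ⟨s, hs⟩ := hne
    rw [hEq] at hs
    exact hs.1.trans hs.2
  rcases lt_or_eq_of_le hle with hlt | heq
  · exact hlt
  · exfalso
    rw [← heq] at hEq
    set a := sInf S
    have haS : a ∈ S := by rw [hEq]; exact ⟨le_rfl, le_rfl⟩
    have honly : ∀ s ∈ S, s = a := by
      intro s hs
      rw [hEq] at hs
      exact le_antisymm hs.2 hs.1
    by_cases hex : ∃ j, j ≠ i ∧ z0 + (a : ℂ) * e ∈ T j
    · obtain ⟨j, hj, hja⟩ := hex
      obtain ⟨-, ε, hε, hcase⟩ := lc_loc h z0 e he hav i j hj.symm a haS hja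
      rcases hcase with hc | hc
      · have h1 : a + ε / 2 ∈ S := hc.1 (a + ε / 2) (by linarith) (by linarith)
        have := honly _ h1
        linarith
      · have h1 : a - ε / 2 ∈ S := hc.2.2.2 (a - ε / 2) (by linarith) (by linarith)
        have := honly _ h1
        linarith
    · push Not at hex
      obtain ⟨ε, hε, hb⟩ := lc_int' z0 e i a (lc_int h _ i hex)
      have h1 : a + ε / 2 ∈ S := hb (a + ε / 2) (by
        rw [add_sub_cancel_left, abs_of_pos (by linarith)]
        linarith)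
      have := honly _ h1
      linarith

theorem lc_inner {ι : Type} {T : ι → Set ℂ} {u U : ℝ} (h : CT ι T u U) (z0 e : ℂ)
    (he : ‖e‖ = 1) (hav : ∀ s : ℝ, ¬ IsV T (z0 + s * e)) (i : ι) (a b s : ℝ)
    (hab : {s : ℝ | z0 + s * e ∈ T i} = Icc a b) (hs : s ∈ Ioo a b) :
    z0 + s * e ∈ interior (T i) := by
  apply lc_int h
  intro j hj hjs
  have hsi : z0 + (s : ℂ) * e ∈ T i := by
    have : s ∈ {s : ℝ | z0 + s * e ∈ T i} := by rw [hab]; exact ⟨hs.1.le, hs.2.le⟩
    exact this
  have hai : z0 + (a : ℂ) * e ∈ T i := by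
    have : a ∈ {s : ℝ | z0 + s * e ∈ T i} := by
      rw [hab]; exact ⟨le_rfl, (hs.1.trans hs.2).le⟩
    exact this
  have hbi : z0 + (b : ℂ) * e ∈ T i := by
    have : b ∈ {s : ℝ | z0 + s * e ∈ T i} := by
      rw [hab]; exact ⟨(hs.1.trans hs.2).le, le_rfl⟩
    exact this
  obtain ⟨-, ε, hε, hcase⟩ := lc_loc h z0 e he hav i j hj.symm s hsi hjs
  rcases hcase with hc | hc
  · exact hc.2.2.1 a hs.1 hai
  · exact hc.2.1 b hs.2 hbi

theorem lc_right {ι : Type} {T : ι → Set ℂ} {u U : ℝ} (h : CT ι T u U) (z0 e : ℂ)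
    (he : ‖e‖ = 1) (hav : ∀ s : ℝ, ¬ IsV T (z0 + s * e)) (i : ι)
    (hne : {s : ℝ | z0 + s * e ∈ T i}.Nonempty) :
    ∃ j, {s : ℝ | z0 + s * e ∈ T j}.Nonempty ∧
      sInf {s : ℝ | z0 + s * e ∈ T j} = sSup {s : ℝ | z0 + s * e ∈ T i} ∧ Adj T i j := by
  obtain ⟨hlt, hEq⟩ := lc_interval h z0 e he hav i hne
  set b := sSup {s : ℝ | z0 + s * e ∈ T i} with hb
  have hbi : z0 + (b : ℂ) * e ∈ T i := by
    have : b ∈ {s : ℝ | z0 + s * e ∈ T i} := by rw [hEq]; exact ⟨hlt.le, le_rfl⟩
    exact this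
  have hmax : ∀ s : ℝ, z0 + (s : ℂ) * e ∈ T i → s ≤ b := by
    intro s hs
    have : s ∈ {s : ℝ | z0 + s * e ∈ T i} := hs
    rw [hEq] at this
    exact this.2
  by_cases hex : ∃ j, j ≠ i ∧ z0 + (b : ℂ) * e ∈ T j
  · obtain ⟨j, hj, hjb⟩ := hex
    obtain ⟨hadj, ε, hε, hcase⟩ := lc_loc h z0 e he hav i j hj.symm b hbi hjb
    rcases hcase with hc | hc
    · exfalso
      have := hmax _ (hc.1 (b + ε / 2) (by linarith) (by linarith))
      linarith
    · have hnej : {s : ℝ | z0 + s * e ∈ T j}.Nonempty := ⟨b, hjb⟩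
      refine ⟨j, hnej, ?_, hadj⟩
      obtain ⟨hltj, hEqj⟩ := lc_interval h z0 e he hav j hnej
      set a' := sInf {s : ℝ | z0 + s * e ∈ T j}
      have ha'j : z0 + (a' : ℂ) * e ∈ T j := by
        have : a' ∈ {s : ℝ | z0 + s * e ∈ T j} := by rw [hEqj]; exact ⟨le_rfl, hltj.le⟩
        exact this
      have h1 : a' ≤ b := by
        have : b ∈ {s : ℝ | z0 + s * e ∈ T j} := hjb
        rw [hEqj] at this
        exact this.1
      rcases lt_or_eq_of_le h1 with h2 | h2
      · exact absurd ha'j (hc.2.2.1 a' h2)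
      · exact h2
  · exfalso
    push Not at hex
    obtain ⟨ε, hε, hb'⟩ := lc_int' z0 e i b (lc_int h _ i hex)
    have h1 := hmax _ (hb' (b + ε / 2) (by
      rw [add_sub_cancel_left, abs_of_pos (by linarith)]
      linarith))
    linarith

theorem lc_left {ι : Type} {T : ι → Set ℂ} {u U : ℝ} (h : CT ι T u U) (z0 e : ℂ)
    (he : ‖e‖ = 1) (hav : ∀ s : ℝ, ¬ IsV T (z0 + s * e)) (i : ι)
    (hne : {s : ℝ | z0 + s * e ∈ T i}.Nonempty) :
    ∃ j, {s : ℝ | z0 + s * e ∈ T j}.Nonempty ∧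
      sSup {s : ℝ | z0 + s * e ∈ T j} = sInf {s : ℝ | z0 + s * e ∈ T i} ∧ Adj T j i := by
  obtain ⟨hlt, hEq⟩ := lc_interval h z0 e he hav i hne
  set a := sInf {s : ℝ | z0 + s * e ∈ T i} with ha
  have hai : z0 + (a : ℂ) * e ∈ T i := by
    have : a ∈ {s : ℝ | z0 + s * e ∈ T i} := by rw [hEq]; exact ⟨le_rfl, hlt.le⟩
    exact this
  have hmin : ∀ s : ℝ, z0 + (s : ℂ) * e ∈ T i → a ≤ s := by
    intro s hs
    have : s ∈ {s : ℝ | z0 + s * e ∈ T i} := hs
    rw [hEq] at this
    exact this.1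
  by_cases hex : ∃ j, j ≠ i ∧ z0 + (a : ℂ) * e ∈ T j
  · obtain ⟨j, hj, hja⟩ := hex
    obtain ⟨hadj, ε, hε, hcase⟩ := lc_loc h z0 e he hav i j hj.symm a hai hja
    have hadj' : Adj T j i := ⟨hadj.1.symm, by rw [inter_comm]; exact hadj.2⟩
    rcases hcase with hc | hc
    · have hnej : {s : ℝ | z0 + s * e ∈ T j}.Nonempty := ⟨a, hja⟩
      refine ⟨j, hnej, ?_, hadj'⟩
      obtain ⟨hltj, hEqj⟩ := lc_interval h z0 e he hav j hnej
      set b' := sSup {s : ℝ | z0 + s * e ∈ T j}
      have hb'j : z0 + (b' : ℂ) * e ∈ T j := by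
        have : b' ∈ {s : ℝ | z0 + s * e ∈ T j} := by rw [hEqj]; exact ⟨hltj.le, le_rfl⟩
        exact this
      have h1 : a ≤ b' := by
        have : a ∈ {s : ℝ | z0 + s * e ∈ T j} := hja
        rw [hEqj] at this
        exact this.2
      rcases lt_or_eq_of_le h1 with h2 | h2
      · exact absurd hb'j (hc.2.1 b' h2)
      · exact h2.symm
    · exfalso
      have := hmin _ (hc.2.2.2 (a - ε / 2) (by linarith) (by linarith))
      linarith
  · exfalso
    push Not at hex
    obtain ⟨ε, hε, hb'⟩ := lc_int' z0 e i a (lc_int h _ i hex)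
    have h1 := hmin _ (hb' (a - ε / 2) (by
      rw [abs_lt]
      constructor <;> linarith))
    linarith

theorem line_chain {ι : Type} {T : ι → Set ℂ} {u U : ℝ} (h : CT ι T u U) (z0 e : ℂ)
    (he : ‖e‖ = 1) (hav : ∀ s : ℝ, ¬ IsV T (z0 + s * e)) :
    ∃ (t : ℤ → ι) (x : ℤ → ℝ), StrictMono x ∧
      (∀ k, {s : ℝ | z0 + s * e ∈ T (t k)} = Icc (x k) (x (k + 1))) ∧
      (∀ k, Adj T (t k) (t (k + 1))) ∧ Tendsto x atTop atTop ∧ Tendsto x atBot atBot ∧
      Function.Injective t ∧ ∀ (i : ι) (s : ℝ), z0 + s * e ∈ T i → ∃ k, t k = i := by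
  obtain ⟨i0, hi0⟩ := h.cover (z0 + (0 : ℝ) * e)
  have : Nonempty ι := ⟨i0⟩
  set S : ι → Set ℝ := fun i => {s : ℝ | z0 + s * e ∈ T i} with hS
  have key : ∀ i, (S i).Nonempty → sInf (S i) < sSup (S i) ∧ S i = Icc (sInf (S i)) (sSup (S i)) :=
    fun i hi => lc_interval h z0 e he hav i hi
  have hR : ∀ i, (S i).Nonempty → ∃ j, (S j).Nonempty ∧ sInf (S j) = sSup (S i) ∧ Adj T i j :=
    fun i hi => lc_right h z0 e he hav i hi
  have hL : ∀ i, (S i).Nonempty → ∃ j, (S j).Nonempty ∧ sSup (S j) = sInf (S i) ∧ Adj T j i :=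
    fun i hi => lc_left h z0 e he hav i hi
  choose! nxt hn1 hn2 hn3 using hR
  choose! prv hp1 hp2 hp3 using hL
  have hne0 : (S i0).Nonempty := ⟨0, hi0⟩
  have hnit : ∀ m : ℕ, (S (nxt^[m] i0)).Nonempty := by
    intro m
    induction m with
    | zero => exact hne0
    | succ m ih =>
      rw [Function.iterate_succ_apply']
      exact hn1 _ ih
  have hpit : ∀ m : ℕ, (S (prv^[m] i0)).Nonempty := by
    intro m
    induction m with
    | zero => exact hne0
    | succ m ih =>
      rw [Function.iterate_succ_apply']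
      exact hp1 _ ih
  set t : ℤ → ι := fun k => if 0 ≤ k then nxt^[k.toNat] i0 else prv^[(-k).toNat] i0 with ht
  have htn : ∀ k : ℤ, (S (t k)).Nonempty := by
    intro k
    by_cases hk : 0 ≤ k
    · simp only [ht, if_pos hk]
      exact hnit _
    · simp only [ht, if_neg hk]
      exact hpit _
  have hstep : ∀ k : ℤ, sInf (S (t (k + 1))) = sSup (S (t k)) ∧ Adj T (t k) (t (k + 1)) := by
    intro k
    by_cases hk : 0 ≤ k
    · have e1 : t k = nxt^[k.toNat] i0 := by simp only [ht, if_pos hk]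
      have e2 : t (k + 1) = nxt (t k) := by
        have hk1 : 0 ≤ k + 1 := by omega
        rw [e1]
        simp only [ht, if_pos hk1]
        have : (k + 1).toNat = k.toNat + 1 := by omega
        rw [this, Function.iterate_succ_apply']
      rw [e2]
      exact ⟨hn2 _ (htn k), hn3 _ (htn k)⟩
    · have e1 : t (k + 1) = prv^[(-(k + 1)).toNat] i0 := by
        by_cases hk1 : 0 ≤ k + 1
        · have hk2 : k = -1 := by omega
          subst hk2
          simp [ht]
        · simp only [ht, if_neg hk1]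
      have e2 : t k = prv (t (k + 1)) := by
        rw [e1]
        simp only [ht, if_neg hk]
        have : (-k).toNat = (-(k + 1)).toNat + 1 := by omega
        rw [this, Function.iterate_succ_apply']
      rw [e2]
      exact ⟨(hp2 _ (htn (k + 1))).symm, hp3 _ (htn (k + 1))⟩
  set x : ℤ → ℝ := fun k => sInf (S (t k)) with hx
  have hSx : ∀ k, S (t k) = Icc (x k) (x (k + 1)) := by
    intro k
    have h1 := (key _ (htn k)).2
    rw [h1]
    show Icc (x k) (sSup (S (t k))) = Icc (x k) (x (k + 1))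
    rw [← (hstep k).1]
  have hlt : ∀ k, x k < x (k + 1) := by
    intro k
    have h1 := (key _ (htn k)).1
    rw [← (hstep k).1] at h1
    exact h1
  have hmono : StrictMono x := strictMono_int_of_lt_succ hlt
  have hinj : Function.Injective t := by
    intro k l hkl
    apply hmono.injective
    show sInf (S (t k)) = sInf (S (t l))
    rw [hkl]
  have hxmem : ∀ k, z0 + (x k : ℂ) * e ∈ T (t k) := by
    intro k
    have : x k ∈ S (t k) := by rw [hSx k]; exact ⟨le_rfl, (hlt k).le⟩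
    exact this
  have hmeet : ∀ (r : ℝ) (k : ℤ), |x k| ≤ r → (T (t k) ∩ closedBall z0 r).Nonempty := by
    intro r k hk
    refine ⟨_, hxmem k, ?_⟩
    rw [mem_closedBall, dist_eq_norm, add_sub_cancel_left, norm_mul, he, mul_one,
      Complex.norm_real, Real.norm_eq_abs]
    exact hk
  have hup : ∀ B : ℝ, ∃ k, B ≤ x k := by
    intro B
    by_contra hcon
    push Not at hcon
    obtain ⟨K, hK⟩ := locfin h (max |x 0| |B|)
    have hfin := (hK z0).1
    have hinf : {i | (T i ∩ closedBall z0 (max |x 0| |B|)).Nonempty}.Infinite := by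
      refine Set.infinite_of_injective_forall_mem (f := fun m : ℕ => t (m : ℤ)) ?_ ?_
      · intro m m' hmm
        have := hinj hmm
        exact_mod_cast this
      · intro m
        apply hmeet
        have h1 : x 0 ≤ x (m : ℤ) := hmono.monotone (by positivity)
        have h2 := hcon (m : ℤ)
        rw [abs_le]
        constructor
        · have h3 := neg_abs_le (x 0)
          have h4 := le_max_left |x 0| |B|
          linarith
        · have h3 := le_abs_self B
          have h4 := le_max_right |x 0| |B|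
          linarith
    exact hinf hfin
  have hdn : ∀ B : ℝ, ∃ k, x k ≤ B := by
    intro B
    by_contra hcon
    push Not at hcon
    obtain ⟨K, hK⟩ := locfin h (max |x 0| |B|)
    have hfin := (hK z0).1
    have hinf : {i | (T i ∩ closedBall z0 (max |x 0| |B|)).Nonempty}.Infinite := by
      refine Set.infinite_of_injective_forall_mem (f := fun m : ℕ => t (-(m : ℤ))) ?_ ?_
      · intro m m' hmm
        have := hinj hmm
        have h2 : (m : ℤ) = m' := by omega
        exact_mod_cast h2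
      · intro m
        apply hmeet
        have h1 : x (-(m : ℤ)) ≤ x 0 := hmono.monotone (by omega)
        have h2 := hcon (-(m : ℤ))
        rw [abs_le]
        constructor
        · have h3 := neg_abs_le B
          have h4 := le_max_right |x 0| |B|
          linarith
        · have h3 := le_abs_self (x 0)
          have h4 := le_max_left |x 0| |B|
          linarith
    exact hinf hfin
  refine ⟨t, x, hmono, hSx, fun k => (hstep k).2, tendsto_atTop_atTop_of_monotone hmono.monotone hup,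
    tendsto_atBot_atBot_of_monotone hmono.monotone hdn, hinj, ?_⟩
  intro i s hs
  have hnei : (S i).Nonempty := ⟨s, hs⟩
  obtain ⟨hlti, hEqi⟩ := key i hnei
  set a := sInf (S i)
  set b := sSup (S i)
  obtain ⟨s1, hs1a, hs1b⟩ := exists_between hlti
  obtain ⟨k, hk1, hk2⟩ := Int.exists_greatest_of_bdd (P := fun k : ℤ => x k ≤ s1) (by
    obtain ⟨k, hk⟩ := hup (s1 + 1)
    refine ⟨k, ?_⟩
    intro z hz
    by_contra hlt'
    push Not at hlt'
    have h1 := hmono hlt'
    have h2 : x z ≤ s1 := hz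
    linarith) (hdn s1)
  have hk3 : s1 < x (k + 1) := by
    by_contra hle
    push Not at hle
    have := hk2 (k + 1) hle
    omega
  have hmm : max a (x k) < min b (x (k + 1)) := by
    rw [max_lt_iff, lt_min_iff, lt_min_iff]
    refine ⟨⟨hlti, ?_⟩, ⟨?_, hlt k⟩⟩
    · linarith
    · exact lt_of_le_of_lt hk1 hs1b
  obtain ⟨s2, hs2a, hs2b⟩ := exists_between hmm
  rw [max_lt_iff] at hs2a
  rw [lt_min_iff] at hs2b
  have h1 : z0 + (s2 : ℂ) * e ∈ interior (T (t k)) :=
    lc_inner h z0 e he hav (t k) (x k) (x (k + 1)) s2 (hSx k) ⟨hs2a.2, hs2b.2⟩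
  have h2 : z0 + (s2 : ℂ) * e ∈ T i := by
    have : s2 ∈ S i := by rw [hEqi]; exact ⟨hs2a.1.le, hs2b.1.le⟩
    exact this
  exact ⟨k, (int_unique h (t k) i _ h1 h2).symm⟩

end Pool.Agent.Helper484.DT
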