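import Pool.Agent.Helper484.DT.Defs
import Pool.Agent.Helper484.DT.P_line_chain

set_option autoImplicit false

namespace Pool.Agent.Helper484.DT
open Set Metric Filter
open scoped Topology


theorem vpath {ι : Type} {T : ι → Set ℂ} {u U : ℝ} (h : CT ι T u U) (c c' d : ℝ)
    (hcc : c + 3 * U < c') (hc : ∀ s : ℝ, ¬ IsV T (⟨s, c⟩ : ℂ))
    (hc' : ∀ s : ℝ, ¬ IsV T (⟨s, c'⟩ : ℂ)) (hd : ∀ s : ℝ, ¬ IsV T (⟨d, s⟩ : ℂ)) :
    ∃ (n : ℕ) (g : ℕ → ι), 1 ≤ n ∧ (∀ s < n, Adj T (g s) (g (s + 1))) ∧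
      (∀ s ≤ n, ∃ y ∈ Icc c c', (⟨d, y⟩ : ℂ) ∈ T (g s)) ∧
      (∃ x : ℝ, (⟨x, c⟩ : ℂ) ∈ T (g 0)) ∧ (∃ x : ℝ, (⟨x, c'⟩ : ℂ) ∈ T (g n)) ∧
      (∀ s, 0 < s → s < n → (∀ x : ℝ, (⟨x, c⟩ : ℂ) ∉ T (g s)) ∧
        (∀ x : ℝ, (⟨x, c'⟩ : ℂ) ∉ T (g s))) ∧
      (∀ s ≤ n, ∀ s' ≤ n, g s = g s' → s = s') := by
  classical
  have hz : ∀ s : ℝ, (⟨d, 0⟩ : ℂ) + s * Complex.I = ⟨d, s⟩ := by
    intro s
    apply Complex.ext <;> simp
  obtain ⟨t, x, hx, hT, hadj, -, -, hinj, hall⟩ := line_chain h (⟨d, 0⟩ : ℂ) Complex.I (by simp)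
    (fun s => by rw [hz]; exact hd s)
  simp only [hz] at hT hall
  have hmem : ∀ k (s : ℝ), (⟨d, s⟩ : ℂ) ∈ T (t k) ↔ s ∈ Icc (x k) (x (k + 1)) := by
    intro k s
    rw [← hT k]
    rfl
  have hU : 0 ≤ U := by
    obtain ⟨i, hi⟩ := h.cover 0
    have := h.diam i 0 hi 0 hi
    rwa [dist_self] at this
  -- no tile meets both horizontal lines
  have hnb : ∀ i, (∃ X : ℝ, (⟨X, c⟩ : ℂ) ∈ T i) → (∃ X : ℝ, (⟨X, c'⟩ : ℂ) ∈ T i) → False := by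
    rintro i ⟨X, hX⟩ ⟨Y, hY⟩
    have h1 := h.diam i _ hX _ hY
    rw [dist_eq_norm] at h1
    have h2 := Complex.abs_im_le_norm ((⟨X, c⟩ : ℂ) - ⟨Y, c'⟩)
    rw [Complex.sub_im] at h2
    have h3 := neg_abs_le (c - c')
    linarith
  obtain ⟨i0, hi0⟩ := h.cover (⟨d, c⟩ : ℂ)
  obtain ⟨k0, rfl⟩ := hall i0 c hi0
  obtain ⟨i1, hi1⟩ := h.cover (⟨d, c'⟩ : ℂ)
  obtain ⟨k0', rfl⟩ := hall i1 c' hi1
  have hI0 := (hmem _ _).1 hi0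
  have hI1 := (hmem _ _).1 hi1
  have hk : k0 ≤ k0' := by
    by_contra hlt
    push Not at hlt
    have h1 : k0' + 1 ≤ k0 := by omega
    have h2 := hx.monotone h1
    linarith [hI0.1, hI1.2]
  obtain ⟨J, hJ⟩ : ∃ J : ℕ, k0' = k0 + J := ⟨(k0' - k0).toNat, by omega⟩
  have hex : ∃ j : ℕ, ∃ X : ℝ, (⟨X, c'⟩ : ℂ) ∈ T (t (k0 + j)) := ⟨J, d, by rw [← hJ]; exact hi1⟩
  set j2 := Nat.find hex with hj2
  have hj2s : ∃ X : ℝ, (⟨X, c'⟩ : ℂ) ∈ T (t (k0 + j2)) := Nat.find_spec hex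
  have hj2J : j2 ≤ J := Nat.find_min' hex ⟨d, by rw [← hJ]; exact hi1⟩
  set P : ℕ → Prop := fun j => ∃ X : ℝ, (⟨X, c⟩ : ℂ) ∈ T (t (k0 + j)) with hP
  set j1 := Nat.findGreatest P j2 with hj1
  have hP0 : P 0 := ⟨d, by simpa using hi0⟩
  have hj1s : P j1 := Nat.findGreatest_spec (Nat.zero_le j2) hP0
  have hj1le : j1 ≤ j2 := Nat.findGreatest_le j2
  have hj1lt : j1 < j2 := by
    rcases hj1le.lt_or_eq with h1 | h1
    · exact h1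
    · exfalso
      rw [h1] at hj1s
      exact hnb _ hj1s hj2s
  refine ⟨j2 - j1, fun s => t (k0 + j1 + s), by omega, ?_, ?_, ?_, ?_, ?_, ?_⟩
  · intro s _
    have := hadj (k0 + j1 + s)
    have e : (k0 + j1 + s + 1 : ℤ) = k0 + j1 + ((s + 1 : ℕ) : ℤ) := by push_cast; ring
    rw [e] at this
    exact this
  · intro s hs
    have h1 : x (k0 + j1 + s) ≤ c' := by
      refine (hx.monotone ?_).trans hI1.1
      omega
    have h2 : c ≤ x (k0 + j1 + s + 1) := by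
      refine hI0.2.trans (hx.monotone ?_)
      omega
    have h3 : x (k0 + j1 + s) ≤ x (k0 + j1 + s + 1) := hx.monotone (by omega)
    have h4 : c ≤ c' := by linarith
    refine ⟨max c (x (k0 + j1 + s)), ⟨le_max_left _ _, max_le h4 h1⟩, ?_⟩
    exact (hmem _ _).2 ⟨le_max_right _ _, max_le h2 h3⟩
  · obtain ⟨X, hX⟩ := hj1s
    refine ⟨X, ?_⟩
    have e : (k0 + j1 + ((0 : ℕ) : ℤ)) = k0 + j1 := by simp
    show (⟨X, c⟩ : ℂ) ∈ T (t (k0 + j1 + ((0 : ℕ) : ℤ)))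
    rw [e]
    exact hX
  · obtain ⟨X, hX⟩ := hj2s
    refine ⟨X, ?_⟩
    have e : (k0 + j1 + ((j2 - j1 : ℕ) : ℤ)) = k0 + j2 := by omega
    show (⟨X, c'⟩ : ℂ) ∈ T (t (k0 + j1 + ((j2 - j1 : ℕ) : ℤ)))
    rw [e]
    exact hX
  · intro s hs0 hsn
    have e : (k0 + j1 + (s : ℤ)) = k0 + ((j1 + s : ℕ) : ℤ) := by push_cast; ring
    constructor
    · intro X hX
      have hX' : (⟨X, c⟩ : ℂ) ∈ T (t (k0 + j1 + (s : ℤ))) := hX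
      rw [e] at hX'
      exact Nat.findGreatest_is_greatest (P := P) (k := j1 + s) (n := j2) (by omega) (by omega)
        ⟨X, hX'⟩
    · intro X hX
      have hX' : (⟨X, c'⟩ : ℂ) ∈ T (t (k0 + j1 + (s : ℤ))) := hX
      rw [e] at hX'
      exact Nat.find_min hex (m := j1 + s) (by omega) ⟨X, hX'⟩
  · intro s _ s' _ heq
    have := hinj heq
    omega

end Pool.Agent.Helper484.DT
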