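import Pool.Agent.Helper484.DT.Defs
import Pool.Agent.Helper484.DT.P_locfin
import Pool.Agent.Helper484.DT.P_line_chain
import Pool.Agent.Helper484.DT.P_vpath
import Pool.Agent.Helper484.DT.P_avoid_lines

set_option autoImplicit false

namespace Pool.Agent.Helper484.DT
open Set Metric Filter
open scoped Topology


theorem skel_exists_re {ι : Type} {T : ι → Set ℂ} {u U : ℝ} (h : CT ι T u U) {i : ι} {x y : ℂ}
    (hx : x ∈ T i) (hy : y ∈ T i) : |x.re - y.re| ≤ U := by
  have h1 := h.diam i x hx y hy
  rw [Complex.dist_eq] at h1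
  have h2 := (Complex.abs_re_le_norm (x - y)).trans h1
  rwa [Complex.sub_re] at h2

theorem skel_exists_im {ι : Type} {T : ι → Set ℂ} {u U : ℝ} (h : CT ι T u U) {i : ι} {x y : ℂ}
    (hx : x ∈ T i) (hy : y ∈ T i) : |x.im - y.im| ≤ U := by
  have h1 := h.diam i x hx y hy
  rw [Complex.dist_eq] at h1
  have h2 := (Complex.abs_im_le_norm (x - y)).trans h1
  rwa [Complex.sub_im] at h2

theorem skel_exists_dist (x y : ℂ) : dist x y ≤ |x.re - y.re| + |x.im - y.im| := by
  rw [Complex.dist_eq]
  have := Complex.norm_le_abs_re_add_abs_im (x - y)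
  rwa [Complex.sub_re, Complex.sub_im] at this

theorem skel_exists_gap {M : ℝ} (hM0 : 0 < M) {c : ℤ → ℝ}
    (hc : ∀ j : ℤ, c j ∈ Ioo ((j : ℝ) * M) (j * M + 1)) {j j' : ℤ} (h : j < j') :
    c j + (M - 1) < c j' := by
  have h1 := hc j
  have h2 := hc j'
  have h3 : ((j : ℝ) + 1) * M ≤ j' * M :=
    mul_le_mul_of_nonneg_right (by exact_mod_cast h) hM0.le
  have h4 := h1.2
  have h5 := h2.1
  nlinarith

theorem skel_exists_sep {M B : ℝ} (hM : B + 1 ≤ M) (hM0 : 0 < M) {c : ℤ → ℝ}
    (hc : ∀ j : ℤ, c j ∈ Ioo ((j : ℝ) * M) (j * M + 1)) {j j' : ℤ} (h : |c j - c j'| ≤ B) :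
    j = j' := by
  by_contra hne
  rw [abs_le] at h
  rcases lt_or_gt_of_ne hne with hlt | hlt
  · have := skel_exists_gap hM0 hc hlt
    linarith
  · have := skel_exists_gap hM0 hc hlt
    linarith

theorem skel_exists_conv {S : Set ℂ} (hS : Convex ℝ S) {d p q r : ℝ} (hpr : p ≤ r) (hrq : r ≤ q)
    (hp : (⟨d, p⟩ : ℂ) ∈ S) (hq : (⟨d, q⟩ : ℂ) ∈ S) : (⟨d, r⟩ : ℂ) ∈ S := by
  rcases (hpr.trans hrq).eq_or_lt with hpq | hpq
  · have : r = p := le_antisymm (by linarith) hpr
    rw [this]; exact hp
  · have hne : q - p ≠ 0 := by linarith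
    obtain ⟨α, β, hα, hβ, hab, hr⟩ : ∃ α β : ℝ, 0 ≤ α ∧ 0 ≤ β ∧ α + β = 1 ∧
        α * p + β * q = r := by
      refine ⟨(q - r) / (q - p), (r - p) / (q - p), div_nonneg (by linarith) (by linarith),
        div_nonneg (by linarith) (by linarith), ?_, ?_⟩
      · field_simp
        ring
      · field_simp
        ring
    have h1 := hS hp hq hα hβ hab
    have e : α • (⟨d, p⟩ : ℂ) + β • (⟨d, q⟩ : ℂ) = ⟨d, r⟩ := by
      apply Complex.ext
      · rw [Complex.add_re, Complex.smul_re, Complex.smul_re, smul_eq_mul, smul_eq_mul]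
        show α * d + β * d = d
        rw [← add_mul, hab, one_mul]
      · rw [Complex.add_im, Complex.smul_im, Complex.smul_im, smul_eq_mul, smul_eq_mul]
        exact hr
    rw [e] at h1
    exact h1

/-- the number of distinct tiles of a path meeting a ball -/
theorem skel_exists_count {ι : Type} {T : ι → Set ℂ} {K : ℕ} {r : ℝ}
    (hK : ∀ x : ℂ, {i | (T i ∩ closedBall x r).Nonempty}.Finite ∧
      {i | (T i ∩ closedBall x r).Nonempty}.ncard ≤ K) (x : ℂ) (n : ℕ) (f : ℕ → ι)
    (hf : ∀ s ≤ n, ∃ z ∈ T (f s), dist z x ≤ r)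
    (hinj : ∀ s ≤ n, ∀ s' ≤ n, f s = f s' → s = s') : n ≤ K := by
  obtain ⟨h1, h2⟩ := hK x
  have h3 : f '' (Set.Iic n) ⊆ {i | (T i ∩ closedBall x r).Nonempty} := by
    rintro i ⟨s, hs, rfl⟩
    obtain ⟨z, hz, hd⟩ := hf s hs
    exact ⟨z, hz, hd⟩
  have h4 : (f '' (Set.Iic n)).ncard = n + 1 := by
    rw [Set.InjOn.ncard_image]
    · rw [Set.ncard_eq_toFinset_card']
      simp
    · intro s hs s' hs' he
      exact hinj s hs s' hs' he
  have h5 := Set.ncard_le_ncard h3 h1
  omega

theorem skel_exists {ι : Type} {T : ι → Set ℂ} {u U : ℝ} (h : CT ι T u U) :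
    ∃ (Mq : ℝ) (L : ℕ) (a : ℤ → ℤ → ι) (m : ℤ → ℤ → Bool → ℕ)
      (g : ℤ → ℤ → Bool → ℕ → ι), 1 ≤ Mq ∧ Skel T a m g L ∧
      ∀ j k, ∀ x ∈ T (a j k), dist x (⟨k * Mq, j * Mq⟩ : ℂ) ≤ Mq := by
  classical
  have hU : 0 ≤ U := by
    obtain ⟨i, hi⟩ := h.cover 0
    have := h.diam i 0 hi 0 hi
    simpa using this
  obtain ⟨Mq, hMq⟩ : ∃ Mq : ℝ, Mq = 20 * (U + 1) := ⟨_, rfl⟩
  have hM0 : 0 < Mq := by rw [hMq]; positivity
  have hcex : ∀ j : ℤ, ∃ c ∈ Ioo ((j : ℝ) * Mq) (j * Mq + 1), ∀ s : ℝ, ¬ IsV T (⟨s, c⟩ : ℂ) :=
    fun j => (avoid_lines h _ _ (by linarith)).1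
  have hdex : ∀ k : ℤ, ∃ d ∈ Ioo ((k : ℝ) * Mq) (k * Mq + 1), ∀ s : ℝ, ¬ IsV T (⟨d, s⟩ : ℂ) :=
    fun k => (avoid_lines h _ _ (by linarith)).2
  choose c hc hcV using hcex
  choose d hd hdV using hdex
  have hz : ∀ (j : ℤ) (s : ℝ), (⟨0, c j⟩ : ℂ) + s * 1 = ⟨s, c j⟩ := by
    intro j s
    apply Complex.ext <;> simp
  have hline := fun j : ℤ => line_chain h (⟨0, c j⟩ : ℂ) 1 (by simp) (fun s => by
    rw [hz]; exact hcV j s)
  simp only [hz] at hline
  choose t x hx hint hadj _ _ hinj hall using hline
  have hcc : ∀ j : ℤ, c j + 3 * U < c (j + 1) := by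
    intro j
    have := skel_exists_gap hM0 hc (show j < j + 1 by omega)
    linarith
  have hvp := fun (j k : ℤ) => vpath h (c j) (c (j + 1)) (d k) (hcc j) (hcV j) (hcV (j + 1)) (hdV k)
  choose n G hn hGadj hGpt hG0 hGn hGint hGinj using hvp
  obtain ⟨a, ha⟩ : ∃ a : ℤ → ℤ → ι, ∀ j k, a j k =
      if Even (j + k) then G j k 0 else G (j - 1) k (n (j - 1) k) := ⟨_, fun _ _ => rfl⟩
  -- the anchors meet their lines
  have ha1 : ∀ j k, ∃ x : ℝ, (⟨x, c j⟩ : ℂ) ∈ T (a j k) := by
    intro j k
    rw [ha]
    split_ifs with he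
    · exact hG0 j k
    · have := hGn (j - 1) k
      rw [sub_add_cancel] at this
      exact this
  have ha2 : ∀ j k, ∃ y : ℝ, (⟨d k, y⟩ : ℂ) ∈ T (a j k) := by
    intro j k
    rw [ha]
    split_ifs with he
    · obtain ⟨y, -, hy⟩ := hGpt j k 0 (Nat.zero_le _)
      exact ⟨y, hy⟩
    · obtain ⟨y, -, hy⟩ := hGpt (j - 1) k (n (j - 1) k) le_rfl
      exact ⟨y, hy⟩
  have hare : ∀ j k, ∀ z ∈ T (a j k), |z.re - d k| ≤ U := by
    intro j k z hz
    obtain ⟨y, hy⟩ := ha2 j k
    exact skel_exists_re h hz hy
  have haim : ∀ j k, ∀ z ∈ T (a j k), |z.im - c j| ≤ U := by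
    intro j k z hz
    obtain ⟨y, hy⟩ := ha1 j k
    exact skel_exists_im h hz hy
  have hνex : ∀ j k, ∃ ν : ℤ, t j ν = a j k := by
    intro j k
    obtain ⟨y, hy⟩ := ha1 j k
    exact hall j (a j k) y hy
  choose ν hν using hνex
  have hpt : ∀ j μ, (⟨x j μ, c j⟩ : ℂ) ∈ T (t j μ) := by
    intro j μ
    have h1 : x j μ ∈ {s : ℝ | (⟨s, c j⟩ : ℂ) ∈ T (t j μ)} := by
      rw [hint j μ]
      exact ⟨le_rfl, (hx j (show μ < μ + 1 by omega)).le⟩
    exact h1
  have hxν : ∀ j k, |x j (ν j k) - d k| ≤ U := by
    intro j k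
    have h1 := hpt j (ν j k)
    rw [hν] at h1
    exact hare j k _ h1
  have hν1 : ∀ j k, ν j k < ν j (k + 1) := by
    intro j k
    have h1 := abs_le.1 (hxν j k)
    have h2 := abs_le.1 (hxν j (k + 1))
    have h3 := skel_exists_gap hM0 hd (show k < k + 1 by omega)
    apply (hx j).lt_iff_lt.1
    linarith
  have hνmono : ∀ j, StrictMono (ν j) := fun j => strictMono_int_of_lt_succ (hν1 j)
  obtain ⟨K, hK⟩ := locfin h (3 * Mq)
  -- a vertical inner tile and a line
  have hvl : ∀ j k s, 0 < s → s < n j k → ∀ j' (x' : ℝ), (⟨x', c j'⟩ : ℂ) ∉ T (G j k s) := by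
    intro j k s hs0 hs1 j' x' hmem
    obtain ⟨y, hy, hyT⟩ := hGpt j k s hs1.le
    have h1 := skel_exists_im h hyT hmem
    have h2 : |y - c j'| ≤ U := h1
    rw [abs_le] at h2
    have h3 := hGint j k s hs0 hs1
    rcases lt_trichotomy j' j with hlt | heq | hgt
    · have := skel_exists_gap hM0 hc hlt
      have := hy.1
      linarith
    · subst heq
      exact h3.1 x' hmem
    · rcases (show j' = j + 1 ∨ j + 1 < j' by omega) with h4 | h4
      · subst h4
        exact h3.2 x' hmem
      · have := skel_exists_gap hM0 hc h4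
        have := hy.2
        linarith
  obtain ⟨m, hm⟩ : ∃ m : ℤ → ℤ → Bool → ℕ, ∀ j k b, m j k b =
      if b = true then (if Even (j + k) then n j k else 1) else (ν j (k + 1) - ν j k).toNat :=
    ⟨_, fun _ _ _ => rfl⟩
  obtain ⟨g, hg⟩ : ∃ g : ℤ → ℤ → Bool → ℕ → ι, ∀ j k b s, g j k b s =
      if b = true then (if Even (j + k) then G j k s else a j k) else t j (ν j k + s) :=
    ⟨_, fun _ _ _ _ => rfl⟩
  have hmf : ∀ j k, ((m j k false : ℕ) : ℤ) = ν j (k + 1) - ν j k := by
    intro j k
    rw [hm]
    have := hν1 j k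
    simp only [Bool.false_eq_true, if_false]
    exact Int.toNat_of_nonneg (by omega)
  have hmt : ∀ j k, Even (j + k) → m j k true = n j k := by
    intro j k he
    rw [hm]
    simp [he]
  have hgf : ∀ j k s, g j k false s = t j (ν j k + s) := by
    intro j k s
    rw [hg]
    simp
  have hgt : ∀ j k s, Even (j + k) → g j k true s = G j k s := by
    intro j k s he
    rw [hg]
    simp [he]
  refine ⟨Mq, K + 1, a, m, g, by rw [hMq]; linarith, ?_, ?_⟩
  swap
  · intro j k z hz
    have h1 := hare j k z hz
    have h2 := haim j k z hz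
    have h3 := hd k
    have h4 := hc j
    have h5 := skel_exists_dist z (⟨k * Mq, j * Mq⟩ : ℂ)
    have h6 : |z.re - k * Mq| ≤ U + 1 := by
      rw [abs_le] at h1 ⊢
      constructor <;> linarith [h3.1, h3.2]
    have h7 : |z.im - j * Mq| ≤ U + 1 := by
      rw [abs_le] at h2 ⊢
      constructor <;> linarith [h4.1, h4.2]
    have h8 : dist z (⟨k * Mq, j * Mq⟩ : ℂ) ≤ (U + 1) + (U + 1) := h5.trans (add_le_add h6 h7)
    linarith
  · refine ⟨?_, ?_, ?_, ?_, ?_, ?_, ?_, ?_⟩
    · -- mpos
      intro j k b
      cases b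
      · have h1 := hmf j k
        have h2 := hν1 j k
        refine ⟨by omega, ?_⟩
        have h3 : m j k false ≤ K := by
          refine skel_exists_count hK (⟨k * Mq, j * Mq⟩ : ℂ) (m j k false)
            (fun s => t j (ν j k + s)) ?_ ?_
          · intro s hs
            refine ⟨_, hpt j (ν j k + s), ?_⟩
            have h4 := abs_le.1 (hxν j k)
            have h5 := abs_le.1 (hxν j (k + 1))
            have h6 : x j (ν j k) ≤ x j (ν j k + s) := (hx j).monotone (by omega)
            have h7 : x j (ν j k + s) ≤ x j (ν j (k + 1)) := (hx j).monotone (by omega)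
            have h8 := hd k
            have h9 := hd (k + 1)
            have h10 := hc j
            have h11 : ((k + 1 : ℤ) : ℝ) * Mq = k * Mq + Mq := by push_cast; ring
            rw [h11] at h9
            refine (skel_exists_dist _ _).trans ?_
            have h12 : |x j (ν j k + s) - k * Mq| ≤ Mq + 1 + U := by
              rw [abs_le]
              constructor <;> linarith [h8.1, h8.2, h9.1, h9.2]
            have h13 : |c j - j * Mq| ≤ 1 := by
              rw [abs_le]
              constructor <;> linarith [h10.1, h10.2]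
            have h14 := add_le_add h12 h13
            refine h14.trans ?_
            linarith
          · intro s hs s' hs' he
            have := hinj j he
            omega
        omega
      · by_cases he : Even (j + k)
        · rw [hmt j k he]
          refine ⟨hn j k, ?_⟩
          have h3 : n j k ≤ K := by
            refine skel_exists_count hK (⟨k * Mq, j * Mq⟩ : ℂ) (n j k) (G j k) ?_ (hGinj j k)
            intro s hs
            obtain ⟨y, hy, hyT⟩ := hGpt j k s hs
            refine ⟨_, hyT, ?_⟩
            have h8 := hd k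
            have h9 := hc (j + 1)
            have h10 := hc j
            have h11 : ((j + 1 : ℤ) : ℝ) * Mq = j * Mq + Mq := by push_cast; ring
            rw [h11] at h9
            refine (skel_exists_dist _ _).trans ?_
            have h12 : |d k - k * Mq| ≤ 1 := by
              rw [abs_le]
              constructor <;> linarith [h8.1, h8.2]
            have h13 : |y - j * Mq| ≤ Mq + 1 := by
              rw [abs_le]
              constructor <;> linarith [h10.1, h10.2, hy.1, hy.2, h9.1, h9.2]
            have h14 := add_le_add h12 h13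
            refine h14.trans ?_
            linarith
          omega
        · have h1 : m j k true = 1 := by rw [hm]; simp [he]
          rw [h1]
          omega
    · -- start
      intro j k b
      cases b
      · rw [hgf]
        simp [hν]
      · rw [hg]
        by_cases he : Even (j + k)
        · simp only [if_true, he]
          rw [ha, if_pos he]
        · simp [he]
    · -- endh
      intro j k
      rw [hgf, hmf, ← hν j (k + 1)]
      congr 1
      ring
    · -- endv
      intro j k he
      rw [hgt j k _ he, hmt j k he, ha]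
      have h1 : ¬ Even (j + 1 + k) := by
        rw [show j + 1 + k = (j + k) + 1 by ring]
        rw [Int.even_add_one]
        exact not_not.2 he
      rw [if_neg h1, add_sub_cancel_right]
    · -- adj
      intro j k b s hb hs
      cases b
      · rw [hgf, hgf]
        have := hadj j (ν j k + s)
        push_cast
        rw [← add_assoc]
        exact this
      · have he := hb rfl
        rw [hgt j k _ he, hgt j k _ he]
        rw [hmt j k he] at hs
        exact hGadj j k s hs
    · -- ainj
      intro j k j' k' he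
      obtain ⟨y, hy⟩ := ha2 j k
      have h1 := hare j k _ hy
      have h2 := haim j k _ hy
      rw [he] at hy
      have h3 := hare j' k' _ hy
      have h4 := haim j' k' _ hy
      refine ⟨skel_exists_sep (B := 2 * U) (by linarith) hM0 hc ?_,
        skel_exists_sep (B := 2 * U) (by linarith) hM0 hd ?_⟩
      · rw [abs_le] at h2 h4 ⊢
        constructor <;> linarith
      · rw [abs_le] at h1 h3 ⊢
        constructor <;> linarith
    · -- anchor
      intro j k b s j' k' hb hs0 hs1 he
      cases b
      · rw [hgf] at he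
        have h1 := hpt j (ν j k + s)
        rw [he] at h1
        have h2 : |c j - c j'| ≤ U := haim j' k' _ h1
        have h3 : j = j' := skel_exists_sep (B := U) (by linarith) hM0 hc h2
        subst h3
        rw [← hν j k'] at he
        have h4 := hinj j he
        have h5 := hmf j k
        have h6 : k < k' := (hνmono j).lt_iff_lt.1 (by omega)
        have h7 : k' < k + 1 := (hνmono j).lt_iff_lt.1 (by omega)
        omega
      · have hev := hb rfl
        rw [hgt j k _ hev] at he
        rw [hmt j k hev] at hs1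
        obtain ⟨y, hy⟩ := ha1 j' k'
        rw [← he] at hy
        exact hvl j k s hs0 hs1 j' y hy
    · -- inj
      intro j k b s j' k' b' s' hb hb' hs0 hs1 hs0' hs1' he
      cases b
      · cases b'
        · rw [hgf, hgf] at he
          have h1 := hpt j (ν j k + s)
          have h2 := hpt j' (ν j' k' + s')
          rw [he] at h1
          have h3 : |c j - c j'| ≤ U := skel_exists_im h h1 h2
          have h4 : j = j' := skel_exists_sep (B := U) (by linarith) hM0 hc h3
          subst h4
          have h5 := hinj j he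
          have h6 := hmf j k
          have h7 := hmf j k'
          have h8 : k < k' + 1 := (hνmono j).lt_iff_lt.1 (by omega)
          have h9 : k' < k + 1 := (hνmono j).lt_iff_lt.1 (by omega)
          have h10 : k = k' := by omega
          subst h10
          refine ⟨rfl, rfl, rfl, by omega⟩
        · exfalso
          have hev := hb' rfl
          rw [hgf, hgt j' k' _ hev] at he
          rw [hmt j' k' hev] at hs1'
          have h1 := hpt j (ν j k + s)
          rw [he] at h1
          exact hvl j' k' s' hs0' hs1' j _ h1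
      · have hev := hb rfl
        rw [hmt j k hev] at hs1
        rw [hgt j k _ hev] at he
        cases b'
        · exfalso
          rw [hgf] at he
          have h1 := hpt j' (ν j' k' + s')
          rw [← he] at h1
          exact hvl j k s hs0 hs1 j' _ h1
        · have hev' := hb' rfl
          rw [hmt j' k' hev'] at hs1'
          rw [hgt j' k' _ hev'] at he
          obtain ⟨y, hy, hyT⟩ := hGpt j k s hs1.le
          obtain ⟨y', hy', hyT'⟩ := hGpt j' k' s' hs1'.le
          have h1 := hyT
          rw [he] at h1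
          have h2 : |d k - d k'| ≤ U := skel_exists_re h h1 hyT'
          have h3 : k = k' := skel_exists_sep (B := U) (by linarith) hM0 hd h2
          subst h3
          -- convexity
          have hconv : ∀ (i : ι) (p q r : ℝ), p ≤ r → r ≤ q → (⟨d k, p⟩ : ℂ) ∈ T i →
              (⟨d k, q⟩ : ℂ) ∈ T i → (⟨d k, r⟩ : ℂ) ∈ T i := by
            intro i p q r hpr hrq hp hq
            exact skel_exists_conv (h.conv i) hpr hrq hp hq
          have hcmono : ∀ {j j' : ℤ}, j ≤ j' → c j ≤ c j' := by
            intro j j' hjj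
            rcases hjj.eq_or_lt with h4 | h4
            · rw [h4]
            · have := skel_exists_gap hM0 hc h4
              linarith
          have h4 : j = j' := by
            rcases lt_trichotomy j j' with hlt | heq | hgt'
            · exfalso
              have h5 : c (j + 1) ≤ c j' := hcmono (by omega)
              have h6 := hconv (G j' k s') y y' (c (j + 1)) hy.2 (h5.trans hy'.1) h1 hyT'
              rw [← he] at h6
              exact hvl j k s hs0 hs1 (j + 1) _ h6
            · exact heq
            · exfalso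
              have h5 : c (j' + 1) ≤ c j := hcmono (by omega)
              have h6 := hconv (G j' k s') y' y (c (j' + 1)) hy'.2 (h5.trans hy.1) hyT' h1
              exact hvl j' k s' hs0' hs1' (j' + 1) _ h6
          subst h4
          refine ⟨rfl, rfl, rfl, ?_⟩
          exact hGinj j k s hs1.le s' hs1'.le he

end Pool.Agent.Helper484.DT
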