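import Pool.Agent.Helper484.DT.Defs

set_option autoImplicit false

namespace Pool.Agent.Helper484.DT
open Set Metric Filter
open scoped Topology


theorem harm_real (D l1 : ℝ) (L : ℕ) (hD : 0 ≤ D) (hl : 0 < l1) :
    ∃ C : ℝ, ∀ (ι : Type) (N : ι → Finset ι) (c q : ι → ℝ) (A : Set ι) (w : ι → ι → ℝ)
      (r : ι → ℕ),
      (∀ i, ∀ j ∈ N i, |c i - c j| ≤ D) →
      (∀ i ∈ A, |q i - c i| ≤ D) →
      (∀ i, i ∉ A → (∀ j ∈ N i, 0 ≤ w i j) ∧ ∑ j ∈ N i, w i j = 1) →
      (∀ i, r i ≤ L) → (∀ i, i ∉ A → ∃ j ∈ N i, r j < r i ∧ l1 ≤ w i j) →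
      ∃ p : ι → ℝ, (∀ i ∈ A, p i = q i) ∧
        (∀ i, i ∉ A → p i = ∑ j ∈ N i, w i j * p j) ∧ ∀ i, |p i - c i| ≤ C := by
  classical
  set l : ℝ := min l1 1 with hldef
  have hl0 : 0 < l := lt_min hl one_pos
  have hl1 : l ≤ 1 := min_le_right _ _
  have hll1 : l ≤ l1 := min_le_left _ _
  have hlL : 0 < l ^ L := pow_pos hl0 L
  set G : ℝ := L / l ^ L with hG
  have hG0 : 0 ≤ G := div_nonneg (Nat.cast_nonneg L) hlL.le
  have hGL : l ^ L * G = L := by
    rw [hG]
    field_simp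
  refine ⟨D + D * G, fun ι N c q A w r hc hq hw hr hrd => ?_⟩
  set g : ι → ℝ := fun i => G - l ^ (r i) * G + r i with hg
  have hgG : ∀ i, g i ≤ G := by
    intro i
    have h1 : l ^ L ≤ l ^ (r i) := pow_le_pow_of_le_one hl0.le hl1 (hr i)
    have h2 : l ^ L * G ≤ l ^ (r i) * G := mul_le_mul_of_nonneg_right h1 hG0
    have h3 : ((r i : ℕ) : ℝ) ≤ L := by exact_mod_cast hr i
    simp only [hg]
    linarith
  have hg0 : ∀ i, 0 ≤ g i := by
    intro i
    have h1 : l ^ (r i) ≤ 1 := pow_le_one₀ hl0.le hl1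
    have h2 : l ^ (r i) * G ≤ 1 * G := mul_le_mul_of_nonneg_right h1 hG0
    have h3 : (0 : ℝ) ≤ r i := Nat.cast_nonneg _
    simp only [hg]
    linarith
  have hbar : ∀ i, i ∉ A → 1 + ∑ j ∈ N i, w i j * g j ≤ g i := by
    intro i hi
    obtain ⟨hw0, hw1⟩ := hw i hi
    obtain ⟨j0, hj0, hrj, hlw⟩ := hrd i hi
    have h1 : ∑ j ∈ N i, w i j * g j = G - ∑ j ∈ N i, w i j * (G - g j) := by
      have h2 : ∑ j ∈ N i, w i j * (G - g j) = (∑ j ∈ N i, w i j) * G - ∑ j ∈ N i, w i j * g j := by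
        rw [Finset.sum_mul, ← Finset.sum_sub_distrib]
        exact Finset.sum_congr rfl fun j _ => by ring
      rw [h2, hw1]
      ring
    have h2 : w i j0 * (G - g j0) ≤ ∑ j ∈ N i, w i j * (G - g j) :=
      Finset.single_le_sum (f := fun j => w i j * (G - g j))
        (fun j hj => mul_nonneg (hw0 j hj) (sub_nonneg.mpr (hgG j))) hj0
    have h3 : l * (G - g j0) ≤ w i j0 * (G - g j0) :=
      mul_le_mul_of_nonneg_right (hll1.trans hlw) (sub_nonneg.mpr (hgG j0))
    -- compare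
    obtain ⟨e, he⟩ : ∃ e, r i = r j0 + 1 + e := ⟨r i - r j0 - 1, by omega⟩
    have h4 : l ^ (r i) ≤ l * l ^ (r j0) := by
      have : l * l ^ (r j0) = l ^ (r j0 + 1) := by ring
      rw [this, he]
      exact pow_le_pow_of_le_one hl0.le hl1 (by omega)
    have h5 : l ^ (r i) * G ≤ l * l ^ (r j0) * G := mul_le_mul_of_nonneg_right h4 hG0
    have h6 : ((r i : ℕ) : ℝ) = r j0 + 1 + e := by
      rw [he]
      push_cast
      ring
    have h7 : l * (r j0 : ℝ) ≤ 1 * (r j0 : ℝ) :=
      mul_le_mul_of_nonneg_right hl1 (Nat.cast_nonneg _)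
    have h8 : (0 : ℝ) ≤ e := Nat.cast_nonneg _
    have h9 : l * (G - g j0) = l * l ^ (r j0) * G - l * (r j0 : ℝ) := by
      simp only [hg]
      ring
    have h10 : g i = G - l ^ (r i) * G + r i := rfl
    rw [h1, h10, h6]
    linarith
  -- the operator
  let T : (ι → ℝ) → ι → ℝ := fun f i => if i ∈ A then q i else ∑ j ∈ N i, w i j * f j
  have hTA : ∀ f i, i ∈ A → T f i = q i := fun f i hi => if_pos hi
  have hTn : ∀ f i, i ∉ A → T f i = ∑ j ∈ N i, w i j * f j := fun f i hi => if_neg hi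
  have hTmono : ∀ f f' : ι → ℝ, (∀ i, f i ≤ f' i) → ∀ i, T f i ≤ T f' i := by
    intro f f' hff i
    by_cases hi : i ∈ A
    · rw [hTA _ _ hi, hTA _ _ hi]
    · rw [hTn _ _ hi, hTn _ _ hi]
      exact Finset.sum_le_sum fun j hj => mul_le_mul_of_nonneg_left (hff j) ((hw i hi).1 j hj)
  set f0 : ι → ℝ := fun i => c i - D - D * g i with hf0
  set F : ι → ℝ := fun i => c i + D + D * g i with hF
  have hsumc : ∀ i, i ∉ A → |∑ j ∈ N i, w i j * c j - c i| ≤ D := by
    intro i hi
    obtain ⟨hw0, hw1⟩ := hw i hi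
    have h1 : ∑ j ∈ N i, w i j * c j - c i = ∑ j ∈ N i, w i j * (c j - c i) := by
      have h2 : ∑ j ∈ N i, w i j * (c j - c i) =
          ∑ j ∈ N i, w i j * c j - (∑ j ∈ N i, w i j) * c i := by
        rw [Finset.sum_mul, ← Finset.sum_sub_distrib]
        exact Finset.sum_congr rfl fun j _ => by ring
      rw [h2, hw1, one_mul]
    rw [h1]
    calc |∑ j ∈ N i, w i j * (c j - c i)| ≤ ∑ j ∈ N i, |w i j * (c j - c i)| :=
          Finset.abs_sum_le_sum_abs _ _
      _ ≤ ∑ j ∈ N i, w i j * D := by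
          refine Finset.sum_le_sum fun j hj => ?_
          rw [abs_mul, abs_of_nonneg (hw0 j hj), abs_sub_comm]
          exact mul_le_mul_of_nonneg_left (hc i j hj) (hw0 j hj)
      _ = D := by rw [← Finset.sum_mul, hw1, one_mul]
  have hlow : ∀ i, f0 i ≤ T f0 i := by
    intro i
    by_cases hi : i ∈ A
    · rw [hTA _ _ hi]
      have h1 := (abs_le.mp (hq i hi)).1
      have h2 := mul_nonneg hD (hg0 i)
      simp only [hf0]
      linarith
    · rw [hTn _ _ hi]
      have h1 := (abs_le.mp (hsumc i hi)).1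
      have h2 := hbar i hi
      have h3 : ∑ j ∈ N i, w i j * f0 j =
          ∑ j ∈ N i, w i j * c j - (∑ j ∈ N i, w i j) * D - D * ∑ j ∈ N i, w i j * g j := by
        rw [Finset.sum_mul, Finset.mul_sum, ← Finset.sum_sub_distrib, ← Finset.sum_sub_distrib]
        exact Finset.sum_congr rfl fun j _ => by simp only [hf0]; ring
      rw [h3, (hw i hi).2]
      have h4 : D * (1 + ∑ j ∈ N i, w i j * g j) ≤ D * g i := mul_le_mul_of_nonneg_left h2 hD
      simp only [hf0]
      linarith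
  have hup : ∀ i, T F i ≤ F i := by
    intro i
    by_cases hi : i ∈ A
    · rw [hTA _ _ hi]
      have h1 := (abs_le.mp (hq i hi)).2
      have h2 := mul_nonneg hD (hg0 i)
      simp only [hF]
      linarith
    · rw [hTn _ _ hi]
      have h1 := (abs_le.mp (hsumc i hi)).2
      have h2 := hbar i hi
      have h3 : ∑ j ∈ N i, w i j * F j =
          ∑ j ∈ N i, w i j * c j + (∑ j ∈ N i, w i j) * D + D * ∑ j ∈ N i, w i j * g j := by
        rw [Finset.sum_mul, Finset.mul_sum, ← Finset.sum_add_distrib, ← Finset.sum_add_distrib]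
        exact Finset.sum_congr rfl fun j _ => by simp only [hF]; ring
      rw [h3, (hw i hi).2]
      have h4 : D * (1 + ∑ j ∈ N i, w i j * g j) ≤ D * g i := mul_le_mul_of_nonneg_left h2 hD
      simp only [hF]
      linarith
  have hf0F : ∀ i, f0 i ≤ F i := by
    intro i
    have h2 := mul_nonneg hD (hg0 i)
    simp only [hf0, hF]
    linarith
  let f : ℕ → ι → ℝ := fun n => Nat.rec f0 (fun _ h => T h) n
  have hfs : ∀ n, f (n + 1) = T (f n) := fun n => rfl
  have hmono1 : ∀ n i, f n i ≤ f (n + 1) i := by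
    intro n
    induction n with
    | zero => exact hlow
    | succ n ih =>
      intro i
      rw [hfs n, hfs (n + 1)]
      exact hTmono _ _ ih i
  have hleF : ∀ n i, f n i ≤ F i := by
    intro n
    induction n with
    | zero => exact hf0F
    | succ n ih =>
      intro i
      rw [hfs n]
      exact (hTmono _ _ ih i).trans (hup i)
  have hmono : ∀ i, Monotone (fun n => f n i) := fun i => monotone_nat_of_le_succ fun n => hmono1 n i
  have hlim : ∀ i, Tendsto (fun n => f n i) atTop (𝓝 (⨆ n, f n i)) := fun i =>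
    tendsto_atTop_ciSup (hmono i) ⟨F i, by rintro _ ⟨n, rfl⟩; exact hleF n i⟩
  have hlim1 : ∀ i, Tendsto (fun n => f (n + 1) i) atTop (𝓝 (⨆ n, f n i)) := fun i =>
    (hlim i).comp (tendsto_add_atTop_nat 1)
  refine ⟨fun i => ⨆ n, f n i, fun i hi => ?_, fun i hi => ?_, fun i => ?_⟩
  · refine tendsto_nhds_unique (hlim1 i) ?_
    have : (fun n => f (n + 1) i) = fun _ => q i := by
      funext n
      rw [hfs n]
      exact hTA _ _ hi
    rw [this]
    exact tendsto_const_nhds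
  · refine tendsto_nhds_unique (hlim1 i) ?_
    have : (fun n => f (n + 1) i) = fun n => ∑ j ∈ N i, w i j * f n j := by
      funext n
      rw [hfs n]
      exact hTn _ _ hi
    rw [this]
    exact tendsto_finsetSum _ fun j _ => (hlim j).const_mul _
  · have h1 : (⨆ n, f n i) ≤ F i := le_of_tendsto' (hlim i) fun n => hleF n i
    have h2 : f0 i ≤ ⨆ n, f n i :=
      ge_of_tendsto' (hlim i) fun n => (hmono i) (Nat.zero_le n)
    have h3 : D * g i ≤ D * G := mul_le_mul_of_nonneg_left (hgG i) hD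
    simp only [hF] at h1
    simp only [hf0] at h2
    rw [abs_le]
    constructor <;> linarith

theorem harm_exist (D l1 : ℝ) (L : ℕ) (hD : 0 ≤ D) (hl : 0 < l1) :
    ∃ C : ℝ, ∀ (ι : Type) (N : ι → Finset ι) (c q : ι → ℂ) (A : Set ι) (w : ι → ι → ℝ)
      (r : ι → ℕ),
      (∀ i, ∀ j ∈ N i, dist (c i) (c j) ≤ D) →
      (∀ i ∈ A, dist (q i) (c i) ≤ D) →
      (∀ i, i ∉ A → (∀ j ∈ N i, 0 ≤ w i j) ∧ ∑ j ∈ N i, w i j = 1) →
      (∀ i, r i ≤ L) → (∀ i, i ∉ A → ∃ j ∈ N i, r j < r i ∧ l1 ≤ w i j) →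
      ∃ p : ι → ℂ, (∀ i ∈ A, p i = q i) ∧
        (∀ i, i ∉ A → p i = ∑ j ∈ N i, (w i j : ℂ) * p j) ∧ ∀ i, dist (p i) (c i) ≤ C := by
  obtain ⟨C, hC⟩ := harm_real D l1 L hD hl
  refine ⟨2 * C, fun ι N c q A w r hc hq hw hr hrd => ?_⟩
  obtain ⟨p1, ha1, hb1, hc1⟩ := hC ι N (fun i => (c i).re) (fun i => (q i).re) A w r
    (fun i j hj => by
      have h := hc i j hj
      rw [Complex.dist_eq] at h
      have h2 := Complex.abs_re_le_norm (c i - c j)
      rw [Complex.sub_re] at h2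
      exact h2.trans h)
    (fun i hi => by
      have h := hq i hi
      rw [Complex.dist_eq] at h
      have h2 := Complex.abs_re_le_norm (q i - c i)
      rw [Complex.sub_re] at h2
      exact h2.trans h) hw hr hrd
  obtain ⟨p2, ha2, hb2, hc2⟩ := hC ι N (fun i => (c i).im) (fun i => (q i).im) A w r
    (fun i j hj => by
      have h := hc i j hj
      rw [Complex.dist_eq] at h
      have h2 := Complex.abs_im_le_norm (c i - c j)
      rw [Complex.sub_im] at h2
      exact h2.trans h)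
    (fun i hi => by
      have h := hq i hi
      rw [Complex.dist_eq] at h
      have h2 := Complex.abs_im_le_norm (q i - c i)
      rw [Complex.sub_im] at h2
      exact h2.trans h) hw hr hrd
  refine ⟨fun i => ⟨p1 i, p2 i⟩, fun i hi => ?_, fun i hi => ?_, fun i => ?_⟩
  · exact Complex.ext (ha1 i hi) (ha2 i hi)
  · apply Complex.ext
    · rw [Complex.re_sum]
      simp only [Complex.re_ofReal_mul]
      exact hb1 i hi
    · rw [Complex.im_sum]
      simp only [Complex.im_ofReal_mul]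
      exact hb2 i hi
  · rw [Complex.dist_eq]
    have h1 := Complex.norm_le_abs_re_add_abs_im ((⟨p1 i, p2 i⟩ : ℂ) - c i)
    rw [Complex.sub_re, Complex.sub_im] at h1
    have h2 := hc1 i
    have h3 := hc2 i
    simp only at h1 h2 h3
    linarith

end Pool.Agent.Helper484.DT
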