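import Pool.Agent.Helper484.DT.Defs
import Pool.Agent.Helper484.DT.P_locfin
import Pool.Agent.Helper484.DT.P_short_path

set_option autoImplicit false

namespace Pool.Agent.Helper484.DT
open Set Metric Filter
open scoped Topology


theorem rank_exists_adj_symm {ι : Type} {T : ι → Set ℂ} {i j : ι} (h : Adj T i j) :
    Adj T j i := ⟨h.1.symm, by rw [inter_comm]; exact h.2⟩

/-- every tile is joined to an anchor by a walk of bounded length -/
theorem rank_exists_walk {ι : Type} {T : ι → Set ℂ} {u U : ℝ} (h : CT ι T u U) (Mq : ℝ)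
    (a : ℤ → ℤ → ι) (hM : 1 ≤ Mq)
    (ha : ∀ j k, ∀ x ∈ T (a j k), dist x (⟨k * Mq, j * Mq⟩ : ℂ) ≤ Mq) :
    ∃ L₁ : ℕ, ∀ i : ι, ∃ n ≤ L₁, ∃ w : ℕ → ι, ∃ j k, w 0 = i ∧ w n = a j k ∧
      ∀ l < n, Adj T (w l) (w (l + 1)) := by
  obtain ⟨L₁, hL⟩ := short_path h (3 * Mq)
  refine ⟨L₁, fun i => ?_⟩
  have hne : ∀ i, (T i).Nonempty := by
    intro i
    obtain ⟨x, hx⟩ := h.ball i
    exact ⟨x, hx (mem_closedBall_self h.upos.le)⟩
  obtain ⟨x, hx⟩ := hne i
  set j : ℤ := round (x.im / Mq) with hj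
  set k : ℤ := round (x.re / Mq) with hk
  obtain ⟨y, hy⟩ := hne (a j k)
  have hM0 : 0 < Mq := by linarith
  have h1 := ha j k y hy
  have hround : ∀ t : ℝ, |t - (round (t / Mq) : ℝ) * Mq| ≤ Mq / 2 := by
    intro t
    have h2 := abs_sub_round (t / Mq)
    have h3 : t - (round (t / Mq) : ℝ) * Mq = (t / Mq - round (t / Mq)) * Mq := by
      field_simp
    rw [h3, abs_mul, abs_of_pos hM0]
    nlinarith
  have h2 : dist x (⟨k * Mq, j * Mq⟩ : ℂ) ≤ Mq := by
    rw [Complex.dist_eq]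
    refine (Complex.norm_le_abs_re_add_abs_im _).trans ?_
    have h3 := hround x.re
    have h4 := hround x.im
    simp only [Complex.sub_re, Complex.sub_im]
    rw [← hk] at h3
    rw [← hj] at h4
    linarith
  have h3 : dist y x < 3 * Mq := by
    have := dist_triangle_right y x (⟨k * Mq, j * Mq⟩ : ℂ)
    linarith
  obtain ⟨n, hn, w, hw0, hwn, hadj, -⟩ := hL x i (a j k)
    ⟨x, hx, mem_ball_self (by linarith)⟩ ⟨y, hy, h3⟩
  exact ⟨n, hn, w, j, k, hw0, hwn, hadj⟩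

theorem rank_exists {ι : Type} {T : ι → Set ℂ} {u U : ℝ} (h : CT ι T u U) (N : ι → Finset ι)
    (hN : ∀ i j, j ∈ N i ↔ Adj T i j) (Mq : ℝ) (L : ℕ) (a : ℤ → ℤ → ι)
    (m : ℤ → ℤ → Bool → ℕ) (g : ℤ → ℤ → Bool → ℕ → ι) (hM : 1 ≤ Mq) (hs : Skel T a m g L)
    (ha : ∀ j k, ∀ x ∈ T (a j k), dist x (⟨k * Mq, j * Mq⟩ : ℂ) ≤ Mq) :
    ∃ (r : ι → ℕ) (L' : ℕ), (∀ i, r i ≤ L') ∧ ∀ i, (∀ j k, i ≠ a j k) →
      ∃ i' ∈ N i, r i' < r i ∧ ∀ j k b s, (b = true → Even (j + k)) → 0 < s →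
        s < m j k b → i = g j k b s → i' = g j k b (s - 1) ∨ i' = g j k b (s + 1) := by
  classical
  obtain ⟨L₁, hL₁⟩ := rank_exists_walk h Mq a hM ha
  -- distance to the anchors
  have hW : ∀ i, ∃ n, ∃ w : ℕ → ι, ∃ j k, w 0 = i ∧ w n = a j k ∧
      ∀ l < n, Adj T (w l) (w (l + 1)) := fun i => by
    obtain ⟨n, -, hn⟩ := hL₁ i
    exact ⟨n, hn⟩
  set dd : ι → ℕ := fun i => Nat.find (hW i) with hdd
  have hdspec : ∀ i, ∃ w : ℕ → ι, ∃ j k, w 0 = i ∧ w (dd i) = a j k ∧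
      ∀ l < dd i, Adj T (w l) (w (l + 1)) := fun i => Nat.find_spec (hW i)
  have hdle : ∀ i n, (∃ w : ℕ → ι, ∃ j k, w 0 = i ∧ w n = a j k ∧
      ∀ l < n, Adj T (w l) (w (l + 1))) → dd i ≤ n := fun i n hn => Nat.find_min' (hW i) hn
  have hdL : ∀ i, dd i ≤ L₁ := fun i => by
    obtain ⟨n, hn, hw⟩ := hL₁ i
    exact (hdle i n hw).trans hn
  have hstep : ∀ i, (∀ j k, i ≠ a j k) → ∃ i', Adj T i i' ∧ dd i' < dd i := by
    intro i hi
    obtain ⟨w, j, k, hw0, hwn, hadj⟩ := hdspec i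
    have hpos : dd i ≠ 0 := by
      intro h0
      rw [h0] at hwn
      exact hi j k (hw0 ▸ hwn)
    refine ⟨w 1, ?_, ?_⟩
    · have := hadj 0 (Nat.pos_of_ne_zero hpos)
      rwa [hw0, zero_add] at this
    · have h5 : dd (w 1) ≤ dd i - 1 := by
        apply hdle
        refine ⟨fun l => w (l + 1), j, k, rfl, ?_, ?_⟩
        · beta_reduce
          rw [Nat.sub_add_cancel (Nat.one_le_iff_ne_zero.2 hpos)]
          exact hwn
        · intro l hl
          exact hadj (l + 1) (by omega)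
      omega
  -- position on the skeleton
  set Q : ι → ℕ → Prop := fun i s => ∃ j k b, (b = true → Even (j + k)) ∧ 0 < s ∧
    s < m j k b ∧ i = g j k b s with hQ
  have huniq : ∀ i s s', Q i s → Q i s' → s = s' := by
    rintro i s s' ⟨j, k, b, h1, h2, h3, h4⟩ ⟨j', k', b', h1', h2', h3', h4'⟩
    exact (hs.inj j k b s j' k' b' s' h1 h1' h2 h3 h2' h3' (h4 ▸ h4')).2.2.2
  have hQL : ∀ i s, Q i s → s ≤ L := by
    rintro i s ⟨j, k, b, h1, h2, h3, h4⟩
    have := (hs.mpos j k b).2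
    omega
  set r : ι → ℕ := fun i => if (∃ j k, i = a j k) then 0 else
    if hq : ∃ s, Q i s then hq.choose else L + 1 + dd i with hr
  have hra : ∀ i, (∃ j k, i = a j k) → r i = 0 := fun i hi => by
    simp only [hr]; rw [if_pos hi]
  have hrQ : ∀ i s, ¬ (∃ j k, i = a j k) → Q i s → r i = s := fun i s hi hq => by
    have hq' : ∃ s, Q i s := ⟨s, hq⟩
    simp only [hr]; rw [if_neg hi, dif_pos hq']
    exact huniq i _ _ hq'.choose_spec hq
  have hrN : ∀ i, ¬ (∃ j k, i = a j k) → ¬ (∃ s, Q i s) → r i = L + 1 + dd i :=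
    fun i hi hq => by
      simp only [hr]; rw [if_neg hi, dif_neg hq]
  refine ⟨r, L + 1 + L₁, fun i => ?_, fun i hi => ?_⟩
  · by_cases h1 : ∃ j k, i = a j k
    · rw [hra i h1]; omega
    · by_cases h2 : ∃ s, Q i s
      · obtain ⟨s, h2⟩ := h2
        rw [hrQ i s h1 h2]
        have := hQL i s h2
        omega
      · rw [hrN i h1 h2]
        have := hdL i
        omega
  · have hi' : ¬ (∃ j k, i = a j k) := by
      rintro ⟨j, k, hjk⟩
      exact hi j k hjk
    by_cases h2 : ∃ s, Q i s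
    · obtain ⟨s, h2⟩ := h2
      have h2' := h2
      obtain ⟨j, k, b, hb, hs0, hsm, hig⟩ := h2
      refine ⟨g j k b (s - 1), ?_, ?_, ?_⟩
      · rw [hN]
        apply rank_exists_adj_symm
        have := hs.adj j k b (s - 1) hb (by omega)
        rw [Nat.sub_add_cancel hs0] at this
        rw [hig]
        exact this
      · rw [hrQ i s hi' h2']
        rcases Nat.eq_zero_or_pos (s - 1) with h0 | h0
        · rw [h0, hs.start, hra _ ⟨j, k, rfl⟩]
          exact hs0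
        · have h3 : ¬ (∃ j' k', g j k b (s - 1) = a j' k') := by
            rintro ⟨j', k', hjk⟩
            exact hs.anchor j k b (s - 1) j' k' hb h0 (by omega) hjk
          rw [hrQ _ (s - 1) h3 ⟨j, k, b, hb, h0, by omega, rfl⟩]
          omega
      · intro j' k' b' s' hb' hs0' hsm' hig'
        obtain ⟨rfl, rfl, rfl, rfl⟩ := hs.inj j k b s j' k' b' s' hb hb' hs0 hsm hs0' hsm'
          (hig ▸ hig')
        exact Or.inl rfl
    · obtain ⟨i', hadj, hlt⟩ := hstep i hi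
      refine ⟨i', (hN i i').2 hadj, ?_, ?_⟩
      · rw [hrN i hi' h2]
        by_cases h3 : ∃ j k, i' = a j k
        · rw [hra i' h3]; omega
        · by_cases h4 : ∃ s, Q i' s
          · obtain ⟨s, h4⟩ := h4
            rw [hrQ i' s h3 h4]
            have := hQL i' s h4
            omega
          · rw [hrN i' h3 h4]
            omega
      · intro j k b s hb hs0 hsm hig
        exact absurd ⟨s, j, k, b, hb, hs0, hsm, hig⟩ h2

end Pool.Agent.Helper484.DT
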