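import Pool.Agent.Helper484.DT.Defs
import Pool.Agent.Helper484.DT.P_locfin
import Pool.Agent.Helper484.DT.P_harm_exist
import Pool.Agent.Helper484.DT.P_rank_exists

set_option autoImplicit false

namespace Pool.Agent.Helper484.DT
open Set Metric Filter
open scoped Topology


theorem skel_p_adj_symm {ι : Type} {T : ι → Set ℂ} {i j : ι} (h : Adj T i j) : Adj T j i :=
  ⟨h.1.symm, by rw [Set.inter_comm]; exact h.2⟩

theorem skel_p_ne {ι : Type} {T : ι → Set ℂ} {L : ℕ} {a : ℤ → ℤ → ι}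
    {m : ℤ → ℤ → Bool → ℕ} {g : ℤ → ℤ → Bool → ℕ → ι} (hs : Skel T a m g L)
    (j k : ℤ) (b : Bool) (s : ℕ) (hb : b = true → Even (j + k)) (h0 : 0 < s) (h1 : s < m j k b) :
    g j k b (s - 1) ≠ g j k b (s + 1) := by
  intro he
  rcases Nat.eq_zero_or_pos (s - 1) with h2 | h2
  · rw [h2, hs.start] at he
    by_cases h3 : s + 1 < m j k b
    · exact hs.anchor j k b (s+1) j k hb (by omega) h3 he.symm
    · have h4 : s + 1 = m j k b := by omega
      cases b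
      · rw [h4, hs.endh] at he
        have := (hs.ainj _ _ _ _ he).2
        omega
      · rw [h4, hs.endv j k (hb rfl)] at he
        have := (hs.ainj _ _ _ _ he).1
        omega
  · by_cases h3 : s + 1 < m j k b
    · have := (hs.inj j k b (s-1) j k b (s+1) hb hb h2 (by omega) (by omega) h3 he).2.2.2
      omega
    · have h4 : s + 1 = m j k b := by omega
      cases b
      · rw [h4, hs.endh] at he
        exact hs.anchor j k false (s-1) j (k+1) hb h2 (by omega) he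
      · rw [h4, hs.endv j k (hb rfl)] at he
        exact hs.anchor j k true (s-1) (j+1) k hb h2 (by omega) he

theorem skel_p_w {ι : Type} {T : ι → Set ℂ} (N : ι → Finset ι)
    (hN : ∀ i j, j ∈ N i ↔ Adj T i j) (L : ℕ) (a : ℤ → ℤ → ι)
    (m : ℤ → ℤ → Bool → ℕ) (g : ℤ → ℤ → Bool → ℕ → ι) (hs : Skel T a m g L) (K : ℝ) (hK1 : 1 ≤ K)
    (hK : ∀ i, ((N i).card : ℝ) ≤ K) (i i' : ι) (hi' : i' ∈ N i)
    (hi : ∀ j k b s, (b = true → Even (j + k)) → 0 < s →
        s < m j k b → i = g j k b s → i' = g j k b (s - 1) ∨ i' = g j k b (s + 1))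
    (ε : ℝ) (he : 0 < ε) (he2 : ε ≤ 1/2) :
    ∃ w : ι → ℝ, (∀ j ∈ N i, ε / K ≤ w j) ∧ ∑ j ∈ N i, w j = 1 ∧ 1 / (4 * K) ≤ w i' ∧
      ∀ j k b s, (b = true → Even (j + k)) → 0 < s → s < m j k b → i = g j k b s →
        ∀ p : ι → ℂ, ∑ x ∈ N i, (w x : ℂ) * p x =
          (1 - (ε : ℂ)) / 2 * (p (g j k b (s-1)) + p (g j k b (s+1))) +
            (ε : ℂ) / (N i).card * ∑ x ∈ N i, p x := by
  classical
  have hc0 : 0 < (N i).card := Finset.card_pos.mpr ⟨i', hi'⟩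
  have hc : (0:ℝ) < (N i).card := by exact_mod_cast hc0
  have hcK := hK i
  have hK0 : 0 < K := by linarith
  by_cases hsk : ∃ j k b s, (b = true → Even (j + k)) ∧ 0 < s ∧ s < m j k b ∧ i = g j k b s
  · obtain ⟨j0, k0, b0, s0, hb0, hs0, hsm0, hi0⟩ := hsk
    have hne : g j0 k0 b0 (s0 - 1) ≠ g j0 k0 b0 (s0 + 1) := skel_p_ne hs j0 k0 b0 s0 hb0 hs0 hsm0
    have hm1 : g j0 k0 b0 (s0 - 1) ∈ N i := by
      rw [hN, hi0]
      have := hs.adj j0 k0 b0 (s0-1) hb0 (by omega)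
      rw [Nat.sub_add_cancel hs0] at this
      exact skel_p_adj_symm this
    have hm2 : g j0 k0 b0 (s0 + 1) ∈ N i := by
      rw [hN, hi0]
      exact hs.adj j0 k0 b0 s0 hb0 hsm0
    refine ⟨fun x => (1 - ε) / 2 * ((if x = g j0 k0 b0 (s0 - 1) then 1 else 0) + (if x = g j0 k0 b0 (s0 + 1) then 1 else 0)) + ε / (N i).card, ?_, ?_, ?_, ?_⟩
    · intro j hj
      have h1 : ε / K ≤ ε / (N i).card := div_le_div_of_nonneg_left he.le hc hcK
      have h2 : 0 ≤ (1 - ε) / 2 * ((if j = g j0 k0 b0 (s0 - 1) then 1 else 0) + (if j = g j0 k0 b0 (s0 + 1) then 1 else 0) : ℝ) := by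
        apply mul_nonneg
        · linarith
        · split_ifs <;> norm_num
      linarith
    · rw [Finset.sum_add_distrib, ← Finset.mul_sum, Finset.sum_add_distrib, Finset.sum_ite_eq', Finset.sum_ite_eq', if_pos hm1, if_pos hm2, Finset.sum_const, nsmul_eq_mul]
      field_simp
      ring
    · have h1 : 0 ≤ ε / (N i).card := by positivity
      have h2 : 1 / (4 * K) ≤ 1 / 4 := by
        apply one_div_le_one_div_of_le (by norm_num)
        linarith
      have h3 : (1:ℝ) ≤ (if i' = g j0 k0 b0 (s0 - 1) then 1 else 0) + (if i' = g j0 k0 b0 (s0 + 1) then 1 else 0) := by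
        rcases hi j0 k0 b0 s0 hb0 hs0 hsm0 hi0 with h | h
        · rw [if_pos h]
          split_ifs <;> norm_num
        · rw [if_pos h]
          split_ifs <;> norm_num
      have h4 : (1 - ε) / 2 * 1 ≤ (1 - ε) / 2 * ((if i' = g j0 k0 b0 (s0 - 1) then 1 else 0) + (if i' = g j0 k0 b0 (s0 + 1) then 1 else 0) : ℝ) :=
        mul_le_mul_of_nonneg_left h3 (by linarith)
      show 1 / (4 * K) ≤ (1 - ε) / 2 * ((if i' = g j0 k0 b0 (s0 - 1) then 1 else 0) + (if i' = g j0 k0 b0 (s0 + 1) then 1 else 0) : ℝ) + ε / (N i).card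
      linarith
    · intro j k b s hb h0 h1 h2 p
      obtain ⟨rfl, rfl, rfl, rfl⟩ := hs.inj j k b s j0 k0 b0 s0 hb hb0 h0 h1 hs0 hsm0 (h2.symm.trans hi0)
      have h3 : ∀ x ∈ N i, (((1 - ε) / 2 * ((if x = g j k b (s - 1) then 1 else 0) + (if x = g j k b (s + 1) then 1 else 0)) + ε / (N i).card : ℝ) : ℂ) * p x =
        (1 - (ε : ℂ)) / 2 * ((if x = g j k b (s - 1) then p x else 0) + (if x = g j k b (s + 1) then p x else 0)) + (ε : ℂ) / (N i).card * p x := by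
        intro x _
        push_cast
        split_ifs <;> push_cast <;> ring
      rw [Finset.sum_congr rfl h3, Finset.sum_add_distrib, ← Finset.mul_sum, Finset.sum_add_distrib, Finset.sum_ite_eq', Finset.sum_ite_eq', if_pos hm1, if_pos hm2, ← Finset.mul_sum]
  · refine ⟨fun _ => 1 / (N i).card, ?_, ?_, ?_, ?_⟩
    · intro j _
      have h1 : ε / K ≤ ε / (N i).card := div_le_div_of_nonneg_left he.le hc hcK
      have h2 : ε / (N i).card ≤ 1 / (N i).card := div_le_div_of_nonneg_right (by linarith) hc.le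
      exact h1.trans h2
    · rw [Finset.sum_const, nsmul_eq_mul]
      field_simp
    · have h1 : 1 / K ≤ 1 / ((N i).card : ℝ) := one_div_le_one_div_of_le hc hcK
      have h2 : 1 / (4 * K) ≤ 1 / K := one_div_le_one_div_of_le hK0 (by linarith)
      exact h2.trans h1
    · intro j k b s hb h0 h1 h2
      exact absurd ⟨j, k, b, s, hb, h0, h1, h2⟩ hsk

theorem skel_p {ι : Type} {T : ι → Set ℂ} {u U : ℝ} (h : CT ι T u U) (N : ι → Finset ι)
    (hN : ∀ i j, j ∈ N i ↔ Adj T i j) (Mq : ℝ) (L : ℕ) (a : ℤ → ℤ → ι)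
    (m : ℤ → ℤ → Bool → ℕ) (g : ℤ → ℤ → Bool → ℕ → ι) (hM : 1 ≤ Mq) (hs : Skel T a m g L)
    (ha : ∀ j k, ∀ x ∈ T (a j k), dist x (⟨k * Mq, j * Mq⟩ : ℂ) ≤ Mq)
    (q : ℤ → ℤ → ℂ) (Dq : ℝ) (hq : ∀ j k, dist (q j k) (⟨k * Mq, j * Mq⟩ : ℂ) ≤ Dq) :
    ∃ C : ℝ, ∀ ε : ℝ, 0 < ε → ε ≤ 1 / 2 → ∃ p : ι → ℂ, (∀ j k, p (a j k) = q j k) ∧
      (∀ i, ∀ x ∈ T i, dist (p i) x ≤ C) ∧
      (∃ l : ℝ, 0 < l ∧ ∀ i, (∀ j k, i ≠ a j k) → ∃ w : ι → ℝ, (∀ j ∈ N i, l ≤ w j) ∧
        ∑ j ∈ N i, w j = 1 ∧ p i = ∑ j ∈ N i, (w j : ℂ) * p j) ∧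
      (∀ j k b s, (b = true → Even (j + k)) → 0 < s → s < m j k b →
        ‖p (g j k b (s - 1)) - 2 * p (g j k b s) + p (g j k b (s + 1))‖ ≤ C * ε) := by
  classical
  have hc : ∃ c : ι → ℂ, ∀ i, c i ∈ T i := by
    have : ∀ i, ∃ x, x ∈ T i := fun i => by
      obtain ⟨x, hx⟩ := h.ball i
      exact ⟨x, hx (mem_closedBall_self h.upos.le)⟩
    choose c hc using this
    exact ⟨c, hc⟩
  obtain ⟨c, hc⟩ := hc
  obtain ⟨r, L', hr1, hr2⟩ := rank_exists h N hN Mq L a m g hM hs ha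
  obtain ⟨K, hK⟩ := locfin h U
  have hU0 : 0 ≤ U := by
    obtain ⟨i, _⟩ := h.cover 0
    have := h.diam i (c i) (hc i) (c i) (hc i)
    simpa using this
  have hNK : ∀ i, ((N i).card : ℝ) ≤ max (K : ℝ) 1 := by
    intro i
    apply le_max_of_le_left
    obtain ⟨h1, h2⟩ := hK (c i)
    have h3 : ((N i : Set ι)) ⊆ {j | (T j ∩ closedBall (c i) U).Nonempty} := by
      intro j hj
      have hj' : j ∈ N i := hj
      rw [hN] at hj'
      obtain ⟨x, hx⟩ := hj'.2.nonempty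
      exact ⟨x, hx.2, h.diam i x hx.1 (c i) (hc i)⟩
    have h4 := Set.ncard_le_ncard h3 h1
    rw [Set.ncard_coe_finset] at h4
    exact_mod_cast h4.trans h2
  set K' : ℝ := max (K : ℝ) 1 with hK'
  have hK'1 : 1 ≤ K' := le_max_right _ _
  have hK'0 : 0 < K' := by linarith
  have hdist : ∀ i, ∀ j ∈ N i, dist (c i) (c j) ≤ 2 * U := by
    intro i j hj
    rw [hN] at hj
    obtain ⟨x, hx⟩ := hj.2.nonempty
    have h1 := h.diam i (c i) (hc i) x hx.1
    have h2 := h.diam j x hx.2 (c j) (hc j)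
    have := dist_triangle (c i) x (c j)
    linarith
  set A : Set ι := {i | ∃ j k, i = a j k} with hA
  have hQ : ∃ Q : ι → ℂ, ∀ j k, Q (a j k) = q j k := by
    refine ⟨fun i => if h : ∃ jk : ℤ × ℤ, i = a jk.1 jk.2 then q h.choose.1 h.choose.2 else 0, ?_⟩
    intro j k
    have hex : ∃ jk : ℤ × ℤ, a j k = a jk.1 jk.2 := ⟨(j, k), rfl⟩
    simp only [dif_pos hex]
    obtain ⟨e1, e2⟩ := hs.ainj _ _ _ _ hex.choose_spec
    rw [← e1, ← e2]
  obtain ⟨Q, hQ⟩ := hQ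
  set D : ℝ := max (2 * U) (Dq + Mq) with hD
  have hD0 : 0 ≤ D := le_trans (by positivity) (le_max_left _ _)
  obtain ⟨C1, hC1⟩ := harm_exist D (1 / (4 * K')) L' hD0 (by positivity)
  refine ⟨8 * (|C1| + U), ?_⟩
  intro ε he he2
  have hw : ∀ i : ι, ∃ w : ι → ℝ, i ∉ A → (∀ j ∈ N i, ε / K' ≤ w j) ∧ ∑ j ∈ N i, w j = 1 ∧
      (∃ i' ∈ N i, r i' < r i ∧ 1 / (4 * K') ≤ w i') ∧
      ∀ j k b s, (b = true → Even (j + k)) → 0 < s → s < m j k b → i = g j k b s →
        ∀ p : ι → ℂ, ∑ x ∈ N i, (w x : ℂ) * p x =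
          (1 - (ε : ℂ)) / 2 * (p (g j k b (s-1)) + p (g j k b (s+1))) +
            (ε : ℂ) / (N i).card * ∑ x ∈ N i, p x := by
    intro i
    by_cases hi : i ∈ A
    · exact ⟨fun _ => 0, fun h => absurd hi h⟩
    · have hi2 : ∀ j k, i ≠ a j k := fun j k hh => hi ⟨j, k, hh⟩
      obtain ⟨i', hi', hri, hsk⟩ := hr2 i hi2
      obtain ⟨w, h1, h2, h3, h4⟩ := skel_p_w N hN L a m g hs K' hK'1 hNK i i' hi' hsk ε he he2
      exact ⟨w, fun _ => ⟨h1, h2, ⟨i', hi', hri, h3⟩, h4⟩⟩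
  choose w hw using hw
  obtain ⟨p, hp1, hp2, hp3⟩ := hC1 ι N c Q A w r
    (fun i j hj => (hdist i j hj).trans (le_max_left _ _))
    (by
      rintro i ⟨j, k, rfl⟩
      rw [hQ]
      have h1 := hq j k
      have h2 := ha j k (c (a j k)) (hc _)
      have h3 := dist_triangle (q j k) (⟨k * Mq, j * Mq⟩ : ℂ) (c (a j k))
      rw [dist_comm (⟨k * Mq, j * Mq⟩ : ℂ) (c (a j k))] at h3
      have h4 : Dq + Mq ≤ D := le_max_right _ _
      linarith)
    (fun i hi => ⟨fun j hj => le_trans (by positivity) ((hw i hi).1 j hj), (hw i hi).2.1⟩)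
    hr1
    (fun i hi => (hw i hi).2.2.1)
  have hp3' : ∀ i, dist (p i) (c i) ≤ |C1| := fun i => (hp3 i).trans (le_abs_self C1)
  have hC10 : 0 ≤ |C1| := abs_nonneg C1
  refine ⟨p, ?_, ?_, ?_, ?_⟩
  · intro j k
    rw [hp1 (a j k) ⟨j, k, rfl⟩, hQ]
  · intro i x hx
    have h1 := dist_triangle (p i) (c i) x
    have h2 := h.diam i (c i) (hc i) x hx
    have h3 := hp3' i
    linarith
  · refine ⟨ε / K', by positivity, ?_⟩
    intro i hi
    have hiA : i ∉ A := by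
      rintro ⟨j, k, hh⟩
      exact hi j k hh
    exact ⟨w i, (hw i hiA).1, (hw i hiA).2.1, hp2 i hiA⟩
  · intro j k b s hb h0 h1
    set i := g j k b s with hi
    have hiA : i ∉ A := by
      rintro ⟨j', k', hh⟩
      exact hs.anchor j k b s j' k' hb h0 h1 hh
    have h2 := hp2 i hiA
    rw [(hw i hiA).2.2.2 j k b s hb h0 h1 hi p] at h2
    obtain ⟨i', hi', _⟩ := (hw i hiA).2.2.1
    have hc0 : 0 < (N i).card := Finset.card_pos.mpr ⟨i', hi'⟩
    have hcR : (0:ℝ) < (N i).card := by exact_mod_cast hc0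
    have hcC : ((N i).card : ℂ) ≠ 0 := by exact_mod_cast hc0.ne'
    have h3 : (1 - (ε : ℂ)) * (p (g j k b (s - 1)) - 2 * p i + p (g j k b (s + 1))) =
        2 * (ε : ℂ) / (N i).card * ∑ x ∈ N i, (p i - p x) := by
      rw [Finset.sum_sub_distrib, Finset.sum_const, nsmul_eq_mul]
      have h4 : 2 * (ε : ℂ) / (N i).card * (((N i).card : ℂ) * p i - ∑ x ∈ N i, p x) =
        2 * ε * p i - 2 * (ε / (N i).card * ∑ x ∈ N i, p x) := by
        field_simp
      rw [h4]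
      linear_combination (-2 : ℂ) * h2
    have h5 : ∀ x ∈ N i, ‖p i - p x‖ ≤ 2 * (|C1| + U) := by
      intro x hx
      rw [← dist_eq_norm]
      have e1 := hp3' i
      have e2 := hp3' x
      have e3 := hdist i x hx
      have e4 := dist_triangle (p i) (c i) (p x)
      have e5 := dist_triangle (c i) (c x) (p x)
      rw [dist_comm (c x) (p x)] at e5
      linarith
    have h6 : ‖∑ x ∈ N i, (p i - p x)‖ ≤ (N i).card * (2 * (|C1| + U)) := by
      refine (norm_sum_le _ _).trans ?_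
      refine (Finset.sum_le_sum h5).trans ?_
      rw [Finset.sum_const, nsmul_eq_mul]
    have h7 : ‖(1 - (ε : ℂ)) * (p (g j k b (s - 1)) - 2 * p i + p (g j k b (s + 1)))‖ ≤
        2 * ε * (2 * (|C1| + U)) := by
      rw [h3, norm_mul, norm_div, norm_mul, Complex.norm_natCast, Complex.norm_real, Real.norm_eq_abs,
        abs_of_pos he, Complex.norm_ofNat]
      calc 2 * ε / (N i).card * ‖∑ x ∈ N i, (p i - p x)‖ ≤ 2 * ε / (N i).card * ((N i).card * (2 * (|C1| + U))) :=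
            mul_le_mul_of_nonneg_left h6 (by positivity)
        _ = 2 * ε * (2 * (|C1| + U)) := by field_simp
    rw [norm_mul] at h7
    have h8 : ‖(1 - (ε : ℂ))‖ = 1 - ε := by
      rw [show (1 - (ε : ℂ)) = ((1 - ε : ℝ) : ℂ) by push_cast; ring, Complex.norm_real, Real.norm_eq_abs,
        abs_of_pos (by linarith)]
    rw [h8] at h7
    have h9 : (1 / 2) * ‖p (g j k b (s - 1)) - 2 * p i + p (g j k b (s + 1))‖ ≤
        (1 - ε) * ‖p (g j k b (s - 1)) - 2 * p i + p (g j k b (s + 1))‖ :=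
      mul_le_mul_of_nonneg_right (by linarith) (norm_nonneg _)
    nlinarith

end Pool.Agent.Helper484.DT
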