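import Pool.Agent.Helper484.DT.Defs
import Pool.Agent.Helper484.DT.P_locfin
import Pool.Agent.Helper484.DT.P_second_diff
import Pool.Agent.Helper484.DT.P_bary
import Pool.Agent.Helper484.DT.P_hull3
import Pool.Agent.Helper484.DT.P_skel_exists
import Pool.Agent.Helper484.DT.P_skel_p

set_option autoImplicit false

namespace Pool.Agent.Helper484.DT
open Set Metric Filter
open scoped Topology


theorem exists_harm_adj_symm {ι : Type} {T : ι → Set ℂ} {i j : ι} (h : Adj T i j) : Adj T j i :=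
  ⟨h.1.symm, by rw [Set.inter_comm]; exact h.2⟩

theorem exists_harm_first (m L : ℕ) (hm : 1 ≤ m ∧ m ≤ L) (x : ℕ → ℂ) (η : ℝ) (hη : 0 ≤ η)
    (hη2 : η * (L : ℝ) ^ 3 ≤ 1 / 16)
    (hx : ∀ k, 0 < k → k < m → ‖x (k - 1) - 2 * x k + x (k + 1)‖ ≤ η) :
    ‖(x 1 - x 0) - (x m - x 0) / m‖ ≤ 1 / (16 * L) ∧
      ‖(x (m - 1) - x m) - (x 0 - x m) / m‖ ≤ 1 / (16 * L) := by
  obtain ⟨h1, h2⟩ := hm
  have hL : (0 : ℝ) < L := by
    have : 0 < L := by omega
    exact_mod_cast this
  have hmL : (m : ℝ) ≤ L := by exact_mod_cast h2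
  have hm0 : (0 : ℝ) ≤ m := Nat.cast_nonneg m
  have hb : η * (m : ℝ) ^ 2 ≤ 1 / (16 * L) := by
    have h3 : η * (m : ℝ) ^ 2 ≤ η * (L : ℝ) ^ 2 :=
      mul_le_mul_of_nonneg_left (pow_le_pow_left₀ hm0 hmL 2) hη
    refine h3.trans ?_
    rw [le_div_iff₀ (by positivity)]
    nlinarith
  have hmC : (m : ℂ) ≠ 0 := by
    have : m ≠ 0 := by omega
    exact_mod_cast this
  constructor
  · have h3 := second_diff m (by omega) x η hx hη 1 h1
    have h4 : (x 1 - x 0) - (x m - x 0) / m =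
        x 1 - ((1 - ((1 : ℕ) : ℂ) / m) * x 0 + (((1 : ℕ) : ℂ) / m) * x m) := by
      push_cast
      ring
    rw [h4]
    exact h3.trans hb
  · have h3 := second_diff m (by omega) x η hx hη (m - 1) (by omega)
    have h5 : (((m - 1 : ℕ)) : ℂ) = (m : ℂ) - 1 := by
      rw [Nat.cast_sub h1, Nat.cast_one]
    have h4 : (x (m - 1) - x m) - (x 0 - x m) / m =
        x (m - 1) - ((1 - ((m - 1 : ℕ) : ℂ) / m) * x 0 + (((m - 1 : ℕ) : ℂ) / m) * x m) := by
      rw [h5]
      field_simp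
      ring
    rw [h4]
    exact h3.trans hb

theorem exists_harm {ι : Type} {T : ι → Set ℂ} {u U : ℝ} (h : CT ι T u U) (N : ι → Finset ι)
    (hN : ∀ i j, j ∈ N i ↔ Adj T i j) :
    ∃ (p : ι → ℂ) (C l0 : ℝ), 0 < l0 ∧ (∀ i, ∀ x ∈ T i, dist (p i) x ≤ C) ∧ Harm N l0 p := by
  obtain ⟨Mq, L, a, m, g, hM, hs, ha⟩ := skel_exists h
  classical
  set q : ℤ → ℤ → ℂ := fun j k => if Even (j + k) then (⟨k * Mq, j * Mq + Mq / 8⟩ : ℂ)
    else (⟨k * Mq, j * Mq - Mq / 8⟩ : ℂ) with hqdef
  have hM0 : 0 < Mq := by linarith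
  have hq : ∀ j k, dist (q j k) (⟨k * Mq, j * Mq⟩ : ℂ) ≤ Mq := by
    intro j k
    rw [dist_eq_norm]
    have h1 : ∀ t : ℝ, ‖(⟨k * Mq, j * Mq + t⟩ : ℂ) - (⟨k * Mq, j * Mq⟩ : ℂ)‖ = |t| := by
      intro t
      have h2 : (⟨k * Mq, j * Mq + t⟩ : ℂ) - (⟨k * Mq, j * Mq⟩ : ℂ) = (t : ℂ) * Complex.I := by
        apply Complex.ext <;> simp
      rw [h2, norm_mul, Complex.norm_I, mul_one, Complex.norm_real, Real.norm_eq_abs]
    simp only [hqdef]
    split_ifs
    · rw [h1, abs_of_pos (by positivity)]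
      linarith
    · have h3 := h1 (-(Mq / 8))
      rw [← sub_eq_add_neg] at h3
      rw [h3, abs_neg, abs_of_pos (by positivity)]
      linarith
  obtain ⟨C0, hC0⟩ := skel_p h N hN Mq L a m g hM hs ha q Mq hq
  obtain ⟨C, hCpos, hCC⟩ : ∃ C : ℝ, 0 < C ∧ C0 ≤ C :=
    ⟨max C0 1, lt_of_lt_of_le one_pos (le_max_right _ _), le_max_left _ _⟩
  have hLpos : (0 : ℝ) < L := by
    have h1 := hs.mpos 0 0 false
    have : 0 < L := by omega
    exact_mod_cast this
  set ε : ℝ := min (1 / 2) (1 / (16 * C * (L : ℝ) ^ 3)) with hε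
  have hε0 : 0 < ε := lt_min (by norm_num) (by positivity)
  have hε1 : ε ≤ 1 / 2 := min_le_left _ _
  have hε2 : C * ε * (L : ℝ) ^ 3 ≤ 1 / 16 := by
    have h1 : ε ≤ 1 / (16 * C * (L : ℝ) ^ 3) := min_le_right _ _
    rw [le_div_iff₀ (by positivity)] at h1
    nlinarith
  obtain ⟨p, hpa, hpC, ⟨l, hl, hlw⟩, hp2⟩ := hC0 ε hε0 hε1
  have hη : 0 ≤ C * ε := by positivity
  have hpath : ∀ j k b, (b = true → Even (j + k)) →
      ‖(p (g j k b 1) - p (g j k b 0)) - (p (g j k b (m j k b)) - p (g j k b 0)) / m j k b‖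
        ≤ 1 / (16 * L) ∧
      ‖(p (g j k b (m j k b - 1)) - p (g j k b (m j k b))) -
        (p (g j k b 0) - p (g j k b (m j k b))) / m j k b‖ ≤ 1 / (16 * L) := by
    intro j k b hb
    refine exists_harm_first (m j k b) L (hs.mpos j k b) (fun s => p (g j k b s)) (C * ε) hη hε2 ?_
    intro s hs0 hs1
    refine (hp2 j k b s hb hs0 hs1).trans ?_
    exact mul_le_mul_of_nonneg_right hCC hε0.le
  have hTne : ∀ i, ∃ x, x ∈ T i := by
    intro i
    obtain ⟨x, hx⟩ := h.ball i
    exact ⟨x, hx (mem_closedBall_self h.upos.le)⟩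
  -- the three neighbours of an anchor
  have hthree : ∀ j k, ∃ (σ : ℝ) (m1 m2 m3 : ℕ) (t1 t2 t3 : ι), (σ = 1 ∨ σ = -1) ∧
      (1 ≤ m1 ∧ m1 ≤ L) ∧ (1 ≤ m2 ∧ m2 ≤ L) ∧ (1 ≤ m3 ∧ m3 ≤ L) ∧
      Adj T (a j k) t1 ∧ Adj T (a j k) t2 ∧ Adj T (a j k) t3 ∧
      ‖(p t1 - p (a j k)) - (⟨-Mq, -(σ * Mq / 4)⟩ : ℂ) / m1‖ ≤ 1 / (16 * L) ∧
      ‖(p t2 - p (a j k)) - (⟨Mq, -(σ * Mq / 4)⟩ : ℂ) / m2‖ ≤ 1 / (16 * L) ∧
      ‖(p t3 - p (a j k)) - (⟨0, σ * (3 * Mq / 4)⟩ : ℂ) / m3‖ ≤ 1 / (16 * L) := by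
    intro j k
    have hr := (hpath j k false (by simp)).1
    rw [hs.start, hs.endh, hpa, hpa] at hr
    have hl' := (hpath j (k - 1) false (by simp)).2
    have e1 : g j (k - 1) false (m j (k - 1) false) = a j k := by
      rw [hs.endh, sub_add_cancel]
    rw [e1, hs.start, hpa, hpa] at hl'
    have hradj : Adj T (a j k) (g j k false 1) := by
      have := hs.adj j k false 0 (by simp) (by have := (hs.mpos j k false).1; omega)
      rw [hs.start] at this
      exact this
    have hladj : Adj T (a j k) (g j (k - 1) false (m j (k - 1) false - 1)) := by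
      have h0 := (hs.mpos j (k - 1) false).1
      have := hs.adj j (k - 1) false (m j (k - 1) false - 1) (by simp) (by omega)
      rw [Nat.sub_add_cancel h0, e1] at this
      exact exists_harm_adj_symm this
    by_cases hev : Even (j + k)
    · have hq0 : q j k = (⟨k * Mq, j * Mq + Mq / 8⟩ : ℂ) := by simp only [hqdef, if_pos hev]
      have hod1 : ¬ Even (j + (k + 1)) := by
        rw [← add_assoc]
        rw [Int.even_add_one, not_not]
        exact hev
      have hod2 : ¬ Even (j + (k - 1)) := by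
        rw [← add_sub_assoc, Int.even_sub_one, not_not]
        exact hev
      have hod3 : ¬ Even (j + 1 + k) := by
        rw [add_right_comm, Int.even_add_one, not_not]
        exact hev
      have hq1 : q j (k + 1) = (⟨(k + 1 : ℤ) * Mq, j * Mq - Mq / 8⟩ : ℂ) := by
        simp only [hqdef, if_neg hod1]
      have hq2 : q j (k - 1) = (⟨(k - 1 : ℤ) * Mq, j * Mq - Mq / 8⟩ : ℂ) := by
        simp only [hqdef, if_neg hod2]
      have hq3 : q (j + 1) k = (⟨k * Mq, (j + 1 : ℤ) * Mq - Mq / 8⟩ : ℂ) := by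
        simp only [hqdef, if_neg hod3]
      have hv := (hpath j k true (fun _ => hev)).1
      rw [hs.start, hs.endv j k hev, hpa, hpa] at hv
      have hvadj : Adj T (a j k) (g j k true 1) := by
        have := hs.adj j k true 0 (fun _ => hev) (by have := (hs.mpos j k true).1; omega)
        rw [hs.start] at this
        exact this
      refine ⟨1, m j (k - 1) false, m j k false, m j k true,
        g j (k - 1) false (m j (k - 1) false - 1), g j k false 1, g j k true 1, Or.inl rfl,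
        hs.mpos _ _ _, hs.mpos _ _ _, hs.mpos _ _ _, hladj, hradj, hvadj, ?_, ?_, ?_⟩
      · have e2 : q j (k - 1) - q j k = (⟨-Mq, -(1 * Mq / 4)⟩ : ℂ) := by
          rw [hq0, hq2]
          apply Complex.ext
          · simp; ring
          · simp; ring
        rw [hpa, ← e2]
        exact hl'
      · have e2 : q j (k + 1) - q j k = (⟨Mq, -(1 * Mq / 4)⟩ : ℂ) := by
          rw [hq0, hq1]
          apply Complex.ext
          · simp; ring
          · simp; ring
        rw [hpa, ← e2]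
        exact hr
      · have e2 : q (j + 1) k - q j k = (⟨0, 1 * (3 * Mq / 4)⟩ : ℂ) := by
          rw [hq0, hq3]
          apply Complex.ext
          · simp
          · simp; ring
        rw [hpa, ← e2]
        exact hv
    · have hq0 : q j k = (⟨k * Mq, j * Mq - Mq / 8⟩ : ℂ) := by simp only [hqdef, if_neg hev]
      have hod1 : Even (j + (k + 1)) := by
        rw [← add_assoc, Int.even_add_one]
        exact hev
      have hod2 : Even (j + (k - 1)) := by
        rw [← add_sub_assoc, Int.even_sub_one]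
        exact hev
      have hod3 : Even (j - 1 + k) := by
        rw [sub_add_eq_add_sub, Int.even_sub_one]
        exact hev
      have hq1 : q j (k + 1) = (⟨(k + 1 : ℤ) * Mq, j * Mq + Mq / 8⟩ : ℂ) := by
        simp only [hqdef, if_pos hod1]
      have hq2 : q j (k - 1) = (⟨(k - 1 : ℤ) * Mq, j * Mq + Mq / 8⟩ : ℂ) := by
        simp only [hqdef, if_pos hod2]
      have hq3 : q (j - 1) k = (⟨k * Mq, (j - 1 : ℤ) * Mq + Mq / 8⟩ : ℂ) := by
        simp only [hqdef, if_pos hod3]
      have e3 : g (j - 1) k true (m (j - 1) k true) = a j k := by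
        rw [hs.endv (j - 1) k hod3, sub_add_cancel]
      have hv := (hpath (j - 1) k true (fun _ => hod3)).2
      rw [e3, hs.start, hpa, hpa] at hv
      have hvadj : Adj T (a j k) (g (j - 1) k true (m (j - 1) k true - 1)) := by
        have h0 := (hs.mpos (j - 1) k true).1
        have := hs.adj (j - 1) k true (m (j - 1) k true - 1) (fun _ => hod3) (by omega)
        rw [Nat.sub_add_cancel h0, e3] at this
        exact exists_harm_adj_symm this
      refine ⟨-1, m j (k - 1) false, m j k false, m (j - 1) k true,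
        g j (k - 1) false (m j (k - 1) false - 1), g j k false 1,
        g (j - 1) k true (m (j - 1) k true - 1), Or.inr rfl,
        hs.mpos _ _ _, hs.mpos _ _ _, hs.mpos _ _ _, hladj, hradj, hvadj, ?_, ?_, ?_⟩
      · have e2 : q j (k - 1) - q j k = (⟨-Mq, -(-1 * Mq / 4)⟩ : ℂ) := by
          rw [hq0, hq2]
          apply Complex.ext
          · simp; ring
          · simp; ring
        rw [hpa, ← e2]
        exact hl'
      · have e2 : q j (k + 1) - q j k = (⟨Mq, -(-1 * Mq / 4)⟩ : ℂ) := by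
          rw [hq0, hq1]
          apply Complex.ext
          · simp; ring
          · simp; ring
        rw [hpa, ← e2]
        exact hr
      · have e2 : q (j - 1) k - q j k = (⟨0, -1 * (3 * Mq / 4)⟩ : ℂ) := by
          rw [hq0, hq3]
          apply Complex.ext
          · simp
          · simp; ring
        rw [hpa, ← e2]
        exact hv
  obtain ⟨K, hK⟩ := locfin h U
  obtain ⟨l1, hl1, hbary⟩ := bary K (2 * C) (1 / (8 * (L : ℝ))) (by positivity) (by positivity)
  refine ⟨p, C0, min l l1, lt_min hl hl1, hpC, ?_⟩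
  intro i
  by_cases hi : ∀ j k, i ≠ a j k
  · obtain ⟨w, hw1, hw2, hw3⟩ := hlw i hi
    exact ⟨w, fun j hj => (min_le_left _ _).trans (hw1 j hj), hw2, hw3⟩
  · push Not at hi
    obtain ⟨j, k, rfl⟩ := hi
    have hcard : (N (a j k)).card ≤ K := by
      obtain ⟨x, hx⟩ := hTne (a j k)
      obtain ⟨hfin, hcard⟩ := hK x
      refine le_trans ?_ hcard
      rw [← Set.ncard_coe_finset]
      refine Set.ncard_le_ncard ?_ hfin
      intro t ht
      have ht' : Adj T (a j k) t := (hN _ _).1 ht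
      obtain ⟨z, hz⟩ := ht'.2.nonempty
      exact ⟨z, hz.2, mem_closedBall.2 (h.diam _ z hz.1 x hx)⟩
    obtain ⟨c, hc1, hc2, hc3⟩ := hbary ι (N (a j k)) (fun t => p t - p (a j k)) hcard (by
      intro t ht
      have ht' : Adj T (a j k) t := (hN _ _).1 ht
      obtain ⟨z, hz⟩ := ht'.2.nonempty
      have h1 := hpC _ z hz.1
      have h2 := hpC _ z hz.2
      rw [← dist_eq_norm]
      calc dist (p t) (p (a j k)) ≤ dist (p t) z + dist (p (a j k)) z := dist_triangle_right _ _ _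
        _ ≤ 2 * C := by linarith) (by
      intro w hw
      obtain ⟨σ, m1, m2, m3, t1, t2, t3, hσ, hm1, hm2, hm3, ha1, ha2, ha3, e1, e2, e3⟩ :=
        hthree j k
      rcases hull3 Mq hM L σ hσ m1 m2 m3 hm1 hm2 hm3 _ _ _ e1 e2 e3 w hw with h1 | h1 | h1
      · exact ⟨t1, (hN _ _).2 ha1, h1⟩
      · exact ⟨t2, (hN _ _).2 ha2, h1⟩
      · exact ⟨t3, (hN _ _).2 ha3, h1⟩)
    refine ⟨c, fun t ht => (min_le_right _ _).trans (hc1 t ht), hc2, ?_⟩
    have h1 : ∑ t ∈ N (a j k), (c t : ℂ) * (p t - p (a j k)) =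
        ∑ t ∈ N (a j k), (c t : ℂ) * p t - p (a j k) := by
      simp only [mul_sub, Finset.sum_sub_distrib]
      rw [← Finset.sum_mul]
      have h2 : ∑ t ∈ N (a j k), (c t : ℂ) = 1 := by
        have := congrArg (fun r : ℝ => (r : ℂ)) hc2
        push_cast at this
        exact this
      rw [h2, one_mul]
    rw [hc3] at h1
    exact (sub_eq_zero.1 h1.symm).symm

end Pool.Agent.Helper484.DT
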