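import Pool.Agent.Helper484.DT.Defs
import Pool.Agent.Helper484.DT.P_vcountable

set_option autoImplicit false

namespace Pool.Agent.Helper484.DT
open Set Metric Filter
open scoped Topology


theorem normal_of_ct {ι : Type} {T : ι → Set ℂ} {u U : ℝ} (h : CT ι T u U) :
    NormalTiling (range T) := by
  refine ⟨?_, ?_, ?_, ?_, ?_, ?_, ?_⟩
  · have := (vcountable h).2
    exact countable_range T
  · rintro _ ⟨i, rfl⟩
    exact (h.comp i).isClosed
  · rw [sUnion_range, eq_univ_iff_forall]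
    intro x
    obtain ⟨i, hi⟩ := h.cover x
    exact mem_iUnion.2 ⟨i, hi⟩
  · rintro _ ⟨i, rfl⟩ _ ⟨j, rfl⟩ hij
    refine h.disj i j ?_
    rintro rfl
    exact hij rfl
  · rintro _ ⟨i, rfl⟩
    obtain ⟨x, hx⟩ := h.ball i
    have hne : (interior (T i)).Nonempty := by
      refine ⟨x, interior_mono hx ?_⟩
      rw [interior_closedBall x h.upos.ne']
      exact mem_ball_self h.upos
    obtain ⟨e, -, he, -⟩ := exists_homeomorph_image_interior_closure_frontier_eq_unitBall
      (h.conv i) hne (h.comp i).isBounded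
    rw [(h.comp i).isClosed.closure_eq] at he
    exact ⟨(e.image (T i)).trans (Homeomorph.setCongr he)⟩
  · rintro _ ⟨i, rfl⟩ _ ⟨j, rfl⟩
    rcases (T i ∩ T j).eq_empty_or_nonempty with h0 | h0
    · exact Or.inl h0
    · exact Or.inr ⟨h0, ((h.conv i).inter (h.conv j)).isPreconnected⟩
  · refine ⟨u, U, h.upos, ?_⟩
    rintro _ ⟨i, rfl⟩
    obtain ⟨x, hx⟩ := h.ball i
    refine ⟨⟨x, hx⟩, x, fun y hy => ?_⟩
    rw [mem_closedBall]
    exact h.diam i y hy x (hx (mem_closedBall_self h.upos.le))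

end Pool.Agent.Helper484.DT
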