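import Pool.Agent.Helper484.DT.Defs

set_option autoImplicit false

namespace Pool.Agent.Helper484.DT
open Set Metric Filter
open scoped Topology


theorem tilt (d a b e : ℂ) (hd : d ≠ 0) (w : ℂ) (hw : ‖w‖ = 1) (h0 : dt w d = 0)
    (ha : dt w a < 0) (hb : dt w b < 0) (he : 0 < dt w e) :
    ∃ w' : ℂ, ‖w'‖ = 1 ∧ 0 < dt w' d ∧ dt w' a < 0 ∧ dt w' b < 0 ∧ 0 < dt w' e := by
  have hlin : ∀ (r : ℝ) (v : ℂ), dt (w + (r : ℂ) * d) v = dt w v + r * dt d v := by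
    intro r v
    unfold dt
    simp
    ring
  have hc : ∀ v : ℂ, Continuous fun r : ℝ => dt (w + (r : ℂ) * d) v := by
    intro v
    simp only [hlin]
    fun_prop
  have h0' : ∀ v : ℂ, dt (w + ((0 : ℝ) : ℂ) * d) v = dt w v := by
    intro v
    rw [hlin]; ring
  have e1 : ∀ᶠ r : ℝ in 𝓝[>] (0 : ℝ), dt (w + (r : ℂ) * d) a < 0 := by
    apply nhdsWithin_le_nhds
    exact ((hc a).tendsto 0).eventually (gt_mem_nhds (by rw [h0']; exact ha))
  have e2 : ∀ᶠ r : ℝ in 𝓝[>] (0 : ℝ), dt (w + (r : ℂ) * d) b < 0 := by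
    apply nhdsWithin_le_nhds
    exact ((hc b).tendsto 0).eventually (gt_mem_nhds (by rw [h0']; exact hb))
  have e3 : ∀ᶠ r : ℝ in 𝓝[>] (0 : ℝ), 0 < dt (w + (r : ℂ) * d) e := by
    apply nhdsWithin_le_nhds
    exact ((hc e).tendsto 0).eventually (lt_mem_nhds (by rw [h0']; exact he))
  have e4 : ∀ᶠ r : ℝ in 𝓝[>] (0 : ℝ), (0 : ℝ) < r := self_mem_nhdsWithin
  obtain ⟨r, ⟨⟨h1, h2⟩, h3⟩, h4⟩ := (((e1.and e2).and e3).and e4).exists
  have hdd : 0 < dt d d := by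
    unfold dt
    by_contra hneg
    push Not at hneg
    apply hd
    apply Complex.ext
    · simp only [Complex.zero_re]
      nlinarith [mul_self_nonneg d.re, mul_self_nonneg d.im]
    · simp only [Complex.zero_im]
      nlinarith [mul_self_nonneg d.re, mul_self_nonneg d.im]
  have h5 : 0 < dt (w + (r : ℂ) * d) d := by
    rw [hlin, h0]
    have := mul_pos h4 hdd
    linarith
  set z := w + (r : ℂ) * d with hz
  have hz0 : z ≠ 0 := by
    intro h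
    rw [h] at h3
    unfold dt at h3
    simp at h3
  have hn : 0 < ‖z‖⁻¹ := inv_pos.2 (norm_pos_iff.2 hz0)
  have hs : ∀ v : ℂ, dt (((‖z‖⁻¹ : ℝ) : ℂ) * z) v = ‖z‖⁻¹ * dt z v := by
    intro v
    unfold dt
    rw [Complex.re_ofReal_mul, Complex.im_ofReal_mul]
    ring
  refine ⟨((‖z‖⁻¹ : ℝ) : ℂ) * z, ?_, ?_, ?_, ?_, ?_⟩
  · rw [norm_mul, Complex.norm_real, Real.norm_eq_abs, abs_of_pos hn]
    exact inv_mul_cancel₀ (norm_ne_zero_iff.2 hz0)
  · rw [hs]; exact mul_pos hn h5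
  · rw [hs]; exact mul_neg_of_pos_of_neg hn h1
  · rw [hs]; exact mul_neg_of_pos_of_neg hn h2
  · rw [hs]; exact mul_pos hn h3

end Pool.Agent.Helper484.DT
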