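import Pool.Agent.Helper484.DT.Defs
import Pool.Agent.Helper484.DT.P_dart_adj
import Pool.Agent.Helper484.DT.P_claimB
import Pool.Agent.Helper484.DT.P_lev_conn
import Pool.Agent.Helper484.DT.P_tilt

set_option autoImplicit false

namespace Pool.Agent.Helper484.DT
open Set Metric Filter
open scoped Topology


theorem rim_orient_ne {ι : Type} {T : ι → Set ℂ} {i : ι} {n : ℕ} {s : ℕ → ι} {x : ℕ → ℂ}
    (hr : Rim T i n s x) (a b : ℕ) (hab : a < b) (hb : b < a + n) : s a ≠ s b := by
  intro h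
  have hper : Function.Periodic s n := hr.pers
  have hn : 0 < n := by have := hr.three; omega
  have h1 : a % n = b % n := by
    apply hr.injs _ _ (Nat.mod_lt _ hn) (Nat.mod_lt _ hn)
    rw [hper.map_mod_nat, hper.map_mod_nat, h]
  have h2 : n ∣ b - a := (Nat.modEq_iff_dvd' hab.le).1 h1
  have h3 := Nat.le_of_dvd (by omega) h2
  omega

theorem rim_orient_rep {ι : Type} {T : ι → Set ℂ} {i : ι} {n : ℕ} {s : ℕ → ι} {x : ℕ → ℂ}
    (hr : Rim T i n s x) (j : ι) (hj : Adj T i j) (k : ℕ) : ∃ m < n, s (k + m) = j := by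
  induction k with
  | zero =>
    obtain ⟨l, hl, hlj⟩ := hr.alls j hj
    exact ⟨l, hl, by rw [zero_add]; exact hlj⟩
  | succ k ih =>
    obtain ⟨m, hm, hmj⟩ := ih
    have h3 := hr.three
    rcases Nat.eq_zero_or_pos m with h0 | h0
    · refine ⟨n - 1, by omega, ?_⟩
      have : k + 1 + (n - 1) = k + n := by omega
      rw [this, hr.pers, ← hmj, h0, add_zero]
    · refine ⟨m - 1, by omega, ?_⟩
      have : k + 1 + (m - 1) = k + m := by omega
      rw [this, hmj]

theorem rim_orient_dt (w a b : ℂ) : dt w (a - b) = dt w a - dt w b := by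
  simp only [dt, Complex.sub_re, Complex.sub_im]
  ring

theorem rim_orient_contra {ι : Type} {T : ι → Set ℂ} {u U : ℝ} (h : CT ι T u U) {p : ι → ℂ}
    {C δ α : ℝ} (hp : GoodP T p C δ α) {i : ι} {n : ℕ} {s : ℕ → ι} {x : ℕ → ℂ}
    (hr : Rim T i n s x) (k : ℕ) (w : ℂ) (hw : ‖w‖ = 1) (hd : p (s (k + 1)) - p i ≠ 0)
    (h0 : dt w (p (s (k + 1)) - p i) = 0)
    (h1 : dt w (p (s k) - p i) < 0) (h2 : dt w (p (s (k + 2)) - p i) < 0) : False := by
  obtain ⟨j, hj, hjδ⟩ := hp.hull i w hw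
  obtain ⟨m, hm, hmj⟩ := rim_orient_rep hr j hj k
  have hpos : 0 < dt w (p j - p i) := lt_of_lt_of_le hp.δpos hjδ
  have hm0 : m ≠ 0 := by
    intro h
    rw [h, add_zero] at hmj
    rw [← hmj] at hpos
    linarith
  have hm1 : m ≠ 1 := by
    intro h
    rw [h] at hmj
    rw [← hmj] at hpos
    linarith
  have hm2 : m ≠ 2 := by
    intro h
    rw [h] at hmj
    rw [← hmj] at hpos
    linarith
  obtain ⟨w', hw', t1, t2, t3, t4⟩ := tilt (p (s (k + 1)) - p i) (p (s k) - p i)
    (p (s (k + 2)) - p i) (p j - p i) hd w hw h0 h1 h2 hpos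
  rw [rim_orient_dt] at t1 t2 t3 t4
  obtain ⟨hM, hP⟩ := lev_conn h hp w' hw' (dt w' (p i))
  refine claimB h hr {i_1 | dt w' (p i_1) < dt w' (p i)} {i_1 | dt w' (p i) < dt w' (p i_1)}
    hP hM ?_ ?_ ?_ k (k + 1) (k + 2) (k + m) (by omega) (by omega) (by omega) (by omega)
    ?_ ?_ ?_ ?_
  · rw [Set.disjoint_left]
    intro a ha hb
    simp only [Set.mem_setOf_eq] at ha hb
    linarith
  · simp
  · simp
  · simp only [Set.mem_setOf_eq]; linarith
  · simp only [Set.mem_setOf_eq]; linarith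
  · simp only [Set.mem_setOf_eq]; linarith
  · simp only [Set.mem_setOf_eq]
    rw [hmj]
    linarith

theorem rim_orient_step {ι : Type} {T : ι → Set ℂ} {u U : ℝ} (h : CT ι T u U) {p : ι → ℂ}
    {C δ α : ℝ} (hp : GoodP T p C δ α) {i : ι} {n : ℕ} {s : ℕ → ι} {x : ℕ → ℂ}
    (hr : Rim T i n s x) (k : ℕ) :
    0 < cr (p (s k) - p i) (p (s (k + 1)) - p i) *
      cr (p (s (k + 1)) - p i) (p (s (k + 2)) - p i) := by
  have hn := hr.three
  have hdist : ∀ l, dist (p i) (p (s l)) ≤ 8 * C := by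
    intro l
    obtain ⟨z, hz⟩ := (dart_adj (hr.dart l)).2.nonempty
    have e1 := hp.disp i z hz.1
    have e2 := hp.disp (s l) z hz.2
    have e3 := dist_triangle_right (p i) (p (s l)) z
    have := hp.Cpos
    linarith
  have hne : ∀ l, i ≠ s l := fun l => (dart_adj (hr.dart l)).1
  have hcr : ∀ a b, a < b → b < a + n → cr (p (s a) - p i) (p (s b) - p i) ≠ 0 := by
    intro a b hab hb h0
    have := hp.gen i (s a) (s b) (hne a) (rim_orient_ne hr a b hab hb) (hne b) (hdist a) (hdist b)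
    rw [h0, abs_zero] at this
    linarith [hp.αpos]
  set d0 := p (s k) - p i with hd0
  set e := p (s (k + 1)) - p i with he
  set d2 := p (s (k + 2)) - p i with hd2
  have c1 : cr d0 e ≠ 0 := hcr k (k + 1) (by omega) (by omega)
  have c2 : cr e d2 ≠ 0 := hcr (k + 1) (k + 2) (by omega) (by omega)
  by_contra hcon
  have hlt : cr d0 e * cr e d2 < 0 := lt_of_le_of_ne (not_lt.1 hcon) (mul_ne_zero c1 c2)
  have he0 : e ≠ 0 := by
    intro h0
    apply c2
    rw [h0]
    simp [cr]
  have hen : 0 < ‖e‖ := norm_pos_iff.2 he0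
  have hanti : cr d0 e = - cr e d0 := by simp only [cr]; ring
  have hdtI : ∀ (c : ℝ) (z : ℂ), dt ((c : ℂ) * (Complex.I * e)) z = c * cr e z := by
    intro c z
    simp only [dt, cr, Complex.mul_re, Complex.mul_im, Complex.I_re, Complex.I_im,
      Complex.ofReal_re, Complex.ofReal_im]
    ring
  have hself : cr e e = 0 := by simp only [cr]; ring
  have hnorm : ∀ c : ℝ, |c| = 1 → ‖((c / ‖e‖ : ℝ) : ℂ) * (Complex.I * e)‖ = 1 := by
    intro c hc
    rw [norm_mul, norm_mul, Complex.norm_I, one_mul, Complex.norm_real, Real.norm_eq_abs,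
      abs_div, hc, abs_of_pos hen]
    field_simp
  rw [hanti] at hlt
  have hprod : 0 < cr e d0 * cr e d2 := by linarith
  rcases lt_or_gt_of_ne c2 with hc | hc
  · -- both negative
    have hc0 : cr e d0 < 0 := by
      by_contra hh
      rw [not_lt] at hh
      nlinarith
    refine rim_orient_contra h hp hr k (((1 / ‖e‖ : ℝ) : ℂ) * (Complex.I * e))
      (hnorm 1 (by simp)) he0 ?_ ?_ ?_
    · rw [← he, hdtI, hself, mul_zero]
    · rw [← hd0, hdtI]
      exact mul_neg_of_pos_of_neg (by positivity) hc0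
    · rw [← hd2, hdtI]
      exact mul_neg_of_pos_of_neg (by positivity) hc
  · have hc0 : 0 < cr e d0 := by
      by_contra hh
      rw [not_lt] at hh
      nlinarith
    refine rim_orient_contra h hp hr k (((-1 / ‖e‖ : ℝ) : ℂ) * (Complex.I * e))
      (hnorm (-1) (by simp)) he0 ?_ ?_ ?_
    · rw [← he, hdtI, hself, mul_zero]
    · rw [← hd0, hdtI]
      exact mul_neg_of_neg_of_pos (div_neg_of_neg_of_pos (by norm_num) hen) hc0
    · rw [← hd2, hdtI]
      exact mul_neg_of_neg_of_pos (div_neg_of_neg_of_pos (by norm_num) hen) hc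

theorem rim_orient {ι : Type} {T : ι → Set ℂ} {u U : ℝ} (h : CT ι T u U) {p : ι → ℂ}
    {C δ α : ℝ} (hp : GoodP T p C δ α) {i : ι} {n : ℕ} {s : ℕ → ι} {x : ℕ → ℂ}
    (hr : Rim T i n s x) : ∃ σ : ℝ, (σ = 1 ∨ σ = -1) ∧ ∀ k,
      0 < σ * cr (p (s k) - p i) (p (s (k + 1)) - p i) := by
  have hstep := rim_orient_step h hp hr
  by_cases h0 : 0 < cr (p (s 0) - p i) (p (s (0 + 1)) - p i)
  · refine ⟨1, Or.inl rfl, fun k => ?_⟩
    rw [one_mul]
    induction k with
    | zero => exact h0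
    | succ k ih => exact (mul_pos_iff_of_pos_left ih).1 (hstep k)
  · refine ⟨-1, Or.inr rfl, fun k => ?_⟩
    have key : cr (p (s k) - p i) (p (s (k + 1)) - p i) < 0 := by
      induction k with
      | zero =>
        have h1 := hstep 0
        rcases lt_or_eq_of_le (not_lt.1 h0) with h2 | h2
        · exact h2
        · exfalso
          rw [h2, zero_mul] at h1
          exact lt_irrefl _ h1
      | succ k ih =>
        have h1 := hstep k
        by_contra hh
        rw [not_lt] at hh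
        have h3 : cr (p (s k) - p i) (p (s (k + 1)) - p i) *
          cr (p (s (k + 1)) - p i) (p (s (k + 2)) - p i) ≤ 0 :=
          mul_nonpos_of_nonpos_of_nonneg ih.le hh
        linarith
    linarith

end Pool.Agent.Helper484.DT
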