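import Pool.Agent.Helper484.DT.Defs

set_option autoImplicit false

namespace Pool.Agent.Helper484.DT
open Set Metric Filter
open scoped Topology


theorem sep4_aux1 (A B P Q w₀ : ℂ) (c₀ : ℝ) (h1 : c₀ < dt w₀ A) (h2 : c₀ < dt w₀ P)
    (h3 : dt w₀ B < c₀) (h4 : dt w₀ Q < c₀) :
    ∃ (w : ℂ) (c : ℝ), ‖w‖ = 1 ∧ c < dt w A ∧ c < dt w P ∧ dt w B < c ∧ dt w Q < c := by
  have hw : w₀ ≠ 0 := by
    rintro rfl
    unfold dt at h1 h3
    simp only [Complex.zero_re, Complex.zero_im, zero_mul, add_zero] at h1 h3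
    linarith
  have hr : 0 < ‖w₀‖ := norm_pos_iff.2 hw
  have hi : 0 < ‖w₀‖⁻¹ := inv_pos.2 hr
  have hdt : ∀ z : ℂ, dt (((‖w₀‖⁻¹ : ℝ) : ℂ) * w₀) z = ‖w₀‖⁻¹ * dt w₀ z := by
    intro z
    unfold dt
    rw [Complex.re_ofReal_mul, Complex.im_ofReal_mul]
    ring
  refine ⟨((‖w₀‖⁻¹ : ℝ) : ℂ) * w₀, ‖w₀‖⁻¹ * c₀, ?_, ?_, ?_, ?_, ?_⟩
  · rw [norm_mul, Complex.norm_real, Real.norm_eq_abs, abs_of_pos hi]
    exact inv_mul_cancel₀ hr.ne'
  · rw [hdt]; exact mul_lt_mul_of_pos_left h1 hi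
  · rw [hdt]; exact mul_lt_mul_of_pos_left h2 hi
  · rw [hdt]; exact mul_lt_mul_of_pos_left h3 hi
  · rw [hdt]; exact mul_lt_mul_of_pos_left h4 hi

theorem sep4_aux2 (A B P : ℂ) (σ ε : ℝ) :
    dt ⟨σ * (-(B - A).im) - ε * (B - A).re, σ * (B - A).re - ε * (B - A).im⟩ P
      = dt ⟨σ * (-(B - A).im) - ε * (B - A).re, σ * (B - A).re - ε * (B - A).im⟩
          ⟨(A.re + B.re) / 2, (A.im + B.im) / 2⟩
        + (σ * cr (B - A) (P - A) - ε * dt (B - A) (P - ⟨(A.re + B.re) / 2, (A.im + B.im) / 2⟩)) := by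
  unfold dt cr
  simp only [Complex.sub_re, Complex.sub_im]
  ring

theorem sep4_aux3 (A B : ℂ) (σ ε : ℝ) :
    dt ⟨σ * (-(B - A).im) - ε * (B - A).re, σ * (B - A).re - ε * (B - A).im⟩ A
      = dt ⟨σ * (-(B - A).im) - ε * (B - A).re, σ * (B - A).re - ε * (B - A).im⟩
          ⟨(A.re + B.re) / 2, (A.im + B.im) / 2⟩ + ε * dt (B - A) (B - A) / 2 ∧
    dt ⟨σ * (-(B - A).im) - ε * (B - A).re, σ * (B - A).re - ε * (B - A).im⟩ B
      = dt ⟨σ * (-(B - A).im) - ε * (B - A).re, σ * (B - A).re - ε * (B - A).im⟩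
          ⟨(A.re + B.re) / 2, (A.im + B.im) / 2⟩ - ε * dt (B - A) (B - A) / 2 := by
  unfold dt
  simp only [Complex.sub_re, Complex.sub_im]
  constructor <;> ring

theorem sep4 (A B P Q : ℂ) (hP : 0 < cr (B - A) (P - A)) (hQ : cr (B - A) (Q - A) < 0) :
    (∃ (w : ℂ) (c : ℝ), ‖w‖ = 1 ∧ c < dt w A ∧ c < dt w P ∧ dt w B < c ∧ dt w Q < c) ∧
    (∃ (w : ℂ) (c : ℝ), ‖w‖ = 1 ∧ c < dt w A ∧ c < dt w Q ∧ dt w B < c ∧ dt w P < c) := by
  have hN : 0 < dt (B - A) (B - A) := by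
    by_contra hcon
    push Not at hcon
    unfold dt at hcon
    have h1 : (B - A).re = 0 := by nlinarith [mul_self_nonneg (B - A).re, mul_self_nonneg (B - A).im]
    have h2 : (B - A).im = 0 := by nlinarith [mul_self_nonneg (B - A).re, mul_self_nonneg (B - A).im]
    unfold cr at hP
    rw [h1, h2] at hP
    linarith
  obtain ⟨x, hx⟩ : ∃ x, x = dt (B - A) (P - ⟨(A.re + B.re) / 2, (A.im + B.im) / 2⟩) := ⟨_, rfl⟩
  obtain ⟨y, hy⟩ : ∃ y, y = dt (B - A) (Q - ⟨(A.re + B.re) / 2, (A.im + B.im) / 2⟩) := ⟨_, rfl⟩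
  obtain ⟨μ, hμ⟩ : ∃ μ, μ = min (cr (B - A) (P - A)) (-cr (B - A) (Q - A)) := ⟨_, rfl⟩
  have hμ0 : 0 < μ := by rw [hμ]; exact lt_min hP (by linarith)
  have hμ1 : μ ≤ cr (B - A) (P - A) := by rw [hμ]; exact min_le_left _ _
  have hμ2 : μ ≤ -cr (B - A) (Q - A) := by rw [hμ]; exact min_le_right _ _
  have hK : 0 < 1 + |x| + |y| := by positivity
  obtain ⟨ε, hε⟩ : ∃ ε, ε = μ / (1 + |x| + |y|) := ⟨_, rfl⟩
  have hε0 : 0 < ε := by rw [hε]; positivity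
  have hεK : ε * (1 + |x| + |y|) = μ := by rw [hε]; exact div_mul_cancel₀ _ hK.ne'
  have hx1 : |ε * x| < μ := by
    rw [abs_mul, abs_of_pos hε0, ← hεK]
    apply mul_lt_mul_of_pos_left _ hε0
    have := abs_nonneg y
    linarith
  have hy1 : |ε * y| < μ := by
    rw [abs_mul, abs_of_pos hε0, ← hεK]
    apply mul_lt_mul_of_pos_left _ hε0
    have := abs_nonneg x
    linarith
  obtain ⟨hx2, hx3⟩ := abs_lt.1 hx1
  obtain ⟨hy2, hy3⟩ := abs_lt.1 hy1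
  have hεN : 0 < ε * dt (B - A) (B - A) := mul_pos hε0 hN
  constructor
  · have k1 := sep4_aux2 A B P 1 ε
    have k2 := sep4_aux2 A B Q 1 ε
    obtain ⟨k3, k4⟩ := sep4_aux3 A B 1 ε
    rw [← hx] at k1
    rw [← hy] at k2
    refine sep4_aux1 A B P Q ⟨1 * (-(B - A).im) - ε * (B - A).re, 1 * (B - A).re - ε * (B - A).im⟩
      (dt ⟨1 * (-(B - A).im) - ε * (B - A).re, 1 * (B - A).re - ε * (B - A).im⟩
        ⟨(A.re + B.re) / 2, (A.im + B.im) / 2⟩) ?_ ?_ ?_ ?_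
    · rw [k3]; linarith
    · rw [k1]; linarith
    · rw [k4]; linarith
    · rw [k2]; linarith
  · have k1 := sep4_aux2 A B P (-1) ε
    have k2 := sep4_aux2 A B Q (-1) ε
    obtain ⟨k3, k4⟩ := sep4_aux3 A B (-1) ε
    rw [← hx] at k1
    rw [← hy] at k2
    refine sep4_aux1 A B Q P ⟨(-1) * (-(B - A).im) - ε * (B - A).re, (-1) * (B - A).re - ε * (B - A).im⟩
      (dt ⟨(-1) * (-(B - A).im) - ε * (B - A).re, (-1) * (B - A).re - ε * (B - A).im⟩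
        ⟨(A.re + B.re) / 2, (A.im + B.im) / 2⟩) ?_ ?_ ?_ ?_
    · rw [k3]; linarith
    · rw [k2]; linarith
    · rw [k4]; linarith
    · rw [k1]; linarith

end Pool.Agent.Helper484.DT
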