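import Pool.Agent.Helper484.DT.Defs
import Pool.Agent.Helper484.DT.P_claimA
import Pool.Agent.Helper484.DT.P_lev_conn
import Pool.Agent.Helper484.DT.P_sep4

set_option autoImplicit false

namespace Pool.Agent.Helper484.DT
open Set Metric Filter
open scoped Topology


theorem star_orient_per {ι : Type} {T : ι → Set ℂ} {v : ℂ} {n : ℕ} {t : ℕ → ι} {r : ℕ → ℂ}
    (hs : Star T v n t r) (k m : ℕ) : t (k + n * m) = t k := by
  induction m with
  | zero => simp
  | succ m ih =>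
    rw [Nat.mul_succ, ← Nat.add_assoc, hs.pert, ih]

theorem star_orient_mod {ι : Type} {T : ι → Set ℂ} {v : ℂ} {n : ℕ} {t : ℕ → ι} {r : ℕ → ℂ}
    (hs : Star T v n t r) (k : ℕ) : t (k % n) = t k := by
  have h1 := star_orient_per hs (k % n) (k / n)
  rw [Nat.mod_add_div] at h1
  exact h1.symm

theorem star_orient_rep {ι : Type} {T : ι → Set ℂ} {v : ℂ} {n : ℕ} {t : ℕ → ι} {r : ℕ → ℂ}
    (hs : Star T v n t r) (k l : ℕ) : ∃ l', k ≤ l' ∧ l' < k + n ∧ t l' = t l := by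
  have hn : 0 < n := by have := hs.three; omega
  refine ⟨k + (l + n * k - k) % n, Nat.le_add_right _ _, ?_, ?_⟩
  · have := Nat.mod_lt (l + n * k - k) hn
    omega
  · have h1 := star_orient_per hs (k + (l + n * k - k) % n) ((l + n * k - k) / n)
    have h2 : k + (l + n * k - k) % n + n * ((l + n * k - k) / n) = l + n * k := by
      have h3 := Nat.mod_add_div (l + n * k - k) n
      have h4 : k ≤ n * k := Nat.le_mul_of_pos_left k hn
      omega
    rw [h2, star_orient_per hs] at h1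
    exact h1.symm

theorem star_orient_mem {ι : Type} {T : ι → Set ℂ} {v : ℂ} {n : ℕ} {t : ℕ → ι} {r : ℕ → ℂ}
    (hs : Star T v n t r) (k : ℕ) : v ∈ T (t k) := by
  rw [hs.all]
  exact ⟨k % n, Nat.mod_lt _ (by have := hs.three; omega), star_orient_mod hs k⟩

theorem star_orient_ne0 {ι : Type} {T : ι → Set ℂ} {p : ι → ℂ}
    {C δ α : ℝ} (hp : GoodP T p C δ α) {v : ℂ} {n : ℕ} {t : ℕ → ι} {r : ℕ → ℂ}
    (hs : Star T v n t r) (k l : ℕ) (h1 : t l ≠ t k) (h2 : t l ≠ t (k + 1)) :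
    cr (p (t (k + 1)) - p (t k)) (p (t l) - p (t k)) ≠ 0 := by
  have hd : ∀ a b : ℕ, dist (p (t a)) (p (t b)) ≤ 8 * C := by
    intro a b
    have e1 := hp.disp (t a) v (star_orient_mem hs a)
    have e2 := hp.disp (t b) v (star_orient_mem hs b)
    have e3 := dist_triangle_right (p (t a)) (p (t b)) v
    have := hp.Cpos
    linarith
  have h3 := hp.gen (t k) (t (k + 1)) (t l) (hs.dart k).1 h2.symm h1.symm (hd _ _) (hd _ _)
  intro h4
  rw [h4, abs_zero] at h3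
  exact absurd h3 (not_le.2 hp.αpos)

theorem star_orient_same {ι : Type} {T : ι → Set ℂ} {u U : ℝ} (h : CT ι T u U) {p : ι → ℂ}
    {C δ α : ℝ} (hp : GoodP T p C δ α) {v : ℂ} {n : ℕ} {t : ℕ → ι} {r : ℕ → ℂ}
    (hs : Star T v n t r) (k l m : ℕ) (hl1 : t l ≠ t k) (hl2 : t l ≠ t (k + 1))
    (hm1 : t m ≠ t k) (hm2 : t m ≠ t (k + 1))
    (hlp : 0 < cr (p (t (k + 1)) - p (t k)) (p (t l) - p (t k)))
    (hmn : cr (p (t (k + 1)) - p (t k)) (p (t m) - p (t k)) < 0) : False := by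
  obtain ⟨l', a1, a2, a3⟩ := star_orient_rep hs k l
  obtain ⟨m', b1, b2, b3⟩ := star_orient_rep hs k m
  rw [← a3] at hl1 hl2 hlp
  rw [← b3] at hm1 hm2 hmn
  have c1 : l' ≠ k := by rintro rfl; exact hl1 rfl
  have c2 : l' ≠ k + 1 := by rintro rfl; exact hl2 rfl
  have c3 : m' ≠ k := by rintro rfl; exact hm1 rfl
  have c4 : m' ≠ k + 1 := by rintro rfl; exact hm2 rfl
  have c5 : l' ≠ m' := by rintro rfl; exact absurd hlp (not_lt.2 hmn.le)
  obtain ⟨⟨w, c, hw, e1, e2, e3, e4⟩, ⟨w', c', hw', f1, f2, f3, f4⟩⟩ :=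
    sep4 (p (t k)) (p (t (k + 1))) (p (t l')) (p (t m')) hlp hmn
  have hdisj : ∀ (w : ℂ) (c : ℝ), Disjoint {i | c < dt w (p i)} {i | dt w (p i) < c} := by
    intro w c
    rw [Set.disjoint_left]
    intro i hi hi'
    have q1 : c < dt w (p i) := hi
    have q2 : dt w (p i) < c := hi'
    linarith
  rcases lt_or_gt_of_ne c5 with hlm | hlm
  · obtain ⟨g1, g2⟩ := lev_conn h hp w hw c
    exact claimA h hs _ _ g1 g2 (hdisj w c) k (k + 1) l' m' (by omega) (by omega) hlm (by omega)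
      e1 e2 e3 e4
  · obtain ⟨g1, g2⟩ := lev_conn h hp w' hw' c'
    exact claimA h hs _ _ g1 g2 (hdisj w' c') k (k + 1) m' l' (by omega) (by omega) hlm (by omega)
      f1 f2 f3 f4

theorem star_orient {ι : Type} {T : ι → Set ℂ} {u U : ℝ} (h : CT ι T u U) {p : ι → ℂ}
    {C δ α : ℝ} (hp : GoodP T p C δ α) {v : ℂ} {n : ℕ} {t : ℕ → ι} {r : ℕ → ℂ}
    (hs : Star T v n t r) : ∃ σ : ℝ, (σ = 1 ∨ σ = -1) ∧ ∀ k l, t l ≠ t k → t l ≠ t (k + 1) →
      0 < σ * cr (p (t (k + 1)) - p (t k)) (p (t l) - p (t k)) := by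
  have hn : 3 ≤ n := hs.three
  have hne2 : ∀ k, t (k + 2) ≠ t k := by
    intro k hk
    rw [← star_orient_mod hs (k + 2), ← star_orient_mod hs k] at hk
    have h1 := hs.inj _ _ (Nat.mod_lt _ (by omega)) (Nat.mod_lt _ (by omega)) hk
    have h2 := Nat.sub_mod_eq_zero_of_mod_eq h1
    rw [Nat.add_sub_cancel_left, Nat.mod_eq_of_lt (by omega)] at h2
    omega
  have hne1 : ∀ k, t (k + 1) ≠ t k := fun k => (hs.dart k).1.symm
  -- transfer of the sign at a fixed `k`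
  have htr : ∀ (σ : ℝ), (σ = 1 ∨ σ = -1) → ∀ k m, t m ≠ t k → t m ≠ t (k + 1) →
      0 < σ * cr (p (t (k + 1)) - p (t k)) (p (t m) - p (t k)) →
      ∀ l, t l ≠ t k → t l ≠ t (k + 1) →
        0 < σ * cr (p (t (k + 1)) - p (t k)) (p (t l) - p (t k)) := by
    intro σ hσ k m hm1 hm2 hm l hl1 hl2
    have hl0 := star_orient_ne0 hp hs k l hl1 hl2
    by_contra hcon
    push Not at hcon
    rcases hσ with rfl | rfl
    · rw [one_mul] at hm hcon
      exact star_orient_same h hp hs k m l hm1 hm2 hl1 hl2 hm (lt_of_le_of_ne hcon hl0)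
    · have e1 : cr (p (t (k + 1)) - p (t k)) (p (t m) - p (t k)) < 0 := by linarith
      have e2 : 0 ≤ cr (p (t (k + 1)) - p (t k)) (p (t l) - p (t k)) := by linarith
      exact star_orient_same h hp hs k l m hl1 hl2 hm1 hm2 (lt_of_le_of_ne e2 hl0.symm) e1
  have h0 := star_orient_ne0 hp hs 0 2 (hne2 0) (hne1 1)
  obtain ⟨σ, hσ, hσ0⟩ : ∃ σ : ℝ, (σ = 1 ∨ σ = -1) ∧
      0 < σ * cr (p (t (0 + 1)) - p (t 0)) (p (t 2) - p (t 0)) := by
    rcases lt_or_gt_of_ne h0 with h1 | h1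
    · exact ⟨-1, Or.inr rfl, by linarith⟩
    · exact ⟨1, Or.inl rfl, by linarith⟩
  refine ⟨σ, hσ, ?_⟩
  intro k
  induction k with
  | zero => exact htr σ hσ 0 2 (hne2 0) (hne1 1) hσ0
  | succ k ih =>
    have h1 := ih (k + 2) (hne2 k) (hne1 (k + 1))
    refine htr σ hσ (k + 1) k (hne1 k).symm (hne2 k).symm ?_
    have h2 : cr (p (t (k + 1 + 1)) - p (t (k + 1))) (p (t k) - p (t (k + 1))) =
        cr (p (t (k + 1)) - p (t k)) (p (t (k + 2)) - p (t k)) := by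
      show cr (p (t (k + 2)) - p (t (k + 1))) (p (t k) - p (t (k + 1))) = _
      unfold cr
      simp only [Complex.sub_re, Complex.sub_im]
      ring
    rw [h2]
    exact h1

end Pool.Agent.Helper484.DT
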