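import Pool.Agent.Helper484.DT.Defs
import Pool.Agent.Helper484.DT.P_dart_exists
import Pool.Agent.Helper484.DT.P_dart_vertex
import Pool.Agent.Helper484.DT.P_star_exists
import Pool.Agent.Helper484.DT.P_rim_exists
import Pool.Agent.Helper484.DT.P_conn_open
import Pool.Agent.Helper484.DT.P_star_orient
import Pool.Agent.Helper484.DT.P_rim_orient
import Pool.Agent.Helper484.DT.P_corner

set_option autoImplicit false

namespace Pool.Agent.Helper484.DT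
open Set Metric Filter
open scoped Topology


/-- a rim of the tile `i` has the sign `τ` -/
def orient_RS {ι : Type} (T : ι → Set ℂ) (p : ι → ℂ) (i : ι) (τ : ℝ) : Prop :=
  (τ = 1 ∨ τ = -1) ∧ ∃ (m : ℕ) (s : ℕ → ι) (x : ℕ → ℂ), Rim T i m s x ∧
    ∀ k, 0 < τ * cr (p (s k) - p i) (p (s (k + 1)) - p i)

/-- the star has sign `σ` -/
def orient_SS {ι : Type} (p : ι → ℂ) (t : ℕ → ι) (σ : ℝ) : Prop :=
  (σ = 1 ∨ σ = -1) ∧ ∀ k l, t l ≠ t k → t l ≠ t (k + 1) →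
      0 < σ * cr (p (t (k + 1)) - p (t k)) (p (t l) - p (t k))

theorem orient_key {ι : Type} {T : ι → Set ℂ} {u U : ℝ} (h : CT ι T u U) {p : ι → ℂ}
    {v : ℂ} {n : ℕ} {t : ℕ → ι} {r : ℕ → ℂ} (hs : Star T v n t r) {σ τ : ℝ}
    (hσ : orient_SS p t σ) {i : ι} (hτ : orient_RS T p i τ) (hv : v ∈ T i) : σ = τ := by
  obtain ⟨hσ1, hσ2⟩ := hσ
  obtain ⟨hτ1, m, s, x, hr, hτ2⟩ := hτ
  obtain ⟨k0, hk0, hk0i⟩ := (hs.all i).1 hv
  have hn := hs.three
  obtain ⟨k, hk⟩ : ∃ k, k + 1 = k0 + n := ⟨k0 + n - 1, by omega⟩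
  have hki : t (k + 1) = i := by rw [hk, hs.pert, hk0i]
  obtain ⟨l, hl1, hl2, -⟩ := corner h hs hr k hki
  have h1 := hτ2 l
  rw [hl1, hl2, ← hki] at h1
  have hne1 : t k ≠ t (k + 1) := (hs.dart k).1
  have hne2 : t k ≠ t (k + 1 + 1) := by
    intro heq
    have hper : Function.Periodic t n := hs.pert
    have e1 := hper.map_mod_nat k
    have e2 := hper.map_mod_nat (k + 1 + 1)
    have e3 : k % n = (k + 1 + 1) % n := by
      refine hs.inj _ _ (Nat.mod_lt _ (by omega)) (Nat.mod_lt _ (by omega)) ?_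
      rw [e1, e2, heq]
    have e4 : n ∣ (k + 1 + 1) - k := (Nat.modEq_iff_dvd' (by omega)).1 e3
    have e5 : n ∣ 2 := by
      have : (k + 1 + 1) - k = 2 := by omega
      rwa [this] at e4
    have := Nat.le_of_dvd (by norm_num) e5
    omega
  have h2 := hσ2 (k + 1) k hne1 hne2
  have h1' : 0 < τ * cr (p (t (k + 1 + 1)) - p (t (k + 1))) (p (t k) - p (t (k + 1))) := h1
  rcases hσ1 with rfl | rfl <;> rcases hτ1 with rfl | rfl
  · rfl
  · linarith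
  · linarith
  · rfl

theorem orient {ι : Type} {T : ι → Set ℂ} {u U : ℝ} (h : CT ι T u U) {p : ι → ℂ}
    {C δ α : ℝ} (hp : GoodP T p C δ α) : ∃ σ : ℝ, Orient T p σ := by
  have hRS : ∀ i, ∃ τ, orient_RS T p i τ := by
    intro i
    obtain ⟨n, s, x, hr⟩ := rim_exists h i
    obtain ⟨σ, hσ, hσ2⟩ := rim_orient h hp hr
    exact ⟨σ, hσ, n, s, x, hr, hσ2⟩
  have hSS : ∀ v, IsV T v → ∃ (n : ℕ) (t : ℕ → ι) (r : ℕ → ℂ) (σ : ℝ), Star T v n t r ∧
      orient_SS p t σ := by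
    intro v hv
    obtain ⟨n, t, r, hs⟩ := star_exists h v hv
    obtain ⟨σ, hσ, hσ2⟩ := star_orient h hp hs
    exact ⟨n, t, r, σ, hs, hσ, hσ2⟩
  have hadj : ∀ i j R L, Dart T i j R L → ∀ τ τ', orient_RS T p i τ → orient_RS T p j τ' → τ = τ' := by
    intro i j R L hd τ τ' h1 h2
    have hR : R ∈ T i ∩ T j := by
      rw [hd.2.2.1]
      exact left_mem_segment ℝ R L
    obtain ⟨n, t, r, σ, hs, hσ⟩ := hSS R (dart_vertex h hd).1
    rw [← orient_key h hs hσ h1 hR.1, ← orient_key h hs hσ h2 hR.2]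
  have hself : ∀ i τ τ', orient_RS T p i τ → orient_RS T p i τ' → τ = τ' := by
    intro i τ τ' h1 h2
    obtain ⟨n, s, x, hr⟩ := rim_exists h i
    obtain ⟨τ'', h3⟩ := hRS (s 0)
    rw [hadj i (s 0) _ _ (hr.dart 0) τ τ'' h1 h3, hadj i (s 0) _ _ (hr.dart 0) τ' τ'' h2 h3]
  obtain ⟨i0, -⟩ := h.cover 0
  obtain ⟨τ0, hτ0⟩ := hRS i0
  have hTne : ∀ i, (T i ∩ univ).Nonempty := by
    intro i
    obtain ⟨x, hx⟩ := h.ball i
    exact ⟨x, hx (mem_closedBall_self h.upos.le), trivial⟩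
  have hall : ∀ j τ, orient_RS T p j τ → τ = τ0 := by
    intro j
    have hconn := conn_open h univ isOpen_univ convex_univ i0 j (hTne i0) (hTne j)
    induction hconn with
    | refl => intro τ hτ; exact hself i0 τ τ0 hτ hτ0
    | @tail b c _ hbc ih =>
      intro τ hτ
      obtain ⟨τb, hτb⟩ := hRS b
      obtain ⟨R, L, hd⟩ := dart_exists h b c hbc.1
      rw [← hadj b c R L hd τb τ hτb hτ]
      exact ih τb hτb
  refine ⟨τ0, hτ0.1, ?_⟩
  intro v n t r hs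
  obtain ⟨σ, hσ, hσ2⟩ := star_orient h hp hs
  have hn := hs.three
  have hv : v ∈ T (t 0) := (hs.all (t 0)).2 ⟨0, by omega, rfl⟩
  obtain ⟨τ, hτ⟩ := hRS (t 0)
  have e1 := orient_key h hs ⟨hσ, hσ2⟩ hτ hv
  rw [← hall (t 0) τ hτ, ← e1]
  exact hσ2

end Pool.Agent.Helper484.DT
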